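import Pool.Agent.H99.TW.TDefs
import Pool.Agent.H57.NL.Loc
import Pool.Agent.H57.NL.Slice

/-!
# Local images of submanifolds (module TLocSub)

PROOFS.
* `tan_loc`, `tan_loc'`: `Tan.map`-like: if `γ` is a curve in `S` with velocity `v` at `G y`, then `F ∘ γ` is a curve in `T`
  (`fwd`) with velocity `DF v`, and `G ∘ F ∘ γ = γ` near `0` (`fwd`), so `DG (DF v) = v` (uniqueness of the derivative). Same for
  `T` with `bwd`. `F` is differentiable at `G y` (`smooth.self_of_nhds`), `G` at `y`.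
* `locIm_near`: all five conditions are open (`Filter.Eventually.eventually_nhds`, continuity of `G` at `y`; for `y'` near `y`
  in `T`: `G y' ∈ S`, `F (G y') = y'`, and `G y'` is near `G y`).
* `locSub`: let `y ∈ T`, `F`, `G`, `x = G y`; slice chart `e, A` of `S` at `x` (`IsSubmfd.slice`). `c a = F (e.symm a)`, `a ∈ A` near
  `a₀ = e x`; `Dc(a₀)` is injective: for `a ∈ A`, `De.symm a ∈ Tan S x` (`Slice.mem_tan`) and `DG (DF v) = v`. Let `B` be a
  complement of `range Dc(a₀)` in `Y` (`Submodule.exists_isCompl`), `Φ : A × B → Y`, `Φ (a, b) = c a + b`: local diffeomorphism at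
  `(a₀, 0)` (`smooth_inverse` in `H57/NL/Loc.lean`). Let `L : A × B ≃L Y` be the linear isomorphism `(a, b) ↦ Dc(a₀) a + b`
  (continuous, finite dimension). The chart at `y` is `L ∘ Φ⁻¹` restricted to a small open neighbourhood of `y`, the
  subspace is `L (A × 0) = range Dc(a₀)`, of dimension `n`. `y' ∈ T` near `y`: `y' = F (G y')`, `G y' ∈ S` near `x`, so
  `e (G y') ∈ A` and `Φ (e (G y'), 0) = y'`; by injectivity of `Φ`, `Φ⁻¹ y' = (e (G y'), 0)`. Conversely `Φ⁻¹ y' = (a, 0)` gives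
  `y' = F (e.symm a)`, `e.symm a ∈ S` near `x`, so `y' ∈ T` (`fwd`).
  The chart must be an `OpenPartialHomeomorph Y Y` (restrict `Φ.symm` to an open set by `OpenPartialHomeomorph.restrOpen`;
  compose with `L` by `OpenPartialHomeomorph.trans` and `Homeomorph.toOpenPartialHomeomorph` or
  `transHomeomorph`), smooth on source and target: shrink to the open sets where `Φ` and `Φ.symm` are `ContDiffAt`.
-/

set_option autoImplicit false

open scoped ContDiff Topology RealInnerProductSpace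
open Set Filter

namespace Pool.Agent.H99.TW

open Pool.Agent.H57.NL Pool.Agent.H2.TG Pool.Agent.H2.TI

section

variable {X Y : Type} [NormedAddCommGroup X] [NormedSpace ℝ X] [NormedAddCommGroup Y]
  [NormedSpace ℝ Y] {S : Set X} {T : Set Y} {F : X → Y} {G : Y → X} {y : Y}

theorem tan_loc (h : LocIm S T F G y) {v : X} (hv : v ∈ Tan S (G y)) :
    fderiv ℝ F (G y) v ∈ Tan T y ∧ fderiv ℝ G y (fderiv ℝ F (G y) v) = v := by
  have hF : HasFDerivAt F (fderiv ℝ F (G y)) (G y) :=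
    (h.smooth.self_of_nhds.differentiableAt (by simp)).hasFDerivAt
  have hG : HasFDerivAt G (fderiv ℝ G y) y :=
    (h.smooth'.self_of_nhds.differentiableAt (by simp)).hasFDerivAt
  have h1 : fderiv ℝ F (G y) v ∈ Tan T (F (G y)) :=
    Tan.map hv hF (h.fwd.mono fun x hx hS => (hx hS).1)
  rw [h.fg] at h1
  refine ⟨h1, ?_⟩
  obtain ⟨γ, h0, hS, hd⟩ := hv
  have hF' : HasFDerivAt F (fderiv ℝ F (G y)) (γ 0) := by
    rw [h0]
    exact hF
  have k1 : HasDerivAt (F ∘ γ) (fderiv ℝ F (G y) v) 0 := hF'.comp_hasDerivAt (0 : ℝ) hd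
  have hG' : HasFDerivAt G (fderiv ℝ G y) ((F ∘ γ) 0) := by
    rw [Function.comp_apply, h0, h.fg]
    exact hG
  have k2 : HasDerivAt (G ∘ (F ∘ γ)) (fderiv ℝ G y (fderiv ℝ F (G y) v)) 0 :=
    hG'.comp_hasDerivAt (0 : ℝ) k1
  have hc : Tendsto γ (𝓝 0) (𝓝 (G y)) := by
    rw [← h0]
    exact hd.continuousAt
  have k3 : γ =ᶠ[𝓝 0] (G ∘ (F ∘ γ)) := by
    filter_upwards [hc.eventually h.fwd, hS] with s h1 h2
    exact (h1 h2).2.symm
  exact (k2.congr_of_eventuallyEq k3).unique hd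

theorem tan_loc' (h : LocIm S T F G y) {w : Y} (hw : w ∈ Tan T y) :
    fderiv ℝ G y w ∈ Tan S (G y) ∧ fderiv ℝ F (G y) (fderiv ℝ G y w) = w := by
  have hF : HasFDerivAt F (fderiv ℝ F (G y)) (G y) :=
    (h.smooth.self_of_nhds.differentiableAt (by simp)).hasFDerivAt
  have hG : HasFDerivAt G (fderiv ℝ G y) y :=
    (h.smooth'.self_of_nhds.differentiableAt (by simp)).hasFDerivAt
  refine ⟨Tan.map hw hG (h.bwd.mono fun x hx hT => (hx hT).1), ?_⟩
  obtain ⟨γ, h0, hT, hd⟩ := hw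
  have hG' : HasFDerivAt G (fderiv ℝ G y) (γ 0) := by
    rw [h0]
    exact hG
  have k1 : HasDerivAt (G ∘ γ) (fderiv ℝ G y w) 0 := hG'.comp_hasDerivAt (0 : ℝ) hd
  have hF' : HasFDerivAt F (fderiv ℝ F (G y)) ((G ∘ γ) 0) := by
    rw [Function.comp_apply, h0]
    exact hF
  have k2 : HasDerivAt (F ∘ (G ∘ γ)) (fderiv ℝ F (G y) (fderiv ℝ G y w)) 0 :=
    hF'.comp_hasDerivAt (0 : ℝ) k1
  have hc : Tendsto γ (𝓝 0) (𝓝 y) := by
    rw [← h0]
    exact hd.continuousAt
  have k3 : γ =ᶠ[𝓝 0] (F ∘ (G ∘ γ)) := by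
    filter_upwards [hc.eventually h.bwd, hT] with s h1 h2
    exact (h1 h2).2.symm
  exact (k2.congr_of_eventuallyEq k3).unique hd

theorem locIm_near (h : LocIm S T F G y) : ∀ᶠ y' in 𝓝 y, y' ∈ T → LocIm S T F G y' := by
  have hGc : Tendsto G (𝓝 y) (𝓝 (G y)) := h.smooth'.self_of_nhds.continuousAt
  filter_upwards [hGc.eventually h.smooth.eventually_nhds, h.smooth'.eventually_nhds,
    hGc.eventually h.fwd.eventually_nhds, h.bwd.eventually_nhds, h.bwd] with y' h1 h2 h3 h4 h5 hT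
  exact ⟨(h5 hT).1, (h5 hT).2, h1, h2, h3, h4⟩

private theorem locSub_aux {A B : Type} [NormedAddCommGroup A] [NormedSpace ℝ A]
    [NormedAddCommGroup B] [NormedSpace ℝ B] [FiniteDimensional ℝ A] [FiniteDimensional ℝ B]
    [FiniteDimensional ℝ Y] {y : Y} {n : ℕ} (φ : A × B → Y) (a0 : A) (L : (A × B) ≃L[ℝ] Y)
    (hy : φ (a0, 0) = y) (Φ : OpenPartialHomeomorph (A × B) Y) (hΦ : (Φ : A × B → Y) = φ)
    (h0 : (a0, (0 : B)) ∈ Φ.source) (hφ : ∀ᶠ x in 𝓝 (a0, (0 : B)), ContDiffAt ℝ ∞ φ x)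
    (hΦs : ∀ᶠ y' in 𝓝 y, ContDiffAt ℝ ∞ Φ.symm y')
    (hn : Module.finrank ℝ A = n) (hT : ∀ᶠ y' in 𝓝 y, (y' ∈ T ↔ (Φ.symm y').2 = 0)) :
    ∃ (e : OpenPartialHomeomorph Y Y) (A' : Submodule ℝ Y), y ∈ e.source ∧
      ContDiffOn ℝ ∞ e e.source ∧ ContDiffOn ℝ ∞ e.symm e.target ∧ Module.finrank ℝ A' = n ∧
      ∀ y' ∈ e.source, (y' ∈ T ↔ e y' ∈ A') := by
  have hyt : y ∈ Φ.target := by
    rw [← hy, ← hΦ]
    exact Φ.map_source h0
  have hinv : Φ.symm y = (a0, 0) := by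
    rw [← hy, ← hΦ]
    exact Φ.left_inv h0
  have hst : Tendsto Φ.symm (𝓝 y) (𝓝 (a0, (0 : B))) := by
    have := (Φ.continuousAt_symm hyt).tendsto
    rwa [hinv] at this
  have hall : ∀ᶠ y' in 𝓝 y, ContDiffAt ℝ ∞ φ (Φ.symm y') ∧ ContDiffAt ℝ ∞ Φ.symm y' ∧
      (y' ∈ T ↔ (Φ.symm y').2 = 0) := (hst.eventually hφ).and (hΦs.and hT)
  obtain ⟨W, hW, hWo, hyW⟩ := eventually_nhds_iff.1 hall
  let e1 : OpenPartialHomeomorph Y Y := Φ.symm.trans L.toHomeomorph.toOpenPartialHomeomorph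
  let e : OpenPartialHomeomorph Y Y := e1.restrOpen W hWo
  have he1s : e1.source = Φ.target := by
    ext z
    simp [e1]
  have hes : e.source = Φ.target ∩ W := by
    rw [← he1s]
    rfl
  have hea : ∀ z, e z = L (Φ.symm z) := fun z => rfl
  have heas : ∀ z, e.symm z = φ (L.symm z) := by
    intro z
    rw [← hΦ]
    rfl
  let A' : Submodule ℝ Y := (Submodule.prod ⊤ ⊥ : Submodule ℝ (A × B)).map (L : (A × B) →ₗ[ℝ] Y)
  refine ⟨e, A', ?_, ?_, ?_, ?_, ?_⟩
  · rw [hes]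
    exact ⟨hyt, hyW⟩
  · intro z hz
    rw [hes] at hz
    have h1 := (hW z hz.2).2.1
    exact (L.contDiff.contDiffAt.comp z h1).contDiffWithinAt
  · intro z hz
    have h1 : e.symm z ∈ e.source := e.map_target hz
    have h2 := h1
    rw [hes] at h2
    have h3 := (hW _ h2.2).1
    have h4 : Φ.symm (e.symm z) = L.symm z := by
      have h5 := e.right_inv hz
      rw [hea] at h5
      have h8 := congrArg L.symm h5
      rwa [L.symm_apply_apply] at h8
    rw [h4] at h3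
    have h6 : ContDiffAt ℝ ∞ (fun w => φ (L.symm w)) z :=
      ContDiffAt.comp z h3 L.symm.contDiff.contDiffAt
    have h7 : (e.symm : Y → Y) = fun w => φ (L.symm w) := funext heas
    rw [h7]
    exact h6.contDiffWithinAt
  · have h1 : Module.finrank ℝ A' = Module.finrank ℝ (Submodule.prod ⊤ ⊥ : Submodule ℝ (A × B)) :=
      LinearEquiv.finrank_map_eq (L.toLinearEquiv) _
    rw [h1]
    have h2 : (Submodule.prod ⊤ ⊥ : Submodule ℝ (A × B)) = LinearMap.range (LinearMap.inl ℝ A B) := by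
      ext x
      simp [Submodule.mem_prod, LinearMap.mem_range, Prod.ext_iff, eq_comm]
    rw [h2, LinearMap.finrank_range_of_inj LinearMap.inl_injective, hn]
  · intro z hz
    rw [hes] at hz
    rw [(hW z hz.2).2.2, hea]
    constructor
    · intro h1
      exact ⟨Φ.symm z, by simp [h1], rfl⟩
    · rintro ⟨w, hw, hw2⟩
      have h1 : w = Φ.symm z := L.injective hw2
      rw [← h1]
      exact (Submodule.mem_prod.1 hw).2

theorem locSub [FiniteDimensional ℝ X] [FiniteDimensional ℝ Y] {n : ℕ} (hS : IsSubmfd n S)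
    (h : ∀ y ∈ T, ∃ F G, LocIm S T F G y) : IsSubmfd n T := by
  intro y hyT
  obtain ⟨F, G, h⟩ := h y hyT
  obtain ⟨e, A, hxe, hs⟩ := hS.slice h.mem
  have hGc : Tendsto G (𝓝 y) (𝓝 (G y)) := h.smooth'.self_of_nhds.continuousAt
  have ha0m : e (G y) ∈ A := (hs.iff _ hxe).1 h.mem
  set a0 : A := ⟨e (G y), ha0m⟩ with ha0
  have hsymm0 : e.symm (a0 : X) = G y := e.left_inv hxe
  let c : A → Y := fun a => F (e.symm (a : X))
  have hsub : Continuous (fun a : A => (a : X)) := continuous_subtype_val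
  have hsubT : Tendsto (fun a : A => (a : X)) (𝓝 a0) (𝓝 (e (G y))) := hsub.continuousAt
  have htgt : ∀ᶠ a : A in 𝓝 a0, ((a : A) : X) ∈ e.target :=
    hsubT.eventually (e.open_target.mem_nhds (e.map_source hxe))
  have hcs : Tendsto (fun a : A => e.symm (a : X)) (𝓝 a0) (𝓝 (G y)) := by
    have h1 : ContinuousAt e.symm ((a0 : A) : X) := e.continuousAt_symm (e.map_source hxe)
    have h2 : ContinuousAt (fun a : A => e.symm (a : X)) a0 :=
      ContinuousAt.comp h1 hsub.continuousAt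
    have h3 := h2.tendsto
    rwa [hsymm0] at h3
  have hcsm : ∀ᶠ a in 𝓝 a0, ContDiffAt ℝ ∞ c a := by
    filter_upwards [htgt, hcs.eventually h.smooth] with a h1 h2
    have h3 : ContDiffAt ℝ ∞ (fun a : A => (a : X)) a := A.subtypeL.contDiff.contDiffAt
    have h4 : ContDiffAt ℝ ∞ (fun a : A => e.symm (a : X)) a := (hs.cd' h1).comp a h3
    exact ContDiffAt.comp a h2 h4
  have hF : HasFDerivAt F (fderiv ℝ F (G y)) (G y) :=
    (h.smooth.self_of_nhds.differentiableAt (by simp)).hasFDerivAt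
  have hder : HasFDerivAt c ((fderiv ℝ F (G y)).comp ((fderiv ℝ e.symm (e (G y))).comp A.subtypeL)) a0 := by
    have h1 : HasFDerivAt (fun a : A => (a : X)) A.subtypeL a0 := A.subtypeL.hasFDerivAt
    have h2 : HasFDerivAt e.symm (fderiv ℝ e.symm (e (G y))) ((a0 : A) : X) :=
      hs.hd' (e.map_source hxe)
    have h3 := h2.comp a0 h1
    have h4 : HasFDerivAt F (fderiv ℝ F (G y)) (e.symm ((a0 : A) : X)) := by
      rw [hsymm0]
      exact hF
    exact h4.comp a0 h3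
  set D : A →L[ℝ] Y := (fderiv ℝ F (G y)).comp ((fderiv ℝ e.symm (e (G y))).comp A.subtypeL)
    with hD
  have hDinj : Function.Injective D := by
    rw [injective_iff_map_eq_zero]
    intro v hv
    have hwT : fderiv ℝ e.symm (e (G y)) (v : X) ∈ Tan S (G y) := by
      rw [hs.mem_tan hxe h.mem, hs.right hxe]
      exact v.2
    have h1 := (tan_loc h hwT).2
    have h2 : fderiv ℝ F (G y) (fderiv ℝ e.symm (e (G y)) (v : X)) = 0 := hv
    rw [h2, map_zero] at h1
    have h5 : (v : X) = 0 := by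
      rw [← hs.right hxe (v : X), ← h1, map_zero]
    exact Subtype.ext h5
  obtain ⟨B, hB⟩ := Submodule.exists_isCompl (LinearMap.range (D : A →ₗ[ℝ] Y))
  have hrk : Module.finrank ℝ (LinearMap.range (D : A →ₗ[ℝ] Y)) = Module.finrank ℝ A :=
    LinearMap.finrank_range_of_inj hDinj
  have hfr : Module.finrank ℝ (A × B) = Module.finrank ℝ Y := by
    rw [Module.finrank_prod, ← hrk]
    exact Submodule.finrank_add_eq_of_isCompl hB
  let φ : A × B → Y := fun x => c x.1 + (x.2 : Y)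
  let L0 : (A × B) →L[ℝ] Y := D.comp (ContinuousLinearMap.fst ℝ A B) +
    B.subtypeL.comp (ContinuousLinearMap.snd ℝ A B)
  have hL0 : ∀ x, L0 x = D x.1 + (x.2 : Y) := fun x => rfl
  have hL0inj : Function.Injective L0 := by
    rw [injective_iff_map_eq_zero]
    intro x hx
    rw [hL0] at hx
    have h1 : (x.2 : Y) = D (-x.1) := by
      rw [map_neg]
      exact eq_neg_of_add_eq_zero_right hx
    have h2 : (x.2 : Y) ∈ LinearMap.range (D : A →ₗ[ℝ] Y) := ⟨-x.1, h1.symm⟩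
    have h3 : (x.2 : Y) = 0 := (Submodule.disjoint_def.1 hB.disjoint) _ h2 x.2.2
    have h4 : D x.1 = 0 := by
      rw [h3, add_zero] at hx
      exact hx
    have h5 : x.1 = 0 := hDinj (by rw [h4, map_zero])
    exact Prod.ext h5 (Subtype.ext h3)
  let L : (A × B) ≃L[ℝ] Y :=
    (LinearMap.linearEquivOfInjective (L0 : (A × B) →ₗ[ℝ] Y) hL0inj hfr).toContinuousLinearEquiv
  have hφd : HasFDerivAt φ L0 (a0, (0 : B)) := by
    have h1 : HasFDerivAt (fun x : A × B => c x.1) (D.comp (ContinuousLinearMap.fst ℝ A B))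
        (a0, (0 : B)) := by
      have h2 : HasFDerivAt c D ((ContinuousLinearMap.fst ℝ A B) (a0, (0 : B))) := hder
      exact h2.comp (a0, (0 : B)) (ContinuousLinearMap.fst ℝ A B).hasFDerivAt
    have h3 : HasFDerivAt (fun x : A × B => (x.2 : Y))
        (B.subtypeL.comp (ContinuousLinearMap.snd ℝ A B)) (a0, (0 : B)) :=
      (B.subtypeL.comp (ContinuousLinearMap.snd ℝ A B)).hasFDerivAt
    exact h1.add h3
  have hfst : Tendsto (fun x : A × B => x.1) (𝓝 (a0, (0 : B))) (𝓝 a0) := continuous_fst.tendsto _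
  have hφs : ∀ᶠ x in 𝓝 (a0, (0 : B)), ContDiffAt ℝ ∞ φ x := by
    filter_upwards [hfst.eventually hcsm] with x hx
    have h1 : ContDiffAt ℝ ∞ (fun x : A × B => c x.1) x :=
      ContDiffAt.comp (g := c) x hx contDiff_fst.contDiffAt
    have h3 : ContDiffAt ℝ ∞ (fun x : A × B => (x.2 : Y)) x :=
      (B.subtypeL.comp (ContinuousLinearMap.snd ℝ A B)).contDiff.contDiffAt
    exact h1.add h3
  have hφinj : Function.Injective (fderiv ℝ φ (a0, (0 : B))) := by
    rw [hφd.fderiv]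
    exact hL0inj
  obtain ⟨Φ, hΦc, hΦs, hΦd⟩ := smooth_inverse hfr hφs hφinj
  have hφ0 : φ (a0, (0 : B)) = y := by
    change F (e.symm (a0 : X)) + ((0 : B) : Y) = y
    rw [hsymm0, h.fg, Submodule.coe_zero, add_zero]
  rw [hφ0] at hΦd
  have hyt : y ∈ Φ.target := by
    rw [← hφ0, ← hΦc]
    exact Φ.map_source hΦs
  have hinv : Φ.symm y = (a0, 0) := by
    rw [← hφ0, ← hΦc]
    exact Φ.left_inv hΦs
  have hst : Tendsto Φ.symm (𝓝 y) (𝓝 (a0, (0 : B))) := by
    have := (Φ.continuousAt_symm hyt).tendsto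
    rwa [hinv] at this
  have hst1 : Tendsto (fun y' => (Φ.symm y').1) (𝓝 y) (𝓝 a0) := hfst.comp hst
  have hT : ∀ᶠ y' in 𝓝 y, (y' ∈ T ↔ (Φ.symm y').2 = 0) := by
    have hUo : IsOpen ((fun a : A => (a, (0 : B))) ⁻¹' Φ.source) :=
      Φ.open_source.preimage (by fun_prop)
    obtain ⟨W0, hW0, hW0'⟩ := isOpen_induced_iff.1 hUo
    have hW : e (G y) ∈ W0 := by
      have : a0 ∈ (Subtype.val ⁻¹' W0 : Set A) := by
        rw [hW0']
        exact hΦs
      exact this
    have ev1 : ∀ᶠ y' in 𝓝 y, e (G y') ∈ W0 :=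
      ((e.continuousAt hxe).tendsto.comp hGc).eventually (hW0.mem_nhds hW)
    have ev2 : ∀ᶠ y' in 𝓝 y, G y' ∈ e.source := hGc.eventually (e.open_source.mem_nhds hxe)
    filter_upwards [ev1, ev2, h.bwd, Φ.open_target.mem_nhds hyt, hst1.eventually htgt,
      hst1.eventually (hcs.eventually h.fwd)] with y' h1 h2 h3 h4 h5 h6
    constructor
    · intro hy'
      obtain ⟨k1, k2⟩ := h3 hy'
      have k3 : e (G y') ∈ A := (hs.iff _ h2).1 k1
      have k4 : ((⟨e (G y'), k3⟩ : A), (0 : B)) ∈ Φ.source := by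
        have : (⟨e (G y'), k3⟩ : A) ∈ (fun a : A => (a, (0 : B))) ⁻¹' Φ.source := by
          rw [← hW0']
          exact h1
        exact this
      have k5 : Φ ((⟨e (G y'), k3⟩ : A), (0 : B)) = y' := by
        rw [hΦc]
        change F (e.symm (e (G y'))) + ((0 : B) : Y) = y'
        rw [e.left_inv h2, k2, Submodule.coe_zero, add_zero]
      rw [← k5, Φ.left_inv k4]
    · intro hy'
      have k1 : Φ (Φ.symm y') = y' := Φ.right_inv h4
      rw [hΦc] at k1
      have k2 : φ (Φ.symm y') = F (e.symm ((Φ.symm y').1 : X)) := by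
        change F (e.symm ((Φ.symm y').1 : X)) + ((Φ.symm y').2 : Y) = _
        rw [hy', Submodule.coe_zero, add_zero]
      have k3 : e.symm ((Φ.symm y').1 : X) ∈ S := by
        rw [hs.iff _ (e.map_target h5), e.right_inv h5]
        exact ((Φ.symm y').1).2
      rw [← k1, k2]
      exact (h6 k3).1
  exact locSub_aux φ a0 L hφ0 Φ hΦc hΦs hφs hΦd hs.fr hT

end

end Pool.Agent.H99.TW
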