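import Pool.Agent.H99.TW.TDefs
import Pool.Agent.H2.TI.STN

/-!
# Exact maps preserve the symplectic form, local form (module TOm)

Copy the proof of `om_pres` and of its private lemma `stn_curl` in `H2/TI/STN.lean`, with two dimensions (`P1 Q1 : V → E k`,
`P0 Q0 : V → E m`) and with conditions near the point only.
-/

set_option autoImplicit false

open scoped ContDiff Topology RealInnerProductSpace
open Set Filter

namespace Pool.Agent.H99.TW

open Pool.Agent.H57.NL Pool.Agent.H2.TG Pool.Agent.H2.TI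

section Curl

variable {V : Type} [NormedAddCommGroup V] [NormedSpace ℝ V]

private theorem tOm_second {W : Type} [NormedAddCommGroup W] [NormedSpace ℝ W] {g : V → W}
    {x : V} (hg : ContDiffAt ℝ ∞ g x) (h : V) : HasFDerivAt (fun y => fderiv ℝ g y h)
      ((ContinuousLinearMap.apply ℝ W h).comp (fderiv ℝ (fderiv ℝ g) x)) x := by
  have h1 : ContDiffAt ℝ ∞ (fderiv ℝ g) x := hg.fderiv_right (by simp)
  have h2 : HasFDerivAt (fderiv ℝ g) (fderiv ℝ (fderiv ℝ g) x) x :=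
    (h1.differentiableAt (by simp)).hasFDerivAt
  exact (ContinuousLinearMap.apply ℝ W h).hasFDerivAt.comp x h2

private theorem tOm_sym {W : Type} [NormedAddCommGroup W] [NormedSpace ℝ W] {g : V → W}
    {x : V} (hg : ContDiffAt ℝ ∞ g x) (a b : V) :
    fderiv ℝ (fderiv ℝ g) x a b = fderiv ℝ (fderiv ℝ g) x b a := by
  have h6 : ContDiffAt ℝ 2 g x := contDiffAt_infty.1 hg 2
  exact (h6.isSymmSndFDerivAt (by simp)) a b

private theorem tOm_line {F : V → ℝ} {L : V →L[ℝ] ℝ} (hF : HasFDerivAt F L 0) {k : V}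
    (h : ∀ᶠ s in 𝓝 (0 : ℝ), F (s • k) = 0) : L k = 0 := by
  have h1 : HasDerivAt (fun s : ℝ => s • k) k 0 := by
    simpa using (hasDerivAt_id (0 : ℝ)).smul_const k
  have h2 : HasFDerivAt F L ((fun s : ℝ => s • k) 0) := by
    simpa using hF
  have h3 := h2.comp_hasDerivAt (0 : ℝ) h1
  have h4 : (F ∘ fun s : ℝ => s • k) =ᶠ[𝓝 0] fun _ => (0 : ℝ) := h
  exact (h4.hasDerivAt_iff.1 h3).unique (hasDerivAt_const _ _)

/-- the identity of one forms along `A` gives the identity of the differentials -/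
private theorem tOm_curl {m' k' : ℕ} {P1 Q1 : V → E k'} {P0 Q0 : V → E m'} {g : V → ℝ}
    (hP1 : ContDiffAt ℝ ∞ P1 0) (hQ1 : ContDiffAt ℝ ∞ Q1 0) (hP0 : ContDiffAt ℝ ∞ P0 0)
    (hQ0 : ContDiffAt ℝ ∞ Q0 0) (hg : ContDiffAt ℝ ∞ g 0) (A : Submodule ℝ V)
    (h : ∀ᶠ y in 𝓝 (0 : V), y ∈ A → ∀ a ∈ A,
      ⟪P1 y, fderiv ℝ Q1 y a⟫ = ⟪P0 y, fderiv ℝ Q0 y a⟫ + fderiv ℝ g y a) {a b : V}
    (ha : a ∈ A) (hb : b ∈ A) :
    ⟪fderiv ℝ P1 0 b, fderiv ℝ Q1 0 a⟫ - ⟪fderiv ℝ P1 0 a, fderiv ℝ Q1 0 b⟫ =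
      ⟪fderiv ℝ P0 0 b, fderiv ℝ Q0 0 a⟫ - ⟪fderiv ℝ P0 0 a, fderiv ℝ Q0 0 b⟫ := by
  have key : ∀ a ∈ A, ∀ b ∈ A,
      ⟪P1 0, fderiv ℝ (fderiv ℝ Q1) 0 b a⟫ + ⟪fderiv ℝ P1 0 b, fderiv ℝ Q1 0 a⟫ =
        (⟪P0 0, fderiv ℝ (fderiv ℝ Q0) 0 b a⟫ + ⟪fderiv ℝ P0 0 b, fderiv ℝ Q0 0 a⟫) +
          fderiv ℝ (fderiv ℝ g) 0 b a := by
    intro a ha b hb
    have d1 := ((hP1.differentiableAt (by simp)).hasFDerivAt).inner ℝ (tOm_second hQ1 a)
    have d0 := ((hP0.differentiableAt (by simp)).hasFDerivAt).inner ℝ (tOm_second hQ0 a)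
    have dg := tOm_second hg a
    have hL := (d1.sub (d0.add dg))
    have h2 : ∀ᶠ s in 𝓝 (0 : ℝ), ((fun y => ⟪P1 y, fderiv ℝ Q1 y a⟫) -
        ((fun y => ⟪P0 y, fderiv ℝ Q0 y a⟫) + fun y => fderiv ℝ g y a)) (s • b) = 0 := by
      have h3 : Tendsto (fun s : ℝ => s • b) (𝓝 0) (𝓝 0) := by
        have : Continuous fun s : ℝ => s • b := by fun_prop
        simpa using this.tendsto 0
      filter_upwards [h3.eventually h] with s hs
      have h4 := hs (A.smul_mem s hb) a ha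
      simp only [Pi.sub_apply, Pi.add_apply]
      rw [h4, sub_self]
    have h5 := tOm_line hL h2
    simp only [sub_apply, add_apply,
      ContinuousLinearMap.comp_apply, fderivInnerCLM_apply, ContinuousLinearMap.prod_apply,
      ContinuousLinearMap.apply_apply] at h5
    linarith
  have k1 := key a ha b hb
  have k2 := key b hb a ha
  rw [tOm_sym hQ1 b a, tOm_sym hQ0 b a, tOm_sym hg b a] at k1
  linarith

end Curl

theorem om_loc {m k d : ℕ} {T : Set (E m × E m)} (hT : IsSubmfd d T)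
    {ψ : E m × E m → E k × E k} {g : E m × E m → ℝ} {z : E m × E m} (hz : z ∈ T)
    (hψ : ∀ᶠ y in 𝓝 z, ContDiffAt ℝ ∞ ψ y) (hg : ∀ᶠ y in 𝓝 z, ContDiffAt ℝ ∞ g y)
    (hex : ∀ᶠ y in 𝓝 z, y ∈ T → ∀ ζ ∈ Tan T y,
      ⟪(ψ y).2, (fderiv ℝ ψ y ζ).1⟫ = ⟪y.2, ζ.1⟫ + fderiv ℝ g y ζ)
    {v w : E m × E m} (hv : v ∈ Tan T z) (hw : w ∈ Tan T z) :
    om (fderiv ℝ ψ z v) (fderiv ℝ ψ z w) = om v w := by
  obtain ⟨e, A, hx, hs⟩ := hT.slice hz
  obtain ⟨c, hc⟩ : ∃ c : E m × E m → E m × E m, c = fun y => e.symm (e z + y) := ⟨_, rfl⟩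
  have hc0 : c 0 = z := by rw [hc]; simp only [add_zero]; exact e.left_inv hx
  have hO : ∀ᶠ y in 𝓝 (0 : E m × E m), e z + y ∈ e.target := by
    have h1 : Tendsto (fun y : E m × E m => e z + y) (𝓝 0) (𝓝 (e z)) := by
      have : Continuous fun y : E m × E m => e z + y := by fun_prop
      simpa using this.tendsto 0
    exact h1.eventually (e.open_target.mem_nhds (e.map_source hx))
  have hcs : ∀ y, e z + y ∈ e.target → ContDiffAt ℝ ∞ c y := by
    intro y hy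
    rw [hc]
    exact (hs.cd' hy).comp y (contDiff_const.add contDiff_id).contDiffAt
  have hcd : ∀ y, e z + y ∈ e.target → ∀ a, fderiv ℝ c y a = fderiv ℝ e.symm (e z + y) a := by
    intro y hy a
    have h1 : HasFDerivAt (fun y : E m × E m => e z + y) (ContinuousLinearMap.id ℝ _) y :=
      (hasFDerivAt_id y).const_add (e z)
    have h2 := (hs.hd' hy).comp y h1
    rw [ContinuousLinearMap.comp_id] at h2
    have h3 : (e.symm ∘ fun y : E m × E m => e z + y) = c := by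
      rw [hc]
      rfl
    rw [h3] at h2
    rw [h2.fderiv]
  have heA : e z ∈ A := (hs.iff _ hx).1 hz
  have hcT : ∀ y, e z + y ∈ e.target → y ∈ A → c y ∈ T := by
    intro y hy hyA
    have h1 : c y ∈ e.source := by rw [hc]; exact e.map_target hy
    rw [hs.iff _ h1, hc]
    simp only
    rw [e.right_inv hy]
    exact A.add_mem heA hyA
  have hct : ∀ y, e z + y ∈ e.target → y ∈ A → ∀ a ∈ A, fderiv ℝ c y a ∈ Tan T (c y) := by
    intro y hy hyA a ha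
    have h1 : c y ∈ e.source := by rw [hc]; exact e.map_target hy
    have h2 : e (c y) = e z + y := by rw [hc]; exact e.right_inv hy
    rw [hs.mem_tan h1 (hcT y hy hyA), hcd y hy, ← h2, hs.right h1]
    exact ha
  have ht0 : e z + 0 ∈ e.target := by rw [add_zero]; exact e.map_source hx
  have c0 := hcs 0 ht0
  have hall := hψ.and (hg.and hex)
  have hct0 : Tendsto c (𝓝 0) (𝓝 z) := by
    have := c0.continuousAt.tendsto
    rwa [hc0] at this
  have hc' : ∀ᶠ y in 𝓝 (0 : E m × E m), ContDiffAt ℝ ∞ ψ (c y) ∧ ContDiffAt ℝ ∞ g (c y) ∧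
      (c y ∈ T → ∀ ζ ∈ Tan T (c y), ⟪(ψ (c y)).2, (fderiv ℝ ψ (c y) ζ).1⟫ =
        ⟪(c y).2, ζ.1⟫ + fderiv ℝ g (c y) ζ) := hct0.eventually hall
  obtain ⟨hψ0, hg0, -⟩ := hc'.self_of_nhds
  have hψc : ContDiffAt ℝ ∞ (fun y => ψ (c y)) 0 := ContDiffAt.comp 0 hψ0 c0
  have hGc : ContDiffAt ℝ ∞ (fun y => g (c y)) 0 := ContDiffAt.comp 0 hg0 c0
  have dc : ∀ y, e z + y ∈ e.target → HasFDerivAt c (fderiv ℝ c y) y := fun y hy =>
    ((hcs y hy).differentiableAt (by simp)).hasFDerivAt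
  have dψ : ∀ x, ContDiffAt ℝ ∞ ψ x → HasFDerivAt ψ (fderiv ℝ ψ x) x := fun x h =>
    (h.differentiableAt (by simp)).hasFDerivAt
  have dG : ∀ x, ContDiffAt ℝ ∞ g x → HasFDerivAt g (fderiv ℝ g x) x := fun x h =>
    (h.differentiableAt (by simp)).hasFDerivAt
  have e1 : ∀ y, e z + y ∈ e.target → ContDiffAt ℝ ∞ ψ (c y) → ∀ a,
      fderiv ℝ (fun y => (ψ (c y)).1) y a = (fderiv ℝ ψ (c y) (fderiv ℝ c y a)).1 := by
    intro y hy hyψ a
    have h1 : HasFDerivAt (fun y => ψ (c y)) ((fderiv ℝ ψ (c y)).comp (fderiv ℝ c y)) y :=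
      (dψ (c y) hyψ).comp y (dc y hy)
    rw [h1.fst.fderiv]
    rfl
  have e2 : ∀ y, e z + y ∈ e.target → ContDiffAt ℝ ∞ ψ (c y) → ∀ a,
      fderiv ℝ (fun y => (ψ (c y)).2) y a = (fderiv ℝ ψ (c y) (fderiv ℝ c y a)).2 := by
    intro y hy hyψ a
    have h1 : HasFDerivAt (fun y => ψ (c y)) ((fderiv ℝ ψ (c y)).comp (fderiv ℝ c y)) y :=
      (dψ (c y) hyψ).comp y (dc y hy)
    rw [h1.snd.fderiv]
    rfl
  have e3 : ∀ y, e z + y ∈ e.target → ∀ a,
      fderiv ℝ (fun y => (c y).1) y a = (fderiv ℝ c y a).1 := by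
    intro y hy a
    rw [(dc y hy).fst.fderiv]
    rfl
  have e4 : ∀ y, e z + y ∈ e.target → ∀ a,
      fderiv ℝ (fun y => (c y).2) y a = (fderiv ℝ c y a).2 := by
    intro y hy a
    rw [(dc y hy).snd.fderiv]
    rfl
  have e5 : ∀ y, e z + y ∈ e.target → ContDiffAt ℝ ∞ g (c y) → ∀ a,
      fderiv ℝ (fun y => g (c y)) y a = fderiv ℝ g (c y) (fderiv ℝ c y a) := by
    intro y hy hgy a
    have h1 : HasFDerivAt (fun y => g (c y)) ((fderiv ℝ g (c y)).comp (fderiv ℝ c y)) y :=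
      (dG (c y) hgy).comp y (dc y hy)
    rw [h1.fderiv]
    rfl
  have hcurl := tOm_curl (P1 := fun y => (ψ (c y)).2) (Q1 := fun y => (ψ (c y)).1)
    (P0 := fun y => (c y).2) (Q0 := fun y => (c y).1) (g := fun y => g (c y)) hψc.snd hψc.fst
    c0.snd c0.fst hGc A (by
      filter_upwards [hO, hc'] with y hy hy' hyA a ha
      obtain ⟨y1, y2, y3⟩ := hy'
      rw [e1 y hy y1, e3 y hy, e5 y hy y2]
      exact y3 (hcT y hy hyA) _ (hct y hy hyA a ha))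
    ((hs.mem_tan hx hz v).1 hv) ((hs.mem_tan hx hz w).1 hw)
  have hcv : ∀ u, fderiv ℝ c 0 (fderiv ℝ e z u) = u := by
    intro u
    rw [hcd 0 ht0, add_zero, hs.left hx]
  rw [e1 0 ht0 hψ0, e1 0 ht0 hψ0, e2 0 ht0 hψ0, e2 0 ht0 hψ0, e3 0 ht0, e3 0 ht0, e4 0 ht0, e4 0 ht0, hcv, hcv,
    hc0] at hcurl
  unfold om
  linarith

end Pool.Agent.H99.TW
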