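import Pool.Agent.H99.TW.TDefs
import Pool.Agent.H57.NL.Slice
import Pool.Agent.H57.NL.MaxPair

/-!
# Primitives from derivatives (module TPrimOf)

PROOF of `prim_of`. `h y = f y - ⟪z.2, y.1⟫` has the derivative `L - ⟪z.2, ·.1⟫` within `S` at `z`, which is zero on `Tan S z`.
So `h y - h z = o(y - z)` on `S`: this is the private lemma `slag_o` in `H2/TI/SLag.lean` for a function differentiable in the
ambient space; here only `HasFDerivWithinAt f L S z`. Slice chart `e, A` at `z`: for `y ∈ S` near `z`, `e y - e z ∈ A`, so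
`y - z = De.symm(e z) (e y - e z) + o`, the vector `De.symm(e z) (e y - e z)` is in `Tan S z` and its norm is `O(y - z)`; the
linear form `L - ⟪z.2, ·.1⟫` vanishes on it, so `(L - ⟪z.2, ·.1⟫) (y - z) = o(y - z)` on `S`. Together with
`hf : f y - f z - L (y - z) = o(y - z)` this gives the claim.
-/

set_option autoImplicit false

open scoped ContDiff Topology RealInnerProductSpace
open Set Filter

namespace Pool.Agent.H99.TW

open Pool.Agent.H57.NL Pool.Agent.H2.TG Pool.Agent.H2.TI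

theorem prim_of {m d : ℕ} {S : Set (E m × E m)} (hS : IsSubmfd d S) {f : E m × E m → ℝ}
    {z : E m × E m} (hz : z ∈ S) {L : (E m × E m) →L[ℝ] ℝ} (hf : HasFDerivWithinAt f L S z)
    (hL : ∀ ζ ∈ Tan S z, L ζ = ⟪z.2, ζ.1⟫) :
    (fun y => f y - f z - ⟪z.2, y.1 - z.1⟫) =o[𝓝[S] z] (fun y => y - z) := by
  obtain ⟨e, B, hxe, hs⟩ := hS.slice hz
  have h1 : (fun y => f y - f z - L (y - z)) =o[𝓝[S] z] (fun y => y - z) :=
    hasFDerivWithinAt_iff_isLittleO.1 hf
  have h2 : HasFDerivAt e (fderiv ℝ e z) z := hs.hd hxe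
  have h3 : (fun y => e y - e z - fderiv ℝ e z (y - z)) =o[𝓝[S] z] (fun y => y - z) :=
    (hasFDerivAt_iff_isLittleO.1 h2).mono nhdsWithin_le_nhds
  obtain ⟨L', hL'⟩ : ∃ L' : (E m × E m) →L[ℝ] ℝ, ∀ v, L' v = L v - ⟪z.2, v.1⟫ :=
    ⟨L - (innerSL ℝ z.2).comp (ContinuousLinearMap.fst ℝ (E m) (E m)), fun v => rfl⟩
  have h4 : (fun y => L' (fderiv ℝ e.symm (e z) (e y - e z - fderiv ℝ e z (y - z))))
      =o[𝓝[S] z] (fun y => y - z) := by
    have h5 : (fun y => (L' ∘L fderiv ℝ e.symm (e z)) (e y - e z - fderiv ℝ e z (y - z)))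
      =O[𝓝[S] z] (fun y => e y - e z - fderiv ℝ e z (y - z)) :=
      (L' ∘L fderiv ℝ e.symm (e z)).isBigO_comp _ _
    exact h5.trans_isLittleO h3
  have h6 : ∀ᶠ y in 𝓝[S] z, L' (fderiv ℝ e.symm (e z) (e y - e z - fderiv ℝ e z (y - z))) =
      - L' (y - z) := by
    have hsrc : ∀ᶠ y in 𝓝[S] z, y ∈ e.source :=
      nhdsWithin_le_nhds (e.open_source.mem_nhds hxe)
    filter_upwards [hsrc, self_mem_nhdsWithin] with y hz1 hz2
    have h7 : e y - e z ∈ B := B.sub_mem ((hs.iff _ hz1).1 hz2) ((hs.iff _ hxe).1 hz)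
    have h8 : fderiv ℝ e.symm (e z) (e y - e z) ∈ Tan S z := by
      rw [hs.mem_tan hxe hz, hs.right hxe]
      exact h7
    have h0 : L' (fderiv ℝ e.symm (e z) (e y - e z)) = 0 := by
      rw [hL', hL _ h8, sub_self]
    rw [map_sub, map_sub, h0, hs.left hxe, zero_sub]
  have h9 : (fun y => - L' (y - z)) =o[𝓝[S] z] (fun y => y - z) :=
    h4.congr' h6 (Eventually.of_forall fun _ => rfl)
  refine (h1.sub h9).congr_left fun y => ?_
  rw [hL']
  change f y - f z - L (y - z) - -(L (y - z) - ⟪z.2, y.1 - z.1⟫) = _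
  ring

end Pool.Agent.H99.TW
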