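import Pool.Agent.H99.TW.TLocSub
import Pool.Agent.H99.TW.TOm
import Pool.Agent.H99.TW.TPrimOf
import Pool.Agent.H2.TI.STN

/-!
# Exact diffeomorphisms (module TExL)

PROOFS.
* `exactL_symp`: `maps`, …: fields. `smooth`: `loc`. `equiv`: `Γ = ⊥`, `tr 0 = id`. `symp`: let `z ∈ TN N`, `O, F, g` from `loc`; `Push (TN N) ψ z v (DF(z) v)`: for a curve `γ` in `TN N` with velocity `v`, `ψ ∘ γ = F ∘ γ` near `0`, `HasFDerivAt F`.
  `om (DF v) (DF w) = om v w`: `om_loc` with `T = TN N` (`TN_submfd`).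
* `symp_symm`: `smooth`/`smooth'` are exchanged. `symp` at `z`: let `z' = ψ' z`, let `F'` be the local representative of `ψ'` at `z`. For `v ∈ Tan (TN N) z`: `v' = DF'(z) v`, `Push (TN N) ψ' z v v'`, `v' ∈ Tan (TN N) z'` (curves). By `h.symp` at `z'` for `v', w'`: there are `v'', w''` with
  `Push ψ z' v' v''`, `om v'' w'' = om v' w'`; applied to the curve `ψ' ∘ γ` (velocity `v'`): `ψ ∘ ψ' ∘ γ = γ` has velocity `v''`, so `v'' = v`.
* `exactL_lag`: `ne, subTN, inv, finv`: clear. `closed`, `bdd`: `S` is compact (`compactS` in `H2/TI/NReg.lean`), `ψ` is continuous on `TN N` (`loc`), so `ψ '' S` is compact. `sub`: `locSub`: at `ψ z₀`, `F` = representative of `ψ` at `z₀`, `G` = representative of `ψ'` at `ψ z₀`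
  (`LocIm S (ψ '' S) F G (ψ z₀)`; continuity of the representatives). `lag`: `w ∈ Tan (ψ '' S) (ψ z₀)` is `DF v`, `v ∈ Tan S z₀` (`tan_loc'`), and `om (DF v) (DF v') = om v v' = 0` (`om_loc`, `Tan S ⊆ Tan (TN N)`). `prim`: `f' z = f (ψ' z) + G (ψ' z)`; `prim_of` with the derivative of `f'` within `ψ '' S` at `ψ z₀`:
  `(liou z₀ + Dg(z₀)) ∘ DG'` (`hL.exact`, `G = g` on `TN N ∩ O`), which on `w = DF v` is `⟪z₀.2, v.1⟫ + Dg v = ⟪(ψ z₀).2, w.1⟫`.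
-/

set_option autoImplicit false

open scoped ContDiff Topology RealInnerProductSpace
open Set Filter

namespace Pool.Agent.H99.TW

open Pool.Agent.H57.NL Pool.Agent.H2.TG Pool.Agent.H2.TI

variable {m n : ℕ} {N : Set (E m)} {S : Set (E m × E m)} {f : E m × E m → ℝ}
  {ψ ψ' : E m × E m → E m × E m} {G : E m × E m → ℝ}

private theorem exl_mono {V : Type*} [NormedAddCommGroup V] [NormedSpace ℝ V] {S T : Set V} (h : S ⊆ T) {x v : V}
    (hv : v ∈ Tan S x) : v ∈ Tan T x := by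
  obtain ⟨γ, h0, hS, hd⟩ := hv
  exact ⟨γ, h0, hS.mono fun s hs => h hs, hd⟩

private theorem exl_push {T O : Set (E m × E m)} {ψ F : E m × E m → E m × E m} (hO : IsOpen O) {z : E m × E m}
    (hz : z ∈ O) (heq : ∀ y ∈ O ∩ T, ψ y = F y) (hzT : z ∈ T) (hF : DifferentiableAt ℝ F z) (v : E m × E m) :
    Push T ψ z v (fderiv ℝ F z v) := by
  intro γ h0 hS hd
  subst h0
  have h1 : HasDerivAt (F ∘ γ) (fderiv ℝ F (γ 0) v) 0 := hF.hasFDerivAt.comp_hasDerivAt (0 : ℝ) hd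
  refine h1.congr_of_eventuallyEq ?_
  have hc : Tendsto γ (𝓝 0) (𝓝 (γ 0)) := hd.continuousAt
  filter_upwards [hc.eventually (hO.mem_nhds hz), hS] with s h2 h3
  exact heq _ ⟨h2, h3⟩

private theorem exl_symp_inv {T : Set (E m × E m)} {z v : E m × E m} (hv : v ∈ Tan T z)
    {F : E m × E m → E m × E m} {O : Set (E m × E m)} (hO : IsOpen O) (hz : z ∈ O) (hzT : z ∈ T)
    (hm : ∀ y ∈ T, ψ' y ∈ T) (heq : ∀ y ∈ O ∩ T, ψ' y = F y) (hr : ∀ y ∈ T, ψ (ψ' y) = y)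
    (hF : DifferentiableAt ℝ F z) {v'' : E m × E m} (hp : Push T ψ (ψ' z) (fderiv ℝ F z v) v'') : v'' = v := by
  obtain ⟨γ, h0, hS, hd⟩ := hv
  have h1 := exl_push hO hz heq hzT hF v γ h0 hS hd
  have h2 := hp (ψ' ∘ γ) (by rw [Function.comp, h0]) (hS.mono fun s hs => hm _ hs) h1
  have h3 : HasDerivAt γ v'' 0 := by
    refine h2.congr_of_eventuallyEq ?_
    filter_upwards [hS] with s hs
    exact (hr _ hs).symm
  exact h3.unique hd

theorem exactL_symp (h : ExactL N ψ ψ' G) (hN : IsSubmfd n N) : SympDiffeo N ⊥ ψ ψ' where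
  maps := h.maps
  maps' := h.maps'
  left := h.left
  right := h.right
  smooth := by
    intro x hx
    obtain ⟨O, F, g, hO, hxO, hF, hg, heq, hex⟩ := h.loc x hx
    exact ⟨F, O, hO, hxO, hF, fun y hy => (heq y hy).1⟩
  smooth' := h.smooth'
  equiv := by
    intro g hg z _
    rw [AddSubgroup.mem_bot] at hg
    subst hg
    simp [tr]
  symp := by
    intro z hz v hv w hw
    obtain ⟨O, F, g, hO, hzO, hF, hg, heq, hex⟩ := h.loc z hz
    have hFd : ∀ᶠ y in 𝓝 z, ContDiffAt ℝ ∞ F y := by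
      filter_upwards [hO.mem_nhds hzO] with y hy
      exact hF.contDiffAt (hO.mem_nhds hy)
    have hgd : ∀ᶠ y in 𝓝 z, ContDiffAt ℝ ∞ g y := by
      filter_upwards [hO.mem_nhds hzO] with y hy
      exact hg.contDiffAt (hO.mem_nhds hy)
    have hd : DifferentiableAt ℝ F z := hFd.self_of_nhds.differentiableAt (by simp)
    refine ⟨fderiv ℝ F z v, fderiv ℝ F z w, exl_push hO hzO (fun y hy => (heq y hy).1) hz hd v,
      exl_push hO hzO (fun y hy => (heq y hy).1) hz hd w, ?_⟩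
    refine om_loc (TN_submfd hN) hz hFd hgd ?_ hv hw
    filter_upwards [hO.mem_nhds hzO] with y hy hyT ζ hζ
    exact hex y ⟨hy, hyT⟩ ζ hζ

theorem symp_symm (h : SympDiffeo N ⊥ ψ ψ') (hN : IsSubmfd n N) : SympDiffeo N ⊥ ψ' ψ where
  maps := h.maps'
  maps' := h.maps
  left := h.right
  right := h.left
  smooth := h.smooth'
  smooth' := h.smooth
  equiv := by
    intro g hg z _
    rw [AddSubgroup.mem_bot] at hg
    subst hg
    simp [tr]
  symp := by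
    intro z hz v hv w hw
    obtain ⟨F, O, hO, hzO, hF, heq⟩ := h.smooth' z hz
    have hd : DifferentiableAt ℝ F z := (hF.contDiffAt (hO.mem_nhds hzO)).differentiableAt (by simp)
    have hz' : ψ' z ∈ TN N := h.maps' z hz
    have hFz : F z = ψ' z := (heq z ⟨hzO, hz⟩).symm
    have hTan : ∀ u ∈ Tan (TN N) z, fderiv ℝ F z u ∈ Tan (TN N) (ψ' z) := by
      intro u hu
      rw [← hFz]
      refine Tan.map hu hd.hasFDerivAt ?_
      filter_upwards [hO.mem_nhds hzO] with y hy hyT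
      rw [← heq y ⟨hy, hyT⟩]
      exact h.maps' y hyT
    obtain ⟨v'', w'', h1, h2, h3⟩ := h.symp (ψ' z) hz' _ (hTan v hv) _ (hTan w hw)
    have e1 := exl_symp_inv hv hO hzO hz h.maps' heq h.right hd h1
    have e2 := exl_symp_inv hw hO hzO hz h.maps' heq h.right hd h2
    rw [e1, e2] at h3
    exact ⟨fderiv ℝ F z v, fderiv ℝ F z w, exl_push hO hzO heq hz hd v, exl_push hO hzO heq hz hd w, h3.symm⟩

private theorem exl_locIm (h : ExactL N ψ ψ' G) (hS : S ⊆ TN N) {z₀ : E m × E m} (hz : z₀ ∈ S) :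
    ∃ (O : Set (E m × E m)) (F F' : E m × E m → E m × E m) (g : E m × E m → ℝ),
      IsOpen O ∧ z₀ ∈ O ∧ ContDiffOn ℝ ∞ F O ∧ ContDiffOn ℝ ∞ g O ∧
      (∀ z ∈ O ∩ TN N, ψ z = F z ∧ G z = g z) ∧
      (∀ z ∈ O ∩ TN N, ∀ ζ ∈ Tan (TN N) z,
        ⟪(F z).2, (fderiv ℝ F z ζ).1⟫ = ⟪z.2, ζ.1⟫ + fderiv ℝ g z ζ) ∧
      (∀ᶠ y in 𝓝 (ψ z₀), y ∈ TN N → ψ' y = F' y ∧ F' y ∈ O) ∧ F' (ψ z₀) = z₀ ∧
      LocIm S (ψ '' S) F F' (ψ z₀) := by
  obtain ⟨O, F, g, hO, hzO, hF, hg, heq, hex⟩ := h.loc z₀ (hS hz)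
  have hy : ψ z₀ ∈ TN N := h.maps _ (hS hz)
  obtain ⟨F', O', hO', hyO', hF', heq'⟩ := h.smooth' (ψ z₀) hy
  have e1 : F' (ψ z₀) = z₀ := by
    rw [← heq' _ ⟨hyO', hy⟩, h.left _ (hS hz)]
  have e2 : F z₀ = ψ z₀ := (heq _ ⟨hzO, hS hz⟩).1.symm
  have hFc : ContDiffAt ℝ ∞ F z₀ := hF.contDiffAt (hO.mem_nhds hzO)
  have hFc' : ContDiffAt ℝ ∞ F' (ψ z₀) := hF'.contDiffAt (hO'.mem_nhds hyO')
  have t1 : ∀ᶠ x in 𝓝 z₀, F x ∈ O' := by
    refine hFc.continuousAt.eventually (hO'.mem_nhds ?_)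
    rw [e2]
    exact hyO'
  have t2 : ∀ᶠ y in 𝓝 (ψ z₀), F' y ∈ O := by
    refine hFc'.continuousAt.eventually (hO.mem_nhds ?_)
    rw [e1]
    exact hzO
  refine ⟨O, F, F', g, hO, hzO, hF, hg, heq, hex, ?_, e1, ?_⟩
  · filter_upwards [t2, hO'.mem_nhds hyO'] with y k1 k2 k3
    exact ⟨heq' y ⟨k2, k3⟩, k1⟩
  · refine ⟨by rw [e1]; exact hz, by rw [e1, e2], ?_, ?_, ?_, ?_⟩
    · rw [e1]
      filter_upwards [hO.mem_nhds hzO] with x hx
      exact hF.contDiffAt (hO.mem_nhds hx)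
    · filter_upwards [hO'.mem_nhds hyO'] with x hx
      exact hF'.contDiffAt (hO'.mem_nhds hx)
    · rw [e1]
      filter_upwards [hO.mem_nhds hzO, t1] with x hx hx' hxS
      have k1 : ψ x = F x := (heq x ⟨hx, hS hxS⟩).1
      refine ⟨⟨x, hxS, k1⟩, ?_⟩
      rw [← heq' _ ⟨hx', by rw [← k1]; exact h.maps _ (hS hxS)⟩, ← k1, h.left _ (hS hxS)]
    · filter_upwards [t2, hO'.mem_nhds hyO'] with y k1 k2 k3
      obtain ⟨x, hxS, rfl⟩ := k3
      have k4 : F' (ψ x) = x := by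
        rw [← heq' _ ⟨k2, h.maps _ (hS hxS)⟩, h.left _ (hS hxS)]
      rw [k4] at k1 ⊢
      exact ⟨hxS, (heq x ⟨k1, hS hxS⟩).1.symm⟩

theorem exactL_lag (h : ExactL N ψ ψ' G) (hN : IsSubmfd n N) (hc : IsCompact N)
    (hL : ExactLag n N ⊥ S f) : ∃ f', ExactLag n N ⊥ (ψ '' S) f' := by
  have hS := hL.subTN
  have hSc : IsCompact S := by
    obtain ⟨K, hK⟩ := hL.bdd
    refine (hc.prod (isCompact_closedBall (0 : E m) K)).of_isClosed_subset hL.closed ?_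
    intro z hz
    exact ⟨(hS hz).1, mem_closedBall_zero_iff.2 (hK z hz)⟩
  have hcont : ContinuousOn ψ S := by
    intro z hz
    obtain ⟨O, F, g, hO, hzO, hF, hg, heq, hex⟩ := h.loc z (hS hz)
    have k1 : ContinuousWithinAt F S z := (hF.contDiffAt (hO.mem_nhds hzO)).continuousAt.continuousWithinAt
    refine k1.congr_of_eventuallyEq ?_ (heq z ⟨hzO, hS hz⟩).1
    filter_upwards [mem_nhdsWithin_of_mem_nhds (hO.mem_nhds hzO), self_mem_nhdsWithin] with y k2 k3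
    exact (heq y ⟨k2, hS k3⟩).1
  have hIc : IsCompact (ψ '' S) := hSc.image_of_continuousOn hcont
  have hsub : IsSubmfd n (ψ '' S) := by
    refine locSub hL.sub ?_
    rintro y ⟨z₀, hz, rfl⟩
    obtain ⟨O, F, F', g, _, _, _, _, _, _, _, _, hLI⟩ := exl_locIm h hS hz
    exact ⟨F, F', hLI⟩
  refine ⟨fun z => f (ψ' z) + G (ψ' z), ?_⟩
  refine ⟨hL.ne.image ψ, hsub, hIc.isClosed, ?_, ?_, ?_, ?_, ?_, ?_⟩
  · rintro y ⟨z, hz, rfl⟩
    exact h.maps _ (hS hz)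
  · intro g hg z hz
    rw [AddSubgroup.mem_bot] at hg
    subst hg
    simpa [tr] using hz
  · obtain ⟨R, hR⟩ := hIc.isBounded.exists_norm_le
    exact ⟨R, fun z hz => (norm_snd_le z).trans (hR z hz)⟩
  · rintro y ⟨z₀, hz, rfl⟩ v hv w hw
    obtain ⟨O, F, F', g, hO, hzO, hF, hg, heq, hex, hev, e1, hLI⟩ := exl_locIm h hS hz
    obtain ⟨v1, v2⟩ := tan_loc' hLI hv
    obtain ⟨w1, w2⟩ := tan_loc' hLI hw
    rw [e1] at v1 v2 w1 w2
    have hFd : ∀ᶠ y in 𝓝 z₀, ContDiffAt ℝ ∞ F y := by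
      filter_upwards [hO.mem_nhds hzO] with y hy
      exact hF.contDiffAt (hO.mem_nhds hy)
    have hgd : ∀ᶠ y in 𝓝 z₀, ContDiffAt ℝ ∞ g y := by
      filter_upwards [hO.mem_nhds hzO] with y hy
      exact hg.contDiffAt (hO.mem_nhds hy)
    have k := om_loc (TN_submfd hN) (hS hz) hFd hgd (by
      filter_upwards [hO.mem_nhds hzO] with y hy hyT ζ hζ
      exact hex y ⟨hy, hyT⟩ ζ hζ) (exl_mono hS v1) (exl_mono hS w1)
    rw [v2, w2] at k
    rw [k]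
    exact hL.lag z₀ hz _ v1 _ w1
  · rintro y ⟨z₀, hz, rfl⟩
    obtain ⟨O, F, F', g, hO, hzO, hF, hg, heq, hex, hev, e1, hLI⟩ := exl_locIm h hS hz
    have hgd : DifferentiableAt ℝ g z₀ := (hg.contDiffAt (hO.mem_nhds hzO)).differentiableAt (by simp)
    have hF'd : DifferentiableAt ℝ F' (ψ z₀) := hLI.smooth'.self_of_nhds.differentiableAt (by simp)
    have k1 : HasFDerivWithinAt (fun z => f z + g z) (liou z₀ + fderiv ℝ g z₀) S (F' (ψ z₀)) := by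
      rw [e1]
      exact (hL.exact z₀ hz).add hgd.hasFDerivAt.hasFDerivWithinAt
    obtain ⟨U, hU, hUo, hyU⟩ := mem_nhds_iff.1 (hLI.bwd.and hev)
    have k2 : HasFDerivWithinAt ((fun z => f z + g z) ∘ F') ((liou z₀ + fderiv ℝ g z₀).comp (fderiv ℝ F' (ψ z₀)))
        (ψ '' S ∩ U) (ψ z₀) := by
      refine k1.comp (ψ z₀) hF'd.hasFDerivAt.hasFDerivWithinAt ?_
      rintro x ⟨hx1, hx2⟩
      exact ((hU hx2).1 hx1).1
    have k3 : HasFDerivWithinAt (fun z => f (ψ' z) + G (ψ' z))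
        ((liou z₀ + fderiv ℝ g z₀).comp (fderiv ℝ F' (ψ z₀))) (ψ '' S ∩ U) (ψ z₀) := by
      have k4 : ∀ x ∈ ψ '' S ∩ U, f (ψ' x) + G (ψ' x) = ((fun z => f z + g z) ∘ F') x := by
        rintro x ⟨hx1, hx2⟩
        obtain ⟨z, hzS, rfl⟩ := hx1
        have hxT : ψ z ∈ TN N := h.maps _ (hS hzS)
        obtain ⟨j1, j2⟩ := (hU hx2).2 hxT
        have j3 : F' (ψ z) = z := by
          rw [← j1, h.left _ (hS hzS)]
        show f (ψ' (ψ z)) + G (ψ' (ψ z)) = f (F' (ψ z)) + g (F' (ψ z))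
        rw [j1, j3]
        rw [j3] at j2
        rw [(heq z ⟨j2, hS hzS⟩).2]
      exact k2.congr k4 (k4 _ ⟨⟨z₀, hz, rfl⟩, hyU⟩)
    have k5 : HasFDerivWithinAt (fun z => f (ψ' z) + G (ψ' z))
        ((liou z₀ + fderiv ℝ g z₀).comp (fderiv ℝ F' (ψ z₀))) (ψ '' S) (ψ z₀) :=
      (hasFDerivWithinAt_inter (hUo.mem_nhds hyU)).1 k3
    refine prim_of hsub ⟨z₀, hz, rfl⟩ k5 ?_
    intro ζ hζ
    obtain ⟨v1, v2⟩ := tan_loc' hLI hζ
    rw [e1] at v1 v2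
    have k6 := hex z₀ ⟨hzO, hS hz⟩ _ (exl_mono hS v1)
    rw [v2, ← (heq z₀ ⟨hzO, hS hz⟩).1] at k6
    rw [ContinuousLinearMap.comp_apply, ContinuousLinearMap.add_apply, liou_apply, k6]
  · intro g hg z _
    rw [AddSubgroup.mem_bot] at hg
    subst hg
    simp [tr]

end Pool.Agent.H99.TW
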