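import Pool.Agent.H2.TI.NDefs

/-!
# Leaf analysis over a compact invariant set

`N` is a compact subset of `ℝ^m`, invariant under the flow `R` of the bounded smooth vector field `V`; it need not be a
submanifold and need not be connected.
-/

set_option autoImplicit false

open scoped ContDiff Topology RealInnerProductSpace
open Set Filter

namespace Pool.Agent.H99.TW

open Pool.Agent.H57.NL Pool.Agent.H2.TG Pool.Agent.H2.TI

variable {m : ℕ}

/-- The base: compact set, bounded smooth vector field, its flow, invariance. -/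
structure BaseK (N : Set (E m)) (V : E m → E m) (R : ℝ → E m → E m) : Prop where
  cpt : IsCompact N
  smooth : ContDiff ℝ ∞ V
  bdd : ∃ K : ℝ, ∀ x, ‖V x‖ ≤ K
  flow : IsFlow V R
  maps : ∀ q ∈ N, ∀ t, R t q ∈ N

/-- All data of the leaf analysis. -/
structure LeafK (N : Set (E m)) (V : E m → E m) (R : ℝ → E m → E m)
    (C : Set (E m × ℝ)) (M : ℝ) (κ : (E m × ℝ) × ℝ → ℝ)
    (Λ : ℝ → (E m × ℝ) × ℝ → (E m × ℝ) × ℝ) (F : E m × ℝ → ℝ) : Prop where
  base : BaseK N V R
  red : RedN N V C M
  curv : CurvN N V C κ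
  flow : IsFlow (LFN V κ) Λ
  prim : PrimN N V C F

end Pool.Agent.H99.TW
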