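import Pool.Agent.H99.TW.KDefs
import Pool.Agent.H2.TG.Flow
import Pool.Agent.H57.NL.Slice

/-!
# Copy of `H2/TI/NBase` for a compact invariant set `N` (helper2 and module owners)
-/

set_option autoImplicit false

open scoped ContDiff Topology RealInnerProductSpace
open Set Filter

namespace Pool.Agent.H99.TW

open Pool.Agent.H57.NL Pool.Agent.H2.TG Pool.Agent.H2.TI

variable {m n : ℕ} {N : Set (E m)} {V : E m → E m} {R : ℝ → E m → E m}

theorem reparam (hB : BaseK N V R) {γ : ℝ → E m} {k : ℝ → ℝ} {ε : ℝ}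
    (hk : ContinuousOn k (Ioo (-ε) ε)) (hγ : ∀ t, |t| < ε → HasDerivAt γ (k t • V (γ t)) t) {t : ℝ}
    (ht : |t| < ε) : γ t = R (∫ u in (0 : ℝ)..t, k u) (γ 0) := by
  have hε : 0 < ε := lt_of_le_of_lt (abs_nonneg t) ht
  set κ : ℝ → ℝ := fun s => ∫ u in (0 : ℝ)..s, k u with hκ
  have hκd : ∀ s, |s| < ε → HasDerivAt κ (k s) s := by
    intro s hs
    have hs' : s ∈ Ioo (-ε) ε := abs_lt.mp hs
    have hsub : uIcc 0 s ⊆ Ioo (-ε) ε := by
      intro x hx
      rw [mem_uIcc] at hx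
      rcases hx with ⟨h1, h2⟩ | ⟨h1, h2⟩
      · exact ⟨by linarith, by linarith [hs'.2]⟩
      · exact ⟨by linarith [hs'.1], by linarith⟩
    refine intervalIntegral.integral_hasDerivAt_right ((hk.mono hsub).intervalIntegrable) ?_
      (hk.continuousAt (isOpen_Ioo.mem_nhds hs'))
    exact hk.stronglyMeasurableAtFilter isOpen_Ioo s hs'
  have hd : ∀ s, |s| < ε → HasDerivAt (fun s => R (-κ s) (γ s)) 0 s := by
    intro s hs
    have h1 : HasDerivAt (fun s => ((-κ s, γ s) : ℝ × E m)) (-k s, k s • V (γ s)) s :=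
      (hκd s hs).neg.prodMk (hγ s hs)
    have hdiff : DifferentiableAt ℝ (fun y : ℝ × E m => R y.1 y.2) (-κ s, γ s) :=
      (hB.flow.smooth.differentiable (by simp)) _
    have h2 := hdiff.hasFDerivAt.comp_hasDerivAt s h1
    have h3 : fderiv ℝ (fun y : ℝ × E m => R y.1 y.2) (-κ s, γ s) (1, 0)
        = V (R (-κ s) (γ s)) := by
      have h4 : HasDerivAt (fun u : ℝ => ((u, γ s) : ℝ × E m)) (1, 0) (-κ s) :=
        (hasDerivAt_id _).prodMk (hasDerivAt_const _ _)
      have h5 := HasFDerivAt.comp_hasDerivAt (-κ s) (f := fun u : ℝ => ((u, γ s) : ℝ × E m))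
        hdiff.hasFDerivAt h4
      exact h5.unique (hB.flow.deriv (γ s) (-κ s))
    have h6 : fderiv ℝ (fun y : ℝ × E m => R y.1 y.2) (-κ s, γ s) (0, V (γ s))
        = V (R (-κ s) (γ s)) := by
      have h4 : HasFDerivAt (fun y : E m => ((-κ s, y) : ℝ × E m))
          (ContinuousLinearMap.inr ℝ ℝ (E m)) (γ s) := hasFDerivAt_prodMk_right _ _
      have h5 := HasFDerivAt.comp (γ s) (f := fun y : E m => ((-κ s, y) : ℝ × E m))
        hdiff.hasFDerivAt h4
      have h7 := congrArg (fun L : E m →L[ℝ] E m => L (V (γ s))) h5.fderiv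
      simp only [ContinuousLinearMap.comp_apply, ContinuousLinearMap.inr_apply] at h7
      rw [← h7]
      exact hB.flow.fderiv_X hB.smooth (-κ s) (γ s)
    have h8 : ((-k s, k s • V (γ s)) : ℝ × E m)
        = (-k s) • ((1, 0) : ℝ × E m) + k s • ((0, V (γ s)) : ℝ × E m) := by
      ext i <;> simp
    rw [h8, map_add, map_smul, map_smul, h3, h6] at h2
    have h9 : -k s • V (R (-κ s) (γ s)) + k s • V (R (-κ s) (γ s)) = 0 := by
      rw [neg_smul, neg_add_cancel]
    rw [h9] at h2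
    exact h2
  have hconst := isOpen_Ioo.is_const_of_deriv_eq_zero (f := fun s => R (-κ s) (γ s))
    (isPreconnected_Ioo (a := -ε) (b := ε))
    (fun s hs => (hd s (abs_lt.mpr hs)).differentiableAt.differentiableWithinAt)
    (fun s hs => (hd s (abs_lt.mpr hs)).deriv) (abs_lt.mp ht)
    (show (0 : ℝ) ∈ Ioo (-ε) ε from ⟨by linarith, hε⟩)
  have hκ0 : κ 0 = 0 := by
    rw [hκ]
    simp
  simp only [hκ0, neg_zero, hB.flow.zero] at hconst
  rw [← hconst, hB.flow.add hB.smooth, add_neg_cancel, hB.flow.zero]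

theorem R_add (hB : BaseK N V R) (s t : ℝ) (q : E m) : R s (R t q) = R (s + t) q :=
  hB.flow.add hB.smooth s t q

theorem R_zero (hB : BaseK N V R) (q : E m) : R 0 q = q := hB.flow.zero q

theorem R_mem_iff (hB : BaseK N V R) (t : ℝ) (q : E m) : R t q ∈ N ↔ q ∈ N := by
  refine ⟨fun h => ?_, fun h => hB.maps q h t⟩
  have h1 := hB.maps _ h (-t)
  rwa [R_add hB, neg_add_cancel, R_zero hB] at h1

end Pool.Agent.H99.TW
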