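import Pool.Agent.H99.TW.KNCurvA
import Pool.Agent.H2.TG.Glue

/-!
# Copy of `H2/TI/NCurvB` for a compact invariant set `N` (helper2 and module owners)
-/

set_option autoImplicit false

open scoped ContDiff Topology RealInnerProductSpace
open Set

namespace Pool.Agent.H99.TW

open Pool.Agent.H57.NL Pool.Agent.H2.TG Pool.Agent.H2.TI

variable {m n : ℕ} {N : Set (E m)} {V : E m → E m} {R : ℝ → E m → E m} {C : Set (E m × ℝ)}
  {M : ℝ}

private theorem NCurvB_local (hB : BaseK N V R) (hR : RedN N V C M) (x : (E m × ℝ) × ℝ) :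
    ∃ W : Set ((E m × ℝ) × ℝ), IsOpen W ∧ x ∈ W ∧ ∃ g : (E m × ℝ) × ℝ → ℝ, ContDiffOn ℝ ∞ g W ∧
      ∀ y ∈ W, y ∈ PSN N V C → cvN N V C y (g y) := by
  by_cases hx : x ∈ PSN N V C
  · obtain ⟨W, u, hxW, hC⟩ := hR.loc x.1 hx.1
    obtain ⟨W₁, ϑ, hW₁, hxW₁, hC₁, hϑ, hϑx⟩ := exists_phaseN hB.smooth hC hxW (hx.2 W u hxW hC)
    have hopen : IsOpen {y : (E m × ℝ) × ℝ | y.1 ∈ W₁} := hC₁.isOpen.preimage continuous_fst
    refine ⟨{y | y.1 ∈ W₁}, hopen, hxW₁,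
      fun y => fderiv ℝ ϑ y.1 (Real.cos y.2 • V y.1.1, Real.sin y.2), ?_, ?_⟩
    · have h1 : ContDiffOn ℝ ∞ (fun y : E m × ℝ => fderiv ℝ ϑ y) W₁ :=
        hϑ.smooth.fderiv_of_isOpen hC₁.isOpen (by simp)
      have h2 : ContDiffOn ℝ ∞ (fun y : (E m × ℝ) × ℝ => fderiv ℝ ϑ y.1) {y | y.1 ∈ W₁} :=
        h1.comp contDiff_fst.contDiffOn fun y hy => hy
      have h3 : ContDiffOn ℝ ∞ (fun y : (E m × ℝ) × ℝ => (Real.cos y.2 • V y.1.1, Real.sin y.2))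
          {y | y.1 ∈ W₁} := by
        refine ContDiff.contDiffOn ?_
        exact (((Real.contDiff_cos.comp contDiff_snd).smul
          (hB.smooth.comp (contDiff_fst.comp contDiff_fst)))).prodMk
          (Real.contDiff_sin.comp contDiff_snd)
      exact h2.clm_apply h3
    · intro y hyW hyPS
      have hyW' : y.1 ∈ W₁ := hyW
      have h1 : (y.1, ϑ y.1) ∈ PSN N V C :=
        (mem_PSN hB hR.sub hC₁ (x := (y.1, ϑ y.1)) hyPS.1 hyW').2 (hϑ.tang y.1 hyW')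
      obtain ⟨j, hj⟩ := PSN_unique hB hR (y := y.1) (φ := y.2) (ψ := ϑ y.1) hyPS h1
      exact cvN_of hB hR hC₁ hϑ hyPS.1 hyW' hj
  · exact ⟨(PSN N V C)ᶜ, (PSN_closed hB hR).isOpen_compl, hx, fun _ => 0, contDiffOn_const,
      fun y hy hy' => absurd hy' hy⟩

private theorem NCurvB_global (hB : BaseK N V R) (hR : RedN N V C M) :
    ∃ κ : (E m × ℝ) × ℝ → ℝ, ContDiff ℝ ∞ κ ∧ ∀ x ∈ PSN N V C, cvN N V C x (κ x) := by
  obtain ⟨κ₀, hκ₀, hκ₀'⟩ := exists_glue (V := (E m × ℝ) × ℝ)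
    (fun x => {k | x ∈ PSN N V C → cvN N V C x k})
    (by
      intro x k hk k' hk' a b ha hb hab hx
      have h1 : k = k' := cvN_unique hB hR hx (hk hx) (hk' hx)
      have h2 : a • k + b • k' = k := by
        rw [← h1, smul_eq_mul, smul_eq_mul, ← add_mul, hab, one_mul]
      rw [h2]
      exact hk hx)
    (by
      intro x
      obtain ⟨W, hW, hxW, g, hg, hg'⟩ := NCurvB_local hB hR x
      exact ⟨W, hW, hxW, g, hg, fun y hy => hg' y hy⟩)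
  exact ⟨κ₀, hκ₀, fun x hx => hκ₀' x hx⟩

private theorem NCurvB_bound (hB : BaseK N V R) (hR : RedN N V C M) {κ : (E m × ℝ) × ℝ → ℝ}
    (hκ : ContDiff ℝ ∞ κ) (hc : ∀ x ∈ PSN N V C, cvN N V C x (κ x)) :
    ∃ K : ℝ, ∀ x ∈ PSN N V C, |κ x| ≤ K := by
  have hcomp := PSN_compact hB hR (2 * Real.pi)
  obtain ⟨K, hK⟩ := hcomp.exists_bound_of_continuousOn (f := κ) hκ.continuous.continuousOn
  refine ⟨K, fun x hx => ?_⟩
  obtain ⟨j, hj⟩ : ∃ j : ℤ, |x.2 + ((2 * j : ℤ) : ℝ) * Real.pi| ≤ 2 * Real.pi := by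
    refine ⟨-⌊x.2 / (2 * Real.pi)⌋, ?_⟩
    have hp : 0 < 2 * Real.pi := by positivity
    have h1 := Int.floor_le (x.2 / (2 * Real.pi))
    have h2 := (Int.lt_floor_add_one (x.2 / (2 * Real.pi))).le
    rw [le_div_iff₀ hp] at h1
    rw [div_le_iff₀ hp] at h2
    push_cast
    rw [abs_le]
    constructor <;> linarith
  have hx'' := PSN_pi hB hR hx (2 * j)
  have h3 := cvN_pi hB hR hx (hc _ hx) (2 * j)
  have h4 : ((-1 : ℝ)) ^ (2 * j) = 1 := Even.neg_one_zpow ⟨j, by ring⟩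
  rw [h4, one_mul] at h3
  have h5 := cvN_unique hB hR hx'' (hc _ hx'') h3
  have h6 := hK _ ⟨hx'', hj⟩
  rw [Real.norm_eq_abs] at h6
  rw [← h5]
  exact h6

theorem exists_curvN (hB : BaseK N V R) (hR : RedN N V C M) : ∃ κ, CurvN N V C κ := by
  obtain ⟨κ₁, hs, hc⟩ := NCurvB_global hB hR
  obtain ⟨K, hK⟩ := NCurvB_bound hB hR hs hc
  have hK0 : 0 ≤ |K| := abs_nonneg K
  let χ : ContDiffBump (0 : ℝ) := ⟨|K| + 1, |K| + 2, by positivity, by linarith⟩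
  have hχs : ContDiff ℝ ∞ (χ : ℝ → ℝ) := χ.contDiff
  refine ⟨fun x => χ (κ₁ x) * κ₁ x, ⟨?_, ⟨|K| + 2, ?_⟩, ?_⟩⟩
  · exact (hχs.comp hs).mul hs
  · intro x
    rcases le_total (|K| + 2) |κ₁ x| with h | h
    · have h0 : χ (κ₁ x) = 0 := χ.zero_of_le_dist (by
        rw [dist_zero_right, Real.norm_eq_abs]
        exact h)
      rw [h0, zero_mul, abs_zero]
      linarith
    · rw [abs_mul, abs_of_nonneg χ.nonneg]
      calc χ (κ₁ x) * |κ₁ x| ≤ 1 * |κ₁ x| := mul_le_mul_of_nonneg_right χ.le_one (abs_nonneg _)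
        _ ≤ |K| + 2 := by linarith
  · intro x hx W u ϑ hxW hC hϑ k hk
    have h1 : χ (κ₁ x) = 1 := χ.one_of_mem_closedBall (by
      rw [mem_closedBall_zero_iff, Real.norm_eq_abs]
      have h2 := hK x hx
      have h3 := le_abs_self K
      show |κ₁ x| ≤ |K| + 1
      linarith)
    show χ (κ₁ x) * κ₁ x = _
    rw [h1, one_mul]
    exact hc x hx W u ϑ hxW hC hϑ k hk

end Pool.Agent.H99.TW
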