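import Pool.Agent.H99.TW.KNTheta
import Pool.Agent.H99.TW.KNXFlow
import Pool.Agent.H2.TI.PGate
import Pool.Agent.H2.TI.PTopE

/-!
# Copy of `H2/TI/NCurve` for a compact invariant set `N` (helper2 and module owners)
-/

set_option autoImplicit false

open scoped ContDiff Topology RealInnerProductSpace
open Set Filter

namespace Pool.Agent.H99.TW

open Pool.Agent.H57.NL Pool.Agent.H2.TG Pool.Agent.H2.TI

variable {m n : ℕ} {N : Set (E m)} {V : E m → E m} {R : ℝ → E m → E m} {C : Set (E m × ℝ)}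
  {M : ℝ} {κ : (E m × ℝ) × ℝ → ℝ} {Λ : ℝ → (E m × ℝ) × ℝ → (E m × ℝ) × ℝ} {F : E m × ℝ → ℝ}
  {Θ : E m × ℝ → ℝ}

private theorem ncurve_lip {g g' : ℝ → ℝ} (hg : ∀ s, HasDerivAt g (g' s) s) (h1 : ∀ s, |g' s| ≤ 1)
    (s u : ℝ) : |g u - g s| ≤ |u - s| := by
  have h := Convex.norm_image_sub_le_of_norm_hasDerivWithin_le (f := g) (f' := g') (C := 1)
    (s := univ) (x := s) (y := u) (fun x _ => (hg x).hasDerivWithinAt)
    (fun x _ => by rw [Real.norm_eq_abs]; exact h1 x) convex_univ (mem_univ _) (mem_univ _)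
  rw [one_mul, Real.norm_eq_abs, Real.norm_eq_abs] at h
  exact h

private theorem ncurve_steps {g : ℝ → ℝ} {P : ℝ} (hg : ∀ s s', s + P ≤ s' → g s + 1 < g s') :
    ∀ (k : ℕ) (s u : ℝ), s + ((k : ℝ) + 1) * P ≤ u → g s + ((k : ℝ) + 1) < g u := by
  intro k
  induction k with
  | zero =>
    intro s u h
    have h1 := hg s u (by
      rw [Nat.cast_zero, zero_add, one_mul] at h
      exact h)
    rw [Nat.cast_zero, zero_add]
    exact h1
  | succ k ih =>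
    intro s u h
    have h1 := hg s (s + P) le_rfl
    have h2 := ih (s + P) u (by
      push_cast at h
      linarith)
    push_cast
    linarith

private theorem ncurve_between {g g' : ℝ → ℝ} {P M : ℝ} {k : ℕ} (hM : 0 < M) (hP : 0 < P)
    (hg : ∀ s, HasDerivAt g (g' s) s) (h1 : ∀ s, |g' s| ≤ 1)
    (hst : ∀ s s', s + P ≤ s' → g s + 1 < g s') (hk : 160 * M + P + 1 ≤ k) {s u : ℝ}
    (h : |g u - (g s + 80 * M + P + 1)| ≤ 80 * M) : s ≤ u ∧ u ≤ s + ((k : ℝ) + 1) * P := by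
  obtain ⟨h2, h3⟩ := abs_le.1 h
  constructor
  · by_contra hc
    push Not at hc
    by_cases h4 : u + P ≤ s
    · have h5 := hst u s h4
      linarith
    · have h5 := ncurve_lip hg h1 s u
      rw [abs_sub_comm u s, abs_of_pos (show 0 < s - u by linarith)] at h5
      have h6 := (abs_le.1 h5).2
      linarith
  · by_contra hc
    push Not at hc
    have h4 := ncurve_steps hst k s u hc.le
    linarith

private theorem ncurve_closed (hB : BaseK N V R) (hR : RedN N V C M) (q : E m) :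
    IsClosed (Cq R C q) := by
  have h1 : Continuous fun w : ℝ × ℝ => ((R w.1 q, w.2) : E m × ℝ) := by
    have h2 : Continuous fun z : ℝ × E m => R z.1 z.2 := hB.flow.smooth.continuous
    exact (h2.comp (continuous_fst.prodMk continuous_const)).prodMk continuous_snd
  exact hR.closed.preimage h1

private theorem ncurve_top (hB : BaseK N V R) {q : E m} {a : ℝ × ℝ} (ha : a ∈ Cq R C q)
    (hmax : ∀ w ∈ Cq R C q,
      w.2 ≤ a.2 + 1 / 20 * |w.1 - a.1| + (1 / 20) ^ 2 / (8 * M) * (w.1 - a.1) ^ 2)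
    {x : ℝ × ℝ} (hx : |x.1 - a.1| ≤ x.2 - a.2) : (R x.1 q, x.2) ∈ ZUp R C M := by
  refine ⟨a.1 - x.1, a.2, ⟨?_, ?_⟩, ?_⟩
  · show (R (a.1 - x.1) (R x.1 q), a.2) ∈ C
    rw [R_add hB, sub_add_cancel]
    exact ha
  · intro w hw
    have hw' : (R w.1 (R (a.1 - x.1) (R x.1 q)), w.2) ∈ C := hw
    have e1 : w.1 + (a.1 - x.1) + x.1 = w.1 + a.1 := by ring
    rw [R_add hB, R_add hB, e1] at hw'
    have h1 := hmax (w.1 + a.1, w.2) hw'
    have h2 : w.1 + a.1 - a.1 = w.1 := by ring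
    simp only [h2] at h1
    exact h1
  · show a.2 + |a.1 - x.1| ≤ x.2
    rw [abs_sub_comm]
    linarith

private theorem ncurve_bot (hB : BaseK N V R) {q : E m} {a : ℝ × ℝ} (ha : a ∈ Cq R C q)
    (hmin : ∀ w ∈ Cq R C q,
      a.2 - 1 / 20 * |w.1 - a.1| - (1 / 20) ^ 2 / (8 * M) * (w.1 - a.1) ^ 2 ≤ w.2)
    {x : ℝ × ℝ} (hx : |x.1 - a.1| ≤ a.2 - x.2) : (R x.1 q, x.2) ∈ ZDn R C M := by
  refine ⟨a.1 - x.1, a.2, ⟨?_, ?_⟩, ?_⟩
  · show (R (a.1 - x.1) (R x.1 q), a.2) ∈ C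
    rw [R_add hB, sub_add_cancel]
    exact ha
  · intro w hw
    have hw' : (R w.1 (R (a.1 - x.1) (R x.1 q)), w.2) ∈ C := hw
    have e1 : w.1 + (a.1 - x.1) + x.1 = w.1 + a.1 := by ring
    rw [R_add hB, R_add hB, e1] at hw'
    have h1 := hmin (w.1 + a.1, w.2) hw'
    have h2 : w.1 + a.1 - a.1 = w.1 := by ring
    simp only [h2] at h1
    exact h1
  · show x.2 ≤ a.2 - |a.1 - x.1|
    rw [abs_sub_comm]
    linarith

theorem exists_pcurveN (h : LeafK N V R C M κ Λ F)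
    (hfull : ∀ q ∈ N, ∃ r : ℝ, (q, r) ∈ C) (hΘ : PhaseI Θ (M + 1))
    (hC : ∀ x ∈ RPN N V C Λ, Θ x.1 = x.2) (hZ : ∀ y ∈ ZUp R C M ∪ ZDn R C M, |Θ y| ≤ 1 / 5) :
    ∃ P' : ℝ, ∀ q ∈ N, ∀ (K : ℝ) (Ψq : ℝ → ℝ × ℝ → ℝ × ℝ), PPhase (onP R Θ q) (M + 1) K →
      IsFlow (PX (onP R Θ q) 1) Ψq →
        ∃ c, PCurve (onP R Θ q) (M + 1) (2 * (M + 1)) P' c Ψq := by
  have hB := h.base
  have hR := h.red
  have hM := hR.hM
  obtain ⟨P, hP, hRP⟩ := RP_lift h
  obtain ⟨k, hk⟩ := exists_nat_ge (160 * M + P + 1)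
  refine ⟨((k : ℝ) + 1) * P, fun q hq K Ψq hPP hF => ?_⟩
  obtain ⟨r₀, hr₀⟩ := hfull q hq
  obtain ⟨φ₀, hx⟩ := RP_exists h hr₀
  obtain ⟨x, hxd⟩ : ∃ x : (E m × ℝ) × ℝ, x = ((q, r₀), φ₀) := ⟨_, rfl⟩
  rw [← hxd] at hx
  have hxq : x.1.1 = q := by rw [hxd]
  have hall : ∀ s, Λ s x ∈ RPN N V C Λ := fun s => RP_flow h hx s
  have hpt : ∀ s, (R (pc Λ x 0 s).1 q, (pc Λ x 0 s).2) = (Λ s x).1 := by
    intro s
    have h1 := leafN_q hB h.flow x s
    rw [hxq] at h1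
    refine Prod.ext ?_ rfl
    show R (0 + tl Λ x s) q = (Λ s x).1.1
    rw [zero_add, h1]
  have hθ : ∀ s, onP R Θ q (pc Λ x 0 s) = (Λ s x).2 := by
    intro s
    show Θ (R (pc Λ x 0 s).1 q, (pc Λ x 0 s).2) = (Λ s x).2
    rw [hpt]
    exact hC _ (hall s)
  have hbd : ∀ s, |(pc Λ x 0 s).2| < M := fun s => hR.bdd _ (hall s).1.1
  have hg : ∀ s, HasDerivAt (fun s => (pc Λ x 0 s).1) (Real.cos (Λ s x).2) s :=
    fun s => (tl_deriv h.flow x s).const_add 0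
  have hst : ∀ s s', s + P ≤ s' → (pc Λ x 0 s).1 + 1 < (pc Λ x 0 s').1 := by
    intro s s' hs
    have h1 := (hRP x hx).2 s s' hs
    show 0 + tl Λ x s + 1 < 0 + tl Λ x s'
    linarith
  have hCb : ∀ w ∈ Cq R C q, |w.2| < M := fun w hw => hR.bdd _ hw
  have e80 : 4 * M / (1 / 20) = 80 * M := by ring
  refine ⟨pc Λ x 0, ⟨?_, ?_, ?_, ?_, by positivity, by positivity, ?_, ?_⟩⟩
  · intro s
    rw [hθ]
    exact (pcN h.flow x 0).deriv s
  · intro s
    linarith [hbd s]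
  · show Tendsto (fun s => 0 + tl Λ x s) atTop atTop
    simp only [zero_add]
    exact hx.2.1
  · show Tendsto (fun s => 0 + tl Λ x s) atBot atBot
    simp only [zero_add]
    rcases leafN_ends h hx.1 with ⟨_, h1⟩ | ⟨h1, _⟩
    · exact h1
    · exfalso
      obtain ⟨s, h2, h3⟩ := ((hx.2.1.eventually_gt_atTop 0).and (h1.eventually_lt_atBot 0)).exists
      linarith
  · intro s
    obtain ⟨r, hr⟩ := hfull _ (hB.maps q hq ((pc Λ x 0 s).1 + 80 * M + P + 1))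
    obtain ⟨a, ha, ha1, ha2⟩ := exists_top (ncurve_closed hB hR q) (ε := 1 / 20) hM (by norm_num)
      hCb (t₀ := (pc Λ x 0 s).1 + 80 * M + P + 1) (r := r) hr
    rw [e80] at ha1
    obtain ⟨u, hu⟩ := leafN_all h hx.1 (w := a) (by rw [hxq]; exact ha)
    have h1 := ncurve_between (g := fun s => (pc Λ x 0 s).1) (s := s) (u := u) hM hP hg
      (fun s => Real.abs_cos_le_one _) hst hk (by
        show |(pc Λ x 0 u).1 - _| ≤ _
        rw [hu]
        exact ha1)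
    refine ⟨u, h1.1, h1.2, fun t ht => ?_⟩
    rw [hu]
    refine gate_up hPP hF ((hCb a ha).le.trans (by linarith)) (fun y hy => ?_) ht
    exact hZ _ (Or.inl (ncurve_top hB ha ha2 hy))
  · intro s
    obtain ⟨r, hr⟩ := hfull _ (hB.maps q hq ((pc Λ x 0 s).1 + 80 * M + P + 1))
    obtain ⟨a, ha, ha1, ha2⟩ := exists_bot (ncurve_closed hB hR q) (ε := 1 / 20) hM (by norm_num)
      hCb (t₀ := (pc Λ x 0 s).1 + 80 * M + P + 1) (r := r) hr
    rw [e80] at ha1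
    obtain ⟨u, hu⟩ := leafN_all h hx.1 (w := a) (by rw [hxq]; exact ha)
    have h1 := ncurve_between (g := fun s => (pc Λ x 0 s).1) (s := s) (u := u) hM hP hg
      (fun s => Real.abs_cos_le_one _) hst hk (by
        show |(pc Λ x 0 u).1 - _| ≤ _
        rw [hu]
        exact ha1)
    refine ⟨u, h1.1, h1.2, fun t ht => ?_⟩
    rw [hu]
    refine gate_down hPP hF ((hCb a ha).le.trans (by linarith)) (fun y hy => ?_) ht
    exact hZ _ (Or.inr (ncurve_bot hB ha ha2 hy))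

end Pool.Agent.H99.TW
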