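import Pool.Agent.H99.TW.KNCurvA

/-!
# Copy of `H2/TI/NLeafA` for a compact invariant set `N` (helper2 and module owners)
-/

set_option autoImplicit false

open scoped ContDiff Topology RealInnerProductSpace
open Set

namespace Pool.Agent.H99.TW

open Pool.Agent.H57.NL Pool.Agent.H2.TG Pool.Agent.H2.TI

variable {m n : ℕ} {N : Set (E m)} {V : E m → E m} {R : ℝ → E m → E m} {C : Set (E m × ℝ)}
  {M : ℝ} {κ : (E m × ℝ) × ℝ → ℝ} {Λ : ℝ → (E m × ℝ) × ℝ → (E m × ℝ) × ℝ}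

theorem LFN_contDiff (hB : BaseK N V R) (hκ : CurvN N V C κ) : ContDiff ℝ ∞ (LFN V κ) := by
  unfold LFN
  exact (((Real.contDiff_cos.comp contDiff_snd).smul
    (hB.smooth.comp (contDiff_fst.comp contDiff_fst))).prodMk
    (Real.contDiff_sin.comp contDiff_snd)).prodMk hκ.smooth

theorem exists_leafFlowN (hB : BaseK N V R) (hκ : CurvN N V C κ) : ∃ Λ, IsFlow (LFN V κ) Λ := by
  obtain ⟨K, hK⟩ := hκ.bdd
  obtain ⟨L, hL⟩ := hB.bdd
  refine exists_isFlow (LFN_contDiff hB hκ) (K := max (max L 1) K) fun x => ?_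
  unfold LFN
  rw [Prod.norm_def, Prod.norm_def]
  refine max_le_max (max_le_max ?_ ?_) ?_
  · rw [norm_smul, Real.norm_eq_abs]
    exact (mul_le_of_le_one_left (norm_nonneg _) (Real.abs_cos_le_one _)).trans (hL _)
  · rw [Real.norm_eq_abs]
    exact Real.abs_sin_le_one _
  · rw [Real.norm_eq_abs]
    exact hK x

private theorem leafN_local (hB : BaseK N V R) (hR : RedN N V C M) (hκ : CurvN N V C κ)
    (hΛ : IsFlow (LFN V κ) Λ) {x : (E m × ℝ) × ℝ} (hx : x ∈ PSN N V C) :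
    ∃ ε : ℝ, 0 < ε ∧ ∀ t, |t| ≤ ε → Λ t x ∈ PSN N V C := by
  obtain ⟨W, u, hxW, hC⟩ := hR.loc x.1 hx.1
  obtain ⟨W₁, ϑ, -, hx1, hC1, hϑ, hϑx⟩ := exists_phaseN hB.smooth hC hxW (hx.2 W u hxW hC)
  obtain ⟨ε, y, hε, hy0, hy⟩ := exists_curveN hB hR.sub hC1 hϑ hx.1 hx1
  have hPS : ∀ t, |t| < ε → (y t, ϑ (y t)) ∈ PSN N V C := by
    intro t ht
    obtain ⟨h1, h2, -⟩ := hy t ht
    exact (mem_PSN hB hR.sub hC1 (x := (y t, ϑ (y t))) h1 h2).2 (hϑ.tang (y t) h2)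
  have hder : ∀ t, |t| ≤ ε / 2 →
      HasDerivAt (fun t => ((y t, ϑ (y t)) : (E m × ℝ) × ℝ)) (LFN V κ (y t, ϑ (y t))) t := by
    intro t ht
    have ht' : |t| < ε := by linarith
    obtain ⟨h1, h2, h3⟩ := hy t ht'
    have hd : DifferentiableAt ℝ ϑ (y t) :=
      (hϑ.smooth.contDiffAt (hC1.isOpen.mem_nhds h2)).differentiableAt (by simp)
    have h4 : HasDerivAt (fun t => ϑ (y t))
        (fderiv ℝ ϑ (y t) (Real.cos (ϑ (y t)) • V (y t).1, Real.sin (ϑ (y t)))) t :=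
      hd.hasFDerivAt.comp_hasDerivAt t h3
    have h5 := hκ.curv (y t, ϑ (y t)) (hPS t ht') W₁ u ϑ h2 hC1 hϑ 0 (by simp)
    have h6 := h3.prodMk h4
    have h7 : LFN V κ (y t, ϑ (y t)) = ((Real.cos (ϑ (y t)) • V (y t).1, Real.sin (ϑ (y t))),
        fderiv ℝ ϑ (y t) (Real.cos (ϑ (y t)) • V (y t).1, Real.sin (ϑ (y t)))) := by
      unfold LFN
      rw [h5]
    rw [h7]
    exact h6
  refine ⟨ε / 2, by linarith, fun t ht => ?_⟩
  have h8 := hΛ.unique_on (LFN_contDiff hB hκ) hder t ht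
  have h9 : ((y 0, ϑ (y 0)) : (E m × ℝ) × ℝ) = x := by
    rw [hy0, hϑx]
  simp only [h9] at h8
  rw [← h8]
  exact hPS t (by linarith)

theorem leafN_mem (hB : BaseK N V R) (hR : RedN N V C M) (hκ : CurvN N V C κ)
    (hΛ : IsFlow (LFN V κ) Λ) {x : (E m × ℝ) × ℝ} (hx : x ∈ PSN N V C) (s : ℝ) :
    Λ s x ∈ PSN N V C := by
  have hcont : Continuous fun s => Λ s x :=
    continuous_iff_continuousAt.2 fun t => (hΛ.deriv x t).continuousAt
  have hcl : IsClosed {s : ℝ | Λ s x ∈ PSN N V C} := (PSN_closed hB hR).preimage hcont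
  have hop : IsOpen {s : ℝ | Λ s x ∈ PSN N V C} := by
    rw [isOpen_iff_mem_nhds]
    intro s hs
    obtain ⟨ε, hε, h⟩ := leafN_local hB hR hκ hΛ (x := Λ s x) hs
    filter_upwards [Metric.ball_mem_nhds s hε] with s' hs'
    have h1 : |s' - s| ≤ ε := by
      rw [Metric.mem_ball, Real.dist_eq] at hs'
      exact hs'.le
    have h2 := h (s' - s) h1
    rw [hΛ.add (LFN_contDiff hB hκ)] at h2
    have h3 : s' - s + s = s' := by ring
    rw [h3] at h2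
    exact h2
  have hne : {s : ℝ | Λ s x ∈ PSN N V C}.Nonempty := ⟨0, by
    show Λ 0 x ∈ PSN N V C
    rw [hΛ.zero]; exact hx⟩
  have huniv := IsClopen.eq_univ ⟨hcl, hop⟩ hne
  have : s ∈ {s : ℝ | Λ s x ∈ PSN N V C} := by rw [huniv]; trivial
  exact this

end Pool.Agent.H99.TW
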