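import Pool.Agent.H99.TW.KNLeafA

/-!
# Copy of `H2/TI/NLeafB` for a compact invariant set `N` (helper2 and module owners)
-/

set_option autoImplicit false

open scoped ContDiff Topology RealInnerProductSpace
open Set

namespace Pool.Agent.H99.TW

open Pool.Agent.H57.NL Pool.Agent.H2.TG Pool.Agent.H2.TI

variable {m n : ℕ} {N : Set (E m)} {V : E m → E m} {R : ℝ → E m → E m} {C : Set (E m × ℝ)}
  {M : ℝ} {κ : (E m × ℝ) × ℝ → ℝ} {Λ : ℝ → (E m × ℝ) × ℝ → (E m × ℝ) × ℝ}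

theorem tl_zero (x : (E m × ℝ) × ℝ) : tl Λ x 0 = 0 := by
  unfold tl
  exact intervalIntegral.integral_same

private theorem lb_cont (hΛ : IsFlow (LFN V κ) Λ) (x : (E m × ℝ) × ℝ) :
    Continuous fun s => Real.cos (Λ s x).2 := by
  have h : Continuous fun s => Λ s x :=
    continuous_iff_continuousAt.2 fun s => (hΛ.deriv x s).continuousAt
  exact Real.continuous_cos.comp (continuous_snd.comp h)

theorem tl_deriv (hΛ : IsFlow (LFN V κ) Λ) (x : (E m × ℝ) × ℝ) (s : ℝ) :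
    HasDerivAt (tl Λ x) (Real.cos (Λ s x).2) s :=
  (lb_cont hΛ x).integral_hasStrictDerivAt 0 s |>.hasDerivAt

theorem leafN_r (hΛ : IsFlow (LFN V κ) Λ) (x : (E m × ℝ) × ℝ) (s : ℝ) :
    HasDerivAt (fun s => (Λ s x).1.2) (Real.sin (Λ s x).2) s :=
  (hΛ.deriv x s).fst.snd

theorem leafN_ph (hΛ : IsFlow (LFN V κ) Λ) (x : (E m × ℝ) × ℝ) (s : ℝ) :
    HasDerivAt (fun s => (Λ s x).2) (κ (Λ s x)) s :=
  (hΛ.deriv x s).snd

theorem pcN (hΛ : IsFlow (LFN V κ) Λ) (x : (E m × ℝ) × ℝ) (t₀ : ℝ) :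
    PC (pc Λ x t₀) (fun s => (Λ s x).2) :=
  ⟨fun s => ((tl_deriv hΛ x s).const_add t₀).prodMk (leafN_r hΛ x s),
    continuous_iff_continuousAt.2 fun s => (leafN_ph hΛ x s).continuousAt⟩

theorem leafN_q (hB : BaseK N V R) (hΛ : IsFlow (LFN V κ) Λ) (x : (E m × ℝ) × ℝ) (s : ℝ) :
    (Λ s x).1.1 = R (tl Λ x s) x.1.1 := by
  have h := reparam hB (γ := fun s => (Λ s x).1.1) (k := fun s => Real.cos (Λ s x).2)
    (ε := |s| + 1) (lb_cont hΛ x).continuousOn (fun t _ => (hΛ.deriv x t).fst.fst) (t := s)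
    (by linarith [abs_nonneg s])
  simp only [hΛ.zero] at h
  exact h

theorem tl_add (hB : BaseK N V R) (hκ : CurvN N V C κ) (hΛ : IsFlow (LFN V κ) Λ)
    (x : (E m × ℝ) × ℝ) (s t : ℝ) : tl Λ x (s + t) = tl Λ x s + tl Λ (Λ s x) t := by
  have hd : ∀ t, HasDerivAt (fun t => tl Λ x (s + t) - tl Λ (Λ s x) t) 0 t := by
    intro t
    have h1 := (tl_deriv hΛ x (s + t)).comp_const_add s t
    have h2 := h1.sub (tl_deriv hΛ (Λ s x) t)
    rw [hΛ.add (LFN_contDiff hB hκ) t s x, add_comm t s, sub_self] at h2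
    exact h2
  have hc := is_const_of_deriv_eq_zero (f := fun t => tl Λ x (s + t) - tl Λ (Λ s x) t)
    (fun t => (hd t).differentiableAt) (fun t => (hd t).deriv) t 0
  simp only [add_zero, tl_zero, sub_zero] at hc
  linarith

private theorem lb_shift (hB : BaseK N V R) (hR : RedN N V C M) (hκ : CurvN N V C κ)
    {y : (E m × ℝ) × ℝ} (hy : y ∈ PSN N V C) (j : ℤ) :
    κ (y.1, y.2 + j * Real.pi) = (-1) ^ j * κ y := by
  have h1 : cvN N V C y (κ y) := hκ.curv y hy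
  have h2 := cvN_pi hB hR hy h1 j
  have h3 : (y.1, y.2 + j * Real.pi) ∈ PSN N V C := PSN_pi hB hR hy j
  exact cvN_unique hB hR h3 (hκ.curv _ h3) h2

private theorem lb_LF (hB : BaseK N V R) (hR : RedN N V C M) (hκ : CurvN N V C κ)
    {y : (E m × ℝ) × ℝ} (hy : y ∈ PSN N V C) (j : ℤ) :
    LFN V κ (y.1, y.2 + j * Real.pi) = (-1 : ℝ) ^ j • LFN V κ y := by
  unfold LFN
  simp only [lb_shift hB hR hκ hy j, Real.cos_add_int_mul_pi, Real.sin_add_int_mul_pi,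
    Prod.smul_mk, smul_eq_mul, smul_smul]

theorem leafN_even (hB : BaseK N V R) (hR : RedN N V C M) (hκ : CurvN N V C κ)
    (hΛ : IsFlow (LFN V κ) Λ) {x : (E m × ℝ) × ℝ} (hx : x ∈ PSN N V C) {j : ℤ} (hj : Even j)
    (s : ℝ) : Λ s (x.1, x.2 + j * Real.pi) = ((Λ s x).1, (Λ s x).2 + j * Real.pi) := by
  have h := hΛ.unique (LFN_contDiff hB hκ) (γ := fun s => ((Λ s x).1, (Λ s x).2 + j * Real.pi))
    (fun t => by
      have h1 : HasDerivAt (fun s => ((Λ s x).1, (Λ s x).2 + j * Real.pi)) (LFN V κ (Λ t x)) t :=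
        (hΛ.deriv x t).fst.prodMk ((hΛ.deriv x t).snd.add_const _)
      rw [lb_LF hB hR hκ (leafN_mem hB hR hκ hΛ hx t) j, hj.neg_one_zpow, one_smul]
      exact h1) s
  simp only [hΛ.zero] at h
  exact h.symm

theorem leafN_odd (hB : BaseK N V R) (hR : RedN N V C M) (hκ : CurvN N V C κ)
    (hΛ : IsFlow (LFN V κ) Λ) {x : (E m × ℝ) × ℝ} (hx : x ∈ PSN N V C) {j : ℤ} (hj : Odd j)
    (s : ℝ) : Λ s (x.1, x.2 + j * Real.pi) = ((Λ (-s) x).1, (Λ (-s) x).2 + j * Real.pi) := by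
  have h := hΛ.unique (LFN_contDiff hB hκ)
    (γ := fun s => ((Λ (-s) x).1, (Λ (-s) x).2 + j * Real.pi))
    (fun t => by
      have h0 : HasDerivAt (fun s => ((Λ s x).1, (Λ s x).2 + j * Real.pi))
          (LFN V κ (Λ (-t) x)) (-t) :=
        (hΛ.deriv x (-t)).fst.prodMk ((hΛ.deriv x (-t)).snd.add_const _)
      have h1 := h0.scomp t (hasDerivAt_neg t)
      rw [lb_LF hB hR hκ (leafN_mem hB hR hκ hΛ hx (-t)) j, hj.neg_one_zpow]
      exact h1) s
  simp only [hΛ.zero, neg_zero] at h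
  exact h.symm

theorem tl_even (hB : BaseK N V R) (hR : RedN N V C M) (hκ : CurvN N V C κ)
    (hΛ : IsFlow (LFN V κ) Λ) {x : (E m × ℝ) × ℝ} (hx : x ∈ PSN N V C) {j : ℤ} (hj : Even j)
    (s : ℝ) : tl Λ (x.1, x.2 + j * Real.pi) s = tl Λ x s := by
  unfold tl
  refine intervalIntegral.integral_congr fun u _ => ?_
  simp only [leafN_even hB hR hκ hΛ hx hj u, Real.cos_add_int_mul_pi, hj.neg_one_zpow, one_mul]

theorem tl_odd (hB : BaseK N V R) (hR : RedN N V C M) (hκ : CurvN N V C κ)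
    (hΛ : IsFlow (LFN V κ) Λ) {x : (E m × ℝ) × ℝ} (hx : x ∈ PSN N V C) {j : ℤ} (hj : Odd j)
    (s : ℝ) : tl Λ (x.1, x.2 + j * Real.pi) s = tl Λ x (-s) := by
  have hd : ∀ t, HasDerivAt (fun t => tl Λ (x.1, x.2 + j * Real.pi) t - tl Λ x (-t)) 0 t := by
    intro t
    have h1 := (tl_deriv hΛ x (-t)).scomp t (hasDerivAt_neg t)
    have h2 := (tl_deriv hΛ (x.1, x.2 + j * Real.pi) t).sub h1
    rw [leafN_odd hB hR hκ hΛ hx hj t] at h2
    simp only [Real.cos_add_int_mul_pi, hj.neg_one_zpow, smul_eq_mul, sub_self] at h2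
    exact h2
  have hc := is_const_of_deriv_eq_zero
    (f := fun t => tl Λ (x.1, x.2 + j * Real.pi) t - tl Λ x (-t))
    (fun t => (hd t).differentiableAt) (fun t => (hd t).deriv) s 0
  simp only [neg_zero, tl_zero, sub_zero] at hc
  linarith

theorem tl_cont (hΛ : IsFlow (LFN V κ) Λ) :
    Continuous fun z : ((E m × ℝ) × ℝ) × ℝ => tl Λ z.1 z.2 := by
  unfold tl
  have hf : Continuous (Function.uncurry
      fun (z : ((E m × ℝ) × ℝ) × ℝ) (u : ℝ) => Real.cos (Λ u z.1).2) := by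
    have h1 : Continuous fun p : (((E m × ℝ) × ℝ) × ℝ) × ℝ => Λ p.2 p.1.1 :=
      hΛ.smooth.continuous.comp (continuous_snd.prodMk (continuous_fst.comp continuous_fst))
    exact Real.continuous_cos.comp (continuous_snd.comp h1)
  exact intervalIntegral.continuous_parametric_intervalIntegral_of_continuous hf continuous_snd

/-- The planar leaf is in the planar section. -/
theorem pc_mem (hB : BaseK N V R) (hR : RedN N V C M) (hκ : CurvN N V C κ)
    (hΛ : IsFlow (LFN V κ) Λ) {q : E m} {w : ℝ × ℝ} {φ : ℝ}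
    (hx : ((R w.1 q, w.2), φ) ∈ PSN N V C) (s : ℝ) :
    pc Λ ((R w.1 q, w.2), φ) w.1 s ∈ Cq R C q := by
  have h1 := (leafN_mem hB hR hκ hΛ hx s).1
  show (R (w.1 + tl Λ ((R w.1 q, w.2), φ) s) q, (Λ s ((R w.1 q, w.2), φ)).1.2) ∈ C
  have h2 := leafN_q hB hΛ ((R w.1 q, w.2), φ) s
  rw [R_add hB] at h2
  rw [add_comm, ← h2]
  exact h1

end Pool.Agent.H99.TW
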