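import Pool.Agent.H99.TW.KNBase
import Pool.Agent.H2.TG.Angle

/-!
# Copy of `H2/TI/NLine` for a compact invariant set `N` (helper2 and module owners)
-/

set_option autoImplicit false

open scoped ContDiff Topology RealInnerProductSpace
open Set

namespace Pool.Agent.H99.TW

open Pool.Agent.H57.NL Pool.Agent.H2.TG Pool.Agent.H2.TI

variable {m n : ℕ} {N : Set (E m)} {V : E m → E m} {R : ℝ → E m → E m} {C W W' : Set (E m × ℝ)}
  {u u' ϑ : E m × ℝ → ℝ}

theorem dpl_lin (y : E m × ℝ) (a b : ℝ) :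
    dpl V u y a b = a * dpl V u y 1 0 + b * dpl V u y 0 1 := by
  unfold dpl
  have h : ((a • V y.1, b) : E m × ℝ) = a • (((1 : ℝ) • V y.1, (0 : ℝ)) : E m × ℝ)
      + b • (((0 : ℝ) • V y.1, (1 : ℝ)) : E m × ℝ) := by
    ext i <;> simp
  rw [h, map_add, map_smul, map_smul, smul_eq_mul, smul_eq_mul]

theorem LocN.mono (hC : LocN N V C W u) {W₁ : Set (E m × ℝ)} (h1 : IsOpen W₁) (h2 : W₁ ⊆ W) :
    LocN N V C W₁ u :=
  ⟨h1, hC.smooth.mono h2, fun y hy => hC.eqn y (h2 hy), fun y hy => hC.reg y (h2 hy)⟩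

theorem dpl_smooth (hV : ContDiff ℝ ∞ V) (hC : LocN N V C W u) (a b : ℝ) :
    ContDiffOn ℝ ∞ (fun y => dpl V u y a b) W := by
  unfold dpl
  have h1 : ContDiff ℝ ∞ fun y : E m × ℝ => ((a • V y.1, b) : E m × ℝ) :=
    ((hV.comp contDiff_fst).const_smul a).prodMk contDiff_const
  exact (hC.smooth.fderiv_of_isOpen hC.isOpen (by exact_mod_cast le_rfl)).clm_apply
    h1.contDiffOn

theorem exists_phaseN (hV : ContDiff ℝ ∞ V) (hC : LocN N V C W u) {x : E m × ℝ} (hx : x ∈ W)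
    {φ : ℝ} (hφ : dpl V u x (Real.cos φ) (Real.sin φ) = 0) :
    ∃ (W₁ : Set (E m × ℝ)) (ϑ : E m × ℝ → ℝ), W₁ ⊆ W ∧ x ∈ W₁ ∧ LocN N V C W₁ u ∧
      PhaseN V W₁ u ϑ ∧ ϑ x = φ := by
  obtain ⟨W₁, ϑ, ho, hs, hxm, hsm, he, ht⟩ := smooth_angle hC.isOpen (dpl_smooth hV hC 1 0)
    (dpl_smooth hV hC 0 1) hx (hC.reg x hx) (φ0 := φ) (by
      have := dpl_lin (V := V) (u := u) x (Real.cos φ) (Real.sin φ)
      rw [hφ] at this
      linarith)
  refine ⟨W₁, ϑ, hs, hxm, LocN.mono hC ho hs, ⟨hsm, fun y hy => ?_⟩, he⟩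
  rw [dpl_lin]
  have := ht y hy
  linarith

theorem exists_curveN (hB : BaseK N V R) (hs : ∀ x ∈ C, x.1 ∈ N) (hC : LocN N V C W u)
    (hϑ : PhaseN V W u ϑ) {x : E m × ℝ} (hx : x ∈ C) (hxW : x ∈ W) :
    ∃ (ε : ℝ) (y : ℝ → E m × ℝ), 0 < ε ∧ y 0 = x ∧ ∀ t, |t| < ε →
      y t ∈ C ∧ y t ∈ W ∧ HasDerivAt y (Real.cos (ϑ (y t)) • V (y t).1, Real.sin (ϑ (y t))) t := by
  have hf : ContDiffOn ℝ ∞ (fun y : E m × ℝ =>
      ((Real.cos (ϑ y) • V y.1, Real.sin (ϑ y)) : E m × ℝ)) W :=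
    ((Real.contDiff_cos.comp_contDiffOn hϑ.smooth).smul
      (hB.smooth.comp contDiff_fst).contDiffOn).prodMk
      (Real.contDiff_sin.comp_contDiffOn hϑ.smooth)
  have hf1 : ContDiffAt ℝ 1 (fun y : E m × ℝ =>
      ((Real.cos (ϑ y) • V y.1, Real.sin (ϑ y)) : E m × ℝ)) x :=
    (hf.contDiffAt (hC.isOpen.mem_nhds hxW)).of_le (by exact_mod_cast le_top)
  obtain ⟨y, hy0, ε, hε, hy⟩ :=
    hf1.exists_forall_mem_closedBall_exists_eq_forall_mem_Ioo_hasDerivAt₀ 0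
  simp only [zero_sub, zero_add] at hy
  have hcont : ContinuousAt y 0 := (hy 0 ⟨by linarith, hε⟩).continuousAt
  have hev : ∀ᶠ t in 𝓝 (0 : ℝ), y t ∈ W :=
    hcont.eventually_mem (by rw [hy0]; exact hC.isOpen.mem_nhds hxW)
  obtain ⟨δ, hδ, hW⟩ := Metric.eventually_nhds_iff.mp hev
  refine ⟨min ε δ, y, lt_min hε hδ, hy0, ?_⟩
  have hW' : ∀ t, |t| < min ε δ → y t ∈ W := fun t ht =>
    hW (by simpa [Real.dist_eq] using lt_of_lt_of_le ht (min_le_right _ _))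
  have hd : ∀ t, |t| < min ε δ →
      HasDerivAt y (Real.cos (ϑ (y t)) • V (y t).1, Real.sin (ϑ (y t))) t := fun t ht =>
    hy t (abs_lt.mp (lt_of_lt_of_le ht (min_le_left _ _)))
  -- the first component stays in `N`
  have hγ : ∀ t, |t| < min ε δ →
      HasDerivAt (fun t => (y t).1) (Real.cos (ϑ (y t)) • V (y t).1) t := fun t ht =>
    (ContinuousLinearMap.fst ℝ (E m) ℝ).hasFDerivAt.comp_hasDerivAt t (hd t ht)
  have hk : ContinuousOn (fun t => Real.cos (ϑ (y t))) (Ioo (-min ε δ) (min ε δ)) := by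
    intro t ht
    have ht' : |t| < min ε δ := abs_lt.mpr ht
    have h1 : ContinuousAt ϑ (y t) :=
      (hϑ.smooth.contDiffAt (hC.isOpen.mem_nhds (hW' t ht'))).continuousAt
    have h2 : ContinuousAt (fun t => ϑ (y t)) t :=
      ContinuousAt.comp (f := y) (g := ϑ) h1 (hd t ht').continuousAt
    exact (Real.continuous_cos.continuousAt.comp h2).continuousWithinAt
  have hN : ∀ t, |t| < min ε δ → (y t).1 ∈ N := by
    intro t ht
    have h1 := reparam hB hk hγ ht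
    rw [h1, hy0]
    exact hB.maps _ (hs x hx) _
  have hu : ∀ t ∈ Ioo (-min ε δ) (min ε δ), HasDerivAt (fun s => u (y s)) 0 t := by
    intro t ht
    have ht' : |t| < min ε δ := abs_lt.mpr ht
    have hdu : DifferentiableAt ℝ u (y t) :=
      (hC.smooth.contDiffAt (hC.isOpen.mem_nhds (hW' t ht'))).differentiableAt (by simp)
    have h1 := hdu.hasFDerivAt.comp_hasDerivAt t (hd t ht')
    have h2 := hϑ.tang (y t) (hW' t ht')
    unfold dpl at h2
    rw [h2] at h1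
    exact h1
  intro t ht
  refine ⟨?_, hW' t ht, hd t ht⟩
  rw [hC.eqn _ (hW' t ht) (hN t ht)]
  have h0 : (0 : ℝ) ∈ Ioo (-min ε δ) (min ε δ) := by
    have := lt_min hε hδ
    exact ⟨by linarith, this⟩
  have := isOpen_Ioo.is_const_of_deriv_eq_zero (f := fun s => u (y s))
    (isPreconnected_Ioo (a := -min ε δ) (b := min ε δ))
    (fun s hs => (hu s hs).differentiableAt.differentiableWithinAt)
    (fun s hs => (hu s hs).deriv) (abs_lt.mp ht) h0
  simp only [hy0] at this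
  rw [this]
  exact (hC.eqn x hxW (hs x hx)).mp hx

theorem dpl_zero (hB : BaseK N V R) (hs : ∀ x ∈ C, x.1 ∈ N) (hC : LocN N V C W u)
    (hC' : LocN N V C W' u') {x : E m × ℝ} (hx : x ∈ C) (hxW : x ∈ W) (hxW' : x ∈ W') {a b : ℝ}
    (h : dpl V u x a b = 0) : dpl V u' x a b = 0 := by
  obtain ⟨φ, hφ⟩ := angle_exists b (-a)
  have hsc := Real.sin_sq_add_cos_sq φ
  set ρ : ℝ := a * Real.cos φ + b * Real.sin φ with hρ
  have ha : a = ρ * Real.cos φ := by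
    rw [hρ]; linear_combination (-a) * hsc - Real.sin φ * hφ
  have hb : b = ρ * Real.sin φ := by
    rw [hρ]; linear_combination (-b) * hsc + Real.cos φ * hφ
  have hscale : ∀ w : E m × ℝ → ℝ, dpl V w x a b
      = ρ * dpl V w x (Real.cos φ) (Real.sin φ) := by
    intro w
    rw [dpl_lin, dpl_lin x (Real.cos φ)]
    rw [ha, hb]
    have e1 : ρ * Real.cos φ * Real.cos φ + ρ * Real.sin φ * Real.sin φ = ρ := by
      linear_combination ρ * hsc
    ring
  by_cases h0 : ρ = 0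
  · rw [hscale, h0, zero_mul]
  · rw [hscale] at h
    have hz : dpl V u x (Real.cos φ) (Real.sin φ) = 0 := by
      rcases mul_eq_zero.mp h with h | h
      · exact absurd h h0
      · exact h
    obtain ⟨W₁, ϑ, hs1, hxm, hC1, hP, he⟩ := exists_phaseN hB.smooth hC hxW hz
    obtain ⟨ε, y, hε, hy0, hy⟩ := exists_curveN hB hs hC1 hP hx hxm
    have hy00 := (hy 0 (by simpa using hε)).2.2
    have hdu : DifferentiableAt ℝ u' (y 0) := by
      rw [hy0]
      exact (hC'.smooth.contDiffAt (hC'.isOpen.mem_nhds hxW')).differentiableAt (by simp)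
    have h1 := hdu.hasFDerivAt.comp_hasDerivAt (0 : ℝ) hy00
    have hev : ∀ᶠ t in 𝓝 (0 : ℝ), y t ∈ W' :=
      hy00.continuousAt.eventually_mem (by rw [hy0]; exact hC'.isOpen.mem_nhds hxW')
    have hev2 : ∀ᶠ t in 𝓝 (0 : ℝ), |t| < ε := by
      refine Metric.eventually_nhds_iff.mpr ⟨ε, hε, fun t ht => ?_⟩
      simpa [Real.dist_eq] using ht
    have hev3 : (u' ∘ y) =ᶠ[𝓝 0] fun _ => (0 : ℝ) := by
      filter_upwards [hev, hev2] with t h2 h3
      exact (hC'.eqn _ h2 (hs _ (hy t h3).1)).mp (hy t h3).1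
    have h2 := (hasDerivAt_const (0 : ℝ) (0 : ℝ)).congr_of_eventuallyEq hev3
    have h3 := h1.unique h2
    rw [hy0, he] at h3
    rw [hscale]
    have h4 : dpl V u' x (Real.cos φ) (Real.sin φ) = 0 := h3
    rw [h4, mul_zero]

theorem mem_PSN (hB : BaseK N V R) (hs : ∀ x ∈ C, x.1 ∈ N) (hC : LocN N V C W u)
    {x : (E m × ℝ) × ℝ} (hx : x.1 ∈ C) (hxW : x.1 ∈ W) :
    x ∈ PSN N V C ↔ dpl V u x.1 (Real.cos x.2) (Real.sin x.2) = 0 := by
  exact ⟨fun h => h.2 W u hxW hC,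
    fun h => ⟨hx, fun _ _ hW' hC' => dpl_zero hB hs hC hC' hx hxW hW' h⟩⟩

end Pool.Agent.H99.TW
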