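import Pool.Agent.H99.TW.KNUni
import Pool.Agent.H2.TI.PLiftE

/-!
# Copy of `H2/TI/NRPa` for a compact invariant set `N` (helper2 and module owners)
-/

set_option autoImplicit false

open scoped ContDiff Topology RealInnerProductSpace
open Set Filter

namespace Pool.Agent.H99.TW

open Pool.Agent.H57.NL Pool.Agent.H2.TG Pool.Agent.H2.TI

variable {m n : ℕ} {N : Set (E m)} {V : E m → E m} {R : ℝ → E m → E m} {C : Set (E m × ℝ)}
  {M : ℝ} {κ : (E m × ℝ) × ℝ → ℝ} {Λ : ℝ → (E m × ℝ) × ℝ → (E m × ℝ) × ℝ} {F : E m × ℝ → ℝ}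

private theorem NRPa_int {a : ℝ} {j : ℤ} (h1 : |a| < Real.pi / 2)
    (h2 : |a - 2 * j * Real.pi| < Real.pi / 2) : j = 0 := by
  have hpi := Real.pi_pos
  rw [abs_lt] at h1 h2
  have h3 : (j : ℝ) < 1 := by
    by_contra hc
    rw [not_lt] at hc
    nlinarith
  have h4 : (-1 : ℝ) < j := by
    by_contra hc
    rw [not_lt] at hc
    nlinarith
  have h5 : j < 1 := by exact_mod_cast h3
  have h6 : -1 < j := by exact_mod_cast h4
  omega

private theorem NRPa_shift (h : LeafK N V R C M κ Λ F) {y : E m × ℝ} {φ : ℝ}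
    (hx : (y, φ) ∈ PSN N V C) {j : ℤ} (hj : Even j) :
    pc Λ (y, φ + j * Real.pi) 0 = pc Λ (y, φ) 0 ∧
      (fun s => (Λ s (y, φ + j * Real.pi)).2) = (fun s => (Λ s (y, φ)).2 + j * Real.pi) ∧
      tl Λ (y, φ + j * Real.pi) = tl Λ (y, φ) := by
  have h1 : ∀ s, tl Λ (y, φ + j * Real.pi) s = tl Λ (y, φ) s := fun s =>
    tl_even h.base h.red h.curv h.flow hx hj s
  have h2 : ∀ s, Λ s (y, φ + j * Real.pi) = ((Λ s (y, φ)).1, (Λ s (y, φ)).2 + j * Real.pi) :=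
    fun s => leafN_even h.base h.red h.curv h.flow hx hj s
  refine ⟨?_, ?_, funext h1⟩
  · funext s
    unfold pc
    rw [h1, h2]
  · funext s
    rw [h2]

theorem RP_lift (h : LeafK N V R C M κ Λ F) : ∃ P : ℝ, 0 < P ∧ ∀ x ∈ RPN N V C Λ,
    (∃ η, PLift (pc Λ x 0) (fun s => (Λ s x).2) η ∧
      ∀ s s', s + P ≤ s' → |η (s, s')| < Real.pi / 2) ∧
    ∀ s s', s + P ≤ s' → tl Λ x s + 1 < tl Λ x s' := by
  obtain ⟨P, hP, hP1⟩ := progress h
  refine ⟨P, hP, fun x hx => ?_⟩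
  obtain ⟨hx1, hx2, η, hη, hev⟩ := hx
  have hpr := hP1 x hx1 hx2
  refine ⟨⟨η, hη, ?_⟩, hpr⟩
  obtain ⟨j, hj⟩ := lift_far hη hP (fun s t hst => by
    have := hpr s t hst
    show 0 + tl Λ x s < 0 + tl Λ x t
    linarith)
  obtain ⟨s, hs1, hs2⟩ := (hev.and (eventually_ge_atTop P)).exists
  have hj0 := NRPa_int hs1 (hj 0 s (by linarith))
  intro s s' hss
  have := hj s s' hss
  rw [hj0] at this
  simpa using this

theorem RP_exists (h : LeafK N V R C M κ Λ F) {y : E m × ℝ} (hy : y ∈ C) :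
    ∃ φ, (y, φ) ∈ RPN N V C Λ := by
  obtain ⟨φ₀, hφ₀⟩ := PSN_exists h.base h.red hy
  obtain ⟨φ₁, hφ₁, hlim⟩ : ∃ φ₁, (y, φ₁) ∈ PSN N V C ∧ Tendsto (tl Λ (y, φ₁)) atTop atTop := by
    rcases leafN_ends h hφ₀ with ⟨h1, _⟩ | ⟨_, h1⟩
    · exact ⟨φ₀, hφ₀, h1⟩
    · have h2 := PSN_pi h.base h.red hφ₀ 1
      refine ⟨φ₀ + (1 : ℤ) * Real.pi, h2, ?_⟩
      have h3 : tl Λ (y, φ₀ + (1 : ℤ) * Real.pi) = fun s => tl Λ (y, φ₀) (-s) :=
        funext fun s => tl_odd h.base h.red h.curv h.flow hφ₀ (by decide) s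
      rw [h3]
      exact h1.comp tendsto_neg_atTop_atBot
  obtain ⟨η, hη⟩ := exists_lift (pcN h.flow (y, φ₁) 0) (leafN_inj h hφ₁)
  obtain ⟨P, hP, hP1⟩ := progress h
  have hpr := hP1 _ hφ₁ hlim
  obtain ⟨j, hj⟩ := lift_far hη hP (fun s t hst => by
    have := hpr s t hst
    show 0 + tl Λ (y, φ₁) s < 0 + tl Λ (y, φ₁) t
    linarith)
  have hev : Even (2 * (-j)) := even_two_mul _
  obtain ⟨e1, e2, e3⟩ := NRPa_shift h hφ₁ hev
  refine ⟨φ₁ + (2 * (-j) : ℤ) * Real.pi, PSN_pi h.base h.red hφ₁ _, ?_, fun z => η z + 2 * (-j : ℤ) * Real.pi,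
    ?_, ?_⟩
  · rw [e3]; exact hlim
  · rw [e1, e2]
    have := lift_add hη (-j)
    have e4 : ((2 * (-j) : ℤ) : ℝ) = 2 * ((-j : ℤ) : ℝ) := by push_cast; ring
    rw [e4]
    exact this
  · filter_upwards [eventually_ge_atTop P] with s hs
    have h1 := hj 0 s (by linarith)
    have h2 : η (0, s) + 2 * ((-j : ℤ) : ℝ) * Real.pi = η (0, s) - 2 * j * Real.pi := by
      push_cast; ring
    rw [h2]
    exact h1

theorem RP_unique (h : LeafK N V R C M κ Λ F) {y : E m × ℝ} {φ ψ : ℝ}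
    (h1 : (y, φ) ∈ RPN N V C Λ) (h2 : (y, ψ) ∈ RPN N V C Λ) : φ = ψ := by
  obtain ⟨k, hk⟩ := PSN_unique h.base h.red h1.1 h2.1
  rcases Int.even_or_odd k with hev | hodd
  · obtain ⟨e1, e2, e3⟩ := NRPa_shift h h2.1 hev
    obtain ⟨l, hl⟩ := hev
    obtain ⟨η, hη, hηe⟩ := h1.2.2
    obtain ⟨η', hη', hηe'⟩ := h2.2.2
    rw [hk, e1, e2] at hη
    have h3 := lift_add hη' l
    have e4 : (fun s => (Λ s (y, ψ)).2 + 2 * (l : ℝ) * Real.pi) =
        fun s => (Λ s (y, ψ)).2 + k * Real.pi := by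
      funext s
      rw [hl]; push_cast; ring
    rw [e4] at h3
    obtain ⟨s, ⟨hs1, hs2⟩, hs3⟩ := ((hηe.and hηe').and (eventually_ge_atTop 0)).exists
    have h4 : η (0, s) = η' (0, s) + 2 * l * Real.pi := lift_unique hη h3 hs3
    have h5 : |η (0, s) - 2 * l * Real.pi| < Real.pi / 2 := by
      rw [h4, add_sub_cancel_right]; exact hs2
    have h6 := NRPa_int hs1 h5
    rw [hk, hl, h6]
    simp
  · exfalso
    have h3 : tl Λ (y, φ) = fun s => tl Λ (y, ψ) (-s) := by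
      rw [hk]
      exact funext fun s => tl_odd h.base h.red h.curv h.flow h2.1 hodd s
    have h4 := h1.2.1
    rw [h3] at h4
    rcases leafN_ends h h2.1 with ⟨_, h5⟩ | ⟨h5, _⟩
    · have h6 : Tendsto (fun s => tl Λ (y, ψ) (-s)) atTop atBot := h5.comp tendsto_neg_atTop_atBot
      obtain ⟨s, hs1, hs2⟩ := ((h4.eventually_gt_atTop 0).and (h6.eventually_lt_atBot 0)).exists
      exact lt_asymm hs1 hs2
    · obtain ⟨s, hs1, hs2⟩ := ((h2.2.1.eventually_gt_atTop 0).and (h5.eventually_lt_atBot 0)).exists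
      exact lt_asymm hs1 hs2

theorem RP_flow (h : LeafK N V R C M κ Λ F) {x : (E m × ℝ) × ℝ} (hx : x ∈ RPN N V C Λ)
    (s : ℝ) : Λ s x ∈ RPN N V C Λ := by
  obtain ⟨P, hP, hP1⟩ := RP_lift h
  obtain ⟨⟨η, hη, hηP⟩, _⟩ := hP1 x hx
  have hLF := LFN_contDiff h.base h.curv
  have htl : ∀ t, tl Λ (Λ s x) t = tl Λ x (s + t) - tl Λ x s := by
    intro t
    have := tl_add h.base h.curv h.flow x s t
    linarith
  have hfl : ∀ t, Λ t (Λ s x) = Λ (s + t) x := by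
    intro t
    rw [h.flow.add hLF, add_comm]
  have hpc : ∀ t, pc Λ (Λ s x) 0 t = pc Λ x 0 (s + t) - (tl Λ x s, 0) := by
    intro t
    unfold pc
    rw [hfl, htl]
    ext
    · show 0 + (tl Λ x (s + t) - tl Λ x s) = 0 + tl Λ x (s + t) - tl Λ x s
      ring
    · show (Λ (s + t) x).1.2 = (Λ (s + t) x).1.2 - 0
      ring
  refine ⟨leafN_mem h.base h.red h.curv h.flow hx.1 s, ?_, fun z => η (s + z.1, s + z.2), ⟨?_, ?_, ?_⟩,
    ?_⟩
  · have e : tl Λ (Λ s x) = fun t => tl Λ x (s + t) - tl Λ x s := funext htl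
    rw [e]
    exact tendsto_atTop_add_const_right _ _ (hx.2.1.comp (tendsto_atTop_add_const_left _ s tendsto_id))
  · have := hη.cont
    fun_prop
  · intro t
    show η (s + t, s + t) = (Λ t (Λ s x)).2
    rw [hη.diag, hfl]
  · intro a b hab
    obtain ⟨ρ, hρ, hρ'⟩ := hη.sec (s + a) (s + b) (by linarith)
    refine ⟨ρ, hρ, ?_⟩
    rw [hpc, hpc, sub_sub_sub_cancel_right]
    exact hρ'
  · filter_upwards [eventually_ge_atTop P] with t ht
    exact hηP (s + 0) (s + t) (by linarith)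

end Pool.Agent.H99.TW
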