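import Pool.Agent.H99.TW.KNRPa

/-!
# Copy of `H2/TI/NRPb` for a compact invariant set `N` (helper2 and module owners)
-/

set_option autoImplicit false

open scoped ContDiff Topology RealInnerProductSpace
open Set Filter

namespace Pool.Agent.H99.TW

open Pool.Agent.H57.NL Pool.Agent.H2.TG Pool.Agent.H2.TI

variable {m n : ℕ} {N : Set (E m)} {V : E m → E m} {R : ℝ → E m → E m} {C : Set (E m × ℝ)}
  {M : ℝ} {κ : (E m × ℝ) × ℝ → ℝ} {Λ : ℝ → (E m × ℝ) × ℝ → (E m × ℝ) × ℝ} {F : E m × ℝ → ℝ}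

private theorem nrpb_lt {h : ℝ → ℝ} (hh : Continuous h) {P : ℝ} (hP : 0 ≤ P)
    (hc : ∀ s ∈ Icc 0 P, 0 < Real.cos (h s)) (h0 : |h 0| < Real.pi / 2) :
    |h P| < Real.pi / 2 := by
  by_contra hcon
  push Not at hcon
  obtain ⟨s, hs, hs'⟩ := intermediate_value_Icc hP (f := fun s => |h s|) (hh.abs.continuousOn)
    ⟨h0.le, hcon⟩
  have h1 := hc s hs
  have h2 : |h s| = Real.pi / 2 := hs'
  rw [← Real.cos_abs, h2, Real.cos_pi_div_two] at h1
  exact lt_irrefl _ h1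

private theorem nrpb_abs {x ε : ℝ} (h1 : |x| < Real.pi / 2) (hε : 0 < ε)
    (h2 : |Real.sin x| < ε * Real.cos x) : |x| < ε := by
  have h3 := abs_lt.1 h1
  have hc : 0 < Real.cos x := Real.cos_pos_of_mem_Ioo ⟨by linarith [h3.1], h3.2⟩
  rcases eq_or_ne x 0 with rfl | hx
  · rw [abs_zero]
    exact hε
  · have h5 := Real.lt_tan (abs_pos.2 hx) h1
    rw [Real.tan_eq_sin_div_cos, Real.cos_abs] at h5
    have h6 : Real.sin |x| ≤ |Real.sin x| := by
      rcases abs_choice x with h7 | h7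
      · rw [h7]
        exact le_abs_self _
      · rw [h7, Real.sin_neg]
        exact neg_le_abs _
    have h7 : Real.sin |x| / Real.cos x ≤ |Real.sin x| / Real.cos x :=
      div_le_div_of_nonneg_right h6 hc.le
    have h8 : |Real.sin x| / Real.cos x < ε := by rwa [div_lt_iff₀ hc]
    linarith

/-- The averaged direction of the secants. -/
private noncomputable def nrpb_Q (Λ : ℝ → (E m × ℝ) × ℝ → (E m × ℝ) × ℝ)
    (z : ((E m × ℝ) × ℝ) × ℝ) : ℂ :=
  ∫ u in (0 : ℝ)..1, Complex.exp (((Λ (u * z.2) z.1).2 : ℂ) * Complex.I)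

private theorem nrpb_cont (h : LeafK N V R C M κ Λ F) : Continuous (nrpb_Q Λ) := by
  refine intervalIntegral.continuous_parametric_intervalIntegral_of_continuous'
    (f := fun (z : ((E m × ℝ) × ℝ) × ℝ) u =>
      Complex.exp (((Λ (u * z.2) z.1).2 : ℂ) * Complex.I)) ?_ 0 1
  have h1 : Continuous fun y : ℝ × ((E m × ℝ) × ℝ) => Λ y.1 y.2 := h.flow.smooth.continuous
  have h2 : Continuous fun w : (((E m × ℝ) × ℝ) × ℝ) × ℝ => Λ (w.2 * w.1.2) w.1.1 :=
    h1.comp ((continuous_snd.mul (continuous_snd.comp continuous_fst)).prodMk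
      (continuous_fst.comp continuous_fst))
  exact Complex.continuous_exp.comp
    ((Complex.continuous_ofReal.comp (continuous_snd.comp h2)).mul continuous_const)

private theorem nrpb_sec (h : LeafK N V R C M κ Λ F) (x : (E m × ℝ) × ℝ) (s : ℝ) :
    (s : ℂ) * nrpb_Q Λ (x, s) = ((pc Λ x 0 s - pc Λ x 0 0).1 : ℂ)
      + ((pc Λ x 0 s - pc Λ x 0 0).2 : ℂ) * Complex.I := by
  have hpc := pcN h.flow x 0
  have hα : ∀ s, HasDerivAt (fun s => (pc Λ x 0 s).1) (Real.cos (Λ s x).2) s := fun s =>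
    (ContinuousLinearMap.fst ℝ ℝ ℝ).hasFDerivAt.comp_hasDerivAt s (hpc.deriv s)
  have hρ : ∀ s, HasDerivAt (fun s => (pc Λ x 0 s).2) (Real.sin (Λ s x).2) s := fun s =>
    (ContinuousLinearMap.snd ℝ ℝ ℝ).hasFDerivAt.comp_hasDerivAt s (hpc.deriv s)
  set γ : ℝ → ℂ := fun s => ((pc Λ x 0 s).1 : ℂ) + ((pc Λ x 0 s).2 : ℂ) * Complex.I with hγ0
  have hγ : ∀ s, HasDerivAt γ (Complex.exp (((Λ s x).2 : ℂ) * Complex.I)) s := by
    intro s
    have h3 := (hα s).ofReal_comp.add ((hρ s).ofReal_comp.mul_const Complex.I)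
    refine h3.congr_deriv ?_
    rw [Complex.exp_mul_I, Complex.ofReal_cos, Complex.ofReal_sin]
  have h3 : ∀ u : ℝ, HasDerivAt (fun u : ℝ => γ (u * s))
      ((s : ℂ) * Complex.exp (((Λ (u * s) x).2 : ℂ) * Complex.I)) u := by
    intro u
    have h4 : HasDerivAt (fun u : ℝ => u * s) s u := by
      simpa using (hasDerivAt_id u).mul_const s
    have h5 := (hγ (u * s)).scomp u h4
    refine h5.congr_deriv ?_
    rw [Complex.real_smul]
  have hcont : Continuous fun u : ℝ =>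
      (s : ℂ) * Complex.exp (((Λ (u * s) x).2 : ℂ) * Complex.I) := by
    have h1 : Continuous fun y : ℝ × ((E m × ℝ) × ℝ) => Λ y.1 y.2 := h.flow.smooth.continuous
    have h2 : Continuous fun u : ℝ => Λ (u * s) x :=
      h1.comp ((continuous_id.mul continuous_const).prodMk continuous_const)
    exact continuous_const.mul (Complex.continuous_exp.comp
      ((Complex.continuous_ofReal.comp (continuous_snd.comp h2)).mul continuous_const))
  have h6 := intervalIntegral.integral_eq_sub_of_hasDerivAt (a := (0 : ℝ)) (b := 1)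
    (fun u _ => h3 u) (hcont.intervalIntegrable _ _)
  rw [intervalIntegral.integral_const_mul] at h6
  show (s : ℂ) * (∫ u in (0 : ℝ)..1, Complex.exp (((Λ (u * s) x).2 : ℂ) * Complex.I)) = _
  rw [h6, one_mul, zero_mul, hγ0]
  simp only [Prod.fst_sub, Prod.snd_sub, Complex.ofReal_sub]
  ring

private theorem nrpb_polar (h : LeafK N V R C M κ Λ F) {x : (E m × ℝ) × ℝ}
    {η : ℝ × ℝ → ℝ} (hη : PLift (pc Λ x 0) (fun s => (Λ s x).2) η) {s : ℝ} (hs : 0 ≤ s) :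
    ∃ r : ℝ, 0 < r ∧ nrpb_Q Λ (x, s) = r * Complex.exp ((η (0, s) : ℂ) * Complex.I) := by
  rcases hs.eq_or_lt with rfl | hs
  · refine ⟨1, one_pos, ?_⟩
    have h1 : η (0, 0) = (Λ 0 x).2 := hη.diag 0
    rw [h1, Complex.ofReal_one, one_mul]
    show (∫ u in (0 : ℝ)..1, Complex.exp (((Λ (u * 0) x).2 : ℂ) * Complex.I)) = _
    simp
  · obtain ⟨r, hr, hr'⟩ := hη.sec 0 s hs
    refine ⟨r / s, div_pos hr hs, ?_⟩
    have h1 := nrpb_sec h x s
    rw [hr'] at h1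
    have hs0 : (s : ℂ) ≠ 0 := by exact_mod_cast hs.ne'
    have h2 : nrpb_Q Λ (x, s) = ((s : ℂ) * nrpb_Q Λ (x, s)) / s := by
      rw [mul_div_cancel_left₀ _ hs0]
    rw [h2, h1, Complex.exp_mul_I]
    push_cast
    ring

private theorem nrpb_comp {r r₀ a a₀ : ℝ} {z z₀ : ℂ}
    (hz : z = r * Complex.exp ((a : ℂ) * Complex.I))
    (hz₀ : z₀ = r₀ * Complex.exp ((a₀ : ℂ) * Complex.I)) :
    (z * (starRingEnd ℂ) z₀).re = r * r₀ * Real.cos (a - a₀) ∧
      (z * (starRingEnd ℂ) z₀).im = r * r₀ * Real.sin (a - a₀) := by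
  have h1 : z.re = r * Real.cos a := by
    rw [hz, Complex.re_ofReal_mul, Complex.exp_ofReal_mul_I_re]
  have h2 : z.im = r * Real.sin a := by
    rw [hz, Complex.im_ofReal_mul, Complex.exp_ofReal_mul_I_im]
  have h3 : z₀.re = r₀ * Real.cos a₀ := by
    rw [hz₀, Complex.re_ofReal_mul, Complex.exp_ofReal_mul_I_re]
  have h4 : z₀.im = r₀ * Real.sin a₀ := by
    rw [hz₀, Complex.im_ofReal_mul, Complex.exp_ofReal_mul_I_im]
  constructor
  · rw [Complex.mul_re, Complex.conj_re, Complex.conj_im, h1, h2, h3, h4, Real.cos_sub]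
    ring
  · rw [Complex.mul_im, Complex.conj_re, Complex.conj_im, h1, h2, h3, h4, Real.sin_sub]
    ring

theorem RP_open (h : LeafK N V R C M κ Λ F) {x₀ : (E m × ℝ) × ℝ} (hx₀ : x₀ ∈ RPN N V C Λ) :
    ∃ O : Set ((E m × ℝ) × ℝ), IsOpen O ∧ x₀ ∈ O ∧ ∀ x ∈ O ∩ PSN N V C, x ∈ RPN N V C Λ := by
  obtain ⟨P₁, hP₁, hRP⟩ := RP_lift h
  obtain ⟨P₂, hP₂, hprog⟩ := progress h
  obtain ⟨⟨η₀, hη₀, hη₀'⟩, htl₀⟩ := hRP x₀ hx₀
  set P : ℝ := max P₁ P₂ with hPdef
  have hP : 0 < P := lt_max_of_lt_left hP₁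
  have hP1 : P₁ ≤ P := le_max_left _ _
  have hP2 : P₂ ≤ P := le_max_right _ _
  have hη₀P : |η₀ (0, P)| < Real.pi / 2 := hη₀' 0 P (by linarith)
  have htl₀P : 1 < tl Λ x₀ P := by
    have h1 := htl₀ 0 P (by linarith)
    rw [tl_zero] at h1
    linarith
  set μ : ℝ := Real.pi / 2 - |η₀ (0, P)| with hμ
  have hμ0 : 0 < μ := by linarith
  have hQc := nrpb_cont h
  have hpol₀ := fun s (hs : (0 : ℝ) ≤ s) => nrpb_polar h hη₀ hs
  -- the open conditions
  have e1 : ∀ᶠ x in 𝓝 x₀, ∀ s ∈ Icc 0 P,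
      0 < (nrpb_Q Λ (x, s) * (starRingEnd ℂ) (nrpb_Q Λ (x₀, s))).re := by
    refine isCompact_Icc.eventually_forall_of_forall_eventually (fun s hs => ?_)
    have hc : Continuous fun z : ((E m × ℝ) × ℝ) × ℝ =>
        (nrpb_Q Λ (z.1, z.2) * (starRingEnd ℂ) (nrpb_Q Λ (x₀, z.2))).re := by
      refine Complex.continuous_re.comp (hQc.mul (Complex.continuous_conj.comp ?_))
      exact hQc.comp (continuous_const.prodMk continuous_snd)
    refine (hc.tendsto (x₀, s)).eventually_const_lt ?_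
    show 0 < (nrpb_Q Λ (x₀, s) * (starRingEnd ℂ) (nrpb_Q Λ (x₀, s))).re
    obtain ⟨r, hr, hr'⟩ := hpol₀ s hs.1
    rw [(nrpb_comp hr' hr').1, sub_self, Real.cos_zero]
    positivity
  have e2 : ∀ᶠ x in 𝓝 x₀, |(nrpb_Q Λ (x, P) * (starRingEnd ℂ) (nrpb_Q Λ (x₀, P))).im|
      < μ * (nrpb_Q Λ (x, P) * (starRingEnd ℂ) (nrpb_Q Λ (x₀, P))).re := by
    have hc : Continuous fun x : (E m × ℝ) × ℝ =>
        nrpb_Q Λ (x, P) * (starRingEnd ℂ) (nrpb_Q Λ (x₀, P)) :=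
      (hQc.comp (continuous_id.prodMk continuous_const)).mul continuous_const
    have hc1 : Continuous fun x : (E m × ℝ) × ℝ =>
        |(nrpb_Q Λ (x, P) * (starRingEnd ℂ) (nrpb_Q Λ (x₀, P))).im| :=
      (Complex.continuous_im.comp hc).abs
    have hc2 : Continuous fun x : (E m × ℝ) × ℝ =>
        μ * (nrpb_Q Λ (x, P) * (starRingEnd ℂ) (nrpb_Q Λ (x₀, P))).re :=
      continuous_const.mul (Complex.continuous_re.comp hc)
    refine (hc1.tendsto x₀).eventually_lt (hc2.tendsto x₀) ?_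
    obtain ⟨r, hr, hr'⟩ := hpol₀ P hP.le
    rw [(nrpb_comp hr' hr').1, (nrpb_comp hr' hr').2, sub_self, Real.cos_zero, Real.sin_zero,
      mul_zero, abs_zero]
    positivity
  have e3 : ∀ᶠ x in 𝓝 x₀, |x.2 - x₀.2| < Real.pi / 2 := by
    have hc : Continuous fun x : (E m × ℝ) × ℝ => |x.2 - x₀.2| :=
      (continuous_snd.sub continuous_const).abs
    refine (hc.tendsto x₀).eventually_lt_const ?_
    rw [sub_self, abs_zero]
    positivity
  have e4 : ∀ᶠ x in 𝓝 x₀, 0 < tl Λ x P := by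
    have hc : Continuous fun x : (E m × ℝ) × ℝ => tl Λ x P :=
      (tl_cont h.flow).comp (continuous_id.prodMk continuous_const)
    exact (hc.tendsto x₀).eventually_const_lt (by linarith)
  obtain ⟨O, hO, hOo, hx₀O⟩ := eventually_nhds_iff.1 (e1.and (e2.and (e3.and e4)))
  refine ⟨O, hOo, hx₀O, fun x hx => ?_⟩
  obtain ⟨c1, c2, c3, c4⟩ := hO x hx.1
  have hxP := hx.2
  obtain ⟨η, hη⟩ := exists_lift (pcN h.flow x 0) (leafN_inj h hxP)
  -- comparison of the lifts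
  have hηc := hη.cont
  have hη₀c := hη₀.cont
  have hdc : Continuous fun s : ℝ => η (0, s) - η₀ (0, s) := by fun_prop
  have hcos : ∀ s ∈ Icc 0 P, 0 < Real.cos (η (0, s) - η₀ (0, s)) := by
    intro s hs
    obtain ⟨r, hr, hr'⟩ := nrpb_polar h hη hs.1
    obtain ⟨r₀, hr₀, hr₀'⟩ := hpol₀ s hs.1
    have h1 := c1 s hs
    rw [(nrpb_comp hr' hr₀').1] at h1
    exact (mul_pos_iff_of_pos_left (mul_pos hr hr₀)).1 h1
  have hd0 : |η (0, 0) - η₀ (0, 0)| < Real.pi / 2 := by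
    rw [hη.diag 0, hη₀.diag 0, h.flow.zero, h.flow.zero]
    exact c3
  have hdP := nrpb_lt hdc hP.le hcos hd0
  have hdμ : |η (0, P) - η₀ (0, P)| < μ := by
    refine nrpb_abs hdP hμ0 ?_
    obtain ⟨r, hr, hr'⟩ := nrpb_polar h hη hP.le
    obtain ⟨r₀, hr₀, hr₀'⟩ := hpol₀ P hP.le
    rw [(nrpb_comp hr' hr₀').1, (nrpb_comp hr' hr₀').2, abs_mul,
      abs_of_pos (mul_pos hr hr₀)] at c2
    have h1 : r * r₀ * |Real.sin (η (0, P) - η₀ (0, P))|
        < r * r₀ * (μ * Real.cos (η (0, P) - η₀ (0, P))) := by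
      refine c2.trans_le (le_of_eq ?_)
      ring
    exact lt_of_mul_lt_mul_left h1 (mul_pos hr hr₀).le
  have hηP : |η (0, P)| < Real.pi / 2 := by
    have h1 : |η (0, P)| ≤ |η (0, P) - η₀ (0, P)| + |η₀ (0, P)| := by
      have h2 := abs_add_le (η (0, P) - η₀ (0, P)) (η₀ (0, P))
      rwa [sub_add_cancel] at h2
    linarith
  -- the leaf goes from the left to the right
  have hlim : Tendsto (tl Λ x) atTop atTop := by
    rcases leafN_ends h hxP with h1 | h1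
    · exact h1.1
    · exfalso
      have hx' := PSN_pi h.base h.red hxP 1
      have hodd : ∀ s, tl Λ (x.1, x.2 + ((1 : ℤ) : ℝ) * Real.pi) s = tl Λ x (-s) := fun s =>
        tl_odd h.base h.red h.curv h.flow hxP odd_one s
      have hlim' : Tendsto (tl Λ (x.1, x.2 + ((1 : ℤ) : ℝ) * Real.pi)) atTop atTop := by
        have h2 := h1.2.comp tendsto_neg_atTop_atBot
        refine h2.congr fun s => ?_
        rw [hodd]
        rfl
      have h3 := hprog _ hx' hlim' (-P) 0 (by linarith)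
      rw [hodd, hodd, neg_neg, neg_zero, tl_zero] at h3
      linarith
  have hpr := hprog x hxP hlim
  obtain ⟨j, hj⟩ := lift_far hη hP (fun s t hst => by
    show 0 + tl Λ x s < 0 + tl Λ x t
    have h1 := hpr s t (by linarith)
    linarith)
  have hj0 : j = 0 := by
    have h1 := hj 0 P (by linarith)
    have h2 := abs_lt.1 h1
    have h3 := abs_lt.1 hηP
    have hpi := Real.pi_pos
    have h4 : (j : ℝ) < 1 := by
      by_contra hcon
      push Not at hcon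
      nlinarith [h2.1, h3.2]
    have h5 : (-1 : ℝ) < j := by
      by_contra hcon
      push Not at hcon
      nlinarith [h2.2, h3.1]
    have h6 : j < 1 := by exact_mod_cast h4
    have h7 : -1 < j := by exact_mod_cast h5
    omega
  refine ⟨hxP, hlim, η, hη, ?_⟩
  filter_upwards [eventually_ge_atTop P] with s hs
  have h1 := hj 0 s (by linarith)
  rw [hj0] at h1
  simpa using h1

theorem RP_phase (h : LeafK N V R C M κ Λ F) {x₀ : (E m × ℝ) × ℝ} (hx₀ : x₀ ∈ RPN N V C Λ) :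
    ∃ (W : Set (E m × ℝ)) (ϑ : E m × ℝ → ℝ), IsOpen W ∧ x₀.1 ∈ W ∧ ContDiffOn ℝ ∞ ϑ W ∧
      ϑ x₀.1 = x₀.2 ∧ ∀ y ∈ W, y ∈ C → (y, ϑ y) ∈ RPN N V C Λ := by
  obtain ⟨O, hO, hx₀O, hOR⟩ := RP_open h hx₀
  have hxP : x₀ ∈ PSN N V C := hx₀.1
  obtain ⟨W, u, hxW, hC⟩ := h.red.loc x₀.1 hxP.1
  obtain ⟨W₁, ϑ, -, hxW₁, hC₁, hϑ, hϑx⟩ :=
    exists_phaseN h.base.smooth hC hxW (hxP.2 W u hxW hC)
  have hcont : ContinuousOn (fun y : E m × ℝ => (y, ϑ y)) W₁ :=
    continuousOn_id.prodMk hϑ.smooth.continuousOn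
  refine ⟨W₁ ∩ (fun y : E m × ℝ => (y, ϑ y)) ⁻¹' O, ϑ,
    hcont.isOpen_inter_preimage hC₁.isOpen hO, ⟨hxW₁, ?_⟩,
    hϑ.smooth.mono inter_subset_left, hϑx, fun y hy hyC => ?_⟩
  · show (x₀.1, ϑ x₀.1) ∈ O
    rw [hϑx]
    exact hx₀O
  · exact hOR _ ⟨hy.2, (mem_PSN h.base h.red.sub hC₁ (x := (y, ϑ y)) hyC hy.1).2
      (hϑ.tang y hy.1)⟩

end Pool.Agent.H99.TW
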