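import Pool.Agent.H99.TW.KNLeafB

/-!
# Copy of `H2/TI/NSep` for a compact invariant set `N` (helper2 and module owners)
-/

set_option autoImplicit false

open scoped ContDiff Topology RealInnerProductSpace
open Set

namespace Pool.Agent.H99.TW

open Pool.Agent.H57.NL Pool.Agent.H2.TG Pool.Agent.H2.TI

variable {m n : ℕ} {N : Set (E m)} {V : E m → E m} {R : ℝ → E m → E m} {C : Set (E m × ℝ)}
  {M : ℝ} {κ : (E m × ℝ) × ℝ → ℝ} {Λ : ℝ → (E m × ℝ) × ℝ → (E m × ℝ) × ℝ}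

private theorem sn_tl (hΛ : IsFlow (LFN V κ) Λ) (x : (E m × ℝ) × ℝ) (s : ℝ) :
    |tl Λ x s| ≤ |s| := by
  have h := Convex.norm_image_sub_le_of_norm_hasDerivWithin_le (f := tl Λ x)
    (f' := fun t => Real.cos (Λ t x).2) (C := 1) (s := univ) (x := 0) (y := s)
    (fun t _ => (tl_deriv hΛ x t).hasDerivWithinAt)
    (fun t _ => by rw [Real.norm_eq_abs]; exact Real.abs_cos_le_one _)
    convex_univ (mem_univ _) (mem_univ _)
  simpa [tl_zero] using h

private theorem sn_r (hΛ : IsFlow (LFN V κ) Λ) (x : (E m × ℝ) × ℝ) (s : ℝ) :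
    |(Λ s x).1.2 - x.1.2| ≤ |s| := by
  have h := Convex.norm_image_sub_le_of_norm_hasDerivWithin_le (f := fun s => (Λ s x).1.2)
    (f' := fun t => Real.sin (Λ t x).2) (C := 1) (s := univ) (x := 0) (y := s)
    (fun t _ => (leafN_r hΛ x t).hasDerivWithinAt)
    (fun t _ => by rw [Real.norm_eq_abs]; exact Real.abs_sin_le_one _)
    convex_univ (mem_univ _) (mem_univ _)
  simpa [hΛ.zero] using h

private theorem sn_R (hB : BaseK N V R) {K : ℝ} (hK : ∀ x, ‖V x‖ ≤ K) (q : E m) (t : ℝ) :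
    ‖R t q - q‖ ≤ K * |t| := by
  have h := Convex.norm_image_sub_le_of_norm_hasDerivWithin_le (f := fun t => R t q)
    (f' := fun t => V (R t q)) (C := K) (s := univ) (x := 0) (y := t)
    (fun t _ => (hB.flow.deriv q t).hasDerivWithinAt) (fun t _ => hK _)
    convex_univ (mem_univ _) (mem_univ _)
  simpa [hB.flow.zero] using h

private theorem sn_cos {a b : ℝ} {k : ℤ} (hab : |b| ≤ Real.pi / 4) (h : a = b + k * Real.pi) :
    1 / 2 ≤ |Real.cos a| := by
  have h1 : |Real.cos a| = |Real.cos b| := by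
    rw [h, Real.cos_add_int_mul_pi]
    rw [abs_mul]
    have : |((-1 : ℝ)) ^ k| = 1 := by
      rw [abs_zpow]; simp
    rw [this, one_mul]
  have h2 : Real.cos (Real.pi / 4) ≤ Real.cos b := by
    rw [← Real.cos_abs b]
    exact Real.cos_le_cos_of_nonneg_of_le_pi (abs_nonneg b) (by linarith [Real.pi_pos]) hab
  have h3 : (1 : ℝ) / 2 ≤ Real.cos (Real.pi / 4) := by
    rw [Real.cos_pi_div_four]
    have : (1 : ℝ) ≤ Real.sqrt 2 := by
      rw [show (1 : ℝ) = Real.sqrt 1 by simp]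
      exact Real.sqrt_le_sqrt (by norm_num)
    linarith
  rw [h1]
  exact le_trans (le_trans h3 h2) (le_abs_self _)

/-- The derivative of the local equation across the leaf. -/
private theorem sn_reg {W : Set (E m × ℝ)} {u : E m × ℝ → ℝ} (hC : LocN N V C W u)
    {x : E m × ℝ} (hx : x ∈ W) {φ : ℝ} (h : dpl V u x (Real.cos φ) (Real.sin φ) = 0) :
    dpl V u x (-Real.sin φ) (Real.cos φ) ≠ 0 := by
  intro h'
  rw [dpl_lin] at h h'
  have hs := Real.sin_sq_add_cos_sq φ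
  refine hC.reg x hx ⟨?_, ?_⟩
  · linear_combination Real.cos φ * h - Real.sin φ * h' - dpl V u x 1 0 * hs
  · linear_combination Real.sin φ * h + Real.cos φ * h' - dpl V u x 0 1 * hs

/-- Two points of `C` on a planar line across the leaf are equal. -/
private theorem sn_rolle (hB : BaseK N V R) (hs : ∀ x ∈ C, x.1 ∈ N) {W : Set (E m × ℝ)}
    {u : E m × ℝ → ℝ} (hC : LocN N V C W u) {φ₀ : ℝ} {q : E m} {a r c : ℝ}
    (hseg : ∀ l ∈ Icc (0 : ℝ) 1,
      (R (a + l * (c * -Real.sin φ₀)) q, r + l * (c * Real.cos φ₀)) ∈ W ∧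
      dpl V u (R (a + l * (c * -Real.sin φ₀)) q, r + l * (c * Real.cos φ₀))
        (-Real.sin φ₀) (Real.cos φ₀) ≠ 0)
    (h0 : (R a q, r) ∈ C)
    (h1 : (R (a + c * -Real.sin φ₀) q, r + c * Real.cos φ₀) ∈ C) : c = 0 := by
  by_contra hc
  set p : ℝ → E m × ℝ := fun l =>
    (R (a + l * (c * -Real.sin φ₀)) q, r + l * (c * Real.cos φ₀)) with hp
  have hpd : ∀ l, HasDerivAt p ((c * -Real.sin φ₀) • V (p l).1, c * Real.cos φ₀) l := by
    intro l
    have e1 : HasDerivAt (fun l : ℝ => a + l * (c * -Real.sin φ₀)) (c * -Real.sin φ₀) l := by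
      have := ((hasDerivAt_id l).mul_const (c * -Real.sin φ₀)).const_add a
      simpa using this
    have e2 : HasDerivAt (fun l : ℝ => r + l * (c * Real.cos φ₀)) (c * Real.cos φ₀) l := by
      have := ((hasDerivAt_id l).mul_const (c * Real.cos φ₀)).const_add r
      simpa using this
    have e3 := (hB.flow.deriv q (a + l * (c * -Real.sin φ₀))).scomp l e1
    exact e3.prodMk e2
  have hd : ∀ l ∈ Icc (0 : ℝ) 1, HasDerivAt (fun l : ℝ => u (p l))
      (c * dpl V u (p l) (-Real.sin φ₀) (Real.cos φ₀)) l := by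
    intro l hl
    have hW := (hseg l hl).1
    have h1 : DifferentiableAt ℝ u (p l) :=
      (hC.smooth.contDiffAt (hC.isOpen.mem_nhds hW)).differentiableAt (by simp)
    have h3 := h1.hasFDerivAt.comp_hasDerivAt l (hpd l)
    have h4 : (fderiv ℝ u (p l)) ((c * -Real.sin φ₀) • V (p l).1, c * Real.cos φ₀) =
        c * dpl V u (p l) (-Real.sin φ₀) (Real.cos φ₀) := by
      show dpl V u (p l) (c * -Real.sin φ₀) (c * Real.cos φ₀) = _
      rw [dpl_lin, dpl_lin (V := V) (u := u) (p l) (-Real.sin φ₀)]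
      ring
    rw [h4] at h3
    exact h3
  have hp0 : p 0 = (R a q, r) := by simp [hp]
  have hp1 : p 1 = (R (a + c * -Real.sin φ₀) q, r + c * Real.cos φ₀) := by simp [hp]
  obtain ⟨l, hl, hl0⟩ := exists_hasDerivAt_eq_zero (f := fun l : ℝ => u (p l))
    (f' := fun l => c * dpl V u (p l) (-Real.sin φ₀) (Real.cos φ₀))
    (a := 0) (b := 1) zero_lt_one (fun l hl => (hd l hl).continuousAt.continuousWithinAt)
    (by
      have hW0 : p 0 ∈ W := (hseg 0 ⟨le_rfl, zero_le_one⟩).1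
      have hW1 : p 1 ∈ W := (hseg 1 ⟨zero_le_one, le_rfl⟩).1
      rw [← hp0] at h0
      rw [← hp1] at h1
      have e1 : u (p 0) = 0 := (hC.eqn _ hW0 (hs _ h0)).1 h0
      have e2 : u (p 1) = 0 := (hC.eqn _ hW1 (hs _ h1)).1 h1
      simp only [e1, e2])
    (fun l hl => hd l (Ioo_subset_Icc_self hl))
  exact (hseg l (Ioo_subset_Icc_self hl)).2 ((mul_eq_zero.1 hl0).resolve_left hc)

private theorem sn_loc (hB : BaseK N V R) (hR : RedN N V C M) (hκ : CurvN N V C κ)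
    (hΛ : IsFlow (LFN V κ) Λ) {x₀ : E m × ℝ} (hx₀ : x₀ ∈ C) : ∃ ε : ℝ, 0 < ε ∧
      ∀ x ∈ PSN N V C, ‖x.1 - x₀‖ < ε → ∀ t h : ℝ, |t| < 2 * ε → |h| < 2 * ε →
        (R t x.1.1, x.1.2 + h) ∈ C →
          ∃ s, |s| < 1 ∧ tl Λ x s = t ∧ (Λ s x).1.2 = x.1.2 + h := by
  obtain ⟨W₀, u, hxW₀, hC₀⟩ := hR.loc x₀ hx₀
  obtain ⟨φ₀, hφ₀⟩ := PSN_exists hB hR hx₀
  have hd0 := (mem_PSN hB hR.sub hC₀ (x := (x₀, φ₀)) hx₀ hxW₀).1 hφ₀
  obtain ⟨W, ϑ, -, hxW, hC, hϑ, hϑ0⟩ := exists_phaseN hB.smooth hC₀ hxW₀ hd0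
  have hP0 := sn_reg hC hxW hd0
  obtain ⟨K₀, hK₀⟩ := hB.bdd
  set K : ℝ := max K₀ 1 with hKdef
  have hK : ∀ x, ‖V x‖ ≤ K := fun x => (hK₀ x).trans (le_max_left _ _)
  have hK1 : 1 ≤ K := le_max_right _ _
  -- choice of the radius
  have hev : ∀ᶠ y in 𝓝 x₀, y ∈ W ∧ dpl V u y (-Real.sin φ₀) (Real.cos φ₀) ≠ 0 ∧
      |ϑ y - φ₀| < Real.pi / 4 := by
    have h1 : ∀ᶠ y in 𝓝 x₀, y ∈ W := hC.isOpen.mem_nhds hxW
    have h2 : ∀ᶠ y in 𝓝 x₀, dpl V u y (-Real.sin φ₀) (Real.cos φ₀) ≠ 0 :=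
      ((dpl_smooth hB.smooth hC _ _).continuousOn.continuousAt
        (hC.isOpen.mem_nhds hxW)).eventually_ne hP0
    have h3 : ContinuousAt (fun y => |ϑ y - φ₀|) x₀ :=
      ((hϑ.smooth.continuousOn.continuousAt (hC.isOpen.mem_nhds hxW)).sub
        continuousAt_const).abs
    have h4 : ∀ᶠ y in 𝓝 x₀, |ϑ y - φ₀| < Real.pi / 4 :=
      h3.eventually_lt continuousAt_const (by simp [hϑ0]; positivity)
    filter_upwards [h1, h2, h4] with y a b c using ⟨a, b, c⟩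
  rw [Metric.eventually_nhds_iff_ball] at hev
  obtain ⟨ρ, hρ, hball⟩ := hev
  set ε : ℝ := min (ρ / (40 * K)) (1 / 40) with hε
  have hεpos : 0 < ε := lt_min (by positivity) (by norm_num)
  have hερ : 40 * (K * ε) ≤ ρ := by
    have h1 : ε ≤ ρ / (40 * K) := min_le_left _ _
    rw [le_div_iff₀ (by positivity)] at h1
    linarith
  have hεK : ε ≤ K * ε := by nlinarith
  have hε1 : 40 * ε ≤ 1 := by linarith [min_le_right (ρ / (40 * K)) (1 / 40 : ℝ)]
  refine ⟨ε, hεpos, ?_⟩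
  intro x hx hxε t h ht1 hr1 hy
  -- the planar square is in the ball
  have hsq : ∀ t' h' : ℝ, |t'| ≤ 18 * ε → |h'| ≤ 18 * ε →
      (R t' x.1.1, x.1.2 + h') ∈ Metric.ball x₀ ρ := by
    intro t' h' h1 h2
    rw [mem_ball_iff_norm]
    have e1 : ‖((R t' x.1.1, x.1.2 + h') : E m × ℝ) - x.1‖ ≤ 18 * (K * ε) := by
      rw [Prod.norm_def]
      refine max_le ?_ ?_
      · show ‖R t' x.1.1 - x.1.1‖ ≤ _
        refine (sn_R hB hK _ _).trans ?_
        nlinarith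
      · show ‖x.1.2 + h' - x.1.2‖ ≤ _
        rw [add_sub_cancel_left, Real.norm_eq_abs]
        linarith
    calc ‖((R t' x.1.1, x.1.2 + h') : E m × ℝ) - x₀‖
        = ‖(((R t' x.1.1, x.1.2 + h') : E m × ℝ) - x.1) + (x.1 - x₀)‖ := by congr 1; abel
      _ ≤ ‖((R t' x.1.1, x.1.2 + h') : E m × ℝ) - x.1‖ + ‖x.1 - x₀‖ := norm_add_le _ _
      _ < ρ := by linarith
  have hΛe : ∀ s, (Λ s x).1 =
      (R (tl Λ x s) x.1.1, x.1.2 + ((Λ s x).1.2 - x.1.2)) := by
    intro s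
    refine Prod.ext (leafN_q hB hΛ x s) ?_
    show (Λ s x).1.2 = x.1.2 + ((Λ s x).1.2 - x.1.2)
    ring
  -- the leaf stays in the ball
  have hstay : ∀ s, |s| ≤ 9 * ε → (Λ s x).1 ∈ Metric.ball x₀ ρ := by
    intro s hs
    rw [hΛe s]
    exact hsq _ _ (by linarith [sn_tl hΛ x s]) (by linarith [sn_r hΛ x s])
  have hmem := fun s => leafN_mem hB hR hκ hΛ hx s
  set f : ℝ → ℝ := fun s => Real.cos ((Λ s x).2 - φ₀) with hf
  have hfabs : ∀ s, |s| ≤ 9 * ε → 1 / 2 ≤ |f s| := by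
    intro s hs
    have hb := hball _ (hstay s hs)
    have hin := hmem s
    have h1 : ((Λ s x).1, ϑ (Λ s x).1) ∈ PSN N V C :=
      (mem_PSN hB hR.sub hC (x := ((Λ s x).1, ϑ (Λ s x).1)) hin.1 hb.1).2 (hϑ.tang _ hb.1)
    obtain ⟨k, hk⟩ := PSN_unique hB hR (y := (Λ s x).1) (φ := (Λ s x).2) hin h1
    exact sn_cos (b := ϑ (Λ s x).1 - φ₀) (k := k) hb.2.2.le (by rw [hk]; ring)
  have hph : Continuous fun s => (Λ s x).2 :=
    continuous_iff_continuousAt.2 fun s => (leafN_ph hΛ x s).continuousAt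
  have hfc : Continuous f := Real.continuous_cos.comp (hph.sub continuous_const)
  have hsign : ∀ s, |s| ≤ 9 * ε → (0 < f 0 → 1 / 2 ≤ f s) ∧ (f 0 < 0 → f s ≤ -(1 / 2)) := by
    intro s hs
    have hno : (0 : ℝ) ∉ uIcc (f 0) (f s) := by
      intro h0
      obtain ⟨r, hr, hr0⟩ := intermediate_value_uIcc (f := f) (a := 0) (b := s)
        hfc.continuousOn h0
      have hrs : |r| ≤ 9 * ε := by
        have := abs_sub_left_of_mem_uIcc hr
        simp only [sub_zero] at this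
        exact this.trans hs
      have := hfabs r hrs
      rw [hr0, abs_zero] at this
      linarith
    have habs := hfabs s hs
    constructor
    · intro h0
      rcases le_abs.1 habs with h1 | h1
      · exact h1
      · exact absurd (mem_uIcc.2 (Or.inr ⟨by linarith, h0.le⟩)) hno
    · intro h0
      rcases le_abs.1 habs with h1 | h1
      · exact absurd (mem_uIcc.2 (Or.inl ⟨h0.le, by linarith⟩)) hno
      · linarith
  -- the coordinate along the leaf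
  set b : ℝ → ℝ := fun s => tl Λ x s * Real.cos φ₀ +
    ((Λ s x).1.2 - x.1.2) * Real.sin φ₀ with hbdef
  have hbd : ∀ s, HasDerivAt b (f s) s := by
    intro s
    have h1 := ((tl_deriv hΛ x s).mul_const (Real.cos φ₀)).add
      (((leafN_r hΛ x s).sub_const x.1.2).mul_const (Real.sin φ₀))
    have h2 : Real.cos (Λ s x).2 * Real.cos φ₀ + Real.sin (Λ s x).2 * Real.sin φ₀ = f s := by
      rw [hf]; simp only; rw [Real.cos_sub]
    rw [h2] at h1
    exact h1
  have hbc : Continuous b := continuous_iff_continuousAt.2 fun s => (hbd s).continuousAt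
  have hb0 : b 0 = 0 := by
    simp [hbdef, hΛ.zero, tl_zero]
  have hε9 : (0 : ℝ) < 9 * ε := by linarith
  obtain ⟨ξ, hξ, hξe⟩ := exists_hasDerivAt_eq_slope b f hε9 hbc.continuousOn
    (fun s _ => hbd s)
  obtain ⟨η, hη, hηe⟩ := exists_hasDerivAt_eq_slope b f (neg_lt_zero.2 hε9) hbc.continuousOn
    (fun s _ => hbd s)
  have hb1 : b (9 * ε) = 9 * ε * f ξ := by
    rw [hξe, hb0]; field_simp; ring
  have hb2 : b (-(9 * ε)) = -(9 * ε) * f η := by
    rw [hηe, hb0]; field_simp; ring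
  have hξ9 : |ξ| ≤ 9 * ε := abs_le.2 ⟨by linarith [hξ.1], hξ.2.le⟩
  have hη9 : |η| ≤ 9 * ε := abs_le.2 ⟨hη.1.le, by linarith [hη.2]⟩
  -- the target value
  set β : ℝ := t * Real.cos φ₀ + h * Real.sin φ₀ with hβ
  have hβ4 : |β| ≤ 4 * ε := by
    calc |β| ≤ |t * Real.cos φ₀| + |h * Real.sin φ₀| := abs_add_le _ _
      _ = |t| * |Real.cos φ₀| + |h| * |Real.sin φ₀| := by rw [abs_mul, abs_mul]
      _ ≤ |t| * 1 + |h| * 1 := by
          gcongr
          · exact Real.abs_cos_le_one _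
          · exact Real.abs_sin_le_one _
      _ ≤ 4 * ε := by linarith
  have hβu : β ∈ uIcc (b (-(9 * ε))) (b (9 * ε)) := by
    have hz : |(0 : ℝ)| ≤ 9 * ε := by rw [abs_zero]; exact hε9.le
    rcases le_abs.1 (hfabs 0 hz) with h0 | h0
    · have h1 := (hsign ξ hξ9).1 (by linarith)
      have h2 := (hsign η hη9).1 (by linarith)
      refine mem_uIcc.2 (Or.inl ⟨?_, ?_⟩)
      · rw [hb2]; nlinarith [neg_abs_le β]
      · rw [hb1]; nlinarith [le_abs_self β]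
    · have h1 := (hsign ξ hξ9).2 (by linarith)
      have h2 := (hsign η hη9).2 (by linarith)
      refine mem_uIcc.2 (Or.inr ⟨?_, ?_⟩)
      · rw [hb1]; nlinarith [neg_abs_le β]
      · rw [hb2]; nlinarith [le_abs_self β]
  obtain ⟨s, hs, hbs⟩ := intermediate_value_uIcc (f := b) hbc.continuousOn hβu
  have hs9 : |s| ≤ 9 * ε := by
    rw [uIcc_of_le (by linarith)] at hs
    exact abs_le.2 hs
  refine ⟨s, by linarith, ?_⟩
  -- the two points agree
  set a := tl Λ x s with ha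
  set k := (Λ s x).1.2 - x.1.2 with hk
  have hbs' : a * Real.cos φ₀ + k * Real.sin φ₀ = β := hbs
  have ha9 : |a| ≤ 9 * ε := (sn_tl hΛ x s).trans hs9
  have hk9 : |k| ≤ 9 * ε := (sn_r hΛ x s).trans hs9
  set c : ℝ := -(t - a) * Real.sin φ₀ + (h - k) * Real.cos φ₀ with hc
  have hsc := Real.sin_sq_add_cos_sq φ₀
  have h1 : c * -Real.sin φ₀ = t - a := by
    rw [hc]
    linear_combination (t - a) * hsc - Real.cos φ₀ * (hβ.symm.trans hbs'.symm)
  have h2 : c * Real.cos φ₀ = h - k := by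
    rw [hc]
    linear_combination (h - k) * hsc - Real.sin φ₀ * (hβ.symm.trans hbs'.symm)
  have hp := (hmem s).1
  rw [hΛe s] at hp
  have hc0 : c = 0 := by
    refine sn_rolle (φ₀ := φ₀) (q := x.1.1) (a := a) (r := x.1.2 + k) hB hR.sub hC ?_ hp ?_
    · intro l hl
      rw [h1, h2]
      have e1 : |a + l * (t - a)| ≤ 18 * ε := by
        have : a + l * (t - a) = (1 - l) * a + l * t := by ring
        rw [this]
        refine (abs_add_le _ _).trans ?_
        rw [abs_mul, abs_mul, abs_of_nonneg (by linarith [hl.2] : (0 : ℝ) ≤ 1 - l),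
          abs_of_nonneg hl.1]
        nlinarith [hl.1, hl.2, abs_nonneg a, abs_nonneg t]
      have e2 : |k + l * (h - k)| ≤ 18 * ε := by
        have : k + l * (h - k) = (1 - l) * k + l * h := by ring
        rw [this]
        refine (abs_add_le _ _).trans ?_
        rw [abs_mul, abs_mul, abs_of_nonneg (by linarith [hl.2] : (0 : ℝ) ≤ 1 - l),
          abs_of_nonneg hl.1]
        nlinarith [hl.1, hl.2, abs_nonneg k, abs_nonneg h]
      have e3 := hball _ (hsq _ _ e1 e2)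
      rw [← add_assoc] at e3
      exact ⟨e3.1, e3.2.1⟩
    · rw [h1, h2, show a + (t - a) = t by ring, show x.1.2 + k + (h - k) = x.1.2 + h by ring]
      exact hy
  rw [hc0, zero_mul] at h1 h2
  refine ⟨by linarith, ?_⟩
  have : k = h := by linarith
  rw [← this, hk]
  ring

theorem sepN (hB : BaseK N V R) (hR : RedN N V C M) (hκ : CurvN N V C κ)
    (hΛ : IsFlow (LFN V κ) Λ) : ∃ δ : ℝ, 0 < δ ∧ ∀ x ∈ PSN N V C, ∀ t h : ℝ, |t| < δ → |h| < δ →
      (R t x.1.1, x.1.2 + h) ∈ C →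
        ∃ s, |s| < 1 ∧ tl Λ x s = t ∧ (Λ s x).1.2 = x.1.2 + h := by
  choose! ε hε hloc using fun (x₀ : E m × ℝ) (hx₀ : x₀ ∈ C) => sn_loc hB hR hκ hΛ hx₀
  have hCc : IsCompact C := by
    refine IsCompact.of_isClosed_subset (hB.cpt.prod (isCompact_Icc (a := -M) (b := M)))
      hR.closed ?_
    intro x hx
    exact ⟨hR.sub x hx, abs_le.1 (hR.bdd x hx).le⟩
  obtain ⟨δ, hδ, H⟩ := lebesgue_number_lemma_of_metric (s := C)
    (c := fun x₀ : C => Metric.ball (x₀ : E m × ℝ) (ε x₀)) hCc (fun _ => Metric.isOpen_ball)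
    (fun z hz => mem_iUnion.2 ⟨⟨z, hz⟩, Metric.mem_ball_self (hε z hz)⟩)
  refine ⟨δ, hδ, ?_⟩
  intro x hx t h ht hh hy
  obtain ⟨⟨x₀, hx₀⟩, hsub⟩ := H _ hx.1
  have h1 : x.1 ∈ Metric.ball x₀ (ε x₀) := hsub (Metric.mem_ball_self hδ)
  have hlt : ∀ r : ℝ, |r| < δ → |r| < 2 * ε x₀ := by
    intro r hr
    have e1 : ((x.1.1, x.1.2 + r) : E m × ℝ) ∈ Metric.ball x₀ (ε x₀) := by
      refine hsub ?_
      rw [mem_ball_iff_norm, Prod.norm_def]
      refine max_lt ?_ ?_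
      · show ‖x.1.1 - x.1.1‖ < δ
        rw [sub_self, norm_zero]; exact hδ
      · show ‖x.1.2 + r - x.1.2‖ < δ
        rw [add_sub_cancel_left, Real.norm_eq_abs]; exact hr
    rw [mem_ball_iff_norm] at e1 h1
    have e2 : ‖((x.1.1, x.1.2 + r) : E m × ℝ) - x.1‖ < 2 * ε x₀ := by
      calc ‖((x.1.1, x.1.2 + r) : E m × ℝ) - x.1‖
          = ‖(((x.1.1, x.1.2 + r) : E m × ℝ) - x₀) - (x.1 - x₀)‖ := by congr 1; abel
        _ ≤ ‖((x.1.1, x.1.2 + r) : E m × ℝ) - x₀‖ + ‖x.1 - x₀‖ := norm_sub_le _ _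
        _ < 2 * ε x₀ := by linarith
    have e3 : ‖x.1.2 + r - x.1.2‖ ≤ ‖((x.1.1, x.1.2 + r) : E m × ℝ) - x.1‖ :=
      norm_snd_le (((x.1.1, x.1.2 + r) : E m × ℝ) - x.1)
    rw [add_sub_cancel_left, Real.norm_eq_abs] at e3
    linarith
  rw [mem_ball_iff_norm] at h1
  exact hloc x₀ hx₀ x hx h1 t h (hlt t ht) (hlt h hh) hy

end Pool.Agent.H99.TW
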