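import Pool.Agent.H99.TW.KNTop
import Pool.Agent.H99.TW.KNRPb
import Pool.Agent.H2.TG.Glue

/-!
# Copy of `H2/TI/NTheta` for a compact invariant set `N` (helper2 and module owners)
-/

set_option autoImplicit false

open scoped ContDiff Topology RealInnerProductSpace
open Set Filter

namespace Pool.Agent.H99.TW

open Pool.Agent.H57.NL Pool.Agent.H2.TG Pool.Agent.H2.TI

variable {m n : ℕ} {N : Set (E m)} {V : E m → E m} {R : ℝ → E m → E m} {C : Set (E m × ℝ)}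
  {M : ℝ} {κ : (E m × ℝ) × ℝ → ℝ} {Λ : ℝ → (E m × ℝ) × ℝ → (E m × ℝ) × ℝ} {F : E m × ℝ → ℝ}

theorem exists_Theta (h : LeafK N V R C M κ Λ F) : ∃ Θ : E m × ℝ → ℝ, PhaseI Θ (M + 1) ∧
    (∀ x ∈ RPN N V C Λ, Θ x.1 = x.2) ∧ ∀ y ∈ ZUp R C M ∪ ZDn R C M, |Θ y| ≤ 1 / 5 := by
  have hclosed : IsClosed (ZUp R C M ∪ ZDn R C M) :=
    (ZUp_closed h.base h.red).union (ZDn_closed h.base h.red)
  obtain ⟨Θ₀, hΘ₀, hΘt⟩ := exists_glue (V := E m × ℝ)
    (fun y => {k | (∀ φ, (y, φ) ∈ RPN N V C Λ → k = φ) ∧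
      (y ∈ ZUp R C M ∪ ZDn R C M → |k| ≤ 1 / 5)})
    (by
      intro y k1 h1 k2 h2 a b ha hb hab
      refine ⟨fun φ hφ => ?_, fun hy => ?_⟩
      · rw [h1.1 φ hφ, h2.1 φ hφ, smul_eq_mul, smul_eq_mul, ← add_mul, hab, one_mul]
      · have e1 := abs_le.1 (h1.2 hy)
        have e2 := abs_le.1 (h2.2 hy)
        rw [smul_eq_mul, smul_eq_mul]
        have hb' : b = 1 - a := by linarith
        refine abs_le.2 ⟨?_, ?_⟩
        · nlinarith [mul_nonneg ha (sub_nonneg.2 e1.1), mul_nonneg hb (sub_nonneg.2 e2.1)]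
        · nlinarith [mul_nonneg ha (sub_nonneg.2 e1.2), mul_nonneg hb (sub_nonneg.2 e2.2)])
    (by
      intro y₀
      by_cases hy₀ : y₀ ∈ C
      · obtain ⟨φ₀, hφ₀⟩ := RP_exists h hy₀
        obtain ⟨W, ϑ, hWo, hyW, hϑ, hϑ0, hϑR⟩ := RP_phase h hφ₀
        by_cases hz : y₀ ∈ ZUp R C M ∪ ZDn R C M
        · have hsm : |ϑ y₀| ≤ 1 / 20 := by
            have hϑ0' : ϑ y₀ = φ₀ := hϑ0
            rw [hϑ0']
            rcases hz with hz | hz
            · exact top_phase h hφ₀ (ZUp_C h.base h.red hy₀ hz)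
            · exact bot_phase h hφ₀ (ZDn_C h.base h.red hy₀ hz)
          have hopen : IsOpen (W ∩ ϑ ⁻¹' {k : ℝ | |k| < 1 / 5}) :=
            hϑ.continuousOn.isOpen_inter_preimage hWo (isOpen_lt continuous_abs continuous_const)
          refine ⟨_, hopen, ⟨hyW, ?_⟩, ϑ, hϑ.mono inter_subset_left, fun y hy =>
            ⟨fun φ hφ => RP_unique h (hϑR y hy.1 hφ.1.1) hφ, fun _ => le_of_lt hy.2⟩⟩
          show |ϑ y₀| < 1 / 5
          linarith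
        · exact ⟨W ∩ (ZUp R C M ∪ ZDn R C M)ᶜ, hWo.inter hclosed.isOpen_compl, ⟨hyW, hz⟩, ϑ,
            hϑ.mono inter_subset_left, fun y hy =>
            ⟨fun φ hφ => RP_unique h (hϑR y hy.1 hφ.1.1) hφ, fun hy' => (hy.2 hy').elim⟩⟩
      · exact ⟨Cᶜ, h.red.closed.isOpen_compl, hy₀, fun _ => 0, contDiffOn_const, fun y hy =>
          ⟨fun φ hφ => (hy hφ.1.1).elim, fun _ => by norm_num⟩⟩)
  have hs : IsClosed {r : ℝ | M + 1 ≤ |r|} := isClosed_le continuous_const continuous_abs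
  have ht : IsClosed {r : ℝ | |r| ≤ M} := isClosed_le continuous_abs continuous_const
  have hst : Disjoint {r : ℝ | M + 1 ≤ |r|} {r : ℝ | |r| ≤ M} := by
    rw [Set.disjoint_left]
    intro r h1 h2
    have h1' : M + 1 ≤ |r| := h1
    have h2' : |r| ≤ M := h2
    linarith
  obtain ⟨ζ, hζ, hζ0, hζ1, hζb⟩ := exists_cut hs ht hst
  refine ⟨fun y => ζ y.2 * Θ₀ y, ⟨?_, ?_, ?_⟩, ?_, ?_⟩
  · exact (hζ.comp contDiff_snd).mul hΘ₀
  · intro x hx
    show ζ x.2 * Θ₀ x = 0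
    rw [hζ0 x.2 hx, zero_mul]
  · have := h.red.hM
    linarith
  · intro x hx
    show ζ x.1.2 * Θ₀ x.1 = x.2
    have hC : x.1 ∈ C := hx.1.1
    rw [hζ1 x.1.2 (h.red.bdd x.1 hC).le, one_mul]
    exact (hΘt x.1).1 x.2 hx
  · intro y hy
    show |ζ y.2 * Θ₀ y| ≤ 1 / 5
    rw [abs_mul, abs_of_nonneg (hζb y.2).1]
    have h1 := (hΘt y).2 hy
    have h2 := hζb y.2
    calc ζ y.2 * |Θ₀ y| ≤ 1 * |Θ₀ y| := mul_le_mul_of_nonneg_right h2.2 (abs_nonneg _)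
      _ = |Θ₀ y| := one_mul _
      _ ≤ 1 / 5 := h1

end Pool.Agent.H99.TW
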