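import Pool.Agent.H99.TW.KNAll

/-!
# Copy of `H2/TI/NUni` for a compact invariant set `N` (helper2 and module owners)
-/

set_option autoImplicit false

open scoped ContDiff Topology RealInnerProductSpace
open Set Filter

namespace Pool.Agent.H99.TW

open Pool.Agent.H57.NL Pool.Agent.H2.TG Pool.Agent.H2.TI

variable {m n : ℕ} {N : Set (E m)} {V : E m → E m} {R : ℝ → E m → E m} {C : Set (E m × ℝ)}
  {M : ℝ} {κ : (E m × ℝ) × ℝ → ℝ} {Λ : ℝ → (E m × ℝ) × ℝ → (E m × ℝ) × ℝ} {F : E m × ℝ → ℝ}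

private theorem nuni_contR (hB : BaseK N V R) :
    Continuous fun z : ℝ × E m => R z.1 z.2 := hB.flow.smooth.continuous

private theorem nuni_contPc (h : LeafK N V R C M κ Λ F) :
    Continuous fun z : ((E m × ℝ) × ℝ) × ℝ => pc Λ z.1 0 z.2 := by
  have h1 : Continuous fun z : ((E m × ℝ) × ℝ) × ℝ => Λ z.2 z.1 := by
    have h2 := h.flow.smooth.continuous
    exact h2.comp (continuous_snd.prodMk continuous_fst)
  have h3 : Continuous fun z : ((E m × ℝ) × ℝ) × ℝ => (0 : ℝ) + tl Λ z.1 z.2 :=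
    continuous_const.add (tl_cont h.flow)
  exact h3.prodMk (continuous_snd.comp (continuous_fst.comp h1))

private theorem nuni_tail (h : LeafK N V R C M κ Λ F) {x : (E m × ℝ) × ℝ} (hx : x ∈ PSN N V C) :
    ∃ P : ℝ, 0 ≤ P ∧ ∀ s, |tl Λ x s| ≤ 2 → |s| ≤ P := by
  have key : ∀ g : ℝ → ℝ, (∀ᶠ s in atTop, 2 < |g s|) → (∀ᶠ s in atBot, 2 < |g s|) →
      ∃ P : ℝ, 0 ≤ P ∧ ∀ s, |g s| ≤ 2 → |s| ≤ P := by
    intro g h1 h2
    obtain ⟨a, ha⟩ := eventually_atTop.1 h1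
    obtain ⟨b, hb⟩ := eventually_atBot.1 h2
    refine ⟨max |a| |b|, (abs_nonneg a).trans (le_max_left _ _), fun s hs => ?_⟩
    have h3 : s < a := by
      by_contra hc
      exact absurd hs (not_le.2 (ha s (not_lt.1 hc)))
    have h4 : b < s := by
      by_contra hc
      exact absurd hs (not_le.2 (hb s (not_lt.1 hc)))
    rw [abs_le]
    constructor
    · have : |b| ≤ max |a| |b| := le_max_right _ _
      have := neg_abs_le b
      linarith
    · have : |a| ≤ max |a| |b| := le_max_left _ _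
      have := le_abs_self a
      linarith
  refine key (tl Λ x) ?_ ?_
  · rcases leafN_ends h hx with ⟨h1, _⟩ | ⟨h1, _⟩
    · filter_upwards [h1.eventually_gt_atTop 2] with s hs
      exact hs.trans_le (le_abs_self _)
    · filter_upwards [h1.eventually_lt_atBot (-2)] with s hs
      have := neg_le_abs (tl Λ x s)
      linarith
  · rcases leafN_ends h hx with ⟨_, h1⟩ | ⟨_, h1⟩
    · filter_upwards [h1.eventually_lt_atBot (-2)] with s hs
      have := neg_le_abs (tl Λ x s)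
      linarith
    · filter_upwards [h1.eventually_gt_atTop 2] with s hs
      exact hs.trans_le (le_abs_self _)

theorem uni_loc (h : LeafK N V R C M κ Λ F) {x₀ : (E m × ℝ) × ℝ} (hx₀ : x₀ ∈ PSN N V C) :
    ∃ (P : ℝ) (O : Set ((E m × ℝ) × ℝ)), IsOpen O ∧ x₀ ∈ O ∧ ∀ x ∈ O ∩ PSN N V C,
      ∀ w ∈ Cq R C x.1.1, |w.1| ≤ 1 → ∃ s, |s| ≤ P ∧ pc Λ x 0 s = w := by
  obtain ⟨K, δ, hK⟩ := exists_pset h
  have hq₀ : x₀.1.1 ∈ N := h.red.sub _ hx₀.1
  have hδ : 0 < δ := (hK _ hq₀).1.hδ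
  obtain ⟨P₁, hP₁, hP₂⟩ := nuni_tail h hx₀
  have hbox : IsCompact (Icc (-1 : ℝ) 1 ×ˢ Icc (-M) M) := isCompact_Icc.prod isCompact_Icc
  have hA : ∀ᶠ x in 𝓝 x₀, ∀ w ∈ Icc (-1 : ℝ) 1 ×ˢ Icc (-M) M, (R w.1 x.1.1, w.2) ∈ C →
      ∃ s, |s| ≤ P₁ ∧ ‖w - pc Λ x₀ 0 s‖ < δ / 2 := by
    refine hbox.eventually_forall_of_forall_eventually ?_
    intro w hw
    have hcont : Continuous fun z : ((E m × ℝ) × ℝ) × (ℝ × ℝ) => (R z.2.1 z.1.1.1, z.2.2) := by
      have h1 := nuni_contR h.base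
      have h2 : Continuous fun z : ((E m × ℝ) × ℝ) × (ℝ × ℝ) => (z.2.1, z.1.1.1) := by fun_prop
      have h3 : Continuous fun z : ((E m × ℝ) × ℝ) × (ℝ × ℝ) => R z.2.1 z.1.1.1 := h1.comp h2
      have h4 : Continuous fun z : ((E m × ℝ) × ℝ) × (ℝ × ℝ) => z.2.2 := by fun_prop
      exact h3.prodMk h4
    by_cases hC : (R w.1 x₀.1.1, w.2) ∈ C
    · obtain ⟨s, hs⟩ := leafN_all h hx₀ (w := w) hC
      have hs1 : |s| ≤ P₁ := by
        refine hP₂ s ?_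
        have e1 : tl Λ x₀ s = w.1 := by
          have := congrArg Prod.fst hs
          simpa [pc] using this
        rw [e1, abs_le]
        exact ⟨by linarith [hw.1.1], by linarith [hw.1.2]⟩
      have hlim : Tendsto (fun z : ((E m × ℝ) × ℝ) × (ℝ × ℝ) => ‖z.2 - pc Λ x₀ 0 s‖)
          (𝓝 (x₀, w)) (𝓝 ‖w - pc Λ x₀ 0 s‖) := by
        have : Continuous fun z : ((E m × ℝ) × ℝ) × (ℝ × ℝ) => ‖z.2 - pc Λ x₀ 0 s‖ := by fun_prop
        exact this.tendsto (x₀, w)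
      have h0 : ‖w - pc Λ x₀ 0 s‖ < δ / 2 := by
        rw [hs, sub_self, norm_zero]
        linarith
      filter_upwards [hlim.eventually_lt_const h0] with z hz _
      exact ⟨s, hs1, hz⟩
    · have h1 : ∀ᶠ z in 𝓝 (x₀, w), (R z.2.1 z.1.1.1, z.2.2) ∈ Cᶜ :=
        hcont.continuousAt.eventually_mem (h.red.closed.isOpen_compl.mem_nhds hC)
      filter_upwards [h1] with z hz hz'
      exact absurd hz' hz
  have hBB : ∀ᶠ x in 𝓝 x₀, ∀ s ∈ Icc (-P₁) P₁, ‖pc Λ x₀ 0 s - pc Λ x 0 s‖ < δ / 2 := by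
    refine isCompact_Icc.eventually_forall_of_forall_eventually ?_
    intro s _
    have hc := nuni_contPc h
    have hc2 : Continuous fun z : ((E m × ℝ) × ℝ) × ℝ =>
        ‖pc Λ x₀ 0 z.2 - pc Λ z.1 0 z.2‖ := by
      have h1 : Continuous fun z : ((E m × ℝ) × ℝ) × ℝ => pc Λ x₀ 0 z.2 :=
        hc.comp (continuous_const.prodMk continuous_snd)
      exact (h1.sub hc).norm
    have h0 : ‖pc Λ x₀ 0 s - pc Λ x₀ 0 s‖ < δ / 2 := by
      rw [sub_self, norm_zero]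
      linarith
    exact (hc2.tendsto (x₀, s)).eventually_lt_const h0
  obtain ⟨O, hO, hO1, hO2⟩ := eventually_nhds_iff.1 (hA.and hBB)
  refine ⟨P₁ + 1, O, hO1, hO2, fun x hx w hw hw1 => ?_⟩
  obtain ⟨h1, h2⟩ := hO x hx.1
  have hxN : x.1.1 ∈ N := h.red.sub _ hx.2.1
  have hw2 : |w.2| < M := h.red.bdd _ hw
  obtain ⟨s, hs1, hs2⟩ := h1 w ⟨abs_le.1 hw1, abs_le.1 hw2.le⟩ hw
  have h3 := h2 s (abs_le.1 hs1)
  have h4 : ‖w - pc Λ x 0 s‖ < δ := by
    have e : w - pc Λ x 0 s = (w - pc Λ x₀ 0 s) + (pc Λ x₀ 0 s - pc Λ x 0 s) := by abel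
    rw [e]
    have := norm_add_le (w - pc Λ x₀ 0 s) (pc Λ x₀ 0 s - pc Λ x 0 s)
    linarith
  obtain ⟨s', hs3, hs4⟩ := ((hK _ hxN).2 x 0 hx.2 (R_zero h.base _).symm).sep s w hw h4
  refine ⟨s + s', ?_, hs4⟩
  have := abs_add_le s s'
  linarith

private theorem nuni_shift (h : LeafK N V R C M κ Λ F) {x : (E m × ℝ) × ℝ} (hx : x ∈ PSN N V C)
    {j : ℤ} (hj : Even j) (s : ℝ) : pc Λ (x.1, x.2 + j * Real.pi) 0 s = pc Λ x 0 s := by
  unfold pc
  rw [tl_even h.base h.red h.curv h.flow hx hj, leafN_even h.base h.red h.curv h.flow hx hj]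

theorem uni (h : LeafK N V R C M κ Λ F) : ∃ P : ℝ, 0 < P ∧ ∀ x ∈ PSN N V C,
    ∀ w ∈ Cq R C x.1.1, |w.1| ≤ 1 → ∃ s, |s| ≤ P ∧ pc Λ x 0 s = w := by
  have hcpt := PSN_compact h.base h.red (2 * Real.pi)
  have h1 : ∃ P : ℝ, ∀ x ∈ PSN N V C ∩ {x | |x.2| ≤ 2 * Real.pi},
      ∀ w ∈ Cq R C x.1.1, |w.1| ≤ 1 → ∃ s, |s| ≤ P ∧ pc Λ x 0 s = w := by
    refine hcpt.induction_on (p := fun A => ∃ P : ℝ, ∀ x ∈ A,
      ∀ w ∈ Cq R C x.1.1, |w.1| ≤ 1 → ∃ s, |s| ≤ P ∧ pc Λ x 0 s = w) ?_ ?_ ?_ ?_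
    · exact ⟨0, fun x hx => absurd hx (notMem_empty x)⟩
    · rintro A B hAB ⟨P, hP⟩
      exact ⟨P, fun x hx => hP x (hAB hx)⟩
    · rintro A B ⟨P, hP⟩ ⟨Q, hQ⟩
      refine ⟨max P Q, fun x hx w hw hw1 => ?_⟩
      rcases hx with hx | hx
      · obtain ⟨s, hs, hs'⟩ := hP x hx w hw hw1
        exact ⟨s, hs.trans (le_max_left _ _), hs'⟩
      · obtain ⟨s, hs, hs'⟩ := hQ x hx w hw hw1
        exact ⟨s, hs.trans (le_max_right _ _), hs'⟩
    · intro x hx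
      obtain ⟨P, O, hO1, hO2, hO3⟩ := uni_loc h hx.1
      refine ⟨O ∩ (PSN N V C ∩ {x | |x.2| ≤ 2 * Real.pi}), ?_, P, fun y hy => ?_⟩
      · exact Filter.inter_mem (mem_nhdsWithin_of_mem_nhds (hO1.mem_nhds hO2)) self_mem_nhdsWithin
      · exact hO3 y ⟨hy.1, hy.2.1⟩
  obtain ⟨P, hP⟩ := h1
  refine ⟨max P 1, lt_of_lt_of_le one_pos (le_max_right _ _), fun x hx w hw hw1 => ?_⟩
  have hpi := Real.pi_pos
  set j : ℤ := -(2 * ⌊x.2 / (2 * Real.pi)⌋) with hj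
  have hje : Even j := by
    rw [hj]
    exact (even_two_mul _).neg
  have hx' := PSN_pi h.base h.red hx j
  have hfl1 := Int.floor_le (x.2 / (2 * Real.pi))
  have hfl2 := Int.lt_floor_add_one (x.2 / (2 * Real.pi))
  rw [le_div_iff₀ (by positivity)] at hfl1
  rw [div_lt_iff₀ (by positivity)] at hfl2
  have hjr : (j : ℝ) = -(2 * (⌊x.2 / (2 * Real.pi)⌋ : ℝ)) := by
    rw [hj]
    push_cast
    ring
  have hb : |x.2 + j * Real.pi| ≤ 2 * Real.pi := by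
    rw [hjr, abs_le]
    constructor
    · nlinarith
    · nlinarith
  obtain ⟨s, hs, hs'⟩ := hP (x.1, x.2 + j * Real.pi) ⟨hx', hb⟩ w hw hw1
  exact ⟨s, hs.trans (le_max_left _ _), by rw [← hs', nuni_shift h hx hje]⟩

theorem progress (h : LeafK N V R C M κ Λ F) : ∃ P : ℝ, 0 < P ∧ ∀ x ∈ PSN N V C,
    Tendsto (tl Λ x) atTop atTop → ∀ s s', s + P ≤ s' → tl Λ x s + 1 < tl Λ x s' := by
  obtain ⟨P, hP, hP1⟩ := uni h
  refine ⟨P + 1, by linarith, fun x hx hlim s s' hs => ?_⟩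
  have hLF := LFN_contDiff h.base h.curv
  have hy : Λ s x ∈ PSN N V C := leafN_mem h.base h.red h.curv h.flow hx s
  have key : ∀ u, s + (P + 1) ≤ u → 1 < |tl Λ x u - tl Λ x s| := by
    intro u hu
    by_contra hc
    rw [not_lt] at hc
    have e1 : tl Λ x u = tl Λ x s + tl Λ (Λ s x) (u - s) := by
      rw [← tl_add h.base h.curv h.flow, add_sub_cancel]
    have e2 : Λ (u - s) (Λ s x) = Λ u x := by
      rw [h.flow.add hLF, sub_add_cancel]
    have e3 : pc Λ (Λ s x) 0 (u - s) = (tl Λ x u - tl Λ x s, (Λ u x).1.2) := by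
      unfold pc
      rw [e2, e1]
      ext <;> simp
    have hw : (tl Λ x u - tl Λ x s, (Λ u x).1.2) ∈ Cq R C (Λ s x).1.1 := by
      show (R (tl Λ x u - tl Λ x s) (Λ s x).1.1, (Λ u x).1.2) ∈ C
      have e4 : R (tl Λ x u - tl Λ x s) (Λ s x).1.1 = (Λ u x).1.1 := by
        rw [e1, add_sub_cancel_left, ← leafN_q h.base h.flow, e2]
      rw [e4]
      exact (leafN_mem h.base h.red h.curv h.flow hx u).1
    obtain ⟨v, hv, hv'⟩ := hP1 (Λ s x) hy _ hw hc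
    rw [← e3] at hv'
    have hvv := leafN_inj h hy hv'
    rw [hvv] at hv
    have := (abs_le.1 hv).2
    linarith
  have hcont : Continuous (tl Λ x) := by
    have := tl_cont h.flow
    exact this.comp (continuous_const.prodMk continuous_id)
  by_contra hc
  rw [not_lt] at hc
  have h1 := key s' hs
  have h2 : tl Λ x s' - tl Λ x s < -1 := by
    rcases lt_abs.1 h1 with h3 | h3
    · linarith
    · linarith
  obtain ⟨u, hu1, hu2⟩ := ((hlim.eventually_gt_atTop (tl Λ x s + 1)).and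
    (eventually_ge_atTop s')).exists
  obtain ⟨v, hv1, hv2⟩ := intermediate_value_Icc hu2 hcont.continuousOn
    (show tl Λ x s ∈ Icc (tl Λ x s') (tl Λ x u) from ⟨by linarith, by linarith⟩)
  have h3 := key v (hs.trans hv1.1)
  rw [hv2, sub_self, abs_zero] at h3
  linarith

end Pool.Agent.H99.TW
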