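import Pool.Agent.H99.TW.TLH
import Pool.Agent.H99.TW.TExL

/-!
# No caustic points after the descent (module TCaus)

PROOF. `p = ph π jj Pr`. Let `z' = Γ z`, `z ∈ S`, `(0, b) ∈ Tan (Γ '' S) z'`, `b ≠ 0`, `γ` a curve in `Γ '' S` with velocity `(0, b)` at `z'`.
Case `‖Q z.1‖ < 9/8 ε`: `z' = z` (`h0`). For small `s`, `γ s = Γ y_s` with `y_s ∈ S`, and `‖Q (γ s).1‖ < 9/8 ε`, so `y_s = Γ' (γ s) = γ s ∈ S`: `(0, b) ∈ Tan S z`, contradiction to `hcS`.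
Case `9/8 ε ≤ ‖Q z.1‖`: `Q z.1 ≠ 0`, `x ∈ NH` over `z.1`, `w = (x, lf x z.2) ∈ LH`, `p w = z`, `w' = F w ∈ TN NH`, `p w' = Γ z = z'` (`hΓ'`). `σ` from `exists_secTN` at `w'`: `σ z' = w'`. For small `s`: `σ (γ s) ∈ TN NH` and `p (σ (γ s)) = γ s` (`fwd`; `γ s ∈ TN N`). `σ (γ s) ∈ F '' LH`: let `v = F' (σ (γ s)) ∈ TN NH`;
`Γ (p v) = p (F v) = p (σ (γ s)) = γ s = Γ y` with `y ∈ S`, so `p v = y` (injectivity of `Γ` on `TN N`), `v ∈ LH`, `F v = σ (γ s)`. So `ζ = Dσ(z') (0, b) ∈ Tan (F '' LH) w'` (the curve `σ ∘ γ`), and `Dp(w') ζ = (0, b)` (`tan_loc`). `ζ ∈ Tan (TN NH) w'`, so `ζ.1 ∈ Tan NH w'.1` (`tan_fst`),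
`ζ.1 = jj w'.1 (π ζ.1)` (`hC.jjt`, `hC.jjπ`) and `π ζ.1 = (Dp ζ).1 = 0` (`ph_fderiv_fst`): `ζ.1 = 0`; `ζ.2 ≠ 0` since `Dp ζ ≠ 0`. Contradiction to `hno`.
-/

set_option autoImplicit false

open scoped ContDiff Topology RealInnerProductSpace
open Set Filter

namespace Pool.Agent.H99.TW

open Pool.Agent.H57.NL Pool.Agent.H2.TG Pool.Agent.H2.TI

variable {m k n : ℕ} {N : Set (E m)} {Q : E m → (E m →L[ℝ] E m)} {NH : Set (E k)}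
  {T : E k →L[ℝ] E k} {π pv : E k →L[ℝ] E m} {jj : E k → (E m →L[ℝ] E k)}
  {Pr : E m → (E m →L[ℝ] E m)} {PrH : E k → (E k →L[ℝ] E k)} {S : Set (E m × E m)}
  {f : E m × E m → ℝ} {ε : ℝ} {V : E k → E k} {R : ℝ → E k → E k}
  {Γ Γ' : E m × E m → E m × E m} {G : E m × E m → ℝ} {F F' : E k × E k → E k × E k}

theorem no_caus_desc (hC : Cov n N Q NH T π pv jj) (hP : ProjN N Pr) (hPH : ProjN NH PrH)
    (hS : S ⊆ TN N) (hε : 0 < ε) (hQ : Continuous Q) (hΓ : ExactL N Γ Γ' G)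
    (hm : ∀ z ∈ TN NH, F z ∈ TN NH) (hm' : ∀ z ∈ TN NH, F' z ∈ TN NH)
    (hr : ∀ z ∈ TN NH, F (F' z) = z)
    (hΓF : ∀ z ∈ TN NH, Γ (ph π jj Pr z) = ph π jj Pr (F z))
    (h0 : ∀ z ∈ TN N, ‖Q z.1‖ < 9 / 8 * ε → Γ z = z ∧ Γ' z = z)
    (hcS : ∀ z ∈ S, ‖Q z.1‖ < 9 / 8 * ε → ¬ Caustic S z)
    (hno : ∀ z ∈ F '' LH NH (ph π jj Pr) S, ¬ Caustic (F '' LH NH (ph π jj Pr) S) z) :
    ∀ z ∈ Γ '' S, ¬ Caustic (Γ '' S) z := by
  rintro z' ⟨z, hz, rfl⟩ ⟨b, hb, γ, γ0, γS, γd⟩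
  have hzN : z ∈ TN N := hS hz
  have hc : Tendsto γ (𝓝 0) (𝓝 (Γ z)) := by
    rw [← γ0]
    exact γd.continuousAt
  by_cases hq : ‖Q z.1‖ < 9 / 8 * ε
  · obtain ⟨e1, e2⟩ := h0 z hzN hq
    refine hcS z hz hq ⟨b, hb, γ, by rw [γ0, e1], ?_, γd⟩
    have hO : IsOpen {z : E m × E m | ‖Q z.1‖ < 9 / 8 * ε} :=
      isOpen_lt ((hQ.comp continuous_fst).norm) continuous_const
    have h1 : ∀ᶠ s in 𝓝 (0 : ℝ), γ s ∈ {z : E m × E m | ‖Q z.1‖ < 9 / 8 * ε} := by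
      refine hc.eventually (hO.mem_nhds ?_)
      rw [e1]
      exact hq
    filter_upwards [h1, γS] with s k1 k2
    obtain ⟨y, hy, hyγ⟩ := k2
    have k3 : γ s ∈ TN N := by
      rw [← hyγ]
      exact hΓ.maps y (hS hy)
    have k4 : Γ' (γ s) = γ s := (h0 _ k3 k1).2
    have k5 : Γ' (γ s) = y := by
      rw [← hyγ, hΓ.left y (hS hy)]
    rw [← k4, k5]
    exact hy
  · have hQ0 : Q z.1 ≠ 0 := by
      intro h
      rw [h, norm_zero] at hq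
      exact hq (by positivity)
    obtain ⟨x, hx, hxz⟩ := hC.ex z.1 hzN.1 hQ0
    have hp : z.2 ∈ Tan N (π x) := by
      rw [hxz]
      exact hzN.2
    have hw : (x, lf π PrH x z.2) ∈ TN NH := ⟨hx, lf_mem hPH hx _⟩
    have hpw : ph π jj Pr (x, lf π PrH x z.2) = z := by
      rw [ph_lf hC hP hPH hx hp, hxz]
    generalize (x, lf π PrH x z.2) = w at hw hpw
    have hwL : w ∈ LH NH (ph π jj Pr) S := ⟨hw, by rw [hpw]; exact hz⟩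
    have hw' : F w ∈ TN NH := hm w hw
    have hpw' : ph π jj Pr (F w) = Γ z := by
      rw [← hΓF w hw, hpw]
    obtain ⟨σ, hσ⟩ := exists_secTN hC hP hPH hw'
    have hfg := hσ.fg
    have hsm := hσ.smooth
    have hfwd := hσ.fwd
    rw [hpw'] at hfg hsm hfwd
    have hσd : DifferentiableAt ℝ σ (γ 0) := by
      rw [γ0]
      exact hsm.self_of_nhds.differentiableAt (by simp)
    have hσγ : HasDerivAt (σ ∘ γ) (fderiv ℝ σ (Γ z) (0, b)) 0 := by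
      have h1 := hσd.hasFDerivAt.comp_hasDerivAt (0 : ℝ) γd
      rw [γ0] at h1
      exact h1
    have hζL : fderiv ℝ σ (Γ z) (0, b) ∈ Tan (F '' LH NH (ph π jj Pr) S) (F w) := by
      refine ⟨σ ∘ γ, by rw [Function.comp, γ0, hfg], ?_, hσγ⟩
      filter_upwards [hc.eventually hfwd, γS] with s k1 k2
      obtain ⟨y, hy, hyγ⟩ := k2
      have k3 : γ s ∈ TN N := by
        rw [← hyγ]
        exact hΓ.maps y (hS hy)
      obtain ⟨k4, k5⟩ := k1 k3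
      have k6 : F' (σ (γ s)) ∈ TN NH := hm' _ k4
      have k7 : F (F' (σ (γ s))) = σ (γ s) := hr _ k4
      refine ⟨F' (σ (γ s)), ⟨k6, ?_⟩, k7⟩
      have k8 : Γ (ph π jj Pr (F' (σ (γ s)))) = Γ y := by
        rw [hΓF _ k6, k7, k5, hyγ]
      have k9 : ph π jj Pr (F' (σ (γ s))) = y := by
        rw [← hΓ.left _ (ph_mem hC hP k6), k8, hΓ.left y (hS hy)]
      rw [k9]
      exact hy
    have h0b : ((0, b) : E m × E m) ∈ Tan (TN N) (ph π jj Pr (F w)) := by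
      rw [hpw']
      refine ⟨γ, γ0, ?_, γd⟩
      filter_upwards [γS] with s k2
      obtain ⟨y, hy, hyγ⟩ := k2
      rw [← hyγ]
      exact hΓ.maps y (hS hy)
    obtain ⟨t1, t2⟩ := tan_loc hσ h0b
    rw [hpw'] at t1 t2
    generalize fderiv ℝ σ (Γ z) (0, b) = ζ at hζL t1 t2
    obtain ⟨ξ, hξ, hζξ⟩ := (hC.jjt (F w).1 hw'.1 ζ.1).1 (tan_fst t1)
    have h1 : π ζ.1 = 0 := by
      rw [← ph_fderiv_fst hC hP (hC.pv0 _ hw'.1) ζ, t2]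
    have h2 : ζ.1 = 0 := by
      rw [hζξ, hC.jjπ] at h1
      rw [hζξ, h1, map_zero]
    refine hno (F w) ⟨w, hwL, rfl⟩ ⟨ζ.2, ?_, ?_⟩
    · intro h3
      have h4 : ζ = 0 := Prod.ext h2 h3
      rw [h4, map_zero] at t2
      exact hb (congrArg Prod.snd t2).symm
    · have h3 : ((0, ζ.2) : E k × E k) = ζ := Prod.ext h2.symm rfl
      rw [h3]
      exact hζL

end Pool.Agent.H99.TW
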