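import Pool.Agent.H57.NL.Defs

/-!
# Lagrangians whose fibres are chains up to sign (helper99, MP_3dbb84)

Paper: `/team-store/h99_twisted_paper.md`.
-/

set_option autoImplicit false

open scoped ContDiff Topology RealInnerProductSpace
open Set

namespace Pool.Agent.H99.TW

open Pool.Agent.H57.NL

variable {m : ℕ}

/-- `D` is a closed field of double cones in the cotangent bundle of `N`: for every `q ∈ N` the set
`D_q = {u | (q, u) ∈ D}` is `K ∪ -K` for a closed convex cone `K` that contains no line (`K = {0}` is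
allowed). No continuous choice of `K` is assumed. -/
structure DoubleCone (N : Set (E m)) (D : Set (E m × E m)) : Prop where
  sub : D ⊆ TN N
  closed : IsClosed D
  cone : ∀ q ∈ N, ∃ K : Set (E m), IsClosed K ∧ (0 : E m) ∈ K ∧ (∀ u ∈ K, ∀ v ∈ K, u + v ∈ K) ∧
    (∀ u ∈ K, ∀ t : ℝ, 0 ≤ t → t • u ∈ K) ∧ (∀ u ∈ K, -u ∈ K → u = 0) ∧
    ∀ u : E m, (q, u) ∈ D ↔ u ∈ K ∨ -u ∈ K

/-- The fibres of `S` are chains for `D`: the difference of two points of `S` over the same point,
and every vertical tangent vector of `S`, is in `D`. -/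
structure Chained (D S : Set (E m × E m)) : Prop where
  sec : ∀ z ∈ S, ∀ z' ∈ S, z.1 = z'.1 → (z.1, z'.2 - z.2) ∈ D
  vert : ∀ z ∈ S, ∀ b : E m, (0, b) ∈ Tan S z → (z.1, b) ∈ D

/-- `u` is a fibre vector of `S` over `q`: the difference of two points of `S` over `q`, or a vertical
tangent vector of `S` at a point over `q`. -/
def FibreVec (S : Set (E m × E m)) (q u : E m) : Prop :=
  (∃ p p' : E m, (q, p) ∈ S ∧ (q, p') ∈ S ∧ u = p' - p) ∨
    ∃ p : E m, (q, p) ∈ S ∧ (0, u) ∈ Tan S (q, p)

/-- The fibres of `S` are coherent for the field `B` of bilinear forms `⟪B q u, u'⟫`: for any three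
nonzero fibre vectors of `S` over the same point, the product of the three values of the form on the
pairs is positive. -/
def Coherent (B : E m → (E m →L[ℝ] E m)) (S : Set (E m × E m)) : Prop :=
  ∀ q u u' u'' : E m, FibreVec S q u → FibreVec S q u' → FibreVec S q u'' →
    u ≠ 0 → u' ≠ 0 → u'' ≠ 0 → 0 < ⟪B q u, u'⟫ * ⟪B q u', u''⟫ * ⟪B q u, u''⟫

end Pool.Agent.H99.TW
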