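import Pool.Agent.H99.TW.TCovDefs

/-!
# Existence of the coordinates (module TCoord)

PROOF. `W = WithLp 2 (E m × WithLp 2 (E m × ℝ))` is a finite dimensional inner product space, `k = finrank W`; `stdOrthonormalBasis` gives a linear
isometry equivalence `e : W ≃ₗᵢ EuclideanSpace ℝ (Fin k) = E k`. `pq x = (e.symm x).1`, … (`WithLp.fst`, `WithLp.snd`, or
`WithLp.ofLp`), `jn a = e (WithLp.toLp 2 (a.1, WithLp.toLp 2 (a.2.1, a.2.2)))` (continuous linear: `WithLp.prodContinuousLinearEquiv`).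
`WithLp.prod_inner_apply` for the inner product. (Alternatively: coordinates by hand on `Fin (m + m + 1)`.)
-/

set_option autoImplicit false

open scoped ContDiff Topology RealInnerProductSpace
open Set Filter

namespace Pool.Agent.H99.TW

open Pool.Agent.H57.NL Pool.Agent.H2.TG Pool.Agent.H2.TI

theorem exists_co (m : ℕ) : ∃ k : ℕ, Nonempty (Co m k) := by
  let W := WithLp 2 (E m × WithLp 2 (E m × ℝ))
  let k := Module.finrank ℝ W
  let e : W ≃ₗᵢ[ℝ] E k := (stdOrthonormalBasis ℝ W).repr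
  let A : W ≃L[ℝ] (E m × WithLp 2 (E m × ℝ)) := WithLp.prodContinuousLinearEquiv 2 ℝ (E m) (WithLp 2 (E m × ℝ))
  let B : WithLp 2 (E m × ℝ) ≃L[ℝ] (E m × ℝ) := WithLp.prodContinuousLinearEquiv 2 ℝ (E m) ℝ
  let es : E k →L[ℝ] W := e.symm.toContinuousLinearEquiv.toContinuousLinearMap
  let ef : W →L[ℝ] E k := e.toContinuousLinearEquiv.toContinuousLinearMap
  let Al : W →L[ℝ] (E m × WithLp 2 (E m × ℝ)) := A.toContinuousLinearMap
  let Bl : WithLp 2 (E m × ℝ) →L[ℝ] (E m × ℝ) := B.toContinuousLinearMap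
  let Ar : (E m × WithLp 2 (E m × ℝ)) →L[ℝ] W := A.symm.toContinuousLinearMap
  let Br : (E m × ℝ) →L[ℝ] WithLp 2 (E m × ℝ) := B.symm.toContinuousLinearMap
  let f1 : E k →L[ℝ] E m := (ContinuousLinearMap.fst ℝ (E m) (WithLp 2 (E m × ℝ))).comp (Al.comp es)
  let g : E k →L[ℝ] (E m × ℝ) := Bl.comp ((ContinuousLinearMap.snd ℝ (E m) (WithLp 2 (E m × ℝ))).comp (Al.comp es))
  let f2 : E k →L[ℝ] E m := (ContinuousLinearMap.fst ℝ (E m) ℝ).comp g
  let f3 : E k →L[ℝ] ℝ := (ContinuousLinearMap.snd ℝ (E m) ℝ).comp g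
  let j : (E m × E m × ℝ) →L[ℝ] E k := ef.comp (Ar.comp ((ContinuousLinearMap.fst ℝ (E m) (E m × ℝ)).prod
    (Br.comp (ContinuousLinearMap.snd ℝ (E m) (E m × ℝ)))))
  have hes : ∀ w : W, es (ef w) = w := fun w => e.symm_apply_apply w
  have hef : ∀ x : E k, ef (es x) = x := fun x => e.apply_symm_apply x
  have hA : ∀ a, Al (Ar a) = a := fun a => A.apply_symm_apply a
  have hA' : ∀ w, Ar (Al w) = w := fun w => A.symm_apply_apply w
  have hB : ∀ a, Bl (Br a) = a := fun a => B.apply_symm_apply a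
  have hB' : ∀ w, Br (Bl w) = w := fun w => B.symm_apply_apply w
  have hj : ∀ a, Al (es (j a)) = (a.1, Br a.2) := by
    intro a
    have h1 : j a = ef (Ar (a.1, Br a.2)) := rfl
    rw [h1, hes, hA]
  refine ⟨k, ⟨⟨f1, f2, f3, j, ?_, ?_, ?_, ?_, ?_⟩⟩⟩
  · intro a
    have h1 : f1 (j a) = (Al (es (j a))).1 := rfl
    rw [h1, hj]
  · intro a
    have h1 : f2 (j a) = (Bl (Al (es (j a))).2).1 := rfl
    rw [h1, hj, hB]
  · intro a
    have h1 : f3 (j a) = (Bl (Al (es (j a))).2).2 := rfl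
    rw [h1, hj, hB]
  · intro x
    have h1 : j (f1 x, f2 x, f3 x) = ef (Ar ((Al (es x)).1, Br (Bl (Al (es x)).2))) := rfl
    have h2 : ((Al (es x)).1, (Al (es x)).2) = Al (es x) := rfl
    rw [h1, hB', h2, hA', hef]
  · intro x y
    have h0 : ⟪x, y⟫ = ⟪es x, es y⟫ := (e.symm.inner_map_map x y).symm
    rw [h0, WithLp.prod_inner_apply, WithLp.prod_inner_apply, add_assoc]
    have h1 : ⟪(WithLp.ofLp (WithLp.ofLp (es x)).2).2, (WithLp.ofLp (WithLp.ofLp (es y)).2).2⟫ = f3 x * f3 y := by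
      have h2 : ∀ a b : ℝ, ⟪a, b⟫ = a * b := by
        intro a b
        simp [mul_comm]
      exact h2 _ _
    rw [h1]
    rfl

end Pool.Agent.H99.TW
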