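import Pool.Agent.H99.TW.TCovB
import Pool.Agent.H99.TW.TCoord
import Pool.Agent.H99.TW.TLocSub

/-!
# Existence of the double cover (module TCov)

PROOF. Coordinates `c` from `exists_co`; `NH = NHc c N Q`, `T = c.T`, `π = c.pq`, `pv = c.pv`, `jj = jjc c Q`. `sub`: `locSub` with `locIm_xh`. `closed`: `closed_NHc`. `TT, Ti, πT, pvT, πb`:
formulas of `Co` (`‖x‖² = ⟪x, x⟫ = ‖pq x‖² + ‖pv x‖² + (ps x)²`). `Tmem`: `isV_neg`. `pv0`: third condition. `pvt`: `hQ.rank` and `isV_unique`; `Tan` is closed under `-1` (`Tan.smul`).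
`ex`: `hQ.rank`: `v`, `v ≠ 0` (else `Q q = 0`): `x = c.jn (q, v, (‖v‖²)⁻¹)`. `two`: `isV_unique`, `ps` is determined by `‖pv‖`. `sec`: `locIm_xh`. `bdd`: `pq x` is in the compact
set `N`, `‖pv x‖² = ‖Q (pq x)‖` is bounded on `N` (`norm_isV`, continuity), `0 < ps x = ‖pv x‖⁻² ≤ ε⁻¹`. `jjs`: `jjc_smooth`. `jjT`: `jjc_T`. `jjπ`: `pq_jn`.
`jjt`: `tan_loc`, `tan_loc'` with `LocIm N NH (xh c Q v) pq x`: `ζ ∈ Tan NH x` gives `π ζ ∈ Tan N (π x)` (`fderiv` of the continuous linear map `c.pq` is `c.pq`) and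
`ζ = D(xh)(π ζ) = jjc c Q x (π ζ)` (`fderiv_xh`); conversely `jj x ξ = D(xh) ξ ∈ Tan NH x`.
-/

set_option autoImplicit false

open scoped ContDiff Topology RealInnerProductSpace
open Set Filter

namespace Pool.Agent.H99.TW

open Pool.Agent.H57.NL Pool.Agent.H2.TG Pool.Agent.H2.TI

variable {m n : ℕ} {N : Set (E m)} {Q : E m → (E m →L[ℝ] E m)}

private theorem tcov_ext {k : ℕ} (c : Co m k) {x y : E k} (h1 : c.pq x = c.pq y) (h2 : c.pv x = c.pv y)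
    (h3 : c.ps x = c.ps y) : x = y := by
  rw [← c.jn_p x, ← c.jn_p y, h1, h2, h3]

private theorem tcov_Tq {k : ℕ} (c : Co m k) (x : E k) : c.pq (c.T x) = c.pq x := c.pq_jn _

private theorem tcov_Tv {k : ℕ} (c : Co m k) (x : E k) : c.pv (c.T x) = -c.pv x := c.pv_jn _

private theorem tcov_Ts {k : ℕ} (c : Co m k) (x : E k) : c.ps (c.T x) = c.ps x := c.ps_jn _

private theorem tcov_norm {k : ℕ} (c : Co m k) (x : E k) :
    ‖x‖ ^ 2 = ‖c.pq x‖ ^ 2 + ‖c.pv x‖ ^ 2 + c.ps x ^ 2 := by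
  rw [← real_inner_self_eq_norm_sq, c.inner, real_inner_self_eq_norm_sq, real_inner_self_eq_norm_sq, sq (c.ps x)]

private theorem tcov_ne {k : ℕ} (c : Co m k) {x : E k} (hx : x ∈ NHc c N Q) : c.pv x ≠ 0 := by
  intro h0
  have h := hx.2.2
  rw [h0, norm_zero] at h
  norm_num at h

private theorem tcov_s {k : ℕ} (c : Co m k) {x : E k} (hx : x ∈ NHc c N Q) : c.ps x = (‖c.pv x‖ ^ 2)⁻¹ :=
  eq_inv_of_mul_eq_one_left hx.2.2

private theorem tcov_bdd {k : ℕ} (c : Co m k) (hQ : RankQ n N Q) (ε : ℝ) (hε : 0 < ε) :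
    ∃ B : ℝ, ∀ x ∈ NHc c N Q, ε ≤ ‖c.pv x‖ ^ 2 → ‖x‖ ≤ B := by
  obtain ⟨R, hR⟩ := hQ.cpt.isBounded.exists_norm_le
  obtain ⟨M, hM⟩ := (hQ.cpt.image hQ.smooth.continuous).isBounded.exists_norm_le
  refine ⟨R ^ 2 + M + (ε⁻¹) ^ 2 + 1, fun x hx he => ?_⟩
  have h1 : ‖c.pq x‖ ≤ R := hR _ hx.1
  have h2 : ‖c.pv x‖ ^ 2 ≤ M := by
    rw [← norm_isV hx.2.1]
    exact hM _ (Set.mem_image_of_mem Q hx.1)
  have h3 : c.ps x ^ 2 ≤ (ε⁻¹) ^ 2 := by
    rw [tcov_s c hx]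
    exact pow_le_pow_left₀ (inv_nonneg.2 (sq_nonneg _)) (inv_anti₀ hε he) 2
  have h4 : ‖c.pq x‖ ^ 2 ≤ R ^ 2 := pow_le_pow_left₀ (norm_nonneg _) h1 2
  have h5 := tcov_norm c x
  nlinarith [sq_nonneg (‖x‖ - 1), norm_nonneg x]

theorem exists_cov (hQ : RankQ n N Q) : ∃ (k : ℕ) (NH : Set (E k)) (T : E k →L[ℝ] E k)
    (π pv : E k →L[ℝ] E m) (jj : E k → (E m →L[ℝ] E k)), Cov n N Q NH T π pv jj := by
  obtain ⟨k, ⟨c⟩⟩ := exists_co m
  refine ⟨k, NHc c N Q, c.T, c.pq, c.pv, jjc c Q, ?_⟩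
  have hrk : ∀ x ∈ NHc c N Q, c.pv x ∈ Tan N (c.pq x) := by
    intro x hx
    obtain ⟨w, hw1, hw2⟩ := hQ.rank _ hx.1
    rcases isV_unique hw2 hx.2.1 with h | h
    · rw [h]
      exact hw1
    · rw [h, ← neg_one_smul ℝ w]
      exact Tan.smul hw1 (-1)
  have hex : ∀ q ∈ N, Q q ≠ 0 → ∃ x ∈ NHc c N Q, c.pq x = q := by
    intro q hq hq0
    obtain ⟨v, hv1, hv2⟩ := hQ.rank q hq
    have hv0 : v ≠ 0 := by
      intro h0
      apply hq0
      ext1 w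
      rw [hv2 w, h0, smul_zero]
      rfl
    refine ⟨c.jn (q, v, (‖v‖ ^ 2)⁻¹), ⟨?_, ?_, ?_⟩, c.pq_jn _⟩
    · rw [c.pq_jn]
      exact hq
    · rw [c.pq_jn, c.pv_jn]
      exact hv2
    · rw [c.ps_jn, c.pv_jn]
      exact inv_mul_cancel₀ (pow_ne_zero 2 (norm_ne_zero_iff.2 hv0))
  have htwo : ∀ x ∈ NHc c N Q, ∀ x' ∈ NHc c N Q, c.pq x' = c.pq x → x' = x ∨ x' = c.T x := by
    intro x hx x' hx' h
    have hv' := hx'.2.1
    rw [h] at hv'
    rcases isV_unique hx.2.1 hv' with h1 | h1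
    · left
      refine tcov_ext c h h1 ?_
      rw [tcov_s c hx, tcov_s c hx', h1]
    · right
      refine tcov_ext c ?_ ?_ ?_
      · rw [tcov_Tq, h]
      · rw [tcov_Tv, h1]
      · rw [tcov_Ts, tcov_s c hx, tcov_s c hx', h1, norm_neg]
  have hfq : ∀ x, fderiv ℝ c.pq x = c.pq := fun x => c.pq.fderiv
  have hjt : ∀ x ∈ NHc c N Q, ∀ ζ, ζ ∈ Tan (NHc c N Q) x ↔ ∃ ξ ∈ Tan N (c.pq x), ζ = jjc c Q x ξ := by
    intro x hx ζ
    have hL := locIm_xh c hQ hx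
    constructor
    · intro hζ
      obtain ⟨h1, h2⟩ := tan_loc' hL hζ
      rw [fderiv_xh c hQ hx, hfq] at h2
      rw [hfq] at h1
      exact ⟨c.pq ζ, h1, h2.symm⟩
    · rintro ⟨ξ, hξ, rfl⟩
      have h1 := (tan_loc hL hξ).1
      rw [fderiv_xh c hQ hx] at h1
      exact h1
  exact
    { rk := hQ
      sub := locSub hQ.sub fun x hx => ⟨_, _, locIm_xh c hQ hx⟩
      closed := closed_NHc c hQ
      TT := fun x => by
        refine tcov_ext c ?_ ?_ ?_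
        · rw [tcov_Tq, tcov_Tq]
        · rw [tcov_Tv, tcov_Tv, neg_neg]
        · rw [tcov_Ts, tcov_Ts]
      Ti := fun x y => by
        rw [c.inner, c.inner x y, tcov_Tq, tcov_Tq, tcov_Tv, tcov_Tv, tcov_Ts, tcov_Ts, inner_neg_neg]
      Tmem := fun x hx => by
        refine ⟨?_, ?_, ?_⟩
        · rw [tcov_Tq]
          exact hx.1
        · rw [tcov_Tq, tcov_Tv]
          exact isV_neg hx.2.1
        · rw [tcov_Ts, tcov_Tv, norm_neg]
          exact hx.2.2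
      πT := tcov_Tq c
      pvT := tcov_Tv c
      πb := fun x => by
        have h := tcov_norm c x
        refine abs_le_of_sq_le_sq' ?_ (norm_nonneg x) |>.2
        nlinarith [sq_nonneg ‖c.pv x‖, sq_nonneg (c.ps x)]
      πmem := fun x hx => hx.1
      isV := fun x hx => hx.2.1
      pv0 := fun x hx => tcov_ne c hx
      pvt := hrk
      ex := hex
      two := htwo
      sec := fun x hx => ⟨_, locIm_xh c hQ hx⟩
      bdd := tcov_bdd c hQ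
      jjs := jjc_smooth c hQ.smooth
      jjT := jjc_T c
      jjπ := fun x ξ => c.pq_jn _
      jjt := hjt }

end Pool.Agent.H99.TW
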