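import Pool.Agent.H99.TW.TDefs

/-!
# Vectors of a rank one tensor (module TIsV)

PROOFS. `norm_isV`: `‖Q q w‖ = |⟪v, w⟫| ‖v‖ ≤ ‖v‖² ‖w‖`, equality for `w = v` (`ContinuousLinearMap.opNorm_le_bound`,
`ContinuousLinearMap.le_opNorm`; the case `v = 0` is trivial). `isV_unique`: if `v = 0` then `Q q = 0`, `v' = 0`. Otherwise `Q q v' = ‖v'‖² • v' = ⟪v, v'⟫ • v`, so
`v' = a • v` (`v' ≠ 0` because `‖v'‖² = ‖Q q‖ = ‖v‖²`) and `|a| = 1`.
-/

set_option autoImplicit false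

open scoped ContDiff Topology RealInnerProductSpace
open Set Filter

namespace Pool.Agent.H99.TW

open Pool.Agent.H57.NL Pool.Agent.H2.TG Pool.Agent.H2.TI

variable {m n : ℕ} {N : Set (E m)} {Q : E m → (E m →L[ℝ] E m)}

theorem isV_neg {q v : E m} (h : IsV Q q v) : IsV Q q (-v) := by
  intro w
  rw [h w, inner_neg_left, neg_smul_neg]

theorem norm_isV {q v : E m} (h : IsV Q q v) : ‖Q q‖ = ‖v‖ ^ 2 := by
  apply le_antisymm
  · refine ContinuousLinearMap.opNorm_le_bound _ (by positivity) fun w => ?_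
    rw [h w, norm_smul, Real.norm_eq_abs]
    have h1 : |⟪v, w⟫| ≤ ‖v‖ * ‖w‖ := abs_real_inner_le_norm v w
    calc |⟪v, w⟫| * ‖v‖ ≤ (‖v‖ * ‖w‖) * ‖v‖ := mul_le_mul_of_nonneg_right h1 (norm_nonneg v)
      _ = ‖v‖ ^ 2 * ‖w‖ := by ring
  · by_cases hv : v = 0
    · rw [hv, norm_zero]
      simp
    · have hv' : 0 < ‖v‖ := norm_pos_iff.2 hv
      have h1 := (Q q).le_opNorm v
      rw [h v, norm_smul, Real.norm_eq_abs, real_inner_self_eq_norm_sq,
        abs_of_nonneg (by positivity)] at h1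
      exact le_of_mul_le_mul_right h1 hv'

theorem isV_unique {q v v' : E m} (h : IsV Q q v) (h' : IsV Q q v') : v' = v ∨ v' = -v := by
  have hn : ‖v'‖ ^ 2 = ‖v‖ ^ 2 := by rw [← norm_isV h, norm_isV h']
  have hn' : ‖v'‖ = ‖v‖ := by
    have := abs_eq_abs.2 (sq_eq_sq_iff_eq_or_eq_neg.1 hn)
    rwa [abs_of_nonneg (norm_nonneg _), abs_of_nonneg (norm_nonneg _)] at this
  by_cases hv : v = 0
  · left
    rw [hv, norm_zero, norm_eq_zero] at hn'
    rw [hn', hv]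
  · have hv' : 0 < ‖v‖ := norm_pos_iff.2 hv
    have hv2 : ‖v'‖ ^ 2 ≠ 0 := by
      rw [hn]
      positivity
    have h1 : ‖v'‖ ^ 2 • v' = ⟪v, v'⟫ • v := by
      rw [← real_inner_self_eq_norm_sq, ← h' v', h v']
    have h2 : v' = ((‖v'‖ ^ 2)⁻¹ * ⟪v, v'⟫) • v := by
      rw [mul_smul, ← h1, smul_smul, inv_mul_cancel₀ hv2, one_smul]
    set a := (‖v'‖ ^ 2)⁻¹ * ⟪v, v'⟫ with ha
    have h3 : |a| = 1 := by
      have h4 := congrArg norm h2
      rw [norm_smul, Real.norm_eq_abs, hn'] at h4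
      have h5 : |a| * ‖v‖ = 1 * ‖v‖ := by rw [one_mul]; exact h4.symm
      exact mul_right_cancel₀ hv'.ne' h5
    rcases (abs_eq one_pos.le).1 h3 with h4 | h4
    · left
      rw [h4, one_smul] at h2
      exact h2
    · right
      rw [h4, neg_one_smul] at h2
      exact h2

theorem isV_ne {q v : E m} (h : IsV Q q v) (hv : v ≠ 0) : Q q ≠ 0 := by
  intro h0
  have h1 := norm_isV h
  rw [h0, norm_zero] at h1
  have h2 : 0 < ‖v‖ := norm_pos_iff.2 hv
  have h3 : 0 < ‖v‖ ^ 2 := by positivity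
  rw [← h1] at h3
  exact lt_irrefl _ h3

theorem isV_inner {q v u : E m} (h : IsV Q q v) : ⟪Q q u, u⟫ = ⟪v, u⟫ ^ 2 := by
  rw [h u, real_inner_smul_left, sq]

end Pool.Agent.H99.TW
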