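import Pool.Agent.H99.TW.TCovDefs
import Pool.Agent.H99.TW.TIsV

/-!
# The branches of the double cover (module TCovA)

PROOFS. Let `q ∈ N`, `IsV Q q w`, `0 < ⟪w, v⟫`. `Q q v = ⟪w, v⟫ • w`, `⟪Q q v, v⟫ = ⟪w, v⟫²`, `√ = ⟪w, v⟫`: `br Q v q = w` (`br_eq`).
Smooth (`br_smooth`): `x ↦ ⟪Q x v, v⟫` is smooth and not zero near `q` (`Real.sqrt` is smooth on `(0, ∞)`: `ContDiffAt.sqrt`). `xh_smooth`: `‖br‖² ≠ 0` at `q`
since `⟪br, v⟫ ≠ 0`… (`Q q v ≠ 0` because `⟪Q q v, v⟫ ≠ 0`).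
`locIm_xh`: `x ∈ NHc`, `v = c.pv x`, `q₀ = c.pq x`. `v ≠ 0` (third condition of `NHc`), `⟪Q q₀ v, v⟫ = ‖v‖⁴ > 0` and this is open in `q`.
`fg`: `br Q v q₀ = v` (`br_eq` with `w = v`), `c.ps x = (‖v‖²)⁻¹`, `c.jn_p`. `fwd`: `q ∈ N` near `q₀`; `hQ.rank`: `w` with `IsV Q q w`; `⟪w, v⟫² = ⟪Q q v, v⟫ > 0`;
replace `w` by `-w` (`isV_neg`) so that `⟪w, v⟫ > 0`; then `br Q v q = w` and `xh ∈ NHc`, `w ≠ 0`. `bwd`: `y ∈ NHc` near `x`: `⟪c.pv y, v⟫ > 0`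
(continuity), so `br Q v (c.pq y) = c.pv y`, and `c.ps y = (‖c.pv y‖²)⁻¹`.
`closed`: `{x | c.pq x ∈ N}` closed, `IsV` is an intersection of closed conditions (continuity of `x ↦ Q (pq x) w`), third closed.
-/

set_option autoImplicit false

open scoped ContDiff Topology RealInnerProductSpace
open Set Filter

namespace Pool.Agent.H99.TW

open Pool.Agent.H57.NL Pool.Agent.H2.TG Pool.Agent.H2.TI

variable {m n k : ℕ} {N : Set (E m)} {Q : E m → (E m →L[ℝ] E m)}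

theorem br_eq {v q w : E m} (h : IsV Q q w) (hw : 0 < ⟪w, v⟫) : br Q v q = w := by
  unfold br
  rw [h v, real_inner_smul_left, Real.sqrt_mul_self hw.le, smul_smul, inv_mul_cancel₀ hw.ne', one_smul]

private theorem tcovA_smQ (hQ : ContDiff ℝ ∞ Q) (v : E m) : ContDiff ℝ ∞ (fun q => Q q v) :=
  hQ.clm_apply contDiff_const

private theorem tcovA_smI (hQ : ContDiff ℝ ∞ Q) (v : E m) : ContDiff ℝ ∞ (fun q => ⟪Q q v, v⟫) :=
  (tcovA_smQ hQ v).inner ℝ contDiff_const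

theorem br_smooth (hQ : ContDiff ℝ ∞ Q) {v q : E m} (h : 0 < ⟪Q q v, v⟫) :
    ContDiffAt ℝ ∞ (br Q v) q := by
  have h1 : ContDiffAt ℝ ∞ (fun q => Real.sqrt ⟪Q q v, v⟫) q :=
    (tcovA_smI hQ v).contDiffAt.sqrt h.ne'
  exact (h1.inv (Real.sqrt_pos.2 h).ne').smul (tcovA_smQ hQ v).contDiffAt

private theorem tcovA_br_ne {v q : E m} (h : 0 < ⟪Q q v, v⟫) : br Q v q ≠ 0 := by
  intro h0
  unfold br at h0
  rcases smul_eq_zero.1 h0 with h1 | h1
  · exact (inv_ne_zero (Real.sqrt_pos.2 h).ne') h1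
  · rw [h1, inner_zero_left] at h
    exact lt_irrefl _ h

theorem xh_smooth (c : Co m k) (hQ : ContDiff ℝ ∞ Q) {v q : E m} (h : 0 < ⟪Q q v, v⟫) :
    ContDiffAt ℝ ∞ (xh c Q v) q := by
  have h1 := br_smooth hQ h
  have h2 : ContDiffAt ℝ ∞ (fun q => (‖br Q v q‖ ^ 2)⁻¹) q := by
    refine (h1.norm_sq ℝ).inv ?_
    exact pow_ne_zero 2 (norm_ne_zero_iff.2 (tcovA_br_ne h))
  exact c.jn.contDiff.contDiffAt.comp q (contDiffAt_id.prodMk (h1.prodMk h2))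

theorem locIm_xh (c : Co m k) (hQ : RankQ n N Q) {x : E k} (hx : x ∈ NHc c N Q) :
    LocIm N (NHc c N Q) (xh c Q (c.pv x)) c.pq x := by
  obtain ⟨hx1, hx2, hx3⟩ := hx
  have hv : c.pv x ≠ 0 := by
    intro h0
    rw [h0, norm_zero] at hx3
    norm_num at hx3
  have hvv : 0 < ⟪c.pv x, c.pv x⟫ := real_inner_self_pos.2 hv
  have hpos : 0 < ⟪Q (c.pq x) (c.pv x), c.pv x⟫ := by
    rw [isV_inner hx2]
    exact pow_pos hvv 2
  have hcont : Continuous (fun q => ⟪Q q (c.pv x), c.pv x⟫) := (tcovA_smI hQ.smooth (c.pv x)).continuous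
  have hev : ∀ᶠ q in 𝓝 (c.pq x), 0 < ⟪Q q (c.pv x), c.pv x⟫ :=
    (isOpen_lt continuous_const hcont).mem_nhds hpos
  refine ⟨hx1, ?_, ?_, ?_, ?_, ?_⟩
  · unfold xh
    rw [br_eq hx2 hvv, ← eq_inv_of_mul_eq_one_left hx3, c.jn_p]
  · filter_upwards [hev] with q hq
    exact xh_smooth c hQ.smooth hq
  · exact Eventually.of_forall fun y => c.pq.contDiff.contDiffAt
  · filter_upwards [hev] with q hq hqN
    have hbr : ∃ w, IsV Q q w ∧ 0 < ⟪w, c.pv x⟫ := by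
      obtain ⟨w, _, hw⟩ := hQ.rank q hqN
      rw [isV_inner hw] at hq
      rcases lt_trichotomy ⟪w, c.pv x⟫ 0 with h | h | h
      · refine ⟨-w, isV_neg hw, ?_⟩
        rw [inner_neg_left]
        linarith
      · rw [h] at hq
        norm_num at hq
      · exact ⟨w, hw, h⟩
    obtain ⟨w, hw, hwp⟩ := hbr
    have hw0 : w ≠ 0 := by
      intro h0
      rw [h0, inner_zero_left] at hwp
      exact lt_irrefl _ hwp
    have hb := br_eq hw hwp
    unfold xh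
    rw [hb]
    refine ⟨⟨?_, ?_, ?_⟩, ?_⟩
    · rw [c.pq_jn]
      exact hqN
    · rw [c.pq_jn, c.pv_jn]
      exact hw
    · rw [c.ps_jn, c.pv_jn]
      exact inv_mul_cancel₀ (pow_ne_zero 2 (norm_ne_zero_iff.2 hw0))
    · rw [c.pq_jn]
  · have hc2 : Continuous (fun y : E k => ⟪c.pv y, c.pv x⟫) := c.pv.continuous.inner continuous_const
    have hev2 : ∀ᶠ y in 𝓝 x, 0 < ⟪c.pv y, c.pv x⟫ := (isOpen_lt continuous_const hc2).mem_nhds hvv
    filter_upwards [hev2] with y hy hyN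
    obtain ⟨hy1, hy2, hy3⟩ := hyN
    refine ⟨hy1, ?_⟩
    unfold xh
    rw [br_eq hy2 hy, ← eq_inv_of_mul_eq_one_left hy3, c.jn_p]

theorem closed_NHc (c : Co m k) (hQ : RankQ n N Q) : IsClosed (NHc c N Q) := by
  have h1 : IsClosed {x : E k | c.pq x ∈ N} := hQ.cpt.isClosed.preimage c.pq.continuous
  have h2 : IsClosed {x : E k | IsV Q (c.pq x) (c.pv x)} := by
    have h3 : {x : E k | IsV Q (c.pq x) (c.pv x)} = ⋂ w : E m, {x : E k | Q (c.pq x) w = ⟪c.pv x, w⟫ • c.pv x} := by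
      ext x
      simp only [Set.mem_iInter, IsV, Set.mem_ofPred_eq]
    rw [h3]
    refine isClosed_iInter fun w => ?_
    refine isClosed_eq ((tcovA_smQ hQ.smooth w).continuous.comp c.pq.continuous) ?_
    exact (Continuous.inner (𝕜 := ℝ) c.pv.continuous (continuous_const (y := w))).smul c.pv.continuous
  have h4 : IsClosed {x : E k | c.ps x * ‖c.pv x‖ ^ 2 = 1} :=
    isClosed_eq (c.ps.continuous.mul (c.pv.continuous.norm.pow 2)) continuous_const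
  exact h1.inter (h2.inter h4)

end Pool.Agent.H99.TW
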