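import Pool.Agent.H99.TW.TCovA

/-!
# The derivative of the section (module TCovB)

PROOF of `fderiv_xh`. `x ∈ NHc`, `v = c.pv x`, `q₀ = c.pq x`, `IsV Q q₀ v`, `v ≠ 0`. With `a q = ⟪Q q v, v⟫`, `a q₀ = ‖v‖⁴`, `Q q₀ v = ‖v‖² • v`,
`Da(q₀) ξ = ⟪DQ(q₀) ξ v, v⟫`. `D(a^{-1/2}) = -(1/2) a^{-3/2} Da`, so
`D(br)(q₀) ξ = ‖v‖⁻² • DQ ξ v - (1/2) ‖v‖⁻⁶ ⟪DQ ξ v, v⟫ • (‖v‖² • v) = etaL Q q₀ v ξ`. `br Q v q₀ = v`, and
`D(‖br‖²)⁻¹ ξ = -‖v‖⁻⁴ * 2 ⟪v, etaL ξ⟫`. So the derivative of `xh` is `jjc c Q x`.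
`jjc_smooth`: `(‖v‖²)⁻¹`, `(‖v‖⁴)⁻¹` are smooth where `v ≠ 0`, `fderiv ℝ Q` is smooth; everything else is continuous (multi)linear.
-/

set_option autoImplicit false

open scoped ContDiff Topology RealInnerProductSpace
open Set Filter

namespace Pool.Agent.H99.TW

open Pool.Agent.H57.NL Pool.Agent.H2.TG Pool.Agent.H2.TI

variable {m n k : ℕ} {N : Set (E m)} {Q : E m → (E m →L[ℝ] E m)}

private theorem tcb_ne (c : Co m k) {x : E k} (hx : x ∈ NHc c N Q) : c.pv x ≠ 0 := by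
  intro h
  have h1 := hx.2.2
  rw [h, norm_zero] at h1
  norm_num at h1

private theorem tcb_br {q₀ v : E m} (hQ : DifferentiableAt ℝ Q q₀) (hv : v ≠ 0)
    (h : IsV Q q₀ v) : HasFDerivAt (br Q v) (etaL Q q₀ v) q₀ := by
  have hn : 0 < ‖v‖ := norm_pos_iff.2 hv
  set D : E m →L[ℝ] E m := (ContinuousLinearMap.apply ℝ (E m) v).comp (fderiv ℝ Q q₀) with hD
  have hQv : Q q₀ v = (‖v‖ ^ 2) • v := by
    rw [h v, real_inner_self_eq_norm_sq]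
  have h1 : HasFDerivAt (fun q => Q q v) D q₀ :=
    (ContinuousLinearMap.apply ℝ (E m) v).hasFDerivAt.comp q₀ hQ.hasFDerivAt
  have h2 : HasFDerivAt (fun q => ⟪Q q v, v⟫) ((innerSL ℝ v).comp D) q₀ := by
    have h3 : HasFDerivAt (fun q => innerSL ℝ v (Q q v)) ((innerSL ℝ v).comp D) q₀ :=
      (innerSL ℝ v).hasFDerivAt.comp q₀ h1
    refine h3.congr_of_eventuallyEq (Filter.Eventually.of_forall fun q => ?_)
    show ⟪Q q v, v⟫ = ⟪v, Q q v⟫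
    rw [real_inner_comm]
  have ha : ⟪Q q₀ v, v⟫ = (‖v‖ ^ 2) ^ 2 := by
    rw [hQv, real_inner_smul_left, real_inner_self_eq_norm_sq]
    ring
  have hsq : Real.sqrt ⟪Q q₀ v, v⟫ = ‖v‖ ^ 2 := by
    rw [ha, Real.sqrt_sq (by positivity)]
  have ha0 : (⟪Q q₀ v, v⟫ : ℝ) ≠ 0 := by
    rw [ha]
    positivity
  have h4 : HasDerivAt (fun s => (Real.sqrt s)⁻¹)
      (-(1 / (2 * Real.sqrt ⟪Q q₀ v, v⟫)) / (Real.sqrt ⟪Q q₀ v, v⟫) ^ 2) ⟪Q q₀ v, v⟫ := by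
    refine (Real.hasDerivAt_sqrt ha0).inv ?_
    rw [hsq]
    positivity
  have h5 := HasDerivAt.comp_hasFDerivAt q₀ (f := fun q => (⟪Q q v, v⟫ : ℝ)) h4 h2
  have h6 := HasFDerivAt.smul (c := fun q => (Real.sqrt ⟪Q q v, v⟫)⁻¹) (f := fun q => Q q v) h5 h1
  refine HasFDerivAt.congr_fderiv h6 ?_
  rw [hsq, hQv]
  ext1 ξ
  show (‖v‖ ^ 2)⁻¹ • D ξ + ((-(1 / (2 * ‖v‖ ^ 2)) / (‖v‖ ^ 2) ^ 2) * ⟪v, D ξ⟫) • ((‖v‖ ^ 2) • v) =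
    (‖v‖ ^ 2)⁻¹ • D ξ - (2 * ‖v‖ ^ 4)⁻¹ • (⟪v, D ξ⟫ • v)
  rw [smul_smul, smul_smul, sub_eq_add_neg, ← neg_smul]
  congr 2
  field_simp

theorem fderiv_xh (c : Co m k) (hQ : RankQ n N Q) {x : E k} (hx : x ∈ NHc c N Q) :
    fderiv ℝ (xh c Q (c.pv x)) (c.pq x) = jjc c Q x := by
  have hv := tcb_ne c hx
  have hV := hx.2.1
  have hn : 0 < ‖c.pv x‖ := norm_pos_iff.2 hv
  have h1 := tcb_br (q₀ := c.pq x) (v := c.pv x)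
    ((hQ.smooth.differentiable (by simp)) (c.pq x)) hv hV
  have hb : br Q (c.pv x) (c.pq x) = c.pv x := br_eq hV (by
    rw [real_inner_self_eq_norm_sq]
    positivity)
  have h2 : HasFDerivAt (fun q => ‖br Q (c.pv x) q‖ ^ 2)
      (2 • (innerSL ℝ (c.pv x)).comp (etaL Q (c.pq x) (c.pv x))) (c.pq x) := by
    have h3 := h1.norm_sq
    rw [hb] at h3
    exact h3
  have h4 : HasDerivAt (fun s : ℝ => s⁻¹) (-((‖c.pv x‖ ^ 2) ^ 2)⁻¹)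
      (‖br Q (c.pv x) (c.pq x)‖ ^ 2) := by
    rw [hb]
    exact hasDerivAt_inv (by positivity)
  have h5 := HasDerivAt.comp_hasFDerivAt (c.pq x) (f := fun q => ‖br Q (c.pv x) q‖ ^ 2) h4 h2
  have h6 := (hasFDerivAt_id (𝕜 := ℝ) (c.pq x)).prodMk (h1.prodMk h5)
  have h7 := c.jn.hasFDerivAt.comp (c.pq x) h6
  have h8 : HasFDerivAt (xh c Q (c.pv x)) _ (c.pq x) := h7
  rw [h8.fderiv]
  unfold jjc
  have h9 : (-((‖c.pv x‖ ^ 2) ^ 2)⁻¹) • (2 • (innerSL ℝ (c.pv x)).comp (etaL Q (c.pq x) (c.pv x))) =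
      (-2 * (‖c.pv x‖ ^ 4)⁻¹) • (innerSL ℝ (c.pv x)).comp (etaL Q (c.pq x) (c.pv x)) := by
    rw [two_smul, ← two_smul ℝ, smul_smul]
    congr 1
    ring
  rw [h9]

private theorem tcb_prod {A B C : Type} [NormedAddCommGroup A] [NormedSpace ℝ A]
    [NormedAddCommGroup B] [NormedSpace ℝ B] [NormedAddCommGroup C] [NormedSpace ℝ C]
    {X : Type} [NormedAddCommGroup X] [NormedSpace ℝ X] {s : Set X} {f : X → (A →L[ℝ] B)}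
    {g : X → (A →L[ℝ] C)} (hf : ContDiffOn ℝ ∞ f s) (hg : ContDiffOn ℝ ∞ g s) :
    ContDiffOn ℝ ∞ (fun x => (f x).prod (g x)) s := by
  have h : (fun x => (f x).prod (g x)) = fun x =>
      (ContinuousLinearMap.inl ℝ B C).comp (f x) + (ContinuousLinearMap.inr ℝ B C).comp (g x) := by
    funext x
    ext1 a
    show (f x a, g x a) = (f x a, 0) + (0, g x a)
    rw [Prod.mk_add_mk, add_zero, zero_add]
  rw [h]
  exact (contDiffOn_const.clm_comp hf).add (contDiffOn_const.clm_comp hg)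

private theorem tcb_inner : ContDiff ℝ ∞ (fun v : E m => (innerSL ℝ v : E m →L[ℝ] ℝ)) := by
  have h : IsBoundedLinearMap ℝ (fun v : E m => (innerSL ℝ v : E m →L[ℝ] ℝ)) := by
    refine ⟨⟨fun x y => ?_, fun c x => ?_⟩, 1, one_pos, fun x => ?_⟩
    · rw [map_add]
    · ext1 y
      show ⟪c • x, y⟫ = c • ⟪x, y⟫
      rw [real_inner_smul_left, smul_eq_mul]
    · rw [innerSL_apply_norm, one_mul]
  exact h.contDiff

private theorem tcb_eta (c : Co m k) (hQ : ContDiff ℝ ∞ Q) :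
    ContDiffOn ℝ ∞ (fun x => etaL Q (c.pq x) (c.pv x)) {x | c.pv x ≠ 0} := by
  have hn : ContDiffOn ℝ ∞ (fun x => ‖c.pv x‖ ^ 2) {x | c.pv x ≠ 0} :=
    (c.pv.contDiff.norm_sq ℝ).contDiffOn
  have hD : ContDiff ℝ ∞ (fun x => (ContinuousLinearMap.apply ℝ (E m) (c.pv x)).comp
      (fderiv ℝ Q (c.pq x))) := by
    have h1 : ContDiff ℝ ∞ (fun x => fderiv ℝ Q (c.pq x)) :=
      (hQ.fderiv_right (by simp)).comp c.pq.contDiff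
    have h2 : ContDiff ℝ ∞ (fun v : E m => (ContinuousLinearMap.apply ℝ (E m) v :
        (E m →L[ℝ] E m) →L[ℝ] E m)) := ContinuousLinearMap.contDiff _
    exact (h2.comp c.pv.contDiff).clm_comp h1
  have h0 : ∀ x ∈ {x | c.pv x ≠ 0}, ‖c.pv x‖ ^ 2 ≠ 0 := fun x hx =>
    pow_ne_zero 2 (norm_ne_zero_iff.2 hx)
  have h4 : ContDiffOn ℝ ∞ (fun x => (2 * ‖c.pv x‖ ^ 4)⁻¹) {x | c.pv x ≠ 0} := by
    have e : (fun x => (2 * ‖c.pv x‖ ^ 4)⁻¹) = fun x => (2 * (‖c.pv x‖ ^ 2 * ‖c.pv x‖ ^ 2))⁻¹ := by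
      funext x
      congr 2
      ring
    rw [e]
    exact (contDiffOn_const.mul (hn.mul hn)).inv fun x hx =>
      mul_ne_zero two_ne_zero (mul_ne_zero (h0 x hx) (h0 x hx))
  unfold etaL
  refine ((hn.inv h0).smul hD.contDiffOn).sub (h4.smul ?_)
  have h5 : ContDiff ℝ ∞ (fun x => (innerSL ℝ (c.pv x) : E m →L[ℝ] ℝ).comp
      ((ContinuousLinearMap.apply ℝ (E m) (c.pv x)).comp (fderiv ℝ Q (c.pq x)))) :=
    (tcb_inner.comp c.pv.contDiff).clm_comp hD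
  exact (isBoundedBilinearMap_smulRight.contDiff.comp (h5.prodMk c.pv.contDiff)).contDiffOn

theorem jjc_smooth (c : Co m k) (hQ : ContDiff ℝ ∞ Q) :
    ContDiffOn ℝ ∞ (jjc c Q) {x | c.pv x ≠ 0} := by
  have h1 := tcb_eta c hQ
  have hn : ContDiffOn ℝ ∞ (fun x => ‖c.pv x‖ ^ 2) {x | c.pv x ≠ 0} :=
    (c.pv.contDiff.norm_sq ℝ).contDiffOn
  have h0 : ∀ x ∈ {x | c.pv x ≠ 0}, ‖c.pv x‖ ^ 2 ≠ 0 := fun x hx =>
    pow_ne_zero 2 (norm_ne_zero_iff.2 hx)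
  have h4 : ContDiffOn ℝ ∞ (fun x => -2 * (‖c.pv x‖ ^ 4)⁻¹) {x | c.pv x ≠ 0} := by
    have e : (fun x => -2 * (‖c.pv x‖ ^ 4)⁻¹) = fun x => -2 * (‖c.pv x‖ ^ 2 * ‖c.pv x‖ ^ 2)⁻¹ := by
      funext x
      congr 2
      ring
    rw [e]
    exact contDiffOn_const.mul ((hn.mul hn).inv fun x hx => mul_ne_zero (h0 x hx) (h0 x hx))
  unfold jjc
  exact contDiffOn_const.clm_comp (tcb_prod contDiffOn_const (tcb_prod h1
    (h4.smul ((tcb_inner.comp c.pv.contDiff).contDiffOn.clm_comp h1))))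

private theorem tcb_pqT (c : Co m k) (x : E k) : c.pq (c.T x) = c.pq x :=
  c.pq_jn (c.pq x, -c.pv x, c.ps x)

private theorem tcb_pvT (c : Co m k) (x : E k) : c.pv (c.T x) = -c.pv x :=
  c.pv_jn (c.pq x, -c.pv x, c.ps x)

private theorem tcb_Tjn (c : Co m k) (a : E m × E m × ℝ) :
    c.T (c.jn a) = c.jn (a.1, -a.2.1, a.2.2) := by
  show c.jn (c.pq (c.jn a), -c.pv (c.jn a), c.ps (c.jn a)) = _
  rw [c.pq_jn, c.pv_jn, c.ps_jn]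

theorem jjc_T (c : Co m k) (x : E k) (ξ : E m) : jjc c Q (c.T x) ξ = c.T (jjc c Q x ξ) := by
  have h1 : etaL Q (c.pq x) (-c.pv x) ξ = -etaL Q (c.pq x) (c.pv x) ξ := by
    show (‖-c.pv x‖ ^ 2)⁻¹ • (fderiv ℝ Q (c.pq x) ξ (-c.pv x)) -
      (2 * ‖-c.pv x‖ ^ 4)⁻¹ • (⟪-c.pv x, fderiv ℝ Q (c.pq x) ξ (-c.pv x)⟫ • (-c.pv x)) =
      -((‖c.pv x‖ ^ 2)⁻¹ • (fderiv ℝ Q (c.pq x) ξ (c.pv x)) -
      (2 * ‖c.pv x‖ ^ 4)⁻¹ • (⟪c.pv x, fderiv ℝ Q (c.pq x) ξ (c.pv x)⟫ • (c.pv x)))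
    rw [norm_neg, map_neg, inner_neg_neg, smul_neg, smul_neg, smul_neg, neg_sub]
    abel
  show c.jn (ξ, etaL Q (c.pq (c.T x)) (c.pv (c.T x)) ξ,
    (-2 * (‖c.pv (c.T x)‖ ^ 4)⁻¹) * ⟪c.pv (c.T x), etaL Q (c.pq (c.T x)) (c.pv (c.T x)) ξ⟫) =
    c.T (c.jn (ξ, etaL Q (c.pq x) (c.pv x) ξ,
      (-2 * (‖c.pv x‖ ^ 4)⁻¹) * ⟪c.pv x, etaL Q (c.pq x) (c.pv x) ξ⟫))
  rw [tcb_Tjn, tcb_pqT, tcb_pvT, h1, norm_neg, inner_neg_neg]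

end Pool.Agent.H99.TW
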