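import Pool.Agent.H99.TW.TDefs

/-!
# The double cover in coordinates: definitions
-/

set_option autoImplicit false

open scoped ContDiff Topology RealInnerProductSpace
open Set Filter

namespace Pool.Agent.H99.TW

open Pool.Agent.H57.NL Pool.Agent.H2.TG Pool.Agent.H2.TI

variable {m k : ℕ}

/-- Coordinates `ℝ^k = ℝ^m × ℝ^m × ℝ`. -/
structure Co (m k : ℕ) where
  pq : E k →L[ℝ] E m
  pv : E k →L[ℝ] E m
  ps : E k →L[ℝ] ℝ
  jn : (E m × E m × ℝ) →L[ℝ] E k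
  pq_jn : ∀ a, pq (jn a) = a.1
  pv_jn : ∀ a, pv (jn a) = a.2.1
  ps_jn : ∀ a, ps (jn a) = a.2.2
  jn_p : ∀ x, jn (pq x, pv x, ps x) = x
  inner : ∀ x y, ⟪x, y⟫ = ⟪pq x, pq y⟫ + ⟪pv x, pv y⟫ + ps x * ps y

/-- The involution `(q, v, s) ↦ (q, -v, s)`. -/
noncomputable def Co.T (c : Co m k) : E k →L[ℝ] E k := c.jn.comp (c.pq.prod ((-c.pv).prod c.ps))

/-- The vector of `Q q` on the side of `v`. -/
noncomputable def br (Q : E m → (E m →L[ℝ] E m)) (v q : E m) : E m :=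
  (Real.sqrt ⟪Q q v, v⟫)⁻¹ • Q q v

/-- The local section of the double cover. -/
noncomputable def xh (c : Co m k) (Q : E m → (E m →L[ℝ] E m)) (v q : E m) : E k :=
  c.jn (q, br Q v q, (‖br Q v q‖ ^ 2)⁻¹)

/-- The double cover. -/
def NHc (c : Co m k) (N : Set (E m)) (Q : E m → (E m →L[ℝ] E m)) : Set (E k) :=
  {x | c.pq x ∈ N ∧ IsV Q (c.pq x) (c.pv x) ∧ c.ps x * ‖c.pv x‖ ^ 2 = 1}

/-- The derivative of `br Q v` at `q`, if `Q q = v ⊗ v`. -/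
noncomputable def etaL (Q : E m → (E m →L[ℝ] E m)) (q v : E m) : E m →L[ℝ] E m :=
  (‖v‖ ^ 2)⁻¹ • ((ContinuousLinearMap.apply ℝ (E m) v).comp (fderiv ℝ Q q)) -
    (2 * ‖v‖ ^ 4)⁻¹ • ((innerSL ℝ v).comp
      ((ContinuousLinearMap.apply ℝ (E m) v).comp (fderiv ℝ Q q))).smulRight v

/-- The derivative of the local section at the base point. -/
noncomputable def jjc (c : Co m k) (Q : E m → (E m →L[ℝ] E m)) (x : E k) : E m →L[ℝ] E k :=
  c.jn.comp ((ContinuousLinearMap.id ℝ (E m)).prod ((etaL Q (c.pq x) (c.pv x)).prod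
    ((-2 * (‖c.pv x‖ ^ 4)⁻¹) • (innerSL ℝ (c.pv x)).comp (etaL Q (c.pq x) (c.pv x)))))

end Pool.Agent.H99.TW
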