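import Pool.Agent.H99.TW.KDefs
import Pool.Agent.H2.TI.SDefs

/-!
# The straightening of `T*N` for a closed submanifold: definitions
-/

set_option autoImplicit false

open scoped ContDiff Topology RealInnerProductSpace
open Set Filter

namespace Pool.Agent.H99.TW

open Pool.Agent.H57.NL Pool.Agent.H2.TG Pool.Agent.H2.TI

variable {m : ℕ}

/-- A closed submanifold (possibly not compact, not connected) with a tangent vector field. -/
structure BaseU (n : ℕ) (N : Set (E m)) (V : E m → E m) (R : ℝ → E m → E m) : Prop where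
  sub : IsSubmfd n N
  closed : IsClosed N
  smooth : ContDiff ℝ ∞ V
  bdd : ∃ K : ℝ, ∀ x, ‖V x‖ ≤ K
  tan : ∀ q ∈ N, V q ∈ Tan N q
  flow : IsFlow V R
  maps : ∀ q ∈ N, ∀ t, R t q ∈ N

/-- The reduced straightening `x ↦ (R (b x) x.1, ρ x)` with action `A`. -/
structure RhoU (N : Set (E m)) (V : E m → E m) (Θ : E m × ℝ → ℝ) (b A ρ : E m × ℝ → ℝ) :
    Prop where
  smoothb : ContDiff ℝ ∞ b
  smoothA : ContDiff ℝ ∞ A
  smooth : ContDiff ℝ ∞ ρ
  id : ∀ x : E m × ℝ, x.1 ∈ N → ∀ a r : ℝ,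
    x.2 * a + fderiv ℝ A x (a • V x.1, r) = ρ x * (a + fderiv ℝ b x (a • V x.1, r))
  ker : ∀ x : E m × ℝ, x.1 ∈ N → ∀ a r : ℝ, a + fderiv ℝ b x (a • V x.1, r) = 0 →
    ∃ k : ℝ, a = -(k * Real.sin (Θ x)) ∧ r = k * Real.cos (Θ x)

end Pool.Agent.H99.TW
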