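import Pool.Agent.H99.TW.TCone
import Pool.Agent.H99.TW.UDefs

/-!
# Technical definitions
-/

set_option autoImplicit false

open scoped ContDiff Topology RealInnerProductSpace
open Set Filter

namespace Pool.Agent.H99.TW

open Pool.Agent.H57.NL Pool.Agent.H2.TG Pool.Agent.H2.TI

/-- Near `y` the set `T` is the image of the set `S` near `G y` under `F`, with inverse `G`. -/
structure LocIm {X Y : Type} [NormedAddCommGroup X] [NormedSpace ℝ X] [NormedAddCommGroup Y]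
    [NormedSpace ℝ Y] (S : Set X) (T : Set Y) (F : X → Y) (G : Y → X) (y : Y) : Prop where
  mem : G y ∈ S
  fg : F (G y) = y
  smooth : ∀ᶠ x in 𝓝 (G y), ContDiffAt ℝ ∞ F x
  smooth' : ∀ᶠ y' in 𝓝 y, ContDiffAt ℝ ∞ G y'
  fwd : ∀ᶠ x in 𝓝 (G y), x ∈ S → F x ∈ T ∧ G (F x) = x
  bwd : ∀ᶠ y' in 𝓝 y, y' ∈ T → G y' ∈ S ∧ F (G y') = y'

variable {m k : ℕ}

/-- The tensor `Q q` is `v ⊗ v`. -/
def IsV (Q : E m → (E m →L[ℝ] E m)) (q v : E m) : Prop := ∀ w, Q q w = ⟪v, w⟫ • v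

/-- A smooth tensor `v ⊗ v` on a compact submanifold, `v` tangent (`v` is only unique up to sign). -/
structure RankQ (n : ℕ) (N : Set (E m)) (Q : E m → (E m →L[ℝ] E m)) : Prop where
  sub : IsSubmfd n N
  cpt : IsCompact N
  smooth : ContDiff ℝ ∞ Q
  rank : ∀ q ∈ N, ∃ v ∈ Tan N q, IsV Q q v

/-- The chords and the vertical tangent vectors of `S` are seen by `Q`. -/
structure EmbQ (Q : E m → (E m →L[ℝ] E m)) (S : Set (E m × E m)) (ε : ℝ) : Prop where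
  hε : 0 < ε
  sec : ∀ z ∈ S, ∀ z' ∈ S, z.1 = z'.1 → z ≠ z' →
    3 * ε ≤ ‖Q z.1‖ ∧ 0 < ⟪Q z.1 (z'.2 - z.2), z'.2 - z.2⟫
  vert : ∀ z ∈ S, ∀ b : E m, b ≠ 0 → (0, b) ∈ Tan S z → 3 * ε ≤ ‖Q z.1‖ ∧ 0 < ⟪Q z.1 b, b⟫

/-- The double cover `NH` of `{Q ≠ 0} ⊂ N`, a closed submanifold of `ℝ^k`, with deck transformation `T`,
projection `π` and the vector `pv x` with `Q (π x) = pv x ⊗ pv x`; `jj x` is the inverse of `π` on the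
tangent space. -/
structure Cov (n : ℕ) (N : Set (E m)) (Q : E m → (E m →L[ℝ] E m)) (NH : Set (E k))
    (T : E k →L[ℝ] E k) (π pv : E k →L[ℝ] E m) (jj : E k → (E m →L[ℝ] E k)) : Prop where
  rk : RankQ n N Q
  sub : IsSubmfd n NH
  closed : IsClosed NH
  TT : ∀ x, T (T x) = x
  Ti : ∀ x y, ⟪T x, T y⟫ = ⟪x, y⟫
  Tmem : ∀ x ∈ NH, T x ∈ NH
  πT : ∀ x, π (T x) = π x
  pvT : ∀ x, pv (T x) = -pv x
  πb : ∀ x, ‖π x‖ ≤ ‖x‖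
  πmem : ∀ x ∈ NH, π x ∈ N
  isV : ∀ x ∈ NH, IsV Q (π x) (pv x)
  pv0 : ∀ x ∈ NH, pv x ≠ 0
  pvt : ∀ x ∈ NH, pv x ∈ Tan N (π x)
  ex : ∀ q ∈ N, Q q ≠ 0 → ∃ x ∈ NH, π x = q
  two : ∀ x ∈ NH, ∀ x' ∈ NH, π x' = π x → x' = x ∨ x' = T x
  sec : ∀ x ∈ NH, ∃ s : E m → E k, LocIm N NH s π x
  bdd : ∀ ε : ℝ, 0 < ε → ∃ B : ℝ, ∀ x ∈ NH, ε ≤ ‖pv x‖ ^ 2 → ‖x‖ ≤ B
  jjs : ContDiffOn ℝ ∞ jj {x | pv x ≠ 0}
  jjT : ∀ x ξ, jj (T x) ξ = T (jj x ξ)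
  jjπ : ∀ x ξ, π (jj x ξ) = ξ
  jjt : ∀ x ∈ NH, ∀ ζ, ζ ∈ Tan NH x ↔ ∃ ξ ∈ Tan N (π x), ζ = jj x ξ

/-- The part of the cover with `ε ≤ ‖v‖²`. -/
def KH (NH : Set (E k)) (pv : E k →L[ℝ] E m) (ε : ℝ) : Set (E k) := {x | x ∈ NH ∧ ε ≤ ‖pv x‖ ^ 2}

/-- The covering `T*NH → T*N`. -/
noncomputable def ph (π : E k →L[ℝ] E m) (jj : E k → (E m →L[ℝ] E k)) (Pr : E m → (E m →L[ℝ] E m))
    (z : E k × E k) : E m × E m :=
  (π z.1, Pr (π z.1) (ContinuousLinearMap.adjoint (jj z.1) z.2))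

/-- The covector on `NH` at `x` over the covector `p` on `N`. -/
noncomputable def lf (π : E k →L[ℝ] E m) (PrH : E k → (E k →L[ℝ] E k)) (x : E k) (p : E m) : E k :=
  PrH x (ContinuousLinearMap.adjoint π p)

/-- The deck transformation of `T*NH`. -/
def tt (T : E k →L[ℝ] E k) (z : E k × E k) : E k × E k := (T z.1, T z.2)

/-- The symmetry of the reduced space: `(x, r) ↦ (T x, -r)`. -/
def th (T : E k →L[ℝ] E k) (x : E k × ℝ) : E k × ℝ := (T x.1, -x.2)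

/-- The lift of `S` to `T*NH`. -/
def LH (NH : Set (E k)) (p : E k × E k → E m × E m) (S : Set (E m × E m)) : Set (E k × E k) :=
  {z | z ∈ TN NH ∧ p z ∈ S}

/-- The reduced set of the lift over `{ε ≤ ‖v‖²}`. -/
def CH (V : E k → E k) (L : Set (E k × E k)) (K : Set (E k)) : Set (E k × ℝ) :=
  sigN V '' (L ∩ {z | z.1 ∈ K})

/-- The isometric involution `T` of `N` reverses the field `V`. -/
structure SymV (N : Set (E k)) (V : E k → E k) (R : ℝ → E k → E k) (T : E k →L[ℝ] E k) : Prop where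
  TT : ∀ x, T (T x) = x
  Ti : ∀ x y, ⟪T x, T y⟫ = ⟪x, y⟫
  mem : ∀ x ∈ N, T x ∈ N
  V : ∀ x, V (T x) = -T (V x)
  R : ∀ t x, R t (T x) = T (R (-t) x)

/-- A reduced straightening, equivariant under `th T`. -/
structure MidK (N : Set (E k)) (V : E k → E k) (R : ℝ → E k → E k) (Θ : E k × ℝ → ℝ)
    (T : E k →L[ℝ] E k) (b A ρ : E k × ℝ → ℝ) (Ri : E k × ℝ → E k × ℝ) : Prop where
  rho : RhoU N V Θ b A ρ
  inv : RinvN N R b ρ Ri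
  bT : ∀ x, b (th T x) = -b x
  AT : ∀ x, A (th T x) = A x
  rT : ∀ x : E k × ℝ, x.1 ∈ N → ρ (th T x) = -ρ x

/-- Exact symplectic diffeomorphism of `T*N`, locally given by smooth maps of the ambient space. -/
structure ExactL (N : Set (E m)) (ψ ψ' : E m × E m → E m × E m) (G : E m × E m → ℝ) : Prop where
  maps : ∀ z ∈ TN N, ψ z ∈ TN N
  maps' : ∀ z ∈ TN N, ψ' z ∈ TN N
  left : ∀ z ∈ TN N, ψ' (ψ z) = z
  right : ∀ z ∈ TN N, ψ (ψ' z) = z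
  smooth' : SmoothOn (TN N) ψ'
  loc : ∀ z₀ ∈ TN N, ∃ (O : Set (E m × E m)) (F : E m × E m → E m × E m) (g : E m × E m → ℝ),
    IsOpen O ∧ z₀ ∈ O ∧ ContDiffOn ℝ ∞ F O ∧ ContDiffOn ℝ ∞ g O ∧
    (∀ z ∈ O ∩ TN N, ψ z = F z ∧ G z = g z) ∧
    ∀ z ∈ O ∩ TN N, ∀ ζ ∈ Tan (TN N) z,
      ⟪(F z).2, (fderiv ℝ F z ζ).1⟫ = ⟪z.2, ζ.1⟫ + fderiv ℝ g z ζ

end Pool.Agent.H99.TW
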