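import Pool.Agent.H99.TW.TPh

/-!
# Descent of the straightening (module TDesc)

PROOF. `p = ph π jj Pr`. For `z ∈ TN N` with `Q z.1 ≠ 0` choose `x ∈ NH` over `z.1` (`hC.ex`) and put `z^ = (x, lf x z.2)`, `p z^ = z` (`ph_lf`); `Γ z = p (F z^)`, `Γ' z = p (F' z^)`, `G z = A (sigN V z^)`; otherwise `Γ z = Γ' z = z`, `G z = 0`.
(1) For `w ∈ TN NH`: `Γ (p w) = p (F w)`, `Γ' (p w) = p (F' w)`, `G (p w) = A (sigN V w)`: `Q (π w.1) ≠ 0` (`isV_ne`, `hC.pv0`); `(p w)^ = w` or `= tt T w` (`ph_two`); `hT`, `ph_tt`.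
(2) `‖Q z.1‖ < 9/8 ε`: `Γ z = Γ' z = z`, `G z = 0`: if `Q z.1 ≠ 0`: `‖pv x‖² = ‖Q z.1‖` (`norm_isV`), `hid`, `hA0`.
`maps`: (1), `ph_mem`, `hF.maps`. `left`, `right`: `z = p z^`: `Γ' (Γ z) = Γ' (p (F z^)) = p (F' (F z^)) = p z^ = z`.
Local form at `z₀ ∈ TN N`: if `Q z₀.1 = 0`: `O = {z | ‖Q z.1‖ < 9/8 ε}` (open), `F = id`, `g = 0`. Otherwise `w₀ = z₀^`, `σ` from `exists_secTN` at `w₀`; `F̃ = p ∘ F ∘ σ`, `g = A ∘ sigN V ∘ σ`, `O` = a small open neighbourhood of `z₀` such that: `σ` is smooth at the points of `O`, `pv (F (σ z)).1 ≠ 0` on `O`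
(`F w₀ ∈ TN NH`, `hC.pv0`, continuity), `z ∈ O ∩ TN N → σ z ∈ TN NH ∧ p (σ z) = z` (`fwd`) and `LocIm (TN N) (TN NH) σ p (σ z)` (`locIm_near` applied near `w₀`, and continuity of `σ`). `Γ z = Γ (p (σ z)) = p (F (σ z))`.
Exactness at `z ∈ O ∩ TN N`, `ζ ∈ Tan (TN N) z`: `ζ' = Dσ(z) ζ ∈ Tan (TN NH) (σ z)` and `Dp (ζ') = ζ` (`tan_loc`); `w = F (σ z)`, `ζ'' = DF ζ' ∈ Tan (TN NH) w`. `⟪(p w).2, (Dp ζ'').1⟫ = ⟪w.2, ζ''.1⟫` (`ph_liou`) `= ⟪(σ z).2, ζ'.1⟫ + D(A)(D(sigN V) ζ')` (`hF.exact`)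
`= ⟪(p (σ z)).2, (Dp ζ').1⟫ + Dg ζ = ⟪z.2, ζ.1⟫ + Dg ζ`.
`smooth'`: the same local form for `Γ'` with `F'`.
-/

set_option autoImplicit false

open scoped ContDiff Topology RealInnerProductSpace
open Set Filter

namespace Pool.Agent.H99.TW

open Pool.Agent.H57.NL Pool.Agent.H2.TG Pool.Agent.H2.TI

variable {m k n : ℕ} {N : Set (E m)} {Q : E m → (E m →L[ℝ] E m)} {NH : Set (E k)}
  {T : E k →L[ℝ] E k} {π pv : E k →L[ℝ] E m} {jj : E k → (E m →L[ℝ] E k)}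
  {Pr : E m → (E m →L[ℝ] E m)} {PrH : E k → (E k →L[ℝ] E k)} {S : Set (E m × E m)}
  {f : E m × E m → ℝ} {ε : ℝ} {V : E k → E k} {R : ℝ → E k → E k}
  {Θ : E k × ℝ → ℝ} {F F' : E k × E k → E k × E k} {A : E k × ℝ → ℝ}

private theorem desc_sig (hV : ContDiff ℝ ∞ V) : ContDiff ℝ ∞ (sigN V) := by
  unfold sigN
  exact contDiff_fst.prodMk (ContDiff.inner ℝ contDiff_snd (hV.comp contDiff_fst))

private theorem desc_lift (hC : Cov n N Q NH T π pv jj) (hP : ProjN N Pr) (hPH : ProjN NH PrH) {z : E m × E m}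
    (hz : z ∈ TN N) (hQ : Q z.1 ≠ 0) : ∃ w ∈ TN NH, ph π jj Pr w = z := by
  obtain ⟨x, hx, hxz⟩ := hC.ex z.1 hz.1 hQ
  refine ⟨(x, lf π PrH x z.2), ⟨hx, lf_mem hPH hx _⟩, ?_⟩
  have hp : z.2 ∈ Tan N (π x) := by
    rw [hxz]
    exact hz.2
  rw [ph_lf hC hP hPH hx hp, hxz]

/-- the local section and its neighbourhood -/
private theorem desc_loc (hC : Cov n N Q NH T π pv jj) (hP : ProjN N Pr) (hPH : ProjN NH PrH) {w₀ : E k × E k}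
    (hw : w₀ ∈ TN NH) {F₀ : E k × E k → E k × E k} (hF₀ : ContDiff ℝ ∞ F₀) (hm : F₀ w₀ ∈ TN NH) :
    ∃ (σ : E m × E m → E k × E k) (O : Set (E m × E m)), IsOpen O ∧ ph π jj Pr w₀ ∈ O ∧
      (∀ z ∈ O, ContDiffAt ℝ ∞ σ z ∧ pv (F₀ (σ z)).1 ≠ 0) ∧
      ∀ z ∈ O ∩ TN N, σ z ∈ TN NH ∧ ph π jj Pr (σ z) = z ∧ LocIm (TN N) (TN NH) σ (ph π jj Pr) (σ z) := by
  obtain ⟨σ, hσ⟩ := exists_secTN hC hP hPH hw
  have hc : ContinuousAt σ (ph π jj Pr w₀) := hσ.smooth.self_of_nhds.continuousAt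
  have e1 : ∀ᶠ z in 𝓝 (ph π jj Pr w₀), pv (F₀ (σ z)).1 ≠ 0 := by
    have h1 : ContinuousAt (fun z => pv (F₀ (σ z)).1) (ph π jj Pr w₀) := by
      have h2 : Continuous fun w : E k × E k => pv (F₀ w).1 :=
        pv.continuous.comp (continuous_fst.comp hF₀.continuous)
      exact h2.continuousAt.comp hc
    refine h1.eventually_ne ?_
    rw [hσ.fg]
    exact hC.pv0 _ hm.1
  have e2 : ∀ᶠ z in 𝓝 (ph π jj Pr w₀), σ z ∈ TN NH → LocIm (TN N) (TN NH) σ (ph π jj Pr) (σ z) := by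
    have h1 := locIm_near hσ
    rw [← hσ.fg] at h1
    exact hc.eventually h1
  obtain ⟨O, hO1, hO2, hO3⟩ := eventually_nhds_iff.1 ((hσ.smooth.and e1).and (hσ.fwd.and e2))
  refine ⟨σ, O, hO2, hO3, fun z hz => (hO1 z hz).1, ?_⟩
  rintro z ⟨hz, hzN⟩
  obtain ⟨_, h2, h3⟩ := hO1 z hz
  obtain ⟨h4, h5⟩ := h2 hzN
  exact ⟨h4, h5, h3 h4⟩

theorem exists_desc (hC : Cov n N Q NH T π pv jj) (hP : ProjN N Pr) (hPH : ProjN NH PrH)
    (hε : 0 < ε) (hF : StrN NH V Θ F F' A) (hT : ∀ z ∈ TN NH, F (tt T z) = tt T (F z))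
    (hT' : ∀ z ∈ TN NH, F' (tt T z) = tt T (F' z))
    (hid : ∀ z ∈ TN NH, ‖pv z.1‖ ^ 2 < 9 / 8 * ε → F z = z ∧ F' z = z)
    (hA0 : ∀ z ∈ TN NH, ‖pv z.1‖ ^ 2 < 9 / 8 * ε → A (sigN V z) = 0)
    (hAT : ∀ z ∈ TN NH, A (sigN V (tt T z)) = A (sigN V z)) :
    ∃ Γ Γ' G, ExactL N Γ Γ' G ∧ (∀ z ∈ TN NH, Γ (ph π jj Pr z) = ph π jj Pr (F z)) ∧
      (∀ z ∈ TN NH, Γ' (ph π jj Pr z) = ph π jj Pr (F' z)) ∧
      ∀ z ∈ TN N, ‖Q z.1‖ < 9 / 8 * ε → Γ z = z ∧ Γ' z = z := by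
  classical
  let hat : E m × E m → E k × E k := fun z => if h : ∃ w ∈ TN NH, ph π jj Pr w = z then h.choose else 0
  have hhat : ∀ w ∈ TN NH, hat (ph π jj Pr w) = w ∨ hat (ph π jj Pr w) = tt T w := by
    intro w hw
    have hex : ∃ w' ∈ TN NH, ph π jj Pr w' = ph π jj Pr w := ⟨w, hw, rfl⟩
    have h1 : hat (ph π jj Pr w) = hex.choose := dif_pos hex
    obtain ⟨h2, h3⟩ := hex.choose_spec
    rw [h1]
    exact ph_two hC hP hPH hw h2 h3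
  let Γ : E m × E m → E m × E m := fun z => if ∃ w ∈ TN NH, ph π jj Pr w = z then ph π jj Pr (F (hat z)) else z
  let Γ' : E m × E m → E m × E m := fun z => if ∃ w ∈ TN NH, ph π jj Pr w = z then ph π jj Pr (F' (hat z)) else z
  let G : E m × E m → ℝ := fun z => if ∃ w ∈ TN NH, ph π jj Pr w = z then A (sigN V (hat z)) else 0
  have g1 : ∀ w ∈ TN NH, Γ (ph π jj Pr w) = ph π jj Pr (F w) := by
    intro w hw
    have hex : ∃ w' ∈ TN NH, ph π jj Pr w' = ph π jj Pr w := ⟨w, hw, rfl⟩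
    have h1 : Γ (ph π jj Pr w) = ph π jj Pr (F (hat (ph π jj Pr w))) := if_pos hex
    rw [h1]
    rcases hhat w hw with h2 | h2
    · rw [h2]
    · rw [h2, hT w hw, ph_tt hC]
  have g2 : ∀ w ∈ TN NH, Γ' (ph π jj Pr w) = ph π jj Pr (F' w) := by
    intro w hw
    have hex : ∃ w' ∈ TN NH, ph π jj Pr w' = ph π jj Pr w := ⟨w, hw, rfl⟩
    have h1 : Γ' (ph π jj Pr w) = ph π jj Pr (F' (hat (ph π jj Pr w))) := if_pos hex
    rw [h1]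
    rcases hhat w hw with h2 | h2
    · rw [h2]
    · rw [h2, hT' w hw, ph_tt hC]
  have g3 : ∀ w ∈ TN NH, G (ph π jj Pr w) = A (sigN V w) := by
    intro w hw
    have hex : ∃ w' ∈ TN NH, ph π jj Pr w' = ph π jj Pr w := ⟨w, hw, rfl⟩
    have h1 : G (ph π jj Pr w) = A (sigN V (hat (ph π jj Pr w))) := if_pos hex
    rw [h1]
    rcases hhat w hw with h2 | h2
    · rw [h2]
    · rw [h2, hAT w hw]
  have n1 : ∀ z, (¬ ∃ w ∈ TN NH, ph π jj Pr w = z) → Γ z = z ∧ Γ' z = z ∧ G z = 0 := fun z hz =>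
    ⟨if_neg hz, if_neg hz, if_neg hz⟩
  have hnorm : ∀ w ∈ TN NH, ‖pv w.1‖ ^ 2 = ‖Q (ph π jj Pr w).1‖ := fun w hw => by
    rw [ph_fst, norm_isV (hC.isV w.1 hw.1)]
  have h0 : ∀ z ∈ TN N, ‖Q z.1‖ < 9 / 8 * ε → Γ z = z ∧ Γ' z = z ∧ G z = 0 := by
    intro z hz hQ
    by_cases hex : ∃ w ∈ TN NH, ph π jj Pr w = z
    · obtain ⟨w, hw, rfl⟩ := hex
      rw [← hnorm w hw] at hQ
      obtain ⟨k1, k2⟩ := hid w hw hQ
      rw [g1 w hw, g2 w hw, g3 w hw, k1, k2, hA0 w hw hQ]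
      exact ⟨rfl, rfl, rfl⟩
    · exact n1 z hex
  have hO : IsOpen {z : E m × E m | ‖Q z.1‖ < 9 / 8 * ε} :=
    isOpen_lt ((hC.rk.smooth.continuous.comp continuous_fst).norm) continuous_const
  have hsm : ∀ (F₀ : E k × E k → E k × E k) (Γ₀ : E m × E m → E m × E m), ContDiff ℝ ∞ F₀ →
      (∀ w ∈ TN NH, F₀ w ∈ TN NH) → (∀ w ∈ TN NH, Γ₀ (ph π jj Pr w) = ph π jj Pr (F₀ w)) →
      ∀ w₀ ∈ TN NH, ∃ (σ : E m × E m → E k × E k) (O : Set (E m × E m)), IsOpen O ∧ ph π jj Pr w₀ ∈ O ∧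
      ContDiffOn ℝ ∞ (fun z => ph π jj Pr (F₀ (σ z))) O ∧ ContDiffOn ℝ ∞ σ O ∧
      (∀ z ∈ O, pv (F₀ (σ z)).1 ≠ 0) ∧
      ∀ z ∈ O ∩ TN N, Γ₀ z = ph π jj Pr (F₀ (σ z)) ∧ σ z ∈ TN NH ∧ ph π jj Pr (σ z) = z ∧
        LocIm (TN N) (TN NH) σ (ph π jj Pr) (σ z) := by
    intro F₀ Γ₀ hF₀ hm hΓ w₀ hw
    obtain ⟨σ, O, hO1, hO2, hO3, hO4⟩ := desc_loc hC hP hPH hw hF₀ (hm _ hw)
    refine ⟨σ, O, hO1, hO2, ?_, fun z hz => (hO3 z hz).1.contDiffWithinAt, fun z hz => (hO3 z hz).2, ?_⟩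
    · intro z hz
      have k1 : ContDiffAt ℝ ∞ (fun z => F₀ (σ z)) z := hF₀.contDiffAt.comp z (hO3 z hz).1
      have k2 : ContDiffAt ℝ ∞ (ph π jj Pr) (F₀ (σ z)) := ph_smooth hC hP (hO3 z hz).2
      exact (k2.comp z k1).contDiffWithinAt
    · intro z hz
      obtain ⟨k1, k2, k3⟩ := hO4 z hz
      refine ⟨?_, k1, k2, k3⟩
      have k4 := hΓ (σ z) k1
      rw [k2] at k4
      exact k4
  refine ⟨Γ, Γ', G, ?_, g1, g2, fun z hz hQ => ⟨(h0 z hz hQ).1, (h0 z hz hQ).2.1⟩⟩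
  refine ⟨?_, ?_, ?_, ?_, ?_, ?_⟩
  · intro z hz
    by_cases hex : ∃ w ∈ TN NH, ph π jj Pr w = z
    · obtain ⟨w, hw, rfl⟩ := hex
      rw [g1 w hw]
      exact ph_mem hC hP (hF.maps w hw)
    · rw [(n1 z hex).1]
      exact hz
  · intro z hz
    by_cases hex : ∃ w ∈ TN NH, ph π jj Pr w = z
    · obtain ⟨w, hw, rfl⟩ := hex
      rw [g2 w hw]
      exact ph_mem hC hP (hF.maps' w hw)
    · rw [(n1 z hex).2.1]
      exact hz
  · intro z hz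
    by_cases hex : ∃ w ∈ TN NH, ph π jj Pr w = z
    · obtain ⟨w, hw, rfl⟩ := hex
      rw [g1 w hw, g2 _ (hF.maps w hw), hF.left w hw]
    · rw [(n1 z hex).1, (n1 z hex).2.1]
  · intro z hz
    by_cases hex : ∃ w ∈ TN NH, ph π jj Pr w = z
    · obtain ⟨w, hw, rfl⟩ := hex
      rw [g2 w hw, g1 _ (hF.maps' w hw), hF.right w hw]
    · rw [(n1 z hex).2.1, (n1 z hex).1]
  · intro z₀ hz₀
    by_cases hQ : Q z₀.1 = 0
    · refine ⟨fun z => z, {z : E m × E m | ‖Q z.1‖ < 9 / 8 * ε}, hO, ?_, contDiffOn_id, ?_⟩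
      · show ‖Q z₀.1‖ < 9 / 8 * ε
        rw [hQ, norm_zero]
        positivity
      · intro y hy
        exact (h0 y hy.2 hy.1).2.1
    · obtain ⟨w₀, hw₀, rfl⟩ := desc_lift hC hP hPH hz₀ hQ
      obtain ⟨σ, O, h1, h2, h3, h4, h5, h6⟩ := hsm F' Γ' hF.smooth' hF.maps' g2 w₀ hw₀
      exact ⟨_, O, h1, h2, h3, fun y hy => (h6 y hy).1⟩
  · intro z₀ hz₀
    by_cases hQ : Q z₀.1 = 0
    · refine ⟨{z : E m × E m | ‖Q z.1‖ < 9 / 8 * ε}, fun z => z, fun _ => 0, hO, ?_, contDiffOn_id,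
        contDiffOn_const, ?_, ?_⟩
      · show ‖Q z₀.1‖ < 9 / 8 * ε
        rw [hQ, norm_zero]
        positivity
      · intro y hy
        exact ⟨(h0 y hy.2 hy.1).1, (h0 y hy.2 hy.1).2.2⟩
      · intro z _ ζ _
        simp
    · obtain ⟨w₀, hw₀, rfl⟩ := desc_lift hC hP hPH hz₀ hQ
      obtain ⟨σ, O, h1, h2, h3, h4, h5, h6⟩ := hsm F Γ hF.smooth hF.maps g1 w₀ hw₀
      have hsV : ContDiff ℝ ∞ (sigN V) := desc_sig hF.smoothV
      refine ⟨O, fun z => ph π jj Pr (F (σ z)), fun z => A (sigN V (σ z)), h1, h2, h3,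
        (hF.smoothA.comp hsV).comp_contDiffOn h4, ?_, ?_⟩
      · intro z hz
        obtain ⟨k1, k2, k3, k4⟩ := h6 z hz
        refine ⟨k1, ?_⟩
        have k5 := g3 (σ z) k2
        rw [k3] at k5
        exact k5
      · intro z hz ζ hζ
        obtain ⟨k1, k2, k3, k4⟩ := h6 z hz
        have hσd : DifferentiableAt ℝ σ z := (h4.contDiffAt (h1.mem_nhds hz.1)).differentiableAt (by simp)
        have hζ2 : ζ ∈ Tan (TN N) (ph π jj Pr (σ z)) := by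
          rw [k3]
          exact hζ
        obtain ⟨t1, t2⟩ := tan_loc k4 hζ2
        rw [k3] at t1 t2
        have hFd : DifferentiableAt ℝ F (σ z) := hF.smooth.contDiffAt.differentiableAt (by simp)
        have hpd : DifferentiableAt ℝ (ph π jj Pr) (F (σ z)) :=
          (ph_smooth hC hP (h5 z hz.1)).differentiableAt (by simp)
        have t3 : fderiv ℝ F (σ z) (fderiv ℝ σ z ζ) ∈ Tan (TN NH) (F (σ z)) :=
          Tan.map t1 hFd.hasFDerivAt (Eventually.of_forall fun y hy => hF.maps y hy)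
        have c1 : fderiv ℝ (fun z => ph π jj Pr (F (σ z))) z ζ =
            fderiv ℝ (ph π jj Pr) (F (σ z)) (fderiv ℝ F (σ z) (fderiv ℝ σ z ζ)) := by
          have h7 := (hpd.hasFDerivAt.comp z (hFd.hasFDerivAt.comp z hσd.hasFDerivAt)).fderiv
          have h8 : (ph π jj Pr ∘ F ∘ σ) = fun z => ph π jj Pr (F (σ z)) := rfl
          rw [← h8, h7]
          rfl
        have hAd : DifferentiableAt ℝ A (sigN V (σ z)) := hF.smoothA.contDiffAt.differentiableAt (by simp)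
        have hsd : DifferentiableAt ℝ (sigN V) (σ z) := hsV.contDiffAt.differentiableAt (by simp)
        have c2 : fderiv ℝ (fun z => A (sigN V (σ z))) z ζ =
            fderiv ℝ A (sigN V (σ z)) (fderiv ℝ (sigN V) (σ z) (fderiv ℝ σ z ζ)) := by
          have h7 := (hAd.hasFDerivAt.comp z (hsd.hasFDerivAt.comp z hσd.hasFDerivAt)).fderiv
          have h8 : (A ∘ sigN V ∘ σ) = fun z => A (sigN V (σ z)) := rfl
          rw [← h8, h7]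
          rfl
        have d1 := ph_liou hC hP (hF.maps _ k2) t3
        have d2 := hF.exact (σ z) k2 _ t1
        have d3 := ph_liou hC hP k2 t1
        rw [k3, t2] at d3
        show ⟪(ph π jj Pr (F (σ z))).2, (fderiv ℝ (fun z => ph π jj Pr (F (σ z))) z ζ).1⟫ =
          ⟪z.2, ζ.1⟫ + fderiv ℝ (fun z => A (sigN V (σ z))) z ζ
        rw [c1, c2, d1, d2, d3]

end Pool.Agent.H99.TW
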