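import Pool.Agent.H99.TW.UDefs
import Pool.Agent.H57.NL.Slice
import Pool.Agent.H2.TI.NBase

/-!
# The flow of a tangent vector field preserves a closed submanifold (module TNB)

Copy of the private theorems `nbase_local`, `nbase_maps` of `H2/TI/NBase.lean`.
-/

set_option autoImplicit false

open scoped ContDiff Topology RealInnerProductSpace
open Set Filter

namespace Pool.Agent.H99.TW

open Pool.Agent.H57.NL Pool.Agent.H2.TG Pool.Agent.H2.TI

variable {m n : ℕ} {N : Set (E m)} {V : E m → E m} {R : ℝ → E m → E m}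

private theorem tnb_local (hN : IsSubmfd n N) (hX : ContDiff ℝ ∞ V) (hΦ : IsFlow V R)
    (ht : ∀ q ∈ N, V q ∈ Tan N q) {q : E m} (hq : q ∈ N) :
    ∃ ε : ℝ, 0 < ε ∧ ∀ t, |t| < ε → R t q ∈ N := by
  obtain ⟨e, A, hqe, hs⟩ := hN.slice hq
  let P : E m →L[ℝ] A := A.orthogonalProjectionOnto
  have hP : ∀ x : E m, x ∈ A → (P x : E m) = x := by
    intro x hx
    exact congrArg Subtype.val
      (Submodule.orthogonalProjectionOnto_mem_subspace_eq_self (K := A) ⟨x, hx⟩)
  have ha0 : e q ∈ A := (hs.iff _ hqe).1 hq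
  set a0 : A := ⟨e q, ha0⟩ with ha0d
  have ha0v : (a0 : E m) = e q := rfl
  have hsymm0 : e.symm (a0 : E m) = q := e.left_inv hqe
  let Y : A → A := fun a => P (fderiv ℝ e (e.symm (a : E m)) (V (e.symm (a : E m))))
  have hYs : ContDiffAt ℝ 1 Y a0 := by
    have h3 : ContDiffAt ℝ ∞ (fun a : A => (a : E m)) a0 := A.subtypeL.contDiff.contDiffAt
    have h4 : ContDiffAt ℝ ∞ (fun a : A => e.symm (a : E m)) a0 :=
      (hs.cd' (e.map_source hqe)).comp a0 h3
    have h5 : ContDiffAt ℝ ∞ (fderiv ℝ e) (e.symm (a0 : E m)) := by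
      rw [hsymm0]
      exact (hs.cd hqe).fderiv_right (m := ∞) (by simp)
    have h6 : ContDiffAt ℝ ∞ (fun a : A => fderiv ℝ e (e.symm (a : E m))) a0 := h5.comp a0 h4
    have h7 : ContDiffAt ℝ ∞ (fun a : A => V (e.symm (a : E m))) a0 :=
      hX.contDiffAt.comp a0 h4
    have h8 := h6.clm_apply h7
    exact (P.contDiff.contDiffAt.comp a0 h8).of_le (by exact_mod_cast le_top)
  obtain ⟨α, hα0, ε, hε, hα⟩ :=
    hYs.exists_forall_mem_closedBall_exists_eq_forall_mem_Ioo_hasDerivAt₀ 0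
  simp only [zero_sub, zero_add] at hα
  have hcont : ContinuousAt α 0 := (hα 0 ⟨by linarith, hε⟩).continuousAt
  have hcont' : ContinuousAt (fun t => (α t : E m)) 0 :=
    continuous_subtype_val.continuousAt.comp hcont
  have hev : ∀ᶠ t in 𝓝 (0 : ℝ), (α t : E m) ∈ e.target := by
    refine hcont'.eventually_mem ?_
    rw [hα0]
    exact e.open_target.mem_nhds (e.map_source hqe)
  obtain ⟨δ, hδ, hW⟩ := Metric.eventually_nhds_iff.mp hev
  have htar : ∀ t, |t| < min ε δ → (α t : E m) ∈ e.target := fun t ht =>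
    hW (by simpa [Real.dist_eq] using lt_of_lt_of_le ht (min_le_right _ _))
  have hmem : ∀ t, |t| < min ε δ → e.symm (α t : E m) ∈ N := by
    intro t ht
    rw [hs.iff _ (e.map_target (htar t ht)), e.right_inv (htar t ht)]
    exact (α t).2
  have hder : ∀ t, |t| < min ε δ →
      HasDerivAt (fun t => e.symm (α t : E m)) (V (e.symm (α t : E m))) t := by
    intro t ht'
    have h1 : HasDerivAt α (Y (α t)) t := hα t (abs_lt.mp (lt_of_lt_of_le ht' (min_le_left _ _)))
    have h2 : HasDerivAt (fun t => (α t : E m)) (Y (α t) : E m) t :=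
      A.subtypeL.hasFDerivAt.comp_hasDerivAt t h1
    have h3 := (hs.hd' (htar t ht')).comp_hasDerivAt t h2
    set x := e.symm (α t : E m) with hx
    have hxs : x ∈ e.source := e.map_target (htar t ht')
    have hex : e x = (α t : E m) := e.right_inv (htar t ht')
    have h4 : fderiv ℝ e x (V x) ∈ A := (hs.mem_tan hxs (hmem t ht') _).1 (ht _ (hmem t ht'))
    have h5 : (Y (α t) : E m) = fderiv ℝ e x (V x) := hP _ h4
    rw [h5, ← hex, hs.left hxs] at h3
    exact h3
  refine ⟨min ε δ, lt_min hε hδ, fun t ht' => ?_⟩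
  have h1 := hΦ.unique_on hX (γ := fun t => e.symm (α t : E m)) (ε := |t|)
    (fun s hs' => hder s (lt_of_le_of_lt hs' ht')) t le_rfl
  simp only [hα0, hsymm0] at h1
  rw [← h1]
  exact hmem t ht'

theorem flow_maps (hN : IsSubmfd n N) (hc : IsClosed N) (hX : ContDiff ℝ ∞ V)
    (hΦ : IsFlow V R) (ht : ∀ q ∈ N, V q ∈ Tan N q) {q : E m} (hq : q ∈ N) (t : ℝ) :
    R t q ∈ N := by
  have hcont : Continuous (fun t => R t q) :=
    continuous_iff_continuousAt.mpr fun t => (hΦ.deriv q t).continuousAt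
  have hclopen : IsClopen {t | R t q ∈ N} := by
    refine ⟨hc.preimage hcont, ?_⟩
    rw [Metric.isOpen_iff]
    intro t₀ ht₀
    obtain ⟨ε, hε, H⟩ := tnb_local hN hX hΦ ht ht₀
    refine ⟨ε, hε, fun t ht' => ?_⟩
    have h1 := H (t - t₀) (by rwa [Metric.mem_ball, Real.dist_eq] at ht')
    rw [hΦ.add hX, sub_add_cancel] at h1
    exact h1
  have huniv := hclopen.eq_univ ⟨0, by
    change R 0 q ∈ N
    rw [hΦ.zero]
    exact hq⟩
  have : t ∈ {t | R t q ∈ N} := by
    rw [huniv]
    trivial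
  exact this

/-- Zeros of the field are fixed. -/
theorem flow_fix (hX : ContDiff ℝ ∞ V) (hΦ : IsFlow V R) {q : E m} (hq : V q = 0) (t : ℝ) :
    R t q = q := by
  have h1 := hΦ.unique_on hX (γ := fun _ => q) (ε := |t|)
    (fun s _ => by
      have h2 : V q = 0 := hq
      rw [h2]
      exact hasDerivAt_const s q) t le_rfl
  exact h1.symm

end Pool.Agent.H99.TW
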