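import Pool.Agent.H99.TW.TDefs
import Pool.Agent.H99.TW.TNB

/-!
# Extension of the straightening to the cover (module TExt)

PROOF. `ζ t = Real.smoothTransition ((t - 9/8 ε) / (ε / 4))`: `0` for `t ≤ 9/8 ε`, `1` for `t ≥ 11/8 ε`. `b' x = ζ (h x.1) * b x`, `A' x = ζ (h x.1) * A x`, `ρ' x = ζ ρ x + (1 - ζ) x.2`, `Ri' y = ζ • Ri y + (1 - ζ) • y` (`ζ` at `h y.1`). Smooth.
For `x.1 ∈ N`: if `h x.1 ≤ 3/2 ε` then `b' x = A' x = 0`, `ρ' x = x.2`, `Ri' x = x` (if `h x.1 < ε`, `ζ = 0`; if `ε ≤ h x.1 ≤ 3/2 ε` by `hz`); if `11/8 ε ≤ h x.1` they are `b, A, ρ, Ri`.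
`id`, `ker` at `x`, `x.1 ∈ N`: (i) `h x.1 > 11/8 ε`: the functions `b', A'` agree with `b, A` near `x` (an open condition), `hM.rho` with `x.1 ∈ K`. (ii) `h x.1 < 3/2 ε`: `V x.1 = 0`; `D b'(x) (a • V x.1, r) = D b'(x) (0, r)` is the derivative along the vertical line
`t ↦ (x.1, x.2 + t r)`, where `b' = 0`, so it is `0`; same for `A'`; `ρ' x = x.2`, `Θ x = 0`: `k = r`.
`RinvN` at `y`, `y.1 ∈ N`: (i) `h y.1 ≤ 3/2 ε`: `Ri' y = y`, `b' y = 0`. (ii) `11/8 ε < h y.1`: `Ri' y = Ri y =: x`, `x.1 ∈ K`; `h x.1 > 11/8 ε`: if `h x.1 ≤ 2ε` then `V x.1 = 0`, `R t x.1 = x.1` (`flow_fix`), and `R (b x) x.1 = y.1` gives `x.1 = y.1`. So `b' x = b x`, `ρ' x = ρ x`.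
`inv`: (i) `h x.1 ≤ 3/2 ε`: `b' x = 0`, `ρ' x = x.2`, `Ri' (x.1, x.2) = x`. (ii) `11/8 ε < h x.1`: `y.1 = R (b x) x.1`, `h y.1 > 11/8 ε` (same argument backwards: if `h y.1 ≤ 2ε` then `y.1` is a fixed point, so `x.1 = R (-b x) y.1 = y.1`), so `Ri' y = Ri y = x`.
Symmetry: `h (T x) = h x`.
-/

set_option autoImplicit false

open scoped ContDiff Topology RealInnerProductSpace
open Set Filter

namespace Pool.Agent.H99.TW

open Pool.Agent.H57.NL Pool.Agent.H2.TG Pool.Agent.H2.TI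

variable {n k : ℕ} {N : Set (E k)} {V : E k → E k} {R : ℝ → E k → E k} {T : E k →L[ℝ] E k}
  {Θ : E k × ℝ → ℝ} {b A ρ : E k × ℝ → ℝ} {Ri : E k × ℝ → E k × ℝ}

private theorem texT_vert {g : E k × ℝ → ℝ} (hg : Differentiable ℝ g) (x : E k × ℝ)
    (h0 : ∀ t : ℝ, g (x.1, t) = 0) (r : ℝ) : fderiv ℝ g x (0, r) = 0 := by
  have h1 : HasDerivAt (fun t : ℝ => (x.1, x.2 + t * r)) ((0 : E k), r) 0 := by
    have h2 : HasDerivAt (fun t : ℝ => x.2 + t * r) r 0 := by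
      have := ((hasDerivAt_id (0 : ℝ)).mul_const r).const_add x.2
      rw [one_mul] at this
      exact this
    exact (hasDerivAt_const (0 : ℝ) x.1).prodMk h2
  have h3 : HasFDerivAt g (fderiv ℝ g x) ((fun t : ℝ => (x.1, x.2 + t * r)) 0) := by
    have h4 : ((fun t : ℝ => (x.1, x.2 + t * r)) 0) = x := by
      simp
    rw [h4]
    exact (hg x).hasFDerivAt
  have h5 := h3.comp_hasDerivAt (0 : ℝ) h1
  have h6 : (g ∘ fun t : ℝ => (x.1, x.2 + t * r)) = fun _ => (0 : ℝ) := by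
    funext t
    exact h0 _
  rw [h6] at h5
  exact h5.unique (hasDerivAt_const (0 : ℝ) (0 : ℝ))

private noncomputable def texTZ (ε t : ℝ) : ℝ := Real.smoothTransition ((t - 9 / 8 * ε) / (ε / 4))

private theorem texTZ_smooth (ε : ℝ) : ContDiff ℝ ∞ (texTZ ε) := by
  unfold texTZ
  exact Real.smoothTransition.contDiff.comp ((contDiff_id.sub contDiff_const).div_const _)

private theorem texTZ_zero {ε t : ℝ} (hε : 0 < ε) (ht : t ≤ 9 / 8 * ε) : texTZ ε t = 0 := by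
  unfold texTZ
  apply Real.smoothTransition.zero_of_nonpos
  exact div_nonpos_of_nonpos_of_nonneg (by linarith) (by linarith)

private theorem texTZ_one {ε t : ℝ} (hε : 0 < ε) (ht : 11 / 8 * ε ≤ t) : texTZ ε t = 1 := by
  unfold texTZ
  apply Real.smoothTransition.one_of_one_le
  rw [le_div_iff₀ (by linarith)]
  linarith

theorem exists_ext_mid (hB : BaseU n N V R) (hS : SymV N V R T) {h : E k → ℝ}
    (hh : ContDiff ℝ ∞ h) (hT : ∀ x, h (T x) = h x) {ε : ℝ} (hε : 0 < ε)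
    (hV : ∀ x, h x ≤ 2 * ε → V x = 0) (hΘ : ∀ x : E k × ℝ, h x.1 ≤ 3 / 2 * ε → Θ x = 0)
    (hM : MidK {x | x ∈ N ∧ ε ≤ h x} V R Θ T b A ρ Ri)
    (hz : ∀ q ∈ {x | x ∈ N ∧ ε ≤ h x}, V q = 0 → (∀ r, Θ (q, r) = 0) → ∀ r,
      b (q, r) = 0 ∧ A (q, r) = 0 ∧ ρ (q, r) = r ∧ Ri (q, r) = (q, r)) :
    ∃ b' A' ρ' Ri', MidK N V R Θ T b' A' ρ' Ri' ∧
      ∀ x : E k × ℝ, h x.1 < 9 / 8 * ε → b' x = 0 ∧ A' x = 0 := by
  have hfst : ContDiff ℝ ∞ (fun x : E k × ℝ => texTZ ε (h x.1)) :=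
    (texTZ_smooth ε).comp (hh.comp contDiff_fst)
  have hf1 : ContDiff ℝ ∞ (fun x : E k × ℝ => 1 - texTZ ε (h x.1)) := contDiff_const.sub hfst
  have hcont : Continuous (fun x : E k × ℝ => h x.1) := hh.continuous.comp continuous_fst
  -- low part
  have low : ∀ x : E k × ℝ, x.1 ∈ N → h x.1 ≤ 3 / 2 * ε →
      texTZ ε (h x.1) * b x = 0 ∧ texTZ ε (h x.1) * A x = 0 ∧
      texTZ ε (h x.1) * ρ x + (1 - texTZ ε (h x.1)) * x.2 = x.2 ∧
      texTZ ε (h x.1) • Ri x + (1 - texTZ ε (h x.1)) • x = x := by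
    intro x hx hx2
    by_cases hx3 : h x.1 < ε
    · rw [texTZ_zero hε (by linarith)]
      simp
    · have hV0 : V x.1 = 0 := hV _ (by linarith)
      have hz' := hz x.1 ⟨hx, not_lt.1 hx3⟩ hV0 (fun r => hΘ (x.1, r) hx2) x.2
      obtain ⟨e1, e2, e3, e4⟩ := hz'
      change b x = 0 at e1
      change A x = 0 at e2
      change ρ x = x.2 at e3
      change Ri x = x at e4
      rw [e1, e2, e3, e4]
      refine ⟨mul_zero _, mul_zero _, by ring, ?_⟩
      rw [← add_smul]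
      simp
  -- high part
  have high : ∀ x : E k × ℝ, 11 / 8 * ε ≤ h x.1 →
      texTZ ε (h x.1) * b x = b x ∧ texTZ ε (h x.1) * A x = A x ∧
      texTZ ε (h x.1) * ρ x + (1 - texTZ ε (h x.1)) * x.2 = ρ x ∧
      texTZ ε (h x.1) • Ri x + (1 - texTZ ε (h x.1)) • x = Ri x := by
    intro x hx
    rw [texTZ_one hε hx]
    simp
  have opn : ∀ x : E k × ℝ, 11 / 8 * ε < h x.1 → ∀ᶠ y in 𝓝 x, 11 / 8 * ε < h y.1 := by
    intro x hx
    exact (isOpen_lt continuous_const hcont).mem_nhds hx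
  have hsb : ContDiff ℝ ∞ (fun x : E k × ℝ => texTZ ε (h x.1) * b x) := hfst.mul hM.rho.smoothb
  have hsA : ContDiff ℝ ∞ (fun x : E k × ℝ => texTZ ε (h x.1) * A x) := hfst.mul hM.rho.smoothA
  have hsρ : ContDiff ℝ ∞
      (fun x : E k × ℝ => texTZ ε (h x.1) * ρ x + (1 - texTZ ε (h x.1)) * x.2) :=
    (hfst.mul hM.rho.smooth).add (hf1.mul contDiff_snd)
  have hsR : ContDiff ℝ ∞
      (fun x : E k × ℝ => texTZ ε (h x.1) • Ri x + (1 - texTZ ε (h x.1)) • x) :=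
    (hfst.smul hM.inv.smooth).add (hf1.smul contDiff_id)
  -- derivative of the functions in the high part
  have dhb : ∀ x : E k × ℝ, 11 / 8 * ε < h x.1 →
      fderiv ℝ (fun x : E k × ℝ => texTZ ε (h x.1) * b x) x = fderiv ℝ b x := by
    intro x hx
    apply Filter.EventuallyEq.fderiv_eq
    filter_upwards [opn x hx] with y hy
    exact (high y hy.le).1
  have dhA : ∀ x : E k × ℝ, 11 / 8 * ε < h x.1 →
      fderiv ℝ (fun x : E k × ℝ => texTZ ε (h x.1) * A x) x = fderiv ℝ A x := by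
    intro x hx
    apply Filter.EventuallyEq.fderiv_eq
    filter_upwards [opn x hx] with y hy
    exact (high y hy.le).2.1
  have dlb : ∀ x : E k × ℝ, x.1 ∈ N → h x.1 ≤ 3 / 2 * ε → ∀ r : ℝ,
      fderiv ℝ (fun x : E k × ℝ => texTZ ε (h x.1) * b x) x (0, r) = 0 := by
    intro x hx hx2 r
    exact texT_vert (hsb.differentiable (by simp)) x (fun t => (low (x.1, t) hx hx2).1) r
  have dlA : ∀ x : E k × ℝ, x.1 ∈ N → h x.1 ≤ 3 / 2 * ε → ∀ r : ℝ,
      fderiv ℝ (fun x : E k × ℝ => texTZ ε (h x.1) * A x) x (0, r) = 0 := by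
    intro x hx hx2 r
    exact texT_vert (hsA.differentiable (by simp)) x (fun t => (low (x.1, t) hx hx2).2.1) r
  -- points with the same image under the flow
  have far : ∀ q q' : E k, ∀ t : ℝ, R t q = q' → 11 / 8 * ε ≤ h q' → 11 / 8 * ε ≤ h q := by
    intro q q' t hq hq'
    by_contra hcon
    have hV0 : V q = 0 := hV q (by linarith [not_le.1 hcon])
    rw [flow_fix hB.smooth hB.flow hV0 t] at hq
    rw [hq] at hcon
    exact hcon hq'
  refine ⟨fun x => texTZ ε (h x.1) * b x, fun x => texTZ ε (h x.1) * A x,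
    fun x => texTZ ε (h x.1) * ρ x + (1 - texTZ ε (h x.1)) * x.2,
    fun x => texTZ ε (h x.1) • Ri x + (1 - texTZ ε (h x.1)) • x, ?_, ?_⟩
  · refine ⟨⟨hsb, hsA, hsρ, ?_, ?_⟩, ⟨hsR, ?_, ?_, ?_, ?_⟩, ?_, ?_, ?_⟩
    · intro x hx a r
      by_cases hx2 : 11 / 8 * ε < h x.1
      · rw [dhb x hx2, dhA x hx2]
        show _ = (texTZ ε (h x.1) * ρ x + (1 - texTZ ε (h x.1)) * x.2) * _
        rw [(high x hx2.le).2.2.1]
        exact hM.rho.id x ⟨hx, by linarith⟩ a r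
      · have hx3 : h x.1 ≤ 3 / 2 * ε := by linarith [not_lt.1 hx2]
        rw [hV x.1 (by linarith), smul_zero, dlb x hx hx3 r, dlA x hx hx3 r]
        show _ = (texTZ ε (h x.1) * ρ x + (1 - texTZ ε (h x.1)) * x.2) * _
        rw [(low x hx hx3).2.2.1]
        ring
    · intro x hx a r har
      by_cases hx2 : 11 / 8 * ε < h x.1
      · rw [dhb x hx2] at har
        exact hM.rho.ker x ⟨hx, by linarith⟩ a r har
      · have hx3 : h x.1 ≤ 3 / 2 * ε := by linarith [not_lt.1 hx2]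
        rw [hV x.1 (by linarith), smul_zero, dlb x hx hx3 r, add_zero] at har
        refine ⟨r, ?_, ?_⟩
        · rw [hΘ x hx3, har]
          simp
        · rw [hΘ x hx3]
          simp
    · intro y hy
      by_cases hy2 : h y.1 ≤ 3 / 2 * ε
      · show (texTZ ε (h y.1) • Ri y + (1 - texTZ ε (h y.1)) • y).1 ∈ N
        rw [(low y hy hy2).2.2.2]
        exact hy
      · show (texTZ ε (h y.1) • Ri y + (1 - texTZ ε (h y.1)) • y).1 ∈ N
        rw [(high y (by linarith [not_le.1 hy2])).2.2.2]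
        exact (hM.inv.mem y ⟨hy, by linarith [not_le.1 hy2]⟩).1
    · intro y hy
      show R (texTZ ε (h (texTZ ε (h y.1) • Ri y + (1 - texTZ ε (h y.1)) • y).1) *
        b (texTZ ε (h y.1) • Ri y + (1 - texTZ ε (h y.1)) • y))
        (texTZ ε (h y.1) • Ri y + (1 - texTZ ε (h y.1)) • y).1 = y.1
      by_cases hy2 : h y.1 ≤ 3 / 2 * ε
      · rw [(low y hy hy2).2.2.2, (low y hy hy2).1]
        exact hB.flow.zero _
      · have hy3 : 11 / 8 * ε ≤ h y.1 := by linarith [not_le.1 hy2]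
        have hyK : y.1 ∈ {x | x ∈ N ∧ ε ≤ h x} := ⟨hy, by linarith⟩
        rw [(high y hy3).2.2.2]
        have hb := hM.inv.base y hyK
        have h4 := far _ _ _ hb hy3
        rw [(high (Ri y) h4).1]
        exact hb
    · intro y hy
      show texTZ ε (h (texTZ ε (h y.1) • Ri y + (1 - texTZ ε (h y.1)) • y).1) *
        ρ (texTZ ε (h y.1) • Ri y + (1 - texTZ ε (h y.1)) • y) +
        (1 - texTZ ε (h (texTZ ε (h y.1) • Ri y + (1 - texTZ ε (h y.1)) • y).1)) *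
        (texTZ ε (h y.1) • Ri y + (1 - texTZ ε (h y.1)) • y).2 = y.2
      by_cases hy2 : h y.1 ≤ 3 / 2 * ε
      · rw [(low y hy hy2).2.2.2, (low y hy hy2).2.2.1]
      · have hy3 : 11 / 8 * ε ≤ h y.1 := by linarith [not_le.1 hy2]
        have hyK : y.1 ∈ {x | x ∈ N ∧ ε ≤ h x} := ⟨hy, by linarith⟩
        rw [(high y hy3).2.2.2]
        have hb := hM.inv.base y hyK
        have h4 := far _ _ _ hb hy3
        rw [(high (Ri y) h4).2.2.1]
        exact hM.inv.rho y hyK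
    · intro x hx
      show texTZ ε (h (R (texTZ ε (h x.1) * b x) x.1)) •
        Ri (R (texTZ ε (h x.1) * b x) x.1,
          texTZ ε (h x.1) * ρ x + (1 - texTZ ε (h x.1)) * x.2) +
        (1 - texTZ ε (h (R (texTZ ε (h x.1) * b x) x.1))) •
        (R (texTZ ε (h x.1) * b x) x.1,
          texTZ ε (h x.1) * ρ x + (1 - texTZ ε (h x.1)) * x.2) = x
      by_cases hx2 : h x.1 ≤ 3 / 2 * ε
      · rw [(low x hx hx2).1, (low x hx hx2).2.2.1, hB.flow.zero]
        exact (low x hx hx2).2.2.2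
      · have hx3 : 11 / 8 * ε ≤ h x.1 := by linarith [not_le.1 hx2]
        have hxK : x.1 ∈ {x | x ∈ N ∧ ε ≤ h x} := ⟨hx, by linarith⟩
        rw [(high x hx3).1, (high x hx3).2.2.1]
        have h5 : R (-(b x)) (R (b x) x.1) = x.1 := by
          rw [hB.flow.add hB.smooth]
          rw [neg_add_cancel]
          exact hB.flow.zero _
        have h4 := far _ _ _ h5 hx3
        have h6 := (high (R (b x) x.1, ρ x) h4).2.2.2
        rw [h6]
        exact hM.inv.inv x hxK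
    · intro x
      show texTZ ε (h (th T x).1) * b (th T x) = -(texTZ ε (h x.1) * b x)
      have h7 : h (th T x).1 = h x.1 := hT _
      rw [h7, hM.bT]
      ring
    · intro x
      show texTZ ε (h (th T x).1) * A (th T x) = texTZ ε (h x.1) * A x
      have h7 : h (th T x).1 = h x.1 := hT _
      rw [h7, hM.AT]
    · intro x hx
      show texTZ ε (h (th T x).1) * ρ (th T x) + (1 - texTZ ε (h (th T x).1)) * (th T x).2 =
        -(texTZ ε (h x.1) * ρ x + (1 - texTZ ε (h x.1)) * x.2)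
      have h7 : h (th T x).1 = h x.1 := hT _
      have h8 : (th T x).2 = -x.2 := rfl
      rw [h7, h8]
      by_cases hx3 : h x.1 < ε
      · rw [texTZ_zero hε (by linarith)]
        ring
      · rw [hM.rT x ⟨hx, not_lt.1 hx3⟩]
        ring
  · intro x hx
    show texTZ ε (h x.1) * b x = 0 ∧ texTZ ε (h x.1) * A x = 0
    rw [texTZ_zero hε hx.le]
    simp

end Pool.Agent.H99.TW
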