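import Pool.Agent.H99.TW.TDefs
import Pool.Agent.H99.TW.USEx
import Pool.Agent.H2.TI.SProj

/-!
# The straightening is equivariant (module TFeq)

PROOFS. `F = FN V R Pr b A ρ`, `τ' = th T`, `t' = tt T`.
* `sig_tt`: `⟪T P, V (T x)⟫ = -⟪T P, T (V x)⟫ = -⟪P, V x⟫`.
* `T` maps `TN N` to itself: curves (`Tan.map`), `hS.mem`.
* `fn_tt`: `β = b (sigN V z)`; `b (sigN V (t' z)) = b (τ' (sigN V z)) = -β`, so `(F (t' z)).1 = R (-β) (T z.1) = T (R β z.1) = (t' (F z)).1`. Second component: both sides are tangent at `T (R β z.1)`; every tangent vector there is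
  `T (D(R β)(z.1) u)` with `u ∈ Tan N z.1` (see `SStr`/`USStr`: `D(R β)` is an isomorphism of the tangent spaces, inverse `D(R (-β))`), and `T ∘ D(R β)(z.1) = D(R (-β))(T z.1) ∘ T` (differentiate `R (-β) ∘ T = T ∘ R β`, `hS.R`).
  By `fn_inner` (`USStr`) at `t' z` with `T u`: `⟪(F (t' z)).2, D(R (-β)) (T u)⟫ = ⟪T z.2, T u⟫ + DA(τ' σ) (T u, 0) - ρ (τ' σ) * Db(τ' σ) (T u, 0)`, `σ = sigN V z`; `A ∘ τ' = A` and `b ∘ τ' = -b` give
  `DA(τ' σ) (T u, 0) = DA(σ) (u, 0)`, `Db(τ' σ) (T u, 0) = -Db(σ) (u, 0)`, `ρ (τ' σ) = -ρ σ`. So it is `⟪(F z).2, D(R β) u⟫ = ⟪T (F z).2, T (D(R β) u)⟫`. `tan_unique` (`SProj`).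
* `fn'_tt`: `F' (t' z) = F' (t' (F (F' z))) = F' (F (t' (F' z))) = t' (F' z)` (`fn_left`, `fn_right`).
* `fn_id`: `b = 0` near `σ = sigN V z`, so `(F z).1 = R 0 z.1 = z.1`; `fn_inner` with `D(R 0) = id`, `DA(σ) = 0`, `Db(σ) = 0`; `tan_unique`. `F' z = F' (F z) = z`.
-/

set_option autoImplicit false

open scoped ContDiff Topology RealInnerProductSpace
open Set Filter

namespace Pool.Agent.H99.TW

open Pool.Agent.H57.NL Pool.Agent.H2.TG Pool.Agent.H2.TI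

variable {n k : ℕ} {N : Set (E k)} {V : E k → E k} {R : ℝ → E k → E k} {T : E k →L[ℝ] E k}
  {Θ : E k × ℝ → ℝ} {b A ρ : E k × ℝ → ℝ} {Ri : E k × ℝ → E k × ℝ}
  {Pr : E k → (E k →L[ℝ] E k)}

theorem sig_tt (hS : SymV N V R T) (z : E k × E k) : sigN V (tt T z) = th T (sigN V z) := by
  refine Prod.ext rfl ?_
  show ⟪T z.2, V (T z.1)⟫ = -⟪z.2, V z.1⟫
  rw [hS.V, inner_neg_right, hS.Ti]

private theorem tfeq_tan (hS : SymV N V R T) {q v : E k} (hv : v ∈ Tan N q) :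
    T v ∈ Tan N (T q) :=
  Pool.Agent.H57.NL.Tan.map hv T.hasFDerivAt (Eventually.of_forall fun y hy => hS.mem y hy)

private theorem tfeq_mem (hS : SymV N V R T) {z : E k × E k} (hz : z ∈ TN N) :
    tt T z ∈ TN N := ⟨hS.mem _ hz.1, tfeq_tan hS hz.2⟩

private theorem tfeq_th (T : E k →L[ℝ] E k) (x : E k × ℝ) :
    HasFDerivAt (th T) ((T.comp (ContinuousLinearMap.fst ℝ (E k) ℝ)).prod
      (-(ContinuousLinearMap.snd ℝ (E k) ℝ))) x := by
  have h := ((T.comp (ContinuousLinearMap.fst ℝ (E k) ℝ)).prod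
      (-(ContinuousLinearMap.snd ℝ (E k) ℝ))).hasFDerivAt (x := x)
  exact h

private theorem tfeq_A {g : E k × ℝ → ℝ} (hg : ContDiff ℝ ∞ g) (hT : ∀ x, g (th T x) = g x)
    (x : E k × ℝ) (u : E k) : fderiv ℝ g (th T x) (T u, 0) = fderiv ℝ g x (u, 0) := by
  have h1 : HasFDerivAt g (fderiv ℝ g (th T x)) (th T x) :=
    ((hg.differentiable (by simp)) _).hasFDerivAt
  have h2 := h1.comp x (tfeq_th T x)
  have h3 : g ∘ th T = g := funext hT
  rw [h3] at h2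
  have h4 := congrArg (fun L : (E k × ℝ) →L[ℝ] ℝ => L (u, 0)) h2.fderiv
  simp only at h4
  rw [h4]
  simp

private theorem tfeq_b {g : E k × ℝ → ℝ} (hg : ContDiff ℝ ∞ g) (hT : ∀ x, g (th T x) = -g x)
    (x : E k × ℝ) (u : E k) : fderiv ℝ g (th T x) (T u, 0) = -fderiv ℝ g x (u, 0) := by
  have h1 : HasFDerivAt g (fderiv ℝ g (th T x)) (th T x) :=
    ((hg.differentiable (by simp)) _).hasFDerivAt
  have h2 := h1.comp x (tfeq_th T x)
  have h3 : g ∘ th T = fun x => -g x := funext hT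
  rw [h3] at h2
  have h5 : HasFDerivAt (fun x => -g x) (-fderiv ℝ g x) x :=
    (((hg.differentiable (by simp)) _).hasFDerivAt).neg
  have h4 := congrArg (fun L : (E k × ℝ) →L[ℝ] ℝ => L (u, 0)) (h5.unique h2)
  simp only at h4
  have h6 : (-fderiv ℝ g x) (u, 0) = -(fderiv ℝ g x (u, 0)) := rfl
  rw [h6] at h4
  rw [h4]
  simp

private theorem tfeq_R (hB : BaseU n N V R) (hS : SymV N V R T) (β : ℝ) (q u : E k) :
    fderiv ℝ (R (-β)) (T q) (T u) = T (fderiv ℝ (R β) q u) := by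
  have h1 : HasFDerivAt (R (-β)) (fderiv ℝ (R (-β)) (T q)) (T q) :=
    (hB.flow.differentiable (-β) (T q)).hasFDerivAt
  have h2 := h1.comp q (T.hasFDerivAt (x := q))
  have h3 : HasFDerivAt (R β) (fderiv ℝ (R β) q) q := (hB.flow.differentiable β q).hasFDerivAt
  have h4 := (T.hasFDerivAt (x := R β q)).comp q h3
  have h5 : (R (-β)) ∘ T = T ∘ (R β) := by
    funext x
    show R (-β) (T x) = T (R β x)
    rw [hS.R, neg_neg]
  rw [h5] at h2
  exact congrArg (fun L : E k →L[ℝ] E k => L u) (h2.unique h4)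

theorem fn_tt (hB : BaseU n N V R) (hS : SymV N V R T) (hM : MidK N V R Θ T b A ρ Ri)
    (hPr : ProjN N Pr) {z : E k × E k} (hz : z ∈ TN N) :
    FN V R Pr b A ρ (tt T z) = tt T (FN V R Pr b A ρ z) := by
  have hz' : tt T z ∈ TN N := tfeq_mem hS hz
  have hsig := sig_tt hS z
  set σ := sigN V z with hσ
  set β := b σ with hβ
  have hb : b (sigN V (tt T z)) = -β := by rw [hsig, hM.bT]
  have h1 : (FN V R Pr b A ρ (tt T z)).1 = T (R β z.1) := by
    show R (b (sigN V (tt T z))) (T z.1) = T (R β z.1)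
    rw [hb, hS.R, neg_neg]
  have hq : T (R β z.1) ∈ N := hS.mem _ (hB.maps _ hz.1 _)
  have hF := fn_maps (A := A) (ρ := ρ) (b := b) hB hPr hz
  have hF' := fn_maps (A := A) (ρ := ρ) (b := b) hB hPr hz'
  refine Prod.ext h1 ?_
  show (FN V R Pr b A ρ (tt T z)).2 = T (FN V R Pr b A ρ z).2
  have hm := hF'.2
  rw [h1] at hm
  refine tan_unique hB.sub hq hm (tfeq_tan hS hF.2) fun τ hτ => ?_
  have hw : T τ ∈ Tan N (R β z.1) := by
    have := tfeq_tan hS hτ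
    rwa [hS.TT] at this
  have hinv : R (-β) (R β z.1) = z.1 := by
    rw [hB.flow.add hB.smooth, neg_add_cancel, hB.flow.zero]
  have hu : fderiv ℝ (R (-β)) (R β z.1) (T τ) ∈ Tan N z.1 := by
    have := Pool.Agent.H57.NL.Tan.map hw (hB.flow.differentiable (-β) (R β z.1)).hasFDerivAt
      (Eventually.of_forall fun y hy => hB.maps y hy _)
    rwa [hinv] at this
  set u := fderiv ℝ (R (-β)) (R β z.1) (T τ) with hudef
  have hDu : fderiv ℝ (R β) z.1 u = T τ := by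
    have h3 := hB.flow.fderiv_inv hB.smooth (-β) (R β z.1) (T τ)
    rwa [neg_neg, hinv] at h3
  have hτ' : fderiv ℝ (R (-β)) (T z.1) (T u) = τ := by
    rw [tfeq_R hB hS, hDu, hS.TT]
  have h4 := fn_inner (A := A) (b := b) (ρ := ρ) hB hPr hz' (u := T u) (tfeq_tan hS hu)
  have h5 := fn_inner (A := A) (b := b) (ρ := ρ) hB hPr hz hu
  rw [← hσ, ← hβ, hDu] at h5
  rw [hb, hsig, tfeq_A hM.rho.smoothA hM.AT, tfeq_b hM.rho.smoothb hM.bT,
    hM.rT σ hz.1] at h4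
  have e1 : (tt T z).1 = T z.1 := rfl
  have e2 : (tt T z).2 = T z.2 := rfl
  rw [e1, e2, hτ', hS.Ti] at h4
  rw [h4]
  have h6 : ⟪T (FN V R Pr b A ρ z).2, τ⟫ = ⟪(FN V R Pr b A ρ z).2, T τ⟫ := by
    rw [← hS.Ti (FN V R Pr b A ρ z).2 (T τ), hS.TT]
  rw [h6, h5]
  ring

theorem fn'_tt (hB : BaseU n N V R) (hS : SymV N V R T) (hM : MidK N V R Θ T b A ρ Ri)
    (hPr : ProjN N Pr) {z : E k × E k} (hz : z ∈ TN N) :
    FN' V R Pr b A Ri (tt T z) = tt T (FN' V R Pr b A Ri z) := by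
  have hz1 : FN' V R Pr b A Ri z ∈ TN N := fn'_maps hPr hM.inv hz
  have h1 := fn_right hB hM.rho hPr hM.inv hz
  have h2 := fn_tt hB hS hM hPr hz1
  rw [h1] at h2
  rw [← h2, fn_left hB hM.rho hPr hM.inv (tfeq_mem hS hz1)]

theorem fn_id (hB : BaseU n N V R) (hM : MidK N V R Θ T b A ρ Ri) (hPr : ProjN N Pr)
    {O : Set (E k)} (hO : IsOpen O) (h0 : ∀ x : E k × ℝ, x.1 ∈ O → b x = 0 ∧ A x = 0)
    {z : E k × E k} (hz : z ∈ TN N) (hzO : z.1 ∈ O) :
    FN V R Pr b A ρ z = z ∧ FN' V R Pr b A Ri z = z := by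
  have key : FN V R Pr b A ρ z = z := by
    have hb : b (sigN V z) = 0 := (h0 _ hzO).1
    have hev : ∀ᶠ x in 𝓝 (sigN V z), x.1 ∈ O :=
      continuous_fst.continuousAt.eventually (hO.mem_nhds hzO)
    have hDb : fderiv ℝ b (sigN V z) = 0 := by
      have : b =ᶠ[𝓝 (sigN V z)] fun _ => (0 : ℝ) := by
        filter_upwards [hev] with x hx
        exact (h0 x hx).1
      rw [this.fderiv_eq]
      simp
    have hDA : fderiv ℝ A (sigN V z) = 0 := by
      have : A =ᶠ[𝓝 (sigN V z)] fun _ => (0 : ℝ) := by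
        filter_upwards [hev] with x hx
        exact (h0 x hx).2
      rw [this.fderiv_eq]
      simp
    have h1 : (FN V R Pr b A ρ z).1 = z.1 := by
      show R (b (sigN V z)) z.1 = z.1
      rw [hb, hB.flow.zero]
    have hF := fn_maps (A := A) (ρ := ρ) (b := b) hB hPr hz
    have hm := hF.2
    rw [h1] at hm
    refine Prod.ext h1 (tan_unique hB.sub hz.1 hm hz.2 fun τ hτ => ?_)
    have h4 := fn_inner (A := A) (b := b) (ρ := ρ) hB hPr hz hτ
    rw [hb, hDb, hDA] at h4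
    have hR : R 0 = id := funext fun x => hB.flow.zero x
    rw [hR, fderiv_id] at h4
    simpa using h4
  refine ⟨key, ?_⟩
  have h := fn_left hB hM.rho hPr hM.inv hz
  rwa [key] at h

end Pool.Agent.H99.TW
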