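import Pool.Agent.H99.TW.TDefs

/-!
# Separation of `0` from a salient closed cone (module TForm)
-/

set_option autoImplicit false

open scoped ContDiff Topology RealInnerProductSpace
open Set Filter

namespace Pool.Agent.H99.TW

open Pool.Agent.H57.NL Pool.Agent.H2.TG Pool.Agent.H2.TI

variable {m : ℕ}

theorem exists_form {K : Set (E m)} (hc : IsClosed K) (h0 : (0 : E m) ∈ K)
    (hadd : ∀ u ∈ K, ∀ v ∈ K, u + v ∈ K) (hsmul : ∀ u ∈ K, ∀ t : ℝ, 0 ≤ t → t • u ∈ K)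
    (hsal : ∀ u ∈ K, -u ∈ K → u = 0) : ∃ w : E m, ∀ u ∈ K, u ≠ 0 → 0 < ⟪w, u⟫ := by
  classical
  let P : ProperCone ℝ (E m) :=
    { carrier := K
      add_mem' := fun {v w} hv hw => hadd v hv w hw
      zero_mem' := h0
      smul_mem' := fun c v hv => hsmul v hv c c.2
      isClosed' := hc }
  set A : Set (E m) := {v | v ∈ K ∧ v ∈ Metric.sphere (0 : E m) 1} with hA
  have hAc : IsCompact A := (isCompact_sphere (0 : E m) 1).inter_left hc
  have hy : ∀ v ∈ A, ∃ y : E m, (∀ x ∈ K, 0 ≤ ⟪x, y⟫) ∧ 0 < ⟪v, y⟫ := by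
    rintro v ⟨hv, hv1⟩
    have hv0 : v ≠ 0 := by
      rintro rfl
      simp at hv1
    have h1 : -v ∉ P := fun h => hv0 (hsal v hv h)
    obtain ⟨y, hy1, hy2⟩ := P.hyperplane_separation' h1
    refine ⟨y, fun x hx => hy1 x hx, ?_⟩
    rw [inner_neg_left] at hy2
    linarith
  choose! y hy1 hy2 using hy
  obtain ⟨t, ht, htA⟩ := hAc.elim_nhds_subcover (fun v => {x | 0 < ⟪x, y v⟫}) (fun v hv => by
    have : IsOpen {x : E m | 0 < ⟪x, y v⟫} := isOpen_lt continuous_const (by fun_prop)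
    exact this.mem_nhds (hy2 v hv))
  refine ⟨∑ v ∈ t, y v, fun x hx hx0 => ?_⟩
  have hn : 0 < ‖x‖ := norm_pos_iff.2 hx0
  have hxA : ‖x‖⁻¹ • x ∈ A := by
    refine ⟨hsmul x hx _ (by positivity), ?_⟩
    rw [mem_sphere_zero_iff_norm, norm_smul, norm_inv, norm_norm, inv_mul_cancel₀ hn.ne']
  obtain ⟨v, hv, hvx⟩ := mem_iUnion₂.1 (htA hxA)
  rw [real_inner_comm, inner_sum]
  refine Finset.sum_pos' (fun w hw => hy1 w (ht w hw) x hx) ⟨v, hv, ?_⟩
  have h1 : 0 < ⟪‖x‖⁻¹ • x, y v⟫ := hvx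
  rw [real_inner_smul_left] at h1
  exact (pos_iff_pos_of_mul_pos h1).1 (by positivity)

end Pool.Agent.H99.TW
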