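import Pool.Agent.H99.TW.UNHyp
import Pool.Agent.H99.TW.TDefs
import Pool.Agent.H99.TW.KNLine
import Pool.Agent.H99.TW.KNCurvB
import Pool.Agent.H99.TW.KNLeafA
import Pool.Agent.H2.TI.NLeft
import Pool.Agent.H2.TG.Glue

/-!
# The reduced hypersurface over a compact invariant set (module TRed)

Adapted from `H2/TI/NReg` and `H2/TI/NPrim` (helper2 and module owners).
-/

set_option autoImplicit false

open scoped ContDiff Topology RealInnerProductSpace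
open Set Filter

namespace Pool.Agent.H99.TW

open Pool.Agent.H57.NL Pool.Agent.H2.TG Pool.Agent.H2.TI

variable {m n : ℕ} {N : Set (E m)} {V : E m → E m} {R : ℝ → E m → E m}
  {S : Set (E m × E m)} {f : E m × E m → ℝ} {K : Set (E m)}

theorem local_regU (hB : BaseU n N V R) (hL : ExactLag n N ⊥ S f) (hE : EmbN V S)
    {z0 : E m × E m} (hz : z0 ∈ S) :
    ∃ (O : Set (E m × E m)) (W : Set (E m × ℝ)) (u : E m × ℝ → ℝ),
      IsOpen O ∧ IsOpen W ∧ z0 ∈ O ∧ sigN V z0 ∈ W ∧ ContDiffOn ℝ ∞ u W ∧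
      (∀ y ∈ W, y.1 ∈ N → (u y = 0 ↔ y ∈ sigN V '' (S ∩ O))) ∧
      ∀ y ∈ W, ¬ (dpl V u y 1 0 = 0 ∧ dpl V u y 0 1 = 0) := by
  obtain ⟨O, W, u, hO, hW, hzO, hyW, hu, heq, hker⟩ := local_hyperU hB hL hE hz
  have hcf : ContinuousOn (fderiv ℝ u) W := hu.continuousOn_fderiv_of_isOpen hW (by simp)
  have hV : Continuous V := hB.smooth.continuous
  have hdir : ∀ a b : ℝ, Continuous fun y : E m × ℝ => (a • V y.1, b) := fun a b =>
    ((hV.comp continuous_fst).const_smul a).prodMk continuous_const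
  have hc : ContinuousOn (fun y => (dpl V u y 1 0, dpl V u y 0 1)) W := by
    unfold dpl
    exact (hcf.clm_apply (hdir 1 0).continuousOn).prodMk
      (hcf.clm_apply (hdir 0 1).continuousOn)
  have hopen : IsOpen (W ∩ (fun y => (dpl V u y 1 0, dpl V u y 0 1)) ⁻¹' {(0 : ℝ × ℝ)}ᶜ) :=
    hc.isOpen_inter_preimage hW isOpen_compl_singleton
  have h0 : ¬ (dpl V u (sigN V z0) 1 0 = 0 ∧ dpl V u (sigN V z0) 0 1 = 0) := by
    rintro ⟨h1, h2⟩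
    obtain ⟨ξ, hξ, h3, -⟩ := hker 1 0 h1
    obtain ⟨η, hη, h4, h5⟩ := hker 0 1 h2
    rw [one_smul] at h3
    rw [zero_smul] at h4
    rw [h4, map_zero, inner_zero_right, add_zero] at h5
    have h8 := hL.lag z0 hz ξ hξ η hη
    unfold om at h8
    rw [h3, h4, inner_zero_right, h5] at h8
    norm_num at h8
  refine ⟨O, _, u, hO, hopen, hzO, ⟨hyW, ?_⟩, hu.mono inter_subset_left,
    fun y hy => heq y hy.1, ?_⟩
  · intro h1
    have h2 : (dpl V u (sigN V z0) 1 0, dpl V u (sigN V z0) 0 1) = (0 : ℝ × ℝ) := h1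
    exact h0 ⟨congrArg Prod.fst h2, congrArg Prod.snd h2⟩
  · rintro y ⟨-, hy⟩ ⟨h1, h2⟩
    refine hy ?_
    change (dpl V u y 1 0, dpl V u y 0 1) = (0 : ℝ × ℝ)
    rw [h1, h2]
    rfl

theorem compactSK (hK : IsCompact K) (hL : ExactLag n N ⊥ S f) :
    IsCompact (S ∩ {z | z.1 ∈ K}) := by
  obtain ⟨B, hB⟩ := hL.bdd
  refine (hK.prod (isCompact_closedBall (0 : E m) B)).of_isClosed_subset
    (hL.closed.inter (hK.isClosed.preimage continuous_fst)) ?_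
  rintro z ⟨hz, hz1⟩
  exact ⟨hz1, mem_closedBall_zero_iff.2 (hB z hz)⟩

theorem exists_locK (hB : BaseU n N V R) (hK : IsCompact K) (hKN : K ⊆ N)
    (hL : ExactLag n N ⊥ S f) (hE : EmbN V S) {x : E m × ℝ} (hx : x ∈ CH V S K) :
    ∃ W u, x ∈ W ∧ LocN K V (CH V S K) W u := by
  obtain ⟨z0, ⟨hz, hzK⟩, rfl⟩ := hx
  obtain ⟨O, W, u, hO, hW, hzO, hyW, hu, heq, hreg⟩ := local_regU hB hL hE hz
  have hcont : Continuous (sigN V) := (sigN_contDiff hB.smooth).continuous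
  have hTc : IsCompact ((S ∩ {z | z.1 ∈ K}) ∩ Oᶜ) := (compactSK hK hL).inter_right hO.isClosed_compl
  have hCT : IsClosed (sigN V '' ((S ∩ {z | z.1 ∈ K}) ∩ Oᶜ)) := (hTc.image hcont).isClosed
  have hxC : sigN V z0 ∉ sigN V '' ((S ∩ {z | z.1 ∈ K}) ∩ Oᶜ) := by
    rintro ⟨z, ⟨⟨hzS, -⟩, hzO'⟩, hzz⟩
    have h1 : (sigN V z).1 = (sigN V z0).1 := by rw [hzz]
    have h2 : (sigN V z).2 = (sigN V z0).2 := by rw [hzz]
    have h3 : z = z0 := hE.inj z hzS z0 hz h1 h2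
    exact hzO' (h3 ▸ hzO)
  refine ⟨W ∩ (sigN V '' ((S ∩ {z | z.1 ∈ K}) ∩ Oᶜ))ᶜ, u, ⟨hyW, hxC⟩, ?_⟩
  refine ⟨hW.inter hCT.isOpen_compl, hu.mono inter_subset_left, ?_, fun y hy => hreg y hy.1⟩
  rintro y ⟨hy1, hy2⟩ hyK
  rw [heq y hy1 (hKN hyK)]
  constructor
  · rintro ⟨z, ⟨hzS, hzK'⟩, rfl⟩
    refine ⟨z, ⟨hzS, ?_⟩, rfl⟩
    by_contra hne
    exact hy2 ⟨z, ⟨⟨hzS, hzK'⟩, hne⟩, rfl⟩
  · rintro ⟨z, ⟨hzS, -⟩, rfl⟩
    exact ⟨z, ⟨hzS, hyK⟩, rfl⟩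

theorem red_ofK (hB : BaseU n N V R) (hK : IsCompact K) (hKN : K ⊆ N)
    (hL : ExactLag n N ⊥ S f) (hE : EmbN V S) (hne : (S ∩ {z | z.1 ∈ K}).Nonempty) :
    ∃ M, RedN K V (CH V S K) M := by
  have hcont : Continuous (sigN V) := (sigN_contDiff hB.smooth).continuous
  have hcomp : IsCompact (CH V S K) := (compactSK hK hL).image hcont
  obtain ⟨B, hBd⟩ := hcomp.isBounded.exists_norm_le
  refine ⟨max B 0 + 1, hne.image _, hcomp.isClosed, ?_, ?_, ?_,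
    fun x hx => exists_locK hB hK hKN hL hE hx⟩
  · rintro _ ⟨z, ⟨-, hz⟩, rfl⟩
    exact hz
  · have := le_max_right B 0
    linarith
  · intro x hx
    have h1 := hBd x hx
    have h2 : ‖x.2‖ ≤ ‖x‖ := norm_snd_le x
    have h3 := le_max_left B 0
    rw [Real.norm_eq_abs] at h2
    linarith

private theorem nprim_cont (hB : BaseU n N V R) : Continuous (sigN V) := by
  have h1 : Continuous V := hB.smooth.continuous
  have h2 : Continuous fun z : E m × E m => ⟪z.2, V z.1⟫ :=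
    continuous_snd.inner (h1.comp continuous_fst)
  exact continuous_fst.prodMk h2

private theorem nprim_far (hB : BaseU n N V R) (hK : IsCompact K) (hL : ExactLag n N ⊥ S f) (hE : EmbN V S)
    {O : Set (E m × E m)} (hO : IsOpen O) {z0 : E m × E m} (hz : z0 ∈ S) (hzO : z0 ∈ O) :
    IsOpen (sigN V '' ((S ∩ {z | z.1 ∈ K}) \ O))ᶜ ∧
      sigN V z0 ∈ (sigN V '' ((S ∩ {z | z.1 ∈ K}) \ O))ᶜ ∧
      ∀ z ∈ S ∩ {z | z.1 ∈ K}, sigN V z ∈ (sigN V '' ((S ∩ {z | z.1 ∈ K}) \ O))ᶜ → z ∈ S ∩ O := by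
  have hc : IsCompact ((S ∩ {z | z.1 ∈ K}) \ O) := (compactSK hK hL).diff hO
  refine ⟨(hc.image (nprim_cont hB)).isClosed.isOpen_compl, ?_, ?_⟩
  · rintro ⟨z, hz1, hz2⟩
    have e1 : z.1 = z0.1 := congrArg (Prod.fst : E m × ℝ → E m) hz2
    have e2 : ⟪z.2, V z.1⟫ = ⟪z0.2, V z0.1⟫ := congrArg (Prod.snd : E m × ℝ → ℝ) hz2
    have e3 := hE.inj z hz1.1.1 z0 hz e1 e2
    exact hz1.2 (e3 ▸ hzO)
  · intro z hzS hz1
    refine ⟨hzS.1, ?_⟩
    by_contra hc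
    exact hz1 ⟨z, ⟨hzS, hc⟩, rfl⟩

theorem exists_primFK (hB : BaseU n N V R) (hK : IsCompact K) (hL : ExactLag n N ⊥ S f)
    (hE : EmbN V S) : ∃ F : E m × ℝ → ℝ, ContDiff ℝ ∞ F ∧
      ∀ z ∈ S ∩ {z | z.1 ∈ K}, F (sigN V z) = f z := by
  obtain ⟨F, hF1, hF2⟩ := exists_glue (V := E m × ℝ)
    (fun y => {k : ℝ | ∀ z ∈ S ∩ {z | z.1 ∈ K}, sigN V z = y → k = f z}) (by
      intro y k hk k' hk' a b _ _ hab z hz e
      rw [hk z hz e, hk' z hz e, ← add_smul, hab, one_smul]) (by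
      intro y0
      by_cases hy0 : y0 ∈ CH V S K
      · obtain ⟨z0, ⟨hz0, -⟩, rfl⟩ := hy0
        obtain ⟨O, W, π, hO, hW, hzO, hzW, hπ, hfπ, _, hπ2⟩ := exists_leftN hB.smooth hL hE hz0
        obtain ⟨h1, h2, h3⟩ := nprim_far hB hK hL hE hO hz0 hzO
        refine ⟨W ∩ (sigN V '' ((S ∩ {z | z.1 ∈ K}) \ O))ᶜ, hW.inter h1, ⟨hzW, h2⟩, fun y => f (π y),
          hfπ.mono inter_subset_left, ?_⟩
        intro y hy z hz e
        subst e
        show f (π (sigN V z)) = f z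
        rw [hπ2 z (h3 z hz hy.2) hy.1]
      · have hc : IsClosed (CH V S K) :=
          ((compactSK hK hL).image (nprim_cont hB)).isClosed
        refine ⟨(CH V S K)ᶜ, hc.isOpen_compl, hy0, fun _ => 0, contDiffOn_const, ?_⟩
        intro y hy z hz e
        exact absurd ⟨z, hz, e⟩ hy)
  exact ⟨F, hF1, fun z hz => hF2 (sigN V z) z hz rfl⟩

theorem exists_primK (hB : BaseU n N V R) (hBK : BaseK K V R) (hKN : K ⊆ N)
    (hL : ExactLag n N ⊥ S f) (hE : EmbN V S) : ∃ F, PrimN K V (CH V S K) F := by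
  have hK : IsCompact K := hBK.cpt
  obtain ⟨F, hF1, hF2⟩ := exists_primFK hB hK hL hE
  refine ⟨F, hF1, ?_⟩
  intro x hx
  have hs : ∀ y ∈ CH V S K, y.1 ∈ K := by
    rintro y ⟨z, ⟨-, hz⟩, rfl⟩
    exact hz
  obtain ⟨W, u, hxW, hC⟩ := exists_locK hB hK hKN hL hE hx.1
  obtain ⟨W₁, ϑ, _, hxW₁, hC₁, hϑ, hϑx⟩ := exists_phaseN hB.smooth hC hxW (hx.2 W u hxW hC)
  obtain ⟨ε, y, hε, hy0, hy⟩ := exists_curveN hBK hs hC₁ hϑ hx.1 hxW₁
  obtain ⟨z0, ⟨hz0, hz0K⟩, hz0x⟩ := hx.1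
  obtain ⟨O, W₂, π, hO, hW₂, hzO, hzW, hπ, _, hπS, hπ2⟩ := exists_leftN hB.smooth hL hE hz0
  obtain ⟨h1, h2, h3⟩ := nprim_far hB hK hL hE hO hz0 hzO
  have hd0 := (hy 0 (by rw [abs_zero]; exact hε)).2.2
  have hcy : ContinuousAt y 0 := hd0.continuousAt
  have hy0' : y 0 = sigN V z0 := by rw [hy0, hz0x]
  have hev : ∀ᶠ t in 𝓝 (0 : ℝ), π (y t) ∈ S ∩ {z | z.1 ∈ K} ∧ sigN V (π (y t)) = y t := by
    have e1 : ∀ᶠ t in 𝓝 (0 : ℝ), y t ∈ W₂ ∩ (sigN V '' ((S ∩ {z | z.1 ∈ K}) \ O))ᶜ := by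
      refine hcy.eventually_mem ((hW₂.inter h1).mem_nhds ?_)
      rw [hy0']
      exact ⟨hzW, h2⟩
    have e2 : ∀ᶠ t in 𝓝 (0 : ℝ), |t| < ε := by
      have : ContinuousAt (fun t : ℝ => |t|) 0 := continuous_abs.continuousAt
      have h4 := this.tendsto.eventually_lt_const (show |(0 : ℝ)| < ε by rw [abs_zero]; exact hε)
      exact h4
    filter_upwards [e1, e2] with t ht1 ht2
    obtain ⟨z, hz, hzy⟩ := (hy t ht2).1
    rw [← hzy] at ht1 ⊢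
    have h5 := h3 z hz ht1.2
    have h6 := hπ2 z h5 ht1.1
    rw [h6]
    exact ⟨hz, rfl⟩
  have hπd : DifferentiableAt ℝ π (y 0) := by
    rw [hy0']
    exact (hπ.differentiableOn (by simp)).differentiableAt (hW₂.mem_nhds hzW)
  have hzd := hπd.hasFDerivAt.comp_hasDerivAt (0 : ℝ) hd0
  set ζ := fderiv ℝ π (y 0) (Real.cos (ϑ (y 0)) • V (y 0).1, Real.sin (ϑ (y 0))) with hζ
  have hz00 : π (y 0) = z0 := by
    rw [hy0']
    exact hπ2 z0 ⟨hz0, hzO⟩ hzW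
  have hϑ0 : ϑ (y 0) = x.2 := by rw [hy0, hϑx]
  have hζ1 : ζ.1 = Real.cos x.2 • V x.1.1 := by
    have e1 : HasDerivAt (fun t => (π (y t)).1) ζ.1 0 := by
      have := (hasFDerivAt_fst (𝕜 := ℝ) (p := π (y 0))).comp_hasDerivAt (0 : ℝ) hzd
      exact this
    have e2 : HasDerivAt (fun t => (y t).1) (Real.cos (ϑ (y 0)) • V (y 0).1) 0 := by
      have := (hasFDerivAt_fst (𝕜 := ℝ) (p := y 0)).comp_hasDerivAt (0 : ℝ) hd0
      exact this
    have e3 : (fun t => (y t).1) =ᶠ[𝓝 0] fun t => (π (y t)).1 := by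
      filter_upwards [hev] with t ht
      exact (congrArg Prod.fst ht.2).symm
    have e4 := e1.congr_of_eventuallyEq e3
    have e5 := e4.unique e2
    rw [e5, hϑ0, hy0]
  have hF' : HasDerivAt (fun t => F (y t)) (liou z0 ζ) 0 := by
    have e1 : HasFDerivWithinAt f (liou z0) S ((π ∘ y) 0) := by
      show HasFDerivWithinAt f (liou z0) S (π (y 0))
      rw [hz00]
      exact hL.exact z0 hz0
    have e2 := hasDerivAt_along (S := S) (γ := π ∘ y) (hev.mono fun t ht => ht.1.1) hzd e1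
    refine e2.congr_of_eventuallyEq ?_
    filter_upwards [hev] with t ht
    show F (y t) = f (π (y t))
    rw [← hF2 _ ht.1, ht.2]
  have hF'' : HasDerivAt (fun t => F (y t))
      (fderiv ℝ F (y 0) (Real.cos (ϑ (y 0)) • V (y 0).1, Real.sin (ϑ (y 0)))) 0 :=
    ((hF1.differentiable (by simp)).differentiableAt.hasFDerivAt).comp_hasDerivAt (0 : ℝ) hd0
  have h7 := hF''.unique hF'
  rw [hy0, hϑx] at h7
  rw [h7, liou_apply, hζ1, inner_smul_right, mul_comm]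
  have h8 : x.1.2 = ⟪z0.2, V z0.1⟫ := by rw [← hz0x]; rfl
  have h9 : x.1.1 = z0.1 := by rw [← hz0x]; rfl
  rw [h8, h9]

theorem exists_leafK (hB : BaseU n N V R) (hBK : BaseK K V R) (hKN : K ⊆ N)
    (hL : ExactLag n N ⊥ S f) (hE : EmbN V S) (hne : (S ∩ {z | z.1 ∈ K}).Nonempty) :
    ∃ M κ Λ F, LeafK K V R (CH V S K) M κ Λ F := by
  obtain ⟨M, hR⟩ := red_ofK hB hBK.cpt hKN hL hE hne
  obtain ⟨κ, hκ⟩ := exists_curvN hBK hR
  obtain ⟨Λ, hΛ⟩ := exists_leafFlowN hBK hκ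
  obtain ⟨F, hF⟩ := exists_primK hB hBK hKN hL hE
  exact ⟨M, κ, Λ, F, hBK, hR, hκ, hΛ, hF⟩

end Pool.Agent.H99.TW
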