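import Pool.Agent.H99.TW.TNB
import Pool.Agent.H99.TW.TCov

/-!
# The vector field on the double cover (module TVH)

PROOF of `exists_VH`. `χ t = Real.smoothTransition ((t - 2ε) / ε)`: smooth, `0` for `t ≤ 2ε`, `1` for `t ≥ 3ε`. `B` from `hC.bdd (2ε)`; `μ` = `ContDiffBump` at `0 : E k` with radii
`|B| + 1`, `|B| + 2`. `V x = (μ x * χ (‖pv x‖²)) • jj x (pv x)`: smooth on the open set `{pv x ≠ 0}` (`hC.jjs`) and zero on the open set `{‖pv x‖² < 2ε}`; the two
cover `E k`. Compact support, so bounded (`HasCompactSupport.exists_bound_of_continuous`), so there is a flow (`exists_isFlow` in `H2/TG/Flow.lean`). `μ (T x) = μ x` because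
`‖T x‖ = ‖x‖` (`hC.Ti`; a `ContDiffBump` at `0` of the Euclidean norm is a function of the norm; alternatively use
`μ x = Real.smoothTransition (B + 2 - ‖x‖²)`-like functions of `‖x‖²`, which is simpler) and `jj (T x) (pv (T x)) = T (jj x (-pv x)) = -T (jj x (pv x))`: `V (T x) = -T (V x)`.
Tangent: `V x = jj x (a • pv x)`, `hC.jjt`, `hC.pvt`, `Tan.smul`. `maps`: `flow_maps`. Flow and `T`: `t ↦ T (R (-t) x)` is an integral curve of `V` starting at `T x`
(`IsFlow.unique`). For `x ∈ NH`, `3ε ≤ ‖pv x‖²`: `‖x‖ ≤ B`, so `μ x = 1`, `χ = 1`.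
* `baseK_KH`: `KH` is closed, and bounded by `hC.bdd`, so compact. Invariance: `R t x ∈ NH` (`hB.maps`); if `‖pv (R t x)‖² < ε` then `V (R t x) = 0`, so
  `R (-t) (R t x) = R t x` (`flow_fix`), so `x = R t x`: contradiction.
-/

set_option autoImplicit false

open scoped ContDiff Topology RealInnerProductSpace
open Set Filter

namespace Pool.Agent.H99.TW

open Pool.Agent.H57.NL Pool.Agent.H2.TG Pool.Agent.H2.TI

variable {m k n : ℕ} {N : Set (E m)} {Q : E m → (E m →L[ℝ] E m)} {NH : Set (E k)}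
  {T : E k →L[ℝ] E k} {π pv : E k →L[ℝ] E m} {jj : E k → (E m →L[ℝ] E k)} {ε : ℝ}

private theorem tvh_normT (hC : Cov n N Q NH T π pv jj) (x : E k) : ‖T x‖ ^ 2 = ‖x‖ ^ 2 := by
  rw [← real_inner_self_eq_norm_sq, ← real_inner_self_eq_norm_sq, hC.Ti]

/-- The cut-off factor. -/
private noncomputable def tvhF (pv : E k →L[ℝ] E m) (ε B : ℝ) (x : E k) : ℝ :=
  Real.smoothTransition (B ^ 2 + 2 - ‖x‖ ^ 2) *
    Real.smoothTransition ((‖pv x‖ ^ 2 - 2 * ε) / ε)

/-- The field. -/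
private noncomputable def tvhV (pv : E k →L[ℝ] E m) (jj : E k → (E m →L[ℝ] E k)) (ε B : ℝ)
    (x : E k) : E k :=
  tvhF pv ε B x • jj x (pv x)

private theorem tvhF_smooth (ε B : ℝ) : ContDiff ℝ ∞ (tvhF pv ε B) := by
  have h1 : ContDiff ℝ ∞ (fun x : E k => B ^ 2 + 2 - ‖x‖ ^ 2) :=
    contDiff_const.sub (contDiff_norm_sq ℝ)
  have h2 : ContDiff ℝ ∞ (fun x : E k => (‖pv x‖ ^ 2 - 2 * ε) / ε) :=
    (((contDiff_norm_sq ℝ).comp pv.contDiff).sub contDiff_const).div_const ε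
  exact (Real.smoothTransition.contDiff.comp h1).mul (Real.smoothTransition.contDiff.comp h2)

private theorem tvhF_zero (hε : 0 < ε) (B : ℝ) {x : E k} (hx : ‖pv x‖ ^ 2 ≤ 2 * ε) :
    tvhF pv ε B x = 0 := by
  unfold tvhF
  rw [Real.smoothTransition.zero_of_nonpos (x := (‖pv x‖ ^ 2 - 2 * ε) / ε)
    (div_nonpos_of_nonpos_of_nonneg (by linarith) hε.le), mul_zero]

private theorem tvhV_smooth (hC : Cov n N Q NH T π pv jj) (hε : 0 < ε) (B : ℝ) :
    ContDiff ℝ ∞ (tvhV pv jj ε B) := by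
  rw [contDiff_iff_contDiffAt]
  intro x
  by_cases hx : pv x = 0
  · have hev : ∀ᶠ y in 𝓝 x, tvhV pv jj ε B y = 0 := by
      have hc : Continuous (fun y : E k => ‖pv y‖ ^ 2) := pv.continuous.norm.pow 2
      have h0 : ‖pv x‖ ^ 2 < 2 * ε := by
        rw [hx, norm_zero]
        norm_num
        exact hε
      filter_upwards [hc.continuousAt.eventually_lt continuousAt_const h0] with y hy
      unfold tvhV
      rw [tvhF_zero hε B hy.le, zero_smul]
    exact (contDiffAt_const (c := (0 : E k))).congr_of_eventuallyEq hev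
  · have hopen : IsOpen {y : E k | pv y ≠ 0} := isOpen_ne_fun pv.continuous continuous_const
    have h1 : ContDiffAt ℝ ∞ jj x := hC.jjs.contDiffAt (hopen.mem_nhds hx)
    exact ((tvhF_smooth ε B).contDiffAt).smul (h1.clm_apply pv.contDiff.contDiffAt)

private theorem tvhV_bdd (hC : Cov n N Q NH T π pv jj) (hε : 0 < ε) (B : ℝ) :
    ∃ K : ℝ, ∀ x, ‖tvhV pv jj ε B x‖ ≤ K := by
  obtain ⟨K, hK⟩ := (isCompact_closedBall (0 : E k) (Real.sqrt (B ^ 2 + 2))).exists_bound_of_continuousOn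
    (f := tvhV pv jj ε B) (tvhV_smooth hC hε B).continuous.continuousOn
  refine ⟨max K 0, fun x => ?_⟩
  by_cases hx : ‖x‖ ≤ Real.sqrt (B ^ 2 + 2)
  · exact (hK x (by rwa [mem_closedBall_zero_iff])).trans (le_max_left _ _)
  · have h1 : B ^ 2 + 2 < ‖x‖ ^ 2 := by
      have h2 := Real.lt_sq_of_sqrt_lt (not_le.1 hx)
      exact h2
    have h3 : tvhV pv jj ε B x = 0 := by
      unfold tvhV tvhF
      rw [Real.smoothTransition.zero_of_nonpos (x := B ^ 2 + 2 - ‖x‖ ^ 2) (by linarith), zero_mul,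
        zero_smul]
    rw [h3, norm_zero]
    exact le_max_right _ _

private theorem tvhF_T (hC : Cov n N Q NH T π pv jj) (B : ℝ) (x : E k) :
    tvhF pv ε B (T x) = tvhF pv ε B x := by
  unfold tvhF
  rw [tvh_normT hC, hC.pvT, norm_neg]

private theorem tvhV_T (hC : Cov n N Q NH T π pv jj) (B : ℝ) (x : E k) :
    tvhV pv jj ε B (T x) = -T (tvhV pv jj ε B x) := by
  unfold tvhV
  rw [tvhF_T hC, hC.pvT, hC.jjT, map_neg, map_neg, smul_neg, map_smul]

theorem exists_VH (hC : Cov n N Q NH T π pv jj) (hε : 0 < ε) :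
    ∃ (V : E k → E k) (R : ℝ → E k → E k), BaseU n NH V R ∧ SymV NH V R T ∧
      (∀ x, ‖pv x‖ ^ 2 ≤ 2 * ε → V x = 0) ∧
      ∀ x ∈ NH, 3 * ε ≤ ‖pv x‖ ^ 2 → V x = jj x (pv x) := by
  obtain ⟨B, hB⟩ := hC.bdd (2 * ε) (by linarith)
  have hs := tvhV_smooth hC hε B
  obtain ⟨K, hK⟩ := tvhV_bdd hC hε B
  obtain ⟨R, hR⟩ := exists_isFlow hs hK
  have htan : ∀ q ∈ NH, tvhV pv jj ε B q ∈ Tan NH q := by
    intro q hq
    refine (hC.jjt q hq _).2 ⟨tvhF pv ε B q • pv q, Tan.smul (hC.pvt q hq) _, ?_⟩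
    rw [map_smul]
    rfl
  refine ⟨tvhV pv jj ε B, R, ⟨hC.sub, hC.closed, hs, ⟨K, hK⟩, htan, hR, fun q hq t =>
    flow_maps hC.sub hC.closed hs hR htan hq t⟩, ⟨hC.TT, hC.Ti, hC.Tmem, tvhV_T hC B, ?_⟩, ?_, ?_⟩
  · intro t x
    have h1 := hR.unique hs (γ := fun s => T (R (-s) x)) (fun s => by
      have h2 := (hR.deriv x (-s)).scomp s (hasDerivAt_neg s)
      have h3 := T.hasFDerivAt.comp_hasDerivAt s h2
      have h4 : T ((-1 : ℝ) • tvhV pv jj ε B (R (-s) x)) = tvhV pv jj ε B (T (R (-s) x)) := by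
        rw [tvhV_T hC B, neg_one_smul, map_neg]
      rw [← h4]
      exact h3) t
    simp only [neg_zero, hR.zero] at h1
    exact h1.symm
  · intro x hx
    unfold tvhV
    rw [tvhF_zero hε B hx, zero_smul]
  · intro x hx h3
    have hxB : ‖x‖ ≤ B := hB x hx (by linarith)
    have hx2 : ‖x‖ ^ 2 ≤ B ^ 2 := pow_le_pow_left₀ (norm_nonneg _) hxB 2
    unfold tvhV tvhF
    rw [Real.smoothTransition.one_of_one_le (x := B ^ 2 + 2 - ‖x‖ ^ 2) (by linarith),
      Real.smoothTransition.one_of_one_le (x := (‖pv x‖ ^ 2 - 2 * ε) / ε)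
        (by rw [le_div_iff₀ hε]; linarith), mul_one, one_smul]

theorem closed_KH (hC : Cov n N Q NH T π pv jj) : IsClosed (KH NH pv ε) :=
  hC.closed.inter (isClosed_le continuous_const (pv.continuous.norm.pow 2))

theorem compact_KH (hC : Cov n N Q NH T π pv jj) (hε : 0 < ε) : IsCompact (KH NH pv ε) := by
  obtain ⟨B, hB⟩ := hC.bdd ε hε
  refine Metric.isCompact_of_isClosed_isBounded (closed_KH hC) ?_
  rw [isBounded_iff_forall_norm_le]
  exact ⟨B, fun x hx => hB x hx.1 hx.2⟩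

theorem baseK_KH (hC : Cov n N Q NH T π pv jj) (hε : 0 < ε) {V : E k → E k}
    {R : ℝ → E k → E k} (hB : BaseU n NH V R) (hV : ∀ x, ‖pv x‖ ^ 2 ≤ 2 * ε → V x = 0) :
    BaseK (KH NH pv ε) V R := by
  refine ⟨compact_KH hC hε, hB.smooth, hB.bdd, hB.flow, fun q hq t => ⟨hB.maps q hq.1 t, ?_⟩⟩
  by_contra hlt
  have h1 : V (R t q) = 0 := hV _ (by
    have := not_le.1 hlt
    linarith)
  have h2 := flow_fix hB.smooth hB.flow h1 (-t)
  rw [hB.flow.add hB.smooth, neg_add_cancel, hB.flow.zero] at h2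
  rw [← h2] at hlt
  exact hlt hq.2

theorem symV_KH (hC : Cov n N Q NH T π pv jj) {V : E k → E k} {R : ℝ → E k → E k}
    (hS : SymV NH V R T) : SymV (KH NH pv ε) V R T := by
  refine ⟨hS.TT, hS.Ti, fun x hx => ⟨hS.mem x hx.1, ?_⟩, hS.V, hS.R⟩
  rw [hC.pvT, norm_neg]
  exact hx.2

end Pool.Agent.H99.TW
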