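import Pool.Agent.H99.TW.TLH
import Pool.Agent.H99.TW.TRed
import Pool.Agent.H99.TW.KNAll
import Pool.Agent.H99.TW.TVH
import Pool.Agent.H57.NL.Graph

/-!
# `S` meets every fibre (module TFull)

PROOF of `full_S`. `B = Prod.fst '' S` is closed (`ExactLag.isClosed_image` in `H57/NL/Graph.lean`), a nonempty subset of `N`. `N` is connected, so it is enough that `B` is open in `N`
(as in `surjective_of_no_caustic` in `H57/NL/Graph.lean`: `∀ z ∈ S, ∀ᶠ q in 𝓝 z.1, q ∈ N → q ∈ B`). Let `z ∈ S`, `q₀ = z.1`.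
(a) `z` is not a caustic point: `local_section` (`H57/NL/Loc.lean`).
(b) `z` is a caustic point: `3ε ≤ ‖Q q₀‖` (`hE.vert`), so `Q q₀ ≠ 0`; `x₀ ∈ NH` over `q₀` (`hC.ex`), `‖pv x₀‖² = ‖Q q₀‖` (`norm_isV`), so `x₀ ∈ KH`; `z₀ = (x₀, lf x₀ z.2) ∈ LH` (`ph_lf`), so
`(x₀, r₀) ∈ CH`, `r₀ = ⟪lf x₀ z.2, V x₀⟫`. By `nAll_open` (`KNAll`): for `x` near `x₀`, `x ∈ KH → ∃ r, (x, r) ∈ CH`. Let `s` be the section at `x₀` (`hC.sec`); it is continuous at `q₀`, so for `q ∈ N` near `q₀`: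
`s q ∈ NH`, `π (s q) = q`, `s q` near `x₀`, `‖pv (s q)‖² > ε` (since `‖pv x₀‖² ≥ 3ε`). So there is `z' ∈ LH` with `z'.1 = s q`, and `ph z' ∈ S` has first component `q`.
`full_K`: `x ∈ KH`: `(π x, p) ∈ S`; `(x, lf x p) ∈ LH` (`hL.subTN`, `ph_lf`).
-/

set_option autoImplicit false

open scoped ContDiff Topology RealInnerProductSpace
open Set Filter

namespace Pool.Agent.H99.TW

open Pool.Agent.H57.NL Pool.Agent.H2.TG Pool.Agent.H2.TI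

variable {m k n : ℕ} {N : Set (E m)} {Q : E m → (E m →L[ℝ] E m)} {NH : Set (E k)}
  {T : E k →L[ℝ] E k} {π pv : E k →L[ℝ] E m} {jj : E k → (E m →L[ℝ] E k)}
  {Pr : E m → (E m →L[ℝ] E m)} {PrH : E k → (E k →L[ℝ] E k)} {S : Set (E m × E m)}
  {f : E m × E m → ℝ} {ε : ℝ} {V : E k → E k} {R : ℝ → E k → E k}
  {M : ℝ} {κ : (E k × ℝ) × ℝ → ℝ} {Λ : ℝ → (E k × ℝ) × ℝ → (E k × ℝ) × ℝ} {G : E k × ℝ → ℝ}

/-- A point of `KH` over a point of `S` is in the projection of `CH`. -/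
private theorem tfull_mem (hC : Cov n N Q NH T π pv jj) (hP : ProjN N Pr)
    (hPH : ProjN NH PrH) {x : E k} {p : E m} (hpT : p ∈ Tan N (π x)) (hp : (π x, p) ∈ S)
    (hx : x ∈ KH NH pv ε) :
    ∃ r : ℝ, (x, r) ∈ CH V (LH NH (ph π jj Pr) S) (KH NH pv ε) := by
  refine ⟨⟪lf π PrH x p, V x⟫, (x, lf π PrH x p), ⟨⟨⟨hx.1, lf_mem hPH hx.1 _⟩, ?_⟩, hx⟩, rfl⟩
  rw [ph_lf hC hP hPH hx.1 hpT]
  exact hp

/-- The projection of `S` is open in `N`. -/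
private theorem tfull_open (hN : ClosedMfd n N ⊥) (hC : Cov n N Q NH T π pv jj)
    (hP : ProjN N Pr) (hPH : ProjN NH PrH) (hL : ExactLag n N ⊥ S f) (hE : EmbQ Q S ε)
    (h : LeafK (KH NH pv ε) V R (CH V (LH NH (ph π jj Pr) S) (KH NH pv ε)) M κ Λ G)
    {z : E m × E m} (hz : z ∈ S) : ∀ᶠ q in 𝓝 z.1, q ∈ N → q ∈ Prod.fst '' S := by
  by_cases hcz : Caustic S z
  · obtain ⟨b, hb, hbT⟩ := hcz
    obtain ⟨h1, -⟩ := hE.vert z hz b hb hbT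
    have hε := hE.hε
    have hzT := hL.subTN hz
    have hQ : Q z.1 ≠ 0 := by
      intro h0
      rw [h0, norm_zero] at h1
      linarith
    obtain ⟨x, hx, hxz⟩ := hC.ex z.1 hzT.1 hQ
    have hn : ‖Q (π x)‖ = ‖pv x‖ ^ 2 := norm_isV (hC.isV x hx)
    have hpx : 3 * ε ≤ ‖pv x‖ ^ 2 := by
      rw [← hn, hxz]
      exact h1
    have hxK : x ∈ KH NH pv ε := ⟨hx, by linarith⟩
    have hpT : z.2 ∈ Tan N (π x) := by
      rw [hxz]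
      exact hzT.2
    have hpS : (π x, z.2) ∈ S := by
      rw [hxz]
      exact hz
    obtain ⟨r, hr⟩ := tfull_mem (V := V) hC hP hPH hpT hpS hxK
    have hev := nAll_open h hr
    obtain ⟨s, hs⟩ := hC.sec x hx
    have hsx : s (π x) = x := hs.fg
    have hsc : Tendsto s (𝓝 (π x)) (𝓝 x) := by
      have h2 := hs.smooth.self_of_nhds.continuousAt.tendsto
      rw [hsx] at h2
      exact h2
    have hK : ∀ᶠ y in 𝓝 x, ε < ‖pv y‖ ^ 2 := by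
      have hc : Continuous fun y => ‖pv y‖ ^ 2 := (pv.continuous.norm).pow 2
      exact hc.continuousAt.eventually (lt_mem_nhds (by linarith : ε < ‖pv x‖ ^ 2))
    rw [← hxz]
    filter_upwards [hsc.eventually hev, hsc.eventually hK, hs.fwd] with q h3 h4 h5 hq
    obtain ⟨h6, h7⟩ := h5 hq
    obtain ⟨r', z', ⟨⟨hz1, hz2⟩, -⟩, hz4⟩ := h3 ⟨h6, h4.le⟩
    have h8 : z'.1 = s q := congrArg Prod.fst hz4
    refine ⟨ph π jj Pr z', hz2, ?_⟩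
    rw [ph_fst, h8, h7]
  · obtain ⟨σ, -, -, s2, -⟩ := local_section hN.sub hL.sub hL.subTN hz hcz
    filter_upwards [s2] with q h1 hq
    exact ⟨σ q, (h1 hq).1, (h1 hq).2⟩

theorem full_S (hN : ClosedMfd n N ⊥) (hC : Cov n N Q NH T π pv jj) (hP : ProjN N Pr)
    (hPH : ProjN NH PrH) (hL : ExactLag n N ⊥ S f) (hE : EmbQ Q S ε)
    (h : LeafK (KH NH pv ε) V R (CH V (LH NH (ph π jj Pr) S) (KH NH pv ε)) M κ Λ G) :
    ∀ q ∈ N, ∃ p, (q, p) ∈ S := by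
  have hcl := hL.isClosed_image
  have hopen : ∀ z ∈ S, ∃ O : Set (E m), IsOpen O ∧ z.1 ∈ O ∧ ∀ q ∈ O, q ∈ N →
      q ∈ Prod.fst '' S := fun z hz => by
    obtain ⟨O, hO, hO1, hO2⟩ := eventually_nhds_iff.1 (tfull_open hN hC hP hPH hL hE h hz)
    exact ⟨O, hO1, hO2, hO⟩
  choose! O hO1 hO2 hO3 using hopen
  have hpre := hN.conn.isPreconnected
  have hUo : IsOpen (⋃ z ∈ S, O z) := isOpen_biUnion fun z hz => hO1 z hz
  have hVo : IsOpen (Prod.fst '' S)ᶜ := hcl.isOpen_compl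
  have hcover : N ⊆ (⋃ z ∈ S, O z) ∪ (Prod.fst '' S)ᶜ := by
    intro q _
    by_cases h : q ∈ Prod.fst '' S
    · left
      obtain ⟨z, hz, rfl⟩ := h
      exact Set.mem_biUnion hz (hO2 z hz)
    · exact Or.inr h
  obtain ⟨z0, hz0⟩ := hL.ne
  intro q hq
  by_contra hcon
  have hqV : q ∈ (Prod.fst '' S)ᶜ := by
    rintro ⟨z, hz, hzq⟩
    exact hcon ⟨z.2, by rw [← hzq]; exact hz⟩
  obtain ⟨r, hrN, hrU, hrV⟩ := hpre (⋃ z ∈ S, O z) (Prod.fst '' S)ᶜ hUo hVo hcover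
    ⟨z0.1, (hL.subTN hz0).1, Set.mem_biUnion hz0 (hO2 z0 hz0)⟩ ⟨q, hq, hqV⟩
  obtain ⟨z, hz, hrz⟩ := Set.mem_iUnion₂.1 hrU
  exact hrV (hO3 z hz r hrz hrN)

theorem full_K (hN : ClosedMfd n N ⊥) (hC : Cov n N Q NH T π pv jj) (hP : ProjN N Pr)
    (hPH : ProjN NH PrH) (hL : ExactLag n N ⊥ S f) (hE : EmbQ Q S ε)
    (h : LeafK (KH NH pv ε) V R (CH V (LH NH (ph π jj Pr) S) (KH NH pv ε)) M κ Λ G) :
    ∀ x ∈ KH NH pv ε, ∃ r : ℝ, (x, r) ∈ CH V (LH NH (ph π jj Pr) S) (KH NH pv ε) := by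
  intro x hx
  obtain ⟨p, hp⟩ := full_S hN hC hP hPH hL hE h (π x) (hC.πmem _ hx.1)
  exact tfull_mem hC hP hPH (hL.subTN hp).2 hp hx

end Pool.Agent.H99.TW
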