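import Pool.Agent.H99.TW.TPh
import Pool.Agent.H99.TW.TOm
import Pool.Agent.H99.TW.TPrimOf

/-!
# The lift of the Lagrangian (module TLH)

PROOFS. `p = ph π jj Pr`, `L = LH NH p S`.
* `locIm_LH`: from `exists_secTN`: `σ` is a local inverse of `p : TN NH → TN N`; `z ∈ TN NH` near `z₀` is in `L` iff `p z ∈ S` (`S ⊆ TN N`).
* `lag_LH`: `ne`: `z ∈ S` with `Q z.1 ≠ 0`, `x` over `z.1` (`hC.ex`), `(x, lf x z.2) ∈ L` (`ph_lf`). `sub`: `locSub` with `locIm_LH`. `closed`: `TN NH` is closed (`TN_closed` in `H2/TI/STN.lean`) and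
  `p` is continuous at the points of `TN NH` (`ph_smooth`, `hC.pv0`). `bdd`: `‖z.2‖ = ‖lf z.1 (p z).2‖ ≤ ‖(p z).2‖` (`lf_ph`, `lf_norm`). `lag`: `v, w ∈ Tan L z`: `Dp v, Dp w ∈ Tan S (p z)`
  (`tan_loc'`), so `om (Dp v) (Dp w) = 0`, and `om (Dp v) (Dp w) = om v w` by `om_loc` with `T = TN NH` (`TN_submfd`), `ψ = p`, `g = 0` (`ph_liou`, `ph_smooth`; `v ∈ Tan (TN NH) z`). `prim`: `prim_of` with
  the derivative of `f ∘ p` within `L`: `hL.exact` (`HasFDerivWithinAt f (liou (p z)) S (p z)`) composed with `p` (differentiable at `z`, maps `L` to `S`);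
  on `ζ ∈ Tan L z`: `liou (p z) (Dp ζ) = ⟪(p z).2, (Dp ζ).1⟫ = ⟪z.2, ζ.1⟫` (`ph_liou`). `finv`, `inv`: `Γ = ⊥`, `tr 0 = id`.
* `emb_LH`: `z, z' ∈ L`, `z.1 = z'.1 = x`, `⟪z.2, V x⟫ = ⟪z'.2, V x⟫`. If `z ≠ z'` then `p z ≠ p z'` (`lf_ph`), over the same point `π x`, so `hE.sec`: `3ε ≤ ‖Q (π x)‖ = ‖pv x‖²` (`norm_isV`), so `V x = jj x (pv x)`,
  `⟪z.2, V x⟫ = ⟪(p z).2, pv x⟫` (`ph_inner`, `hC.pvt`); so `⟪(p z').2 - (p z).2, pv x⟫ = 0`, but `0 < ⟪Q u, u⟫ = ⟪pv x, u⟫²` (`isV_inner`): contradiction.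
  `imm`: `(0, b) ∈ Tan L z`, `⟪b, V z.1⟫ = 0`, suppose `b ≠ 0`: `ζ' = Dp (0, b) ∈ Tan S (p z)`, `ζ'.1 = π 0 = 0`, `ζ'.2 = b'` with `⟪b', ξ⟫ = ⟪b, jj x ξ⟫` for `ξ ∈ Tan N (π x)`: (the derivative of
  `t ↦ (ph (x, P + t b)).2` is `Pr (π x) (adj (jj x) b)`, linear in the second variable). `b ∈ Tan NH x` (a limit of differences in the same fibre… or: `(0, b) ∈ Tan (TN NH) z` gives `b ∈ Tan NH z.1`,
  see `ITan.lean`/`STN.lean` in `H2/TI`; or avoid it: `b' ≠ 0` because `Dσ (Dp ζ) = ζ ≠ 0` by `tan_loc`). By `hE.vert`: `3ε ≤ ‖Q‖`, `0 < ⟪Q b', b'⟫ = ⟪pv x, b'⟫²`, and `⟪b', pv x⟫ = ⟪b, jj x (pv x)⟫ = ⟪b, V x⟫ = 0`: contradiction.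
* `tt_LH`: `ph_tt`, `tt_mem`.
-/

set_option autoImplicit false

open scoped ContDiff Topology RealInnerProductSpace
open Set Filter

namespace Pool.Agent.H99.TW

open Pool.Agent.H57.NL Pool.Agent.H2.TG Pool.Agent.H2.TI

variable {m k n : ℕ} {N : Set (E m)} {Q : E m → (E m →L[ℝ] E m)} {NH : Set (E k)}
  {T : E k →L[ℝ] E k} {π pv : E k →L[ℝ] E m} {jj : E k → (E m →L[ℝ] E k)}
  {Pr : E m → (E m →L[ℝ] E m)} {PrH : E k → (E k →L[ℝ] E k)} {S : Set (E m × E m)}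
  {f : E m × E m → ℝ} {ε : ℝ} {V : E k → E k}

private theorem tlh_tan {d : ℕ} {S T : Set (E d × E d)} (h : S ⊆ T) {z v : E d × E d}
    (hv : v ∈ Tan S z) : v ∈ Tan T z := by
  obtain ⟨γ, h0, h1, h2⟩ := hv
  exact ⟨γ, h0, h1.mono fun s hs => h hs, h2⟩

theorem locIm_LH (hC : Cov n N Q NH T π pv jj) (hP : ProjN N Pr) (hPH : ProjN NH PrH)
    (hS : S ⊆ TN N) {z : E k × E k} (hz : z ∈ LH NH (ph π jj Pr) S) :
    ∃ σ, LocIm S (LH NH (ph π jj Pr) S) σ (ph π jj Pr) z := by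
  obtain ⟨σ, hσ⟩ := exists_secTN hC hP hPH hz.1
  refine ⟨σ, hz.2, hσ.fg, hσ.smooth, hσ.smooth', ?_, ?_⟩
  · filter_upwards [hσ.fwd] with x hx hxS
    obtain ⟨h1, h2⟩ := hx (hS hxS)
    refine ⟨⟨h1, ?_⟩, h2⟩
    rw [h2]
    exact hxS
  · filter_upwards [hσ.bwd] with y hy hyL
    exact ⟨hyL.2, (hy hyL.1).2⟩

private theorem tlh_cont (hC : Cov n N Q NH T π pv jj) {z : E k × E k} (hz : z ∈ TN NH) :
    pv z.1 ≠ 0 := hC.pv0 _ hz.1

private theorem tlh_ev (hC : Cov n N Q NH T π pv jj) {z : E k × E k} (hz : z ∈ TN NH) :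
    ∀ᶠ y in 𝓝 z, pv y.1 ≠ 0 :=
  (pv.continuous.comp continuous_fst).continuousAt.eventually_ne (tlh_cont hC hz)

private theorem tlh_diff (hC : Cov n N Q NH T π pv jj) (hP : ProjN N Pr) {z : E k × E k}
    (hz : z ∈ TN NH) : HasFDerivAt (ph π jj Pr) (fderiv ℝ (ph π jj Pr) z) z :=
  ((ph_smooth hC hP (tlh_cont hC hz)).differentiableAt (by simp)).hasFDerivAt

theorem lag_LH (hC : Cov n N Q NH T π pv jj) (hP : ProjN N Pr) (hPH : ProjN NH PrH)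
    (hL : ExactLag n N ⊥ S f) (hne : ∃ z ∈ S, Q z.1 ≠ 0) :
    ExactLag n NH ⊥ (LH NH (ph π jj Pr) S) (fun z => f (ph π jj Pr z)) := by
  have hsub : IsSubmfd n (LH NH (ph π jj Pr) S) := locSub hL.sub fun y hy => by
    obtain ⟨σ, hσ⟩ := locIm_LH hC hP hPH hL.subTN hy
    exact ⟨σ, ph π jj Pr, hσ⟩
  have hle : LH NH (ph π jj Pr) S ⊆ TN NH := fun z hz => hz.1
  refine ⟨?_, hsub, ?_, hle, ?_, ?_, ?_, ?_, ?_⟩
  · obtain ⟨z, hz, hQ⟩ := hne
    have hzT := hL.subTN hz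
    obtain ⟨x, hx, hxz⟩ := hC.ex z.1 hzT.1 hQ
    have h1 : z.2 ∈ Tan N (π x) := by
      rw [hxz]
      exact hzT.2
    refine ⟨(x, lf π PrH x z.2), ⟨hx, lf_mem hPH hx _⟩, ?_⟩
    rw [ph_lf hC hP hPH hx h1, hxz]
    exact hz
  · have h1 : ContinuousOn (ph π jj Pr) (TN NH) := fun z hz =>
      (ph_smooth hC hP (tlh_cont hC hz)).continuousAt.continuousWithinAt
    exact h1.preimage_isClosed_of_isClosed (TN_closed hC.sub hC.closed) hL.closed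
  · intro g hg z hz
    rw [AddSubgroup.mem_bot] at hg
    have h1 : tr g z = z := by
      rw [hg]
      exact Prod.ext (add_zero _) rfl
    rw [h1]
    exact hz
  · obtain ⟨B, hB⟩ := hL.bdd
    refine ⟨B, fun z hz => ?_⟩
    have h1 := lf_norm hC hPH hz.1.1 (ph π jj Pr z).2
    rw [lf_ph hC hP hPH hz.1] at h1
    exact h1.trans (hB _ hz.2)
  · intro z hz v hv w hw
    obtain ⟨σ, hσ⟩ := locIm_LH hC hP hPH hL.subTN hz
    have h1 := om_loc (TN_submfd hC.sub) (ψ := ph π jj Pr) (g := fun _ => 0) hz.1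
      ((tlh_ev hC hz.1).mono fun y hy => ph_smooth hC hP hy)
      (Filter.Eventually.of_forall fun y => contDiffAt_const)
      (Filter.Eventually.of_forall fun y hy ζ hζ => by
        rw [ph_liou hC hP hy hζ, fderiv_fun_const]
        simp)
      (tlh_tan hle hv) (tlh_tan hle hw)
    rw [← h1]
    exact hL.lag _ hz.2 _ (tan_loc' hσ hv).1 _ (tan_loc' hσ hw).1
  · intro z hz
    have h1 : HasFDerivWithinAt f ((innerSL ℝ (ph π jj Pr z).2).comp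
        (ContinuousLinearMap.fst ℝ (E m) (E m))) S (ph π jj Pr z) := by
      rw [hasFDerivWithinAt_iff_isLittleO]
      exact hL.prim _ hz.2
    have h2 := h1.comp z (tlh_diff hC hP hz.1).hasFDerivWithinAt
      (s := LH NH (ph π jj Pr) S) (fun y hy => hy.2)
    exact prim_of hsub hz h2 fun ζ hζ => ph_liou hC hP hz.1 (tlh_tan hle hζ)
  · intro g hg z hz
    rw [AddSubgroup.mem_bot] at hg
    have h1 : tr g z = z := by
      rw [hg]
      exact Prod.ext (add_zero _) rfl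
    rw [h1]

/-- the second component of the derivative of `ph` in the vertical direction -/
private theorem tlh_vert (hC : Cov n N Q NH T π pv jj) (hP : ProjN N Pr) {z : E k × E k}
    (hz : z ∈ TN NH) (b : E k) {ξ : E m} (hξ : ξ ∈ Tan N (π z.1)) :
    ⟪(fderiv ℝ (ph π jj Pr) z (0, b)).2, ξ⟫ = ⟪b, jj z.1 ξ⟫ := by
  have h1 : HasDerivAt (fun t : ℝ => ((z.1, z.2 + t • b) : E k × E k)) (0, b) 0 := by
    have h2 : HasDerivAt (fun t : ℝ => z.2 + t • b) b 0 := by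
      have h3 := ((hasDerivAt_id (0 : ℝ)).smul_const b).const_add z.2
      rw [one_smul] at h3
      exact h3
    exact (hasDerivAt_const 0 z.1).prodMk h2
  have hz0 : ((z.1, z.2 + (0 : ℝ) • b) : E k × E k) = z := by
    rw [zero_smul, add_zero]
  have h4 : HasDerivAt (fun t : ℝ => ph π jj Pr (z.1, z.2 + t • b))
      (fderiv ℝ (ph π jj Pr) z (0, b)) 0 := by
    have h5 : HasFDerivAt (ph π jj Pr) (fderiv ℝ (ph π jj Pr) z)
        ((fun t : ℝ => ((z.1, z.2 + t • b) : E k × E k)) 0) := by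
      show HasFDerivAt (ph π jj Pr) (fderiv ℝ (ph π jj Pr) z) (z.1, z.2 + (0 : ℝ) • b)
      rw [hz0]
      exact tlh_diff hC hP hz
    exact h5.comp_hasDerivAt (0 : ℝ) h1
  have h6 : HasDerivAt (fun t : ℝ => ph π jj Pr (z.1, z.2 + t • b))
      ((0 : E m), Pr (π z.1) (ContinuousLinearMap.adjoint (jj z.1) b)) 0 := by
    have h7 : (fun t : ℝ => ph π jj Pr (z.1, z.2 + t • b)) = fun t : ℝ =>
        ((π z.1, Pr (π z.1) (ContinuousLinearMap.adjoint (jj z.1) z.2) +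
          t • Pr (π z.1) (ContinuousLinearMap.adjoint (jj z.1) b)) : E m × E m) := by
      funext t
      show (π z.1, Pr (π z.1) (ContinuousLinearMap.adjoint (jj z.1) (z.2 + t • b))) = _
      rw [map_add, map_add, map_smul, map_smul]
    rw [h7]
    have h8 := ((hasDerivAt_id (0 : ℝ)).smul_const
      (Pr (π z.1) (ContinuousLinearMap.adjoint (jj z.1) b))).const_add
        (Pr (π z.1) (ContinuousLinearMap.adjoint (jj z.1) z.2))
    rw [one_smul] at h8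
    exact (hasDerivAt_const 0 (π z.1)).prodMk h8
  have h9 := h4.unique h6
  rw [h9]
  show ⟪Pr (π z.1) (ContinuousLinearMap.adjoint (jj z.1) b), ξ⟫ = _
  rw [hP.orth _ (hC.πmem _ hz.1) _ _ hξ, ContinuousLinearMap.adjoint_inner_left]

/-- a vertical tangent vector of the lift gives one of `S` -/
private theorem tlh_caus (hC : Cov n N Q NH T π pv jj) (hP : ProjN N Pr) (hPH : ProjN NH PrH)
    (hS : S ⊆ TN N) (hE : EmbQ Q S ε) {z : E k × E k} (hz : z ∈ LH NH (ph π jj Pr) S)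
    {b : E k} (hb : b ≠ 0) (h : (0, b) ∈ Tan (LH NH (ph π jj Pr) S) z) :
    3 * ε ≤ ‖pv z.1‖ ^ 2 ∧ ⟪b, jj z.1 (pv z.1)⟫ ≠ 0 := by
  obtain ⟨σ, hσ⟩ := locIm_LH hC hP hPH hS hz
  obtain ⟨h1, h2⟩ := tan_loc' hσ h
  have h3 : (fderiv ℝ (ph π jj Pr) z (0, b)).1 = 0 := by
    rw [ph_fderiv_fst hC hP (tlh_cont hC hz.1)]
    exact map_zero π
  obtain ⟨ζ, hζ⟩ : ∃ ζ, ζ = fderiv ℝ (ph π jj Pr) z (0, b) := ⟨_, rfl⟩
  have h4 : ζ.2 ≠ 0 := by
    intro h5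
    have h6 : ζ = 0 := Prod.ext (by rw [hζ]; exact h3) h5
    rw [← hζ, h6, map_zero] at h2
    exact hb (congrArg Prod.snd h2).symm
  have h7 : ((0, ζ.2) : E m × E m) ∈ Tan S (ph π jj Pr z) := by
    have h8 : ((0, ζ.2) : E m × E m) = ζ := Prod.ext (by rw [hζ]; exact h3.symm) rfl
    rw [h8, hζ]
    exact h1
  have h9 := hE.vert _ hz.2 _ h4 h7
  have hV := hC.isV z.1 hz.1.1
  rw [ph_fst, norm_isV hV, isV_inner hV] at h9
  refine ⟨h9.1, fun h10 => ?_⟩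
  have h11 := tlh_vert hC hP hz.1 b (hC.pvt z.1 hz.1.1)
  rw [h10, ← hζ, real_inner_comm] at h11
  rw [h11] at h9
  have h12 := h9.2
  norm_num at h12

theorem emb_LH (hC : Cov n N Q NH T π pv jj) (hP : ProjN N Pr) (hPH : ProjN NH PrH)
    (hS : S ⊆ TN N) (hE : EmbQ Q S ε)
    (hV : ∀ x ∈ NH, 3 * ε ≤ ‖pv x‖ ^ 2 → V x = jj x (pv x)) :
    EmbN V (LH NH (ph π jj Pr) S) := by
  refine ⟨?_, ?_⟩
  · rintro ⟨x, P⟩ hz ⟨x', P'⟩ hz' h1 h2
    obtain rfl : x = x' := h1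
    by_contra hne
    have hp : ph π jj Pr (x, P) ≠ ph π jj Pr (x, P') := by
      intro h3
      have h4 := lf_ph hC hP hPH hz.1
      have h5 := lf_ph hC hP hPH hz'.1
      refine hne (Prod.ext rfl ?_)
      show P = P'
      rw [← show lf π PrH x (ph π jj Pr (x, P)).2 = P from h4,
        ← show lf π PrH x (ph π jj Pr (x, P')).2 = P' from h5, h3]
    have h6 := hE.sec _ hz.2 _ hz'.2 rfl hp
    have hI := hC.isV x hz.1.1
    have e1 : (ph π jj Pr (x, P)).1 = π x := rfl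
    rw [e1, norm_isV hI, isV_inner hI] at h6
    have h7 := hV x hz.1.1 h6.1
    have h8 : ⟪P, V x⟫ = ⟪P', V x⟫ := h2
    have h9 := ph_inner hC hP hz.1 (hC.pvt x hz.1.1)
    have h10 := ph_inner hC hP hz'.1 (hC.pvt x hz.1.1)
    have h11 : ⟪pv x, (ph π jj Pr (x, P')).2 - (ph π jj Pr (x, P)).2⟫ = 0 := by
      rw [inner_sub_right, real_inner_comm, real_inner_comm (ph π jj Pr (x, P)).2]
      have h12 : ⟪(ph π jj Pr (x, P)).2, pv x⟫ = ⟪P, jj x (pv x)⟫ := h9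
      have h13 : ⟪(ph π jj Pr (x, P')).2, pv x⟫ = ⟪P', jj x (pv x)⟫ := h10
      rw [h12, h13, ← h7, h8, sub_self]
    rw [h11] at h6
    have h12 := h6.2
    norm_num at h12
  · intro z hz b hb h1
    by_contra hne
    have h2 := tlh_caus hC hP hPH hS hE hz hne hb
    rw [hV z.1 hz.1.1 h2.1] at h1
    exact h2.2 h1

/-- No caustic points of the lift over `{‖v‖² < 3ε}`. -/
theorem noc_LH (hC : Cov n N Q NH T π pv jj) (hP : ProjN N Pr) (hPH : ProjN NH PrH)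
    (hS : S ⊆ TN N) (hE : EmbQ Q S ε) {z : E k × E k} (hz : z ∈ LH NH (ph π jj Pr) S)
    (hzε : ‖pv z.1‖ ^ 2 < 3 * ε) : ¬ Caustic (LH NH (ph π jj Pr) S) z := by
  rintro ⟨b, hb, h1⟩
  have h2 := tlh_caus hC hP hPH hS hE hz hb h1
  linarith [h2.1]

theorem tt_LH (hC : Cov n N Q NH T π pv jj) {z : E k × E k}
    (hz : z ∈ LH NH (ph π jj Pr) S) : tt T z ∈ LH NH (ph π jj Pr) S := by
  refine ⟨tt_mem hC hz.1, ?_⟩
  rw [ph_tt hC z]
  exact hz.2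

theorem th_CH (hC : Cov n N Q NH T π pv jj) {R : ℝ → E k → E k} {K : Set (E k)}
    (hV : SymV K V R T) {x : E k × ℝ} (hx : x ∈ CH V (LH NH (ph π jj Pr) S) K) :
    th T x ∈ CH V (LH NH (ph π jj Pr) S) K := by
  obtain ⟨z, ⟨hz, hzK⟩, rfl⟩ := hx
  refine ⟨tt T z, ⟨tt_LH hC hz, hV.mem _ hzK⟩, ?_⟩
  refine Prod.ext rfl ?_
  show ⟪T z.2, V (T z.1)⟫ = -⟪z.2, V z.1⟫
  rw [hV.V, inner_neg_right, hV.Ti]

end Pool.Agent.H99.TW
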