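import Pool.Agent.H99.TW.TDefs
import Pool.Agent.H99.TW.KNBase
import Pool.Agent.H2.TI.SExt

/-!
# The inverse of `y ↦ R (γ y) y` (module TMidG)

PROOF. `H (y, u) = u - γ (R (-u) y)` is smooth on `E k × ℝ`, `∂_u H (y, u) = 1 + Dγ(R (-u) y) (V (R (-u) y)) > 1/2` for `y ∈ N` (`hB.maps`). So for `y ∈ N` the function `H (y, ·)` is strictly monotone with derivative `≥ 1/2`, it takes
both signs, and has exactly one zero. Smooth solution: as in `KSInv` (implicit function theorem `sinv_implicit`, then `exists_glue` with the constraint set `{u | y ∈ N → H (y, u) = 0}`, which is convex (at most one point for `y ∈ N`);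
at `y ∉ N` the open set `Nᶜ`). `u (R (γ y) y) = γ y`: for `y' = R (γ y) y`, `H (y', γ y) = γ y - γ (R (-γ y) (R (γ y) y)) = 0`; uniqueness.
-/

set_option autoImplicit false

open scoped ContDiff Topology RealInnerProductSpace
open Set Filter

namespace Pool.Agent.H99.TW

open Pool.Agent.H57.NL Pool.Agent.H2.TG Pool.Agent.H2.TI

variable {k : ℕ} {N : Set (E k)} {V : E k → E k} {R : ℝ → E k → E k} {T : E k →L[ℝ] E k}
  {Θ : E k × ℝ → ℝ} {M' τ : ℝ} {Ψ : ℝ → E k × ℝ → E k × ℝ} {b A ρ : E k × ℝ → ℝ}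
  {Ri : E k × ℝ → E k × ℝ}

/-- The implicit function theorem with a smooth solution on a neighbourhood. -/
private theorem midg_implicit {X : Type} [NormedAddCommGroup X] [NormedSpace ℝ X] [CompleteSpace X]
    {H : X × ℝ → ℝ} (hH : ContDiff ℝ ∞ H) {y₀ : X} {u₀ : ℝ} (h0 : H (y₀, u₀) = 0)
    (hpos : fderiv ℝ H (y₀, u₀) (0, 1) ≠ 0) :
    ∃ W : Set X, IsOpen W ∧ y₀ ∈ W ∧ ∃ g : X → ℝ, ContDiffOn ℝ ∞ g W ∧
      ∀ y ∈ W, H (y, g y) = 0 := by
  have hinv : ∀ z : X × ℝ, fderiv ℝ H z (0, 1) ≠ 0 →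
      (fderiv ℝ H z ∘L .inr ℝ X ℝ).IsInvertible := by
    intro z hz
    refine ⟨ContinuousLinearEquiv.unitsEquivAut ℝ (Units.mk0 _ hz), ?_⟩
    ext
    simp
  have hne : (∞ : ℕ∞ω) ≠ 0 := by simp
  set g : X → ℝ := (hH.contDiffAt (x := (y₀, u₀))).implicitFunction hne (hinv _ hpos) with hg
  have hg0 : g y₀ = u₀ :=
    ContDiffAt.implicitFunction_apply_self (hH.contDiffAt (x := (y₀, u₀))) hne (hinv _ hpos)
  have hgs : ContDiffAt ℝ ∞ g y₀ :=
    ContDiffAt.contDiffAt_implicitFunction (hH.contDiffAt (x := (y₀, u₀))) hne (hinv _ hpos)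
  have e1 : ∀ᶠ y in 𝓝 y₀, H (y, g y) = 0 := by
    have := ContDiffAt.eventually_apply_implicitFunction (hH.contDiffAt (x := (y₀, u₀))) hne
      (hinv _ hpos)
    rw [h0] at this
    exact this
  have e2 : ∀ᶠ y in 𝓝 y₀, ContinuousAt g y := by
    have h1 : ContDiffAt ℝ 1 g y₀ := hgs.of_le (by simp)
    exact (h1.eventually (by simp)).mono fun y hy => hy.continuousAt
  have hcf : Continuous fun z : X × ℝ => fderiv ℝ H z (0, 1) :=
    (hH.continuous_fderiv (by simp)).clm_apply continuous_const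
  have e3 : ∀ᶠ y in 𝓝 y₀, fderiv ℝ H (y, g y) (0, 1) ≠ 0 := by
    have h1 : ContinuousAt (fun y => fderiv ℝ H (y, g y) (0, 1)) y₀ :=
      hcf.continuousAt.comp (f := fun y => (y, g y)) (continuousAt_id.prodMk hgs.continuousAt)
    have h2 : fderiv ℝ H (y₀, g y₀) (0, 1) ≠ 0 := by rw [hg0]; exact hpos
    exact h1.eventually_ne h2
  have e4 := ((e1.and e2).and e3).eventually_nhds
  obtain ⟨W, hW, hWo, hyW⟩ := eventually_nhds_iff.1 e4
  refine ⟨W, hWo, hyW, g, ?_, fun y hy => ((hW y hy).self_of_nhds).1.1⟩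
  intro y hy
  have hy1 := hW y hy
  obtain ⟨⟨hy2, hy3⟩, hy4⟩ := hy1.self_of_nhds
  have hgy := ContDiffAt.contDiffAt_implicitFunction (hH.contDiffAt (x := (y, g y))) hne
    (hinv _ hy4)
  have hiff := ContDiffAt.eventually_apply_eq_iff_implicitFunction
    (hH.contDiffAt (x := (y, g y))) hne (hinv _ hy4)
  have hc : Tendsto (fun z => (z, g z)) (𝓝 y) (𝓝 (y, g y)) :=
    continuousAt_id.prodMk hy3
  have hev : g =ᶠ[𝓝 y] (hH.contDiffAt (x := (y, g y))).implicitFunction hne (hinv _ hy4) := by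
    filter_upwards [hc.eventually hiff, hy1] with z hz hz1
    exact (hz.1 (by rw [hz1.1.1, hy2])).symm
  exact (hgy.congr_of_eventuallyEq hev).contDiffWithinAt

theorem exists_u (hB : BaseK N V R) {γ : E k → ℝ} (hγ : ContDiff ℝ ∞ γ)
    (h : ∀ y ∈ N, 1 / 2 < 1 + fderiv ℝ γ y (V y)) :
    ∃ u : E k → ℝ, ContDiff ℝ ∞ u ∧ (∀ y ∈ N, γ (R (-u y) y) = u y) ∧
      ∀ y ∈ N, u (R (γ y) y) = γ y := by
  have hγd : Differentiable ℝ γ := hγ.differentiable (by simp)
  have hder : ∀ (y : E k) (u : ℝ), HasDerivAt (fun u => u - γ (R (-u) y))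
      (1 + fderiv ℝ γ (R (-u) y) (V (R (-u) y))) u := by
    intro y u
    have h1 : HasDerivAt (fun u : ℝ => R (-u) y) (-(V (R (-u) y))) u := by
      have h2 := (hB.flow.deriv y (-u)).scomp u (hasDerivAt_neg u)
      rw [neg_one_smul] at h2
      exact h2
    have h3 := (hγd (R (-u) y)).hasFDerivAt.comp_hasDerivAt u h1
    rw [map_neg] at h3
    have h4 := (hasDerivAt_id u).sub h3
    rw [sub_neg_eq_add] at h4
    exact h4
  have hpos : ∀ y ∈ N, ∀ u : ℝ, 1 / 2 < 1 + fderiv ℝ γ (R (-u) y) (V (R (-u) y)) :=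
    fun y hy u => h _ (hB.maps y hy _)
  have hmono : ∀ y ∈ N, StrictMono fun u => u - γ (R (-u) y) := fun y hy =>
    strictMono_of_hasDerivAt_pos (hder y) fun u => by linarith [hpos y hy u]
  have hmono2 : ∀ y ∈ N, StrictMono fun u => (u - γ (R (-u) y)) - u / 2 := fun y hy =>
    strictMono_of_hasDerivAt_pos (fun u => (hder y u).sub ((hasDerivAt_id u).div_const 2))
      fun u => by linarith [hpos y hy u]
  have hsurj : ∀ y ∈ N, ∃ u, u - γ (R (-u) y) = 0 := by
    intro y hy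
    have hc : Continuous fun u => u - γ (R (-u) y) :=
      continuous_iff_continuousAt.2 fun u => (hder y u).continuousAt
    obtain ⟨c, hc0, hc'⟩ : ∃ c : ℝ, 0 ≤ c ∧ |γ (R (-0) y)| ≤ c := ⟨_, abs_nonneg _, le_rfl⟩
    have h1 : -(2 * c) - γ (R (- -(2 * c)) y) - -(2 * c) / 2 ≤ 0 - γ (R (-0) y) - 0 / 2 :=
      (hmono2 y hy).monotone (show -(2 * c) ≤ 0 by linarith)
    have h2 : 0 - γ (R (-0) y) - 0 / 2 ≤ 2 * c - γ (R (-(2 * c)) y) - 2 * c / 2 :=
      (hmono2 y hy).monotone (show 0 ≤ 2 * c by linarith)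
    have h3 : (0 : ℝ) ∈ Icc (-(2 * c) - γ (R (- -(2 * c)) y)) (2 * c - γ (R (-(2 * c)) y)) := by
      generalize γ (R (- -(2 * c)) y) = a₁ at h1 ⊢
      generalize γ (R (-(2 * c)) y) = a₂ at h2 ⊢
      generalize γ (R (-0) y) = a₃ at h1 h2 hc'
      have h5 := abs_le.1 hc'
      exact ⟨by linarith [h5.1], by linarith [h5.2]⟩
    obtain ⟨u, -, hu⟩ := intermediate_value_Icc (show -(2 * c) ≤ 2 * c by linarith)
      hc.continuousOn h3
    exact ⟨u, hu⟩
  obtain ⟨U, hUs, hU⟩ := exists_glue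
    (t := fun y : E k => {u : ℝ | y ∈ N → u - γ (R (-u) y) = 0})
    (by
      intro y
      by_cases hy : y ∈ N
      · refine Set.Subsingleton.convex ?_
        intro k hk l hl
        exact (hmono y hy).injective ((hk hy).trans (hl hy).symm)
      · have : {u : ℝ | y ∈ N → u - γ (R (-u) y) = 0} = univ := by
          ext k
          simp [hy]
        rw [this]
        exact convex_univ)
    (by
      intro y₀
      by_cases hy : y₀ ∈ N
      · obtain ⟨u₀, hu₀⟩ := hsurj y₀ hy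
        have hH : ContDiff ℝ ∞ fun z : E k × ℝ => z.2 - γ (R (-z.2) z.1) := by
          have h1 : ContDiff ℝ ∞ fun z : E k × ℝ => R (-z.2) z.1 :=
            hB.flow.smooth.comp (contDiff_snd.neg.prodMk contDiff_fst)
          exact contDiff_snd.sub (hγ.comp h1)
        obtain ⟨W, hW, hyW, g, hg, hgW⟩ := midg_implicit hH (y₀ := y₀) (u₀ := u₀) hu₀
          (by
            have hd := ((hH.differentiable (by simp)) (y₀, u₀)).hasFDerivAt
            have hl : HasDerivAt (fun u : ℝ => (y₀, u)) ((0 : E k), (1 : ℝ)) u₀ :=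
              (hasDerivAt_const u₀ y₀).prodMk (hasDerivAt_id u₀)
            have h1 := hd.comp_hasDerivAt u₀ hl
            have h3 := h1.unique (hder y₀ u₀)
            rw [h3]
            have := hpos y₀ hy u₀
            linarith)
        exact ⟨W, hW, hyW, g, hg, fun y hyy _ => hgW y hyy⟩
      · refine ⟨Nᶜ, hB.cpt.isClosed.isOpen_compl, hy, fun _ => 0, contDiffOn_const, fun y hyy h => ?_⟩
        exact absurd h hyy)
  refine ⟨U, hUs, fun y hy => (sub_eq_zero.1 (hU y hy)).symm, fun y hy => ?_⟩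
  have hy' : R (γ y) y ∈ N := hB.maps y hy _
  refine (hmono _ hy').injective ?_
  have h1 : U (R (γ y) y) - γ (R (-U (R (γ y) y)) (R (γ y) y)) = 0 := hU _ hy'
  show U (R (γ y) y) - γ (R (-U (R (γ y) y)) (R (γ y) y)) = γ y - γ (R (-γ y) (R (γ y) y))
  rw [h1, R_add hB, neg_add_cancel, R_zero hB, sub_self]

end Pool.Agent.H99.TW
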