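import Pool.Agent.H99.TW.TMidR
import Pool.Agent.H99.TW.TMidG
import Pool.Agent.H99.TW.KSInv

/-!
# The symmetric straightening over a compact invariant set (module TMid)

PROOF. `b, A, ρ, Ri` from `exists_act`, `exists_rho`, `exists_rinv` (`KSAct`, `KSRho`, `KSInv`). `γ = gam T M' b`, `κ = kap T M' A`; `1 + γ' = (1 + (1 + 2γ')) / 2 > 1/2` on `N` by `mid_pos` (`2γ' y = -D(b (T ·, M'))(y) (V y)`). `u` from `exists_u` for `γ`;
`g y = R (γ y) y`, `g' y = R (-u y) y`; for `y ∈ N`: `g (g' y) = y` (`γ (g' y) = u y`), `g' (g y) = y`. `ρs` from `exists_rhoS`. Inverse: `Rs y = Ri (g' y.1, y.2 * (1 + γ' (g' y.1)) - κ' (g' y.1))`.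
* `smooth`, `mem`: clear. * `base`: `x = Rs y`, `R (b x) x.1 = g' y.1` (`RinvN.base`), so `R (bs b x) x.1 = R (b x + γ (g' y.1)) x.1 = R (γ (g' y.1)) (g' y.1) = y.1` (`bs_eq`). * `rho`: `ρs x * (1 + γ') = ρ x + κ' = y.2 (1 + γ') - κ' + κ'` (`RinvN.rho`), `1 + γ' ≠ 0`.
* `inv`: `x.1 ∈ N`, `y = (R (bs b x) x.1, ρs x)`; `Y = R (b x) x.1`, `y.1 = R (γ Y) Y = g Y`, so `g' y.1 = Y`; `ρs x (1 + γ' Y) - κ' Y = ρ x`; `Ri (Y, ρ x) = x`.
* `bT`, `AT`: `th_th`. * zero: let `V q = 0`, `Θ (q, ·) = 0`. Then `Θ (T q, ·) = 0` (`hT`). `Ψ t (q, r) = (q, r + t)` (`IsFlow.unique`; `V q = 0`), and `b (Ψ t (q, r))` is constant in `t` (`ActN.db`), so it is `0` (bottom). Same for `A` and for `T q` (`V (T q) = -T (V q) = 0`).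
  So `bs b (q, r) = 0`, `As A (q, r) = 0`. `ρs (q, r) = r`: `RhoU.id` at `(q, r)` with `(a, r') = (1, 0)` (`V q = 0`, so the derivatives are at `(0, 0)`). `Rs (q, r) = (q, r)`: `RinvN.inv` at `(q, r)`.
-/

set_option autoImplicit false

open scoped ContDiff Topology RealInnerProductSpace
open Set Filter

namespace Pool.Agent.H99.TW

open Pool.Agent.H57.NL Pool.Agent.H2.TG Pool.Agent.H2.TI

variable {k : ℕ} {N : Set (E k)} {V : E k → E k} {R : ℝ → E k → E k} {T : E k →L[ℝ] E k}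
  {Θ : E k × ℝ → ℝ} {M' τ : ℝ} {Ψ : ℝ → E k × ℝ → E k × ℝ} {b A ρ : E k × ℝ → ℝ}
  {Ri : E k × ℝ → E k × ℝ}

/-- Over a zero of `V` the primitives vanish. -/
private theorem tmid_zero (hB : BaseK N V R) (hΘ : PhaseI Θ M') (hΨ : IsFlow (XFN V Θ 1) Ψ)
    (hA : ActN N Θ M' Ψ b A) {q : E k} (hq : q ∈ N) (hV : V q = 0) (h0 : ∀ r, Θ (q, r) = 0)
    (r : ℝ) : b (q, r) = 0 ∧ A (q, r) = 0 := by
  have hX := XFN_contDiff hB hΘ 1
  have hΨq : ∀ t, Ψ t (q, r) = (q, r + t) := by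
    intro t
    have h := hΨ.unique hX (γ := fun t => ((q, r + t) : E k × ℝ)) (fun s => by
      have h1 : HasDerivAt (fun s : ℝ => ((q, r + s) : E k × ℝ)) (0, 1) s :=
        (hasDerivAt_const s q).prodMk ((hasDerivAt_id s).const_add r)
      have h2 : XFN V Θ 1 (q, r + s) = (0, 1) := by
        unfold XFN
        rw [h0, hV]
        simp
      rw [h2]
      exact h1) t
    simp only [add_zero] at h
    exact h.symm
  have key : ∀ f : ℝ → ℝ, (∀ t, HasDerivAt f 0 t) → ∀ a c, f a = f c := fun f h a c =>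
    is_const_of_deriv_eq_zero (fun t => (h t).differentiableAt) (fun t => (h t).deriv) a c
  have e0 : Ψ 0 (q, r) = (q, r) := hΨ.zero _
  have e1 : Ψ (-M' - r) (q, r) = (q, -M') := by
    rw [hΨq]
    congr 1
    ring
  obtain ⟨hb, ha⟩ := hA.bot (q, -M') hq le_rfl
  constructor
  · have h := key (fun t => b (Ψ t (q, r))) (fun t => by
      have h1 := hA.db (q, r) hq t
      rw [hΨq t, h0, Real.sin_zero] at h1
      exact h1) 0 (-M' - r)
    simp only [e0, e1] at h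
    rw [h, hb]
  · have h := key (fun t => A (Ψ t (q, r))) (fun t => by
      have h1 := hA.dA (q, r) hq t
      rw [hΨq t, h0, Real.sin_zero, mul_zero] at h1
      exact h1) 0 (-M' - r)
    simp only [e0, e1] at h
    rw [h, ha]

theorem exists_mid (hB : BaseK N V R) (hS : SymV N V R T) (hΘ : PhaseI Θ M')
    (hT : ∀ x, Θ (th T x) = Θ x) (hΨ : IsFlow (XFN V Θ 1) Ψ) (hτ : 0 < τ)
    (hG : GoodN N M' τ Ψ) :
    ∃ b A ρ Ri, MidK N V R Θ T b A ρ Ri ∧ ∀ q ∈ N, V q = 0 → (∀ r, Θ (q, r) = 0) → ∀ r,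
      b (q, r) = 0 ∧ A (q, r) = 0 ∧ ρ (q, r) = r ∧ Ri (q, r) = (q, r) := by
  obtain ⟨b, A, hA⟩ := exists_act hB hΘ hΨ hτ hG
  obtain ⟨ρ, hρ⟩ := exists_rho hB hΘ hΨ hτ hG hA
  obtain ⟨Ri, hR⟩ := exists_rinv hB hΘ hΨ hτ hG hρ
  have hin : ContDiff ℝ ∞ (fun y : E k => ((T y, M') : E k × ℝ)) :=
    T.contDiff.prodMk contDiff_const
  have hγs : ContDiff ℝ ∞ (gam T M' b) := ((hA.smoothb.comp hin).neg).div_const 2
  have hκs : ContDiff ℝ ∞ (kap T M' A) := (hA.smoothA.comp hin).div_const 2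
  have hγ' : ∀ y ∈ N, 1 / 2 < 1 + fderiv ℝ (gam T M' b) y (V y) := by
    intro y hy
    have h := mid_pos hB hS hΘ hΨ hτ hG hA hy
    have hd : DifferentiableAt ℝ (fun y : E k => b (T y, M')) y :=
      ((hA.smoothb.comp hin).differentiable (by simp)) y
    have h1 : HasFDerivAt (gam T M' b) ((-(1 / 2) : ℝ) • fderiv ℝ (fun y => b (T y, M')) y) y := by
      have h2 := hd.hasFDerivAt.const_smul (-(1 / 2) : ℝ)
      refine h2.congr_of_eventuallyEq (Eventually.of_forall fun z => ?_)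
      show -b (T z, M') / 2 = (-(1 / 2) : ℝ) • b (T z, M')
      rw [smul_eq_mul]
      ring
    rw [h1.fderiv]
    show 1 / 2 < 1 + (-(1 / 2) : ℝ) • (fderiv ℝ (fun y => b (T y, M')) y (V y))
    rw [smul_eq_mul]
    linarith
  obtain ⟨u, hus, hu1, hu2⟩ := exists_u hB hγs hγ'
  obtain ⟨ρs, hρs, hρT, hρe⟩ := exists_rhoS hB hS hΘ hT hΨ hτ hG hρ
  set gp : E k → ℝ := fun y => fderiv ℝ (gam T M' b) y (V y) with hgp
  set kp : E k → ℝ := fun y => fderiv ℝ (kap T M' A) y (V y) with hkp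
  have hgps : ContDiff ℝ ∞ gp := (hγs.fderiv_right (m := ∞) (by simp)).clm_apply hB.smooth
  have hkps : ContDiff ℝ ∞ kp := (hκs.fderiv_right (m := ∞) (by simp)).clm_apply hB.smooth
  set g' : E k → E k := fun y => R (-u y) y with hg'
  have hg's : ContDiff ℝ ∞ g' := by
    have h := hB.flow.smooth.comp ((hus.neg).prodMk contDiff_id)
    exact h
  have hg'm : ∀ y ∈ N, g' y ∈ N := fun y hy => hB.maps y hy _
  have hne : ∀ y ∈ N, 1 + gp y ≠ 0 := fun y hy => by
    have h := hγ' y hy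
    have h2 : gp y = fderiv ℝ (gam T M' b) y (V y) := rfl
    rw [h2]
    linarith
  set Rs : E k × ℝ → E k × ℝ := fun y =>
    Ri (g' y.1, y.2 * (1 + gp (g' y.1)) - kp (g' y.1)) with hRs
  have hinv : RinvN N R (bs T b) ρs Rs := by
    refine ⟨?_, ?_, ?_, ?_, ?_⟩
    · have h1 : ContDiff ℝ ∞ (fun y : E k × ℝ => g' y.1) := hg's.comp contDiff_fst
      exact hR.smooth.comp (h1.prodMk ((contDiff_snd.mul
        (contDiff_const.add (hgps.comp h1))).sub (hkps.comp h1)))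
    · intro y hy
      exact hR.mem _ (hg'm _ hy)
    · intro y hy
      have hz := hg'm _ hy
      have hx : (Rs y).1 ∈ N := hR.mem _ hz
      have h1 : R (b (Rs y)) (Rs y).1 = g' y.1 := hR.base _ hz
      have h2 := bs_eq hB hS hΘ hT hΨ hτ hG hA hx
      rw [h1] at h2
      have h3 : gam T M' b (g' y.1) = u y.1 := hu1 _ hy
      rw [h2, h3, add_comm, ← R_add hB, h1]
      show R (u y.1) (R (-u y.1) y.1) = y.1
      rw [R_add hB, add_neg_cancel, R_zero hB]
    · intro y hy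
      have hz := hg'm _ hy
      have hx : (Rs y).1 ∈ N := hR.mem _ hz
      have h1 : R (b (Rs y)) (Rs y).1 = g' y.1 := hR.base _ hz
      have h2 := hρe _ hx
      rw [h1] at h2
      have h3 : ρ (Rs y) = y.2 * (1 + gp (g' y.1)) - kp (g' y.1) := hR.rho _ hz
      rw [h3] at h2
      have h4 : ρs (Rs y) * (1 + gp (g' y.1)) = y.2 * (1 + gp (g' y.1)) := by
        have h5 : ρs (Rs y) * (1 + gp (g' y.1)) =
          y.2 * (1 + gp (g' y.1)) - kp (g' y.1) + kp (g' y.1) := h2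
        rw [h5]
        ring
      exact mul_right_cancel₀ (hne _ hz) h4
    · intro x hx
      have h2 := bs_eq hB hS hΘ hT hΨ hτ hG hA hx
      set Y := R (b x) x.1 with hY
      have hYm : Y ∈ N := hB.maps _ hx _
      have h3 : R (bs T b x) x.1 = R (gam T M' b Y) Y := by
        rw [h2, add_comm, ← R_add hB]
      have h4 : g' (R (bs T b x) x.1) = Y := by
        show R (-u (R (bs T b x) x.1)) (R (bs T b x) x.1) = Y
        rw [h3, hu2 _ hYm, R_add hB, neg_add_cancel, R_zero hB]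
      have h5 := hρe _ hx
      rw [← hY] at h5
      have h6 : ρs x * (1 + gp Y) - kp Y = ρ x := by
        have h7 : ρs x * (1 + gp Y) = ρ x + kp Y := h5
        rw [h7]
        ring
      show Ri (g' (R (bs T b x) x.1), ρs x * (1 + gp (g' (R (bs T b x) x.1)))
        - kp (g' (R (bs T b x) x.1))) = x
      rw [h4, h6]
      exact hR.inv _ hx
  have hth : ∀ x : E k × ℝ, th T (th T x) = x := by
    intro x
    refine Prod.ext (hS.TT x.1) ?_
    show -(-x.2) = x.2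
    rw [neg_neg]
  refine ⟨bs T b, As T A, ρs, Rs, ⟨hρs, hinv, ?_, ?_, hρT⟩, ?_⟩
  · intro x
    unfold bs
    rw [hth]
    ring
  · intro x
    unfold As
    rw [hth]
    ring
  · intro q hq hV h0 r
    obtain ⟨z1, z2⟩ := tmid_zero hB hΘ hΨ hA hq hV h0 r
    have hV' : V (T q) = 0 := by rw [hS.V, hV, map_zero, neg_zero]
    have h0' : ∀ r, Θ (T q, r) = 0 := by
      intro r
      have h := hT (q, -r)
      have h1 : th T (q, -r) = (T q, r) := by
        refine Prod.ext rfl ?_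
        show -(-r) = r
        rw [neg_neg]
      rw [h1] at h
      rw [h, h0]
    obtain ⟨z3, z4⟩ := tmid_zero hB hΘ hΨ hA (hS.mem _ hq) hV' h0' (-r)
    have hb : bs T b (q, r) = 0 := by
      show (b (q, r) - b (T q, -r)) / 2 = 0
      rw [z1, z3]
      norm_num
    have ha : As T A (q, r) = 0 := by
      show (A (q, r) + A (T q, -r)) / 2 = 0
      rw [z2, z4]
      norm_num
    have hr : ρs (q, r) = r := by
      have h := hρs.id (q, r) hq 1 0
      have h1 : ((1 : ℝ) • V (q, r).1, (0 : ℝ)) = (0 : E k × ℝ) := by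
        refine Prod.ext ?_ rfl
        show (1 : ℝ) • V q = 0
        rw [hV, smul_zero]
      rw [h1, map_zero, map_zero] at h
      simp only [mul_one, add_zero] at h
      exact h.symm
    refine ⟨hb, ha, hr, ?_⟩
    have h := hinv.inv (q, r) hq
    rw [hb, hr] at h
    have h1 : R 0 (q, r).1 = q := R_zero hB q
    rw [h1] at h
    exact h

end Pool.Agent.H99.TW
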