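import Pool.Agent.H99.TW.TNarA
import Pool.Agent.H2.TI.NReg
import Pool.Agent.H84.CK.Sec
import Pool.Agent.H2.TI.ITan

/-!
# Lagrangians with coherent fibres (module TNar)

PROOF. `S` is compact (`compactS`). `U = {z | ‖z.2‖ = 1 ∧ ((∃ y ∈ S, ∃ y' ∈ S, y.1 = z.1 ∧ y'.1 = z.1 ∧ y'.2 - y.2 = t • z.2 with t > 0) ∨ (∃ y ∈ S, y.1 = z.1 ∧ (0, z.2) ∈ Tan S y))}`. `U` is compact: it is bounded; closed: let `z_j → z`, after passing to a subsequence all `z_j` are of the first kind or all of the second.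
Second kind: `y_j → y` (subsequence), `(0, z_j.2) ∈ Tan S y_j`: `IsSubmfd.isClosed_tan` (`H57/NL/Slice.lean`). First kind: `y_j → y`, `y'_j → y'`; if `y ≠ y'`, `t_j = ‖y'_j.2 - y_j.2‖ → ‖y'.2 - y.2‖ > 0`; if `y = y'`: limit of secants, `secant_tan` (`H84/CK/Sec.lean`) with `c_j = t_j⁻¹`, `(0, z.2) ∈ Tan S y`
(the norm of `E m × E m` is the maximum; `‖(0, a)‖ = ‖a‖`). `U ⊆ TN N`: differences of tangent vectors (`IsSubmfd.tan_sub`); vertical tangent vectors: `(0, b) ∈ Tan (TN N) y` gives `b ∈ Tan N y.1` (`tan_snd` in `H2/TI/ITan.lean` with `v.1 = 0`).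
`h` for `U` from `Coherent` (the triple product of `t u, t' u', t'' u''` is `t² t'² t''²` times that of `u, u', u''`). `D` from `cone_of_coherent`; `Chained D S`: scale (the cone `K` of `DoubleCone` is closed under nonnegative multiples; `0 ∈ K`).
-/

set_option autoImplicit false

open scoped ContDiff Topology RealInnerProductSpace
open Set Filter

namespace Pool.Agent.H99.TW

open Pool.Agent.H57.NL Pool.Agent.H2.TG Pool.Agent.H2.TI

variable {m n : ℕ} {N : Set (E m)} {S : Set (E m × E m)} {f : E m × E m → ℝ}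

private def tnarK (S : Set (E m × E m)) (y y' : E m × E m) (q u : E m) : Prop :=
  y ∈ S ∧ y' ∈ S ∧ y.1 = q ∧ y'.1 = q ∧ ‖u‖ = 1 ∧
    ((∃ t : ℝ, 0 < t ∧ y'.2 - y.2 = t • u) ∨ (0, u) ∈ Tan S y)

private def tnarU (S : Set (E m × E m)) : Set (E m × E m) :=
  {z | ∃ y y' : E m × E m, tnarK S y y' z.1 z.2}

private theorem tnar_lim (hS : IsSubmfd n S) (hcl : IsClosed S) {a b : ℕ → E m × E m}
    {c : ℕ → E m × E m} {y y' : E m × E m} {q u : E m}
    (hK : ∀ j, tnarK S (a j) (b j) (c j).1 (c j).2)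
    (ha : Tendsto a atTop (𝓝 y)) (hb : Tendsto b atTop (𝓝 y')) (h11 : y'.1 = y.1)
    (hc : Tendsto c atTop (𝓝 (q, u))) :
    (∃ t : ℝ, 0 < t ∧ y'.2 - y.2 = t • u) ∨ (0, u) ∈ Tan S y := by
  have hyS : y ∈ S := hcl.mem_of_tendsto ha (Eventually.of_forall fun j => (hK j).1)
  have hc2 : Tendsto (fun j => (c j).2) atTop (𝓝 u) := (continuous_snd.tendsto (q, u)).comp hc
  have hc0 : Tendsto (fun j => ((0 : E m), (c j).2)) atTop (𝓝 (0, u)) :=
    tendsto_const_nhds.prodMk_nhds hc2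
  have hor : ∃ᶠ j in atTop, ((0 : E m), (c j).2) ∈ Tan S (a j) ∨
      (∃ t : ℝ, 0 < t ∧ (b j).2 - (a j).2 = t • (c j).2) :=
    (Eventually.of_forall fun j => ((hK j).2.2.2.2.2).symm).frequently
  rcases frequently_or_distrib.1 hor with h | h
  · right
    obtain ⟨φ, hφ, h1⟩ := extraction_of_frequently_atTop h
    have h2 := hS.isClosed_tan hcl
    have h3 : Tendsto (fun k => (a (φ k), ((0 : E m), (c (φ k)).2))) atTop (𝓝 (y, (0, u))) :=
      (ha.comp hφ.tendsto_atTop).prodMk_nhds (hc0.comp hφ.tendsto_atTop)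
    exact (h2.mem_of_tendsto h3 (Eventually.of_forall fun k => ⟨(hK (φ k)).1, h1 k⟩)).2
  · obtain ⟨φ, hφ, h1⟩ := extraction_of_frequently_atTop h
    choose t ht0 ht using h1
    have hd : ∀ k, b (φ k) - a (φ k) = (0, t k • (c (φ k)).2) := by
      intro k
      refine Prod.ext ?_ (ht k)
      show (b (φ k)).1 - (a (φ k)).1 = 0
      rw [(hK (φ k)).2.2.2.1, (hK (φ k)).2.2.1, sub_self]
    have hn : ∀ k, ‖b (φ k) - a (φ k)‖ = t k := by
      intro k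
      rw [hd k, Prod.norm_def]
      simp only [norm_zero]
      rw [norm_smul, (hK (φ k)).2.2.2.2.1, mul_one, Real.norm_of_nonneg (ht0 k).le]
      exact max_eq_right (ht0 k).le
    by_cases hyy : y = y'
    · right
      subst hyy
      refine Pool.Agent.H84.CK.secant_tan hS hyS (fun k => (hK (φ k)).1)
        (fun k => (hK (φ k)).2.1)
        (ha.comp hφ.tendsto_atTop) (hb.comp hφ.tendsto_atTop) (c := fun k => (t k)⁻¹) ?_ ?_
      · intro k
        show ‖(t k)⁻¹‖ * ‖b (φ k) - a (φ k)‖ ≤ 1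
        rw [hn k, Real.norm_of_nonneg (inv_nonneg.2 (ht0 k).le), inv_mul_cancel₀ (ht0 k).ne']
      · refine (hc0.comp hφ.tendsto_atTop).congr fun k => ?_
        show (0, (c (φ k)).2) = (t k)⁻¹ • (b (φ k) - a (φ k))
        rw [hd k, Prod.smul_mk, smul_zero, smul_smul, inv_mul_cancel₀ (ht0 k).ne', one_smul]
    · left
      have hne : y' - y ≠ 0 := fun h => hyy (sub_eq_zero.1 h).symm
      have hs : Tendsto (fun k => b (φ k) - a (φ k)) atTop (𝓝 (y' - y)) :=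
        (hb.comp hφ.tendsto_atTop).sub (ha.comp hφ.tendsto_atTop)
      have hs2 : Tendsto t atTop (𝓝 ‖y' - y‖) := hs.norm.congr hn
      have hs3 : Tendsto (fun k => (b (φ k) - a (φ k)).2) atTop (𝓝 (y' - y).2) :=
        (continuous_snd.tendsto (y' - y)).comp hs
      refine ⟨‖y' - y‖, norm_pos_iff.2 hne, ?_⟩
      refine tendsto_nhds_unique hs3 ((hs2.smul (hc2.comp hφ.tendsto_atTop)).congr fun k => ?_)
      exact (ht k).symm

private theorem tnar_compact (hS : IsSubmfd n S) (hcpt : IsCompact S) : IsCompact (tnarU S) := by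
  apply IsSeqCompact.isCompact
  intro c hc
  choose a b hK using hc
  have hcl : IsClosed S := hcpt.isClosed
  have hbig : IsCompact (S ×ˢ (S ×ˢ Metric.sphere (0 : E m) 1)) :=
    hcpt.prod (hcpt.prod (isCompact_sphere _ _))
  obtain ⟨⟨y, y', u⟩, hyu, φ, hφ, hlim⟩ := hbig.isSeqCompact
    (x := fun j => (a j, (b j, (c j).2))) (fun j => ⟨(hK j).1, (hK j).2.1, by
      show (c j).2 ∈ Metric.sphere (0 : E m) 1
      rw [mem_sphere_zero_iff_norm]; exact (hK j).2.2.2.2.1⟩)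
  obtain ⟨hy, hy', hu⟩ := hyu
  have hu1 : ‖u‖ = 1 := mem_sphere_zero_iff_norm.1 hu
  have la : Tendsto (fun k => a (φ k)) atTop (𝓝 y) :=
    (continuous_fst.tendsto (y, (y', u))).comp hlim
  have lbu : Tendsto (fun k => (b (φ k), (c (φ k)).2)) atTop (𝓝 (y', u)) :=
    (continuous_snd.tendsto (y, (y', u))).comp hlim
  have lb : Tendsto (fun k => b (φ k)) atTop (𝓝 y') := (continuous_fst.tendsto (y', u)).comp lbu
  have lu : Tendsto (fun k => (c (φ k)).2) atTop (𝓝 u) := (continuous_snd.tendsto (y', u)).comp lbu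
  have la1 : Tendsto (fun k => (a (φ k)).1) atTop (𝓝 y.1) := (continuous_fst.tendsto y).comp la
  have lb1 : Tendsto (fun k => (b (φ k)).1) atTop (𝓝 y'.1) := (continuous_fst.tendsto y').comp lb
  have lc1 : Tendsto (fun k => (c (φ k)).1) atTop (𝓝 y.1) :=
    la1.congr fun k => (hK (φ k)).2.2.1
  have lc : Tendsto (fun k => c (φ k)) atTop (𝓝 (y.1, u)) := lc1.prodMk_nhds lu
  have h11 : y'.1 = y.1 := by
    refine tendsto_nhds_unique lb1 (lc1.congr fun k => ?_)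
    exact ((hK (φ k)).2.2.2.1).symm
  exact ⟨(y.1, u), ⟨y, y', hy, hy', rfl, h11, hu1,
    tnar_lim hS hcl (fun k => hK (φ k)) la lb h11 lc⟩, φ, hφ, lc⟩

private theorem tnar_vec {q u : E m} (h : (q, u) ∈ tnarU S) :
    ‖u‖ = 1 ∧ ∃ t : ℝ, 0 < t ∧ FibreVec S q (t • u) := by
  obtain ⟨y, y', hy, hy', h1, h2, hu, h3⟩ := h
  refine ⟨hu, ?_⟩
  simp only at h1 h2 h3
  rcases h3 with ⟨t, ht, h3⟩ | h3
  · refine ⟨t, ht, Or.inl ⟨y.2, y'.2, ?_, ?_, h3.symm⟩⟩
    · rw [← h1]; exact hy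
    · rw [← h2]; exact hy'
  · refine ⟨1, one_pos, Or.inr ⟨y.2, ?_⟩⟩
    rw [← h1, one_smul]
    exact ⟨hy, h3⟩

private theorem tnar_ne {u : E m} (hu : ‖u‖ = 1) {t : ℝ} (ht : 0 < t) : t • u ≠ 0 := by
  refine smul_ne_zero ht.ne' fun h => ?_
  rw [h, norm_zero] at hu
  exact zero_ne_one hu

theorem coherent_chained (hN : IsSubmfd n N) (hc : IsCompact N) (hL : ExactLag n N ⊥ S f)
    {B : E m → (E m →L[ℝ] E m)} (hB : Continuous B) (hBs : ∀ x u w, ⟪B x u, w⟫ = ⟪B x w, u⟫)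
    (h : Coherent B S) : ∃ D, DoubleCone N D ∧ Chained D S := by
  have hcpt : IsCompact S := compactS hc hL
  have hUN : tnarU S ⊆ TN N := by
    rintro ⟨q, u⟩ ⟨y, y', hy, hy', h1, h2, hu, h3⟩
    simp only at h1 h2 hu h3
    have hyT := hL.subTN hy
    have hyT' := hL.subTN hy'
    have hq : q ∈ N := h1 ▸ hyT.1
    refine ⟨hq, ?_⟩
    show u ∈ Tan N q
    rcases h3 with ⟨t, ht, h3⟩ | h3
    · have e1 : y.2 ∈ Tan N q := h1 ▸ hyT.2
      have e2 : y'.2 ∈ Tan N q := h2 ▸ hyT'.2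
      have e3 := Tan.smul (hN.tan_sub hq e2 e1) t⁻¹
      rwa [h3, smul_smul, inv_mul_cancel₀ ht.ne', one_smul] at e3
    · obtain ⟨Pr, hPr⟩ := exists_proj hN hc.isClosed
      have h4 : (0, u) ∈ Tan (TN N) y := by
        obtain ⟨γ, g1, g2, g3⟩ := h3
        exact ⟨γ, g1, g2.mono fun s hs => hL.subTN hs, g3⟩
      have h5 := tan_snd hN hPr hyT h4
      simp only [map_zero, _root_.zero_apply, zero_add] at h5
      rw [h5, ← h1]
      exact hPr.mem _ hyT.1 _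
  have h1 : ∀ z ∈ tnarU S, ‖z.2‖ = 1 := fun z hz => (tnar_vec (q := z.1) (u := z.2) hz).1
  have h2 : ∀ q u u' u'', (q, u) ∈ tnarU S → (q, u') ∈ tnarU S → (q, u'') ∈ tnarU S →
      0 < ⟪B q u, u'⟫ * ⟪B q u', u''⟫ * ⟪B q u, u''⟫ := by
    intro q u u' u'' hu hu' hu''
    obtain ⟨n1, t, ht, f1⟩ := tnar_vec hu
    obtain ⟨n2, t', ht', f2⟩ := tnar_vec hu'
    obtain ⟨n3, t'', ht'', f3⟩ := tnar_vec hu''
    have h3 := h q _ _ _ f1 f2 f3 (tnar_ne n1 ht) (tnar_ne n2 ht') (tnar_ne n3 ht'')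
    simp only [map_smul, real_inner_smul_left, real_inner_smul_right] at h3
    have h4 : 0 < (t * t' * t'') ^ 2 := by positivity
    have h5 : t' * (t * ⟪B q u, u'⟫) * (t'' * (t' * ⟪B q u', u''⟫)) * (t'' * (t * ⟪B q u, u''⟫)) =
        (t * t' * t'') ^ 2 * (⟪B q u, u'⟫ * ⟪B q u', u''⟫ * ⟪B q u, u''⟫) := by ring
    rw [h5] at h3
    exact (pos_iff_pos_of_mul_pos h3).1 h4
  obtain ⟨D, hD, hUD⟩ := cone_of_coherent hN hc.isClosed
    (tnar_compact hL.sub hcpt) hUN h1 hB hBs h2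
  have key : ∀ q ∈ N, ∀ w : E m, (w ≠ 0 → (q, ‖w‖⁻¹ • w) ∈ tnarU S) → (q, w) ∈ D := by
    intro q hq w hw
    obtain ⟨K, -, K0, -, Ks, -, KD⟩ := hD.cone q hq
    rw [KD]
    by_cases h0 : w = 0
    · left; rw [h0]; exact K0
    · have hp : 0 < ‖w‖ := norm_pos_iff.2 h0
      have e : ‖w‖ • (‖w‖⁻¹ • w) = w := by rw [smul_smul, mul_inv_cancel₀ hp.ne', one_smul]
      rcases (KD _).1 (hUD (hw h0)) with h6 | h6
      · left
        have := Ks _ h6 ‖w‖ hp.le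
        rwa [e] at this
      · right
        have := Ks _ h6 ‖w‖ hp.le
        rwa [smul_neg, e] at this
  have hn1 : ∀ w : E m, w ≠ 0 → ‖‖w‖⁻¹ • w‖ = 1 := by
    intro w hw
    rw [norm_smul, norm_inv, norm_norm, inv_mul_cancel₀ (norm_ne_zero_iff.2 hw)]
  refine ⟨D, hD, ⟨fun z hz z' hz' hzz => ?_, fun z hz b hb => ?_⟩⟩
  · refine key z.1 (hL.subTN hz).1 _ fun hw => ?_
    have hp : 0 < ‖z'.2 - z.2‖ := norm_pos_iff.2 hw
    refine ⟨z, z', hz, hz', rfl, hzz.symm, hn1 _ hw, Or.inl ⟨‖z'.2 - z.2‖, hp, ?_⟩⟩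
    show z'.2 - z.2 = ‖z'.2 - z.2‖ • (‖z'.2 - z.2‖⁻¹ • (z'.2 - z.2))
    rw [smul_smul, mul_inv_cancel₀ hp.ne', one_smul]
  · refine key z.1 (hL.subTN hz).1 _ fun hw => ?_
    refine ⟨z, z, hz, hz, rfl, rfl, hn1 _ hw, Or.inr ?_⟩
    have h7 := Tan.smul hb ‖b‖⁻¹
    rwa [Prod.smul_mk, smul_zero] at h7

end Pool.Agent.H99.TW
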