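import Pool.Agent.H99.TW.TRed
import Pool.Agent.H2.TI.SImg

/-!
# No caustic points after the straightening (module TNoC)

PROOF. Let `F z ∈ F '' S`, `(0, b) ∈ Tan (F '' S) (F z)`, `b ≠ 0`; `ζ ∈ Tan S z` with `DF(z) ζ = (0, b)` (`tan_imageN` in `H2/TI/SImg.lean`).
Case `z.1 ∈ O₂`: along a curve `γ` in `S` with velocity `ζ`, `F (γ s) = γ s` for small `s` (`h₂`), so `ζ = (0, b)` and `z` is a caustic point of `S`: contradiction to `h₃`.
Case `z.1 ∈ O₁`: copy the proof of `no_causN` (`H2/TI/SNoC.lean`): the curve `γ s` has `(γ s).1 ∈ O₁ ∩ N ⊆ K` for small `s`, so `sigN V (γ s) ∈ CH V S K`, with the local equation `u` at `sigN V z` from `hR.loc`.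
-/

set_option autoImplicit false

open scoped ContDiff Topology RealInnerProductSpace
open Set Filter

namespace Pool.Agent.H99.TW

open Pool.Agent.H57.NL Pool.Agent.H2.TG Pool.Agent.H2.TI

variable {m n : ℕ} {N : Set (E m)} {V : E m → E m} {R : ℝ → E m → E m} {Θ : E m × ℝ → ℝ}
  {S : Set (E m × E m)} {f : E m × E m → ℝ} {F F' : E m × E m → E m × E m} {A : E m × ℝ → ℝ}
  {K : Set (E m)} {M : ℝ}

private theorem tnoc_lin (V : E m → E m) (u : E m × ℝ → ℝ) (y : E m × ℝ) (a b : ℝ) :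
    dpl V u y a b = a * dpl V u y 1 0 + b * dpl V u y 0 1 := by
  unfold dpl
  have h : (a • V y.1, b) = a • ((1 : ℝ) • V y.1, (0 : ℝ)) + b • ((0 : ℝ) • V y.1, (1 : ℝ)) := by
    refine Prod.ext ?_ ?_
    · simp
    · simp
  rw [h, map_add, map_smul, map_smul, smul_eq_mul, smul_eq_mul]

theorem no_causT (hB : BaseU n N V R) (hL : ExactLag n N ⊥ S f) (hE : EmbN V S)
    (hR : RedN K V (CH V S K) M) (hΘ : ∀ y ∈ CH V S K, (y, Θ y) ∈ PSN K V (CH V S K))
    (hF : StrN N V Θ F F' A) {O₁ O₂ : Set (E m)} (hO₁ : IsOpen O₁) (h₁ : O₁ ∩ N ⊆ K)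
    (hO₂ : IsOpen O₂) (h₂ : ∀ z ∈ TN N, z.1 ∈ O₂ → F z = z)
    (h₃ : ∀ z ∈ S, z.1 ∈ O₂ → ¬ Caustic S z) (hcov : N ⊆ O₁ ∪ O₂) :
    ∀ z ∈ F '' S, ¬ Caustic (F '' S) z := by
  rintro _ ⟨z, hz, rfl⟩ ⟨b, hb, ht⟩
  obtain ⟨ζ, hζ, hζb⟩ := (tan_imageN hF.smooth hF.smooth'
    (fun z hz => hF.left z (hL.subTN hz)) hz).1 ht
  have hzN : z.1 ∈ N := (hL.subTN hz).1
  rcases hcov hzN with hz1 | hz2
  · -- the first case
    have hζN : ζ ∈ Tan (TN N) z := by
      obtain ⟨γ, hγ0, hγS, hγ⟩ := hζ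
      exact ⟨γ, hγ0, hγS.mono fun s hs => hL.subTN hs, hγ⟩
    obtain ⟨c, hc⟩ := hF.vert z (hL.subTN hz) ζ hζN (by rw [hζb])
    have hzK : z.1 ∈ K := h₁ ⟨hz1, hzN⟩
    have hx : sigN V z ∈ CH V S K := ⟨z, ⟨hz, hzK⟩, rfl⟩
    obtain ⟨W, u, hxW, hW⟩ := hR.loc _ hx
    have hV : ContDiff ℝ ∞ V := hB.smooth
    -- the derivative of `u` along the image of `ζ`
    have hD : fderiv ℝ u (sigN V z) (fderiv ℝ (sigN V) z ζ) = 0 := by
      obtain ⟨γ, hγ0, hγS, hγ⟩ := hζ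
      have hs : HasFDerivAt (sigN V) (fderiv ℝ (sigN V) z) (γ 0) := by
        rw [hγ0]
        exact (((sigN_contDiff hV).differentiable (by simp)) z).hasFDerivAt
      have h1 : HasDerivAt (fun s => sigN V (γ s)) (fderiv ℝ (sigN V) z ζ) 0 :=
        hs.comp_hasDerivAt 0 hγ
      have hx0 : sigN V (γ 0) = sigN V z := by rw [hγ0]
      have h2 : HasFDerivAt u (fderiv ℝ u (sigN V z)) (sigN V (γ 0)) := by
        rw [hx0]
        exact ((hW.smooth.contDiffAt (hW.isOpen.mem_nhds hxW)).differentiableAt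
          (by simp)).hasFDerivAt
      have h3 : HasDerivAt (fun s => u (sigN V (γ s)))
          (fderiv ℝ u (sigN V z) (fderiv ℝ (sigN V) z ζ)) 0 := h2.comp_hasDerivAt 0 h1
      have h4 : ∀ᶠ s in 𝓝 (0 : ℝ), sigN V (γ s) ∈ W := by
        have h5 : ContinuousAt (fun s => sigN V (γ s)) 0 := h1.continuousAt
        have h8 : sigN V (γ 0) ∈ W := by
          rw [hx0]
          exact hxW
        exact h5 (hW.isOpen.mem_nhds h8)
      have h7 : ∀ᶠ s in 𝓝 (0 : ℝ), (γ s).1 ∈ O₁ := by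
        have h5 : ContinuousAt (fun s => (γ s).1) 0 :=
          continuous_fst.continuousAt.comp hγ.continuousAt
        have h8 : (γ 0).1 ∈ O₁ := by
          rw [hγ0]
          exact hz1
        exact h5 (hO₁.mem_nhds h8)
      have h6 : (fun s => u (sigN V (γ s))) =ᶠ[𝓝 0] fun _ => (0 : ℝ) := by
        filter_upwards [h4, hγS, h7] with s hs1 hs2 hs3
        have hs4 : (γ s).1 ∈ K := h₁ ⟨hs3, (hL.subTN hs2).1⟩
        exact (hW.eqn _ hs1 hs4).1 ⟨γ s, ⟨hs2, hs4⟩, rfl⟩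
      exact h3.unique ((hasDerivAt_const (0 : ℝ) (0 : ℝ)).congr_of_eventuallyEq h6)
    have hP : dpl V u (sigN V z) (Real.cos (Θ (sigN V z))) (Real.sin (Θ (sigN V z))) = 0 :=
      (hΘ _ hx).2 W u hxW hW
    have hc0 : c = 0 := by
      by_contra hc0
      have h1 : dpl V u (sigN V z) (-Real.sin (Θ (sigN V z))) (Real.cos (Θ (sigN V z))) = 0 := by
        rw [hc, map_smul, smul_eq_mul] at hD
        have h2 := (mul_eq_zero.1 hD).resolve_left hc0
        unfold XFN at h2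
        rw [one_mul] at h2
        exact h2
      rw [tnoc_lin] at h1 hP
      have h3 := Real.sin_sq_add_cos_sq (Θ (sigN V z))
      refine hW.reg _ hxW ⟨?_, ?_⟩
      · linear_combination Real.cos (Θ (sigN V z)) * hP - Real.sin (Θ (sigN V z)) * h1 -
          dpl V u (sigN V z) 1 0 * h3
      · linear_combination Real.sin (Θ (sigN V z)) * hP + Real.cos (Θ (sigN V z)) * h1 -
          dpl V u (sigN V z) 0 1 * h3
    rw [hc0, zero_smul, sigN_fderiv hV] at hc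
    have h1 : ζ.1 = 0 := congrArg Prod.fst hc
    have h2 : ⟪ζ.2, V z.1⟫ + ⟪z.2, fderiv ℝ V z.1 ζ.1⟫ = 0 := congrArg Prod.snd hc
    rw [h1, map_zero, inner_zero_right, add_zero] at h2
    have h3 : ζ.2 = 0 := hE.imm z hz ζ.2 (by rw [← h1]; exact hζ) h2
    have h4 : ζ = 0 := Prod.ext h1 h3
    rw [h4, map_zero] at hζb
    exact hb (congrArg Prod.snd hζb).symm
  · -- the second case
    refine h₃ z hz hz2 ⟨b, hb, ?_⟩
    have h8 : ζ = (0, b) := by
      obtain ⟨γ, hγ0, hγS, hγ⟩ := hζ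
      have h1 : HasFDerivAt F (fderiv ℝ F z) (γ 0) := by
        rw [hγ0]
        exact ((hF.smooth.differentiable (by simp)) z).hasFDerivAt
      have h3 : HasDerivAt (F ∘ γ) (fderiv ℝ F z ζ) 0 := h1.comp_hasDerivAt (0 : ℝ) hγ
      have h7 : ∀ᶠ s in 𝓝 (0 : ℝ), (γ s).1 ∈ O₂ := by
        have h5 : ContinuousAt (fun s => (γ s).1) 0 :=
          continuous_fst.continuousAt.comp hγ.continuousAt
        have h8 : (γ 0).1 ∈ O₂ := by
          rw [hγ0]
          exact hz2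
        exact h5 (hO₂.mem_nhds h8)
      have h6 : γ =ᶠ[𝓝 0] F ∘ γ := by
        filter_upwards [hγS, h7] with s hs1 hs2
        exact (h₂ _ (hL.subTN hs1) hs2).symm
      rw [← hζb]
      exact hγ.unique (h3.congr_of_eventuallyEq h6)
    rw [← h8]
    exact hζ

end Pool.Agent.H99.TW
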