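import Pool.Agent.H99.TW.TSymB
import Pool.Agent.H99.TW.KNTheta

/-!
# The symmetric phase function (module TTheta)

PROOF. `Θ₀` from `exists_Theta` (`KNTheta`), `Θ₁ x = (Θ₀ x + Θ₀ (τ x)) / 2`, `ζ t = Real.smoothTransition ((t - 3/2 ε) / (ε / 2))` (`0` for `t ≤ 3/2 ε`, `1` for `t ≥ 2ε`), `Θ x = ζ (g x.1) * Θ₁ x`.
`PhaseI`: `|(τ x).2| = |x.2|`. On `RPN`: `sym_RPN` gives `Θ₁ x.1 = x.2`; if `g x.1.1 < 2ε` then `V x.1.1 = 0`, `x.2 = 0` (`RPN_zero`). `ZUp ∪ ZDn`: `sym_Z`, `0 ≤ ζ ≤ 1`.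
-/

set_option autoImplicit false

open scoped ContDiff Topology RealInnerProductSpace
open Set Filter

namespace Pool.Agent.H99.TW

open Pool.Agent.H57.NL Pool.Agent.H2.TG Pool.Agent.H2.TI

variable {k : ℕ} {N : Set (E k)} {V : E k → E k} {R : ℝ → E k → E k} {T : E k →L[ℝ] E k}
  {C : Set (E k × ℝ)} {M : ℝ} {κ : (E k × ℝ) × ℝ → ℝ}
  {Λ : ℝ → (E k × ℝ) × ℝ → (E k × ℝ) × ℝ} {F : E k × ℝ → ℝ}

theorem exists_ThetaS (h : LeafK N V R C M κ Λ F) (hS : SymV N V R T)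
    (hC : ∀ x ∈ C, th T x ∈ C) {g : E k → ℝ} (hg : ContDiff ℝ ∞ g) (hgT : ∀ x, g (T x) = g x)
    {ε : ℝ} (hε : 0 < ε) (hgV : ∀ x, g x ≤ 2 * ε → V x = 0) :
    ∃ Θ : E k × ℝ → ℝ, PhaseI Θ (M + 1) ∧ (∀ x ∈ RPN N V C Λ, Θ x.1 = x.2) ∧
      (∀ y ∈ ZUp R C M ∪ ZDn R C M, |Θ y| ≤ 1 / 5) ∧ (∀ x, Θ (th T x) = Θ x) ∧
      ∀ x, g x.1 ≤ 3 / 2 * ε → Θ x = 0 := by
  obtain ⟨Θ₀, hP, hRP, hZ⟩ := exists_Theta h
  have hth : ∀ x : E k × ℝ, th T (th T x) = x := fun x => by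
    show (T (T x.1), - -x.2) = x
    rw [hS.TT, neg_neg]
  have hthc : ContDiff ℝ ∞ (th T) := by
    show ContDiff ℝ ∞ (fun x : E k × ℝ => (T x.1, -x.2))
    exact (T.contDiff.comp contDiff_fst).prodMk contDiff_snd.neg
  have hζ0 : ∀ t : ℝ, t ≤ 3 / 2 * ε → Real.smoothTransition ((t - 3 / 2 * ε) / (ε / 2)) = 0 := by
    intro t ht
    refine Real.smoothTransition.zero_of_nonpos ?_
    exact div_nonpos_of_nonpos_of_nonneg (by linarith) (by linarith)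
  have hζ1 : ∀ t : ℝ, 2 * ε ≤ t → Real.smoothTransition ((t - 3 / 2 * ε) / (ε / 2)) = 1 := by
    intro t ht
    refine Real.smoothTransition.one_of_one_le ?_
    rw [le_div_iff₀ (by linarith)]
    linarith
  refine ⟨fun x => Real.smoothTransition ((g x.1 - 3 / 2 * ε) / (ε / 2)) *
    ((Θ₀ x + Θ₀ (th T x)) / 2), ⟨?_, ?_, hP.hM⟩, ?_, ?_, ?_, ?_⟩
  · refine ContDiff.mul ?_ ?_
    · refine Real.smoothTransition.contDiff.comp ?_
      exact ((hg.comp contDiff_fst).sub contDiff_const).div_const _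
    · exact (hP.smooth.add (hP.smooth.comp hthc)).div_const _
  · intro x hx
    have h2 : Θ₀ (th T x) = 0 := hP.supp _ (by
      show M + 1 ≤ |(-x.2 : ℝ)|
      rwa [abs_neg])
    show _ * ((Θ₀ x + Θ₀ (th T x)) / 2) = 0
    rw [hP.supp x hx, h2]
    simp
  · intro x hx
    have h1 : (Θ₀ x.1 + Θ₀ (th T x.1)) / 2 = x.2 := by
      have h2 := hRP _ (sym_RPN h hS hC hx)
      simp only at h2
      rw [hRP x hx, h2]
      ring
    show Real.smoothTransition ((g x.1.1 - 3 / 2 * ε) / (ε / 2)) *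
      ((Θ₀ x.1 + Θ₀ (th T x.1)) / 2) = x.2
    rw [h1]
    rcases le_total (g x.1.1) (2 * ε) with h3 | h3
    · have h4 : x.2 = 0 := RPN_zero h (y := x.1) (φ := x.2) hx (hgV _ h3)
      rw [h4, mul_zero]
    · rw [hζ1 _ h3, one_mul]
  · intro y hy
    have h1 := hZ y hy
    have h2 := hZ _ (sym_Z hS hC hy)
    show |Real.smoothTransition ((g y.1 - 3 / 2 * ε) / (ε / 2)) *
      ((Θ₀ y + Θ₀ (th T y)) / 2)| ≤ 1 / 5
    have h3 : |(Θ₀ y + Θ₀ (th T y)) / 2| ≤ 1 / 5 := by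
      rw [abs_le] at h1 h2 ⊢
      constructor <;> linarith [h1.1, h1.2, h2.1, h2.2]
    rw [abs_mul, abs_of_nonneg (Real.smoothTransition.nonneg _)]
    calc _ ≤ 1 * (1 / 5 : ℝ) := mul_le_mul (Real.smoothTransition.le_one _) h3 (abs_nonneg _)
          zero_le_one
      _ = 1 / 5 := one_mul _
  · intro x
    show Real.smoothTransition ((g (T x.1) - 3 / 2 * ε) / (ε / 2)) *
      ((Θ₀ (th T x) + Θ₀ (th T (th T x))) / 2) =
      Real.smoothTransition ((g x.1 - 3 / 2 * ε) / (ε / 2)) * ((Θ₀ x + Θ₀ (th T x)) / 2)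
    rw [hth, hgT, add_comm (Θ₀ (th T x))]
  · intro x hx
    show Real.smoothTransition ((g x.1 - 3 / 2 * ε) / (ε / 2)) * _ = 0
    rw [hζ0 _ hx, zero_mul]

end Pool.Agent.H99.TW
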