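import Pool.Agent.H99.TW.TQRank
import Pool.Agent.H99.TW.TCov
import Pool.Agent.H99.TW.TVH
import Pool.Agent.H99.TW.TLH
import Pool.Agent.H99.TW.TRed
import Pool.Agent.H99.TW.TFull
import Pool.Agent.H99.TW.TTheta
import Pool.Agent.H99.TW.KNGood
import Pool.Agent.H99.TW.TMid
import Pool.Agent.H99.TW.TExt
import Pool.Agent.H99.TW.TFeq
import Pool.Agent.H99.TW.TNoC
import Pool.Agent.H99.TW.TExL
import Pool.Agent.H99.TW.TDesc
import Pool.Agent.H99.TW.TCaus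
import Pool.Agent.H99.TW.TNar
import Pool.Agent.H2.TI.SComp
import Pool.Agent.H2.TI.Main

/-!
# The main theorem (module TMain)
-/

set_option autoImplicit false

open scoped ContDiff Topology RealInnerProductSpace
open Set Filter

namespace Pool.Agent.H99.TW

open Pool.Agent.H57.NL Pool.Agent.H2.TG Pool.Agent.H2.TI

variable {m n : ℕ} {N : Set (E m)} {S : Set (E m × E m)} {f : E m × E m → ℝ} {ε : ℝ}
  {Q : E m → (E m →L[ℝ] E m)}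

/-- A Lagrangian without caustic points is the image of the zero section. -/
theorem main_graph (hN : ClosedMfd n N ⊥) (hL : ExactLag n N ⊥ S f)
    (hno : ∀ z ∈ S, ¬ Caustic S z) :
    ∃ ψ ψ', SympDiffeo N ⊥ ψ ψ' ∧ ψ '' {z | z.1 ∈ N ∧ z.2 = 0} = S := by
  obtain ⟨hinj, hno'⟩ := injective_of_no_extremal hN hL (fun z hz hc => (hno z hz hc).elim)
  obtain ⟨u, s, ψ, ψ', hg⟩ := graph_of_injective hN hL hinj hno'
  exact ⟨ψ, ψ', hg.diffeo, hg.image⟩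

/-- The case of a rank one tensor. -/
theorem main_Q (hN : ClosedMfd n N ⊥) (hQ : RankQ n N Q) (hL : ExactLag n N ⊥ S f)
    (hE : EmbQ Q S ε) :
    ∃ ψ ψ', SympDiffeo N ⊥ ψ ψ' ∧ ψ '' {z | z.1 ∈ N ∧ z.2 = 0} = S := by
  have hε := hE.hε
  by_cases hcau : ∀ z ∈ S, ¬ Caustic S z
  · exact main_graph hN hL hcau
  push_neg at hcau
  obtain ⟨z₀, hz₀, b₀, hb₀, hb₀t⟩ := hcau
  have hq₀ := (hE.vert z₀ hz₀ b₀ hb₀ hb₀t).1
  have hQ0 : Q z₀.1 ≠ 0 := by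
    intro h0
    rw [h0, norm_zero] at hq₀
    linarith
  obtain ⟨k, NH, T, π, pv, jj, hC⟩ := exists_cov hQ
  obtain ⟨Pr, hP⟩ := exists_proj hN.sub hN.closed
  obtain ⟨PrH, hPH⟩ := exists_proj hC.sub hC.closed
  obtain ⟨V, R, hB, hS, hV0, hV3⟩ := exists_VH hC hε
  have hBK := baseK_KH hC hε hB hV0
  have hSK : SymV (KH NH pv ε) V R T := symV_KH hC hS
  set L := LH NH (ph π jj Pr) S with hLdef
  have hLL : ExactLag n NH ⊥ L (fun z => f (ph π jj Pr z)) :=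
    lag_LH hC hP hPH hL ⟨z₀, hz₀, hQ0⟩
  have hEL : EmbN V L := emb_LH hC hP hPH hL.subTN hE hV3
  obtain ⟨x₀, hx₀, hx₀q⟩ := hC.ex z₀.1 (hL.subTN hz₀).1 hQ0
  have hx₀n : ‖Q z₀.1‖ = ‖pv x₀‖ ^ 2 := by
    rw [← hx₀q]
    exact norm_isV (hC.isV x₀ hx₀)
  have hne : (L ∩ {z | z.1 ∈ KH NH pv ε}).Nonempty := by
    refine ⟨(x₀, lf π PrH x₀ z₀.2), ⟨⟨hx₀, lf_mem hPH hx₀ _⟩, ?_⟩, hx₀, ?_⟩
    · rw [ph_lf hC hP hPH hx₀ (by rw [hx₀q]; exact (hL.subTN hz₀).2), hx₀q]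
      exact hz₀
    · rw [← hx₀n]
      linarith
  obtain ⟨M, κ, Λ, G, h⟩ := exists_leafK hB hBK (fun x hx => hx.1) hLL hEL hne
  have hfull := full_K hN hC hP hPH hL hE h
  have hCT : ∀ x ∈ CH V L (KH NH pv ε), th T x ∈ CH V L (KH NH pv ε) := fun x hx =>
    th_CH hC hSK hx
  have hgs : ContDiff ℝ ∞ (fun x : E k => ‖pv x‖ ^ 2) := pv.contDiff.norm_sq ℝ
  have hgT : ∀ x, ‖pv (T x)‖ ^ 2 = ‖pv x‖ ^ 2 := fun x => by rw [hC.pvT, norm_neg]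
  obtain ⟨Θ, hΘ, hΘC, hΘZ, hΘT, hΘ0⟩ := exists_ThetaS h hSK hCT hgs hgT hε hV0
  obtain ⟨Ψ, hΨ⟩ := exists_XFlowN hBK hΘ
  obtain ⟨τ, hτ, hG⟩ := goodN h hfull hΘ hΘC hΘZ hΨ
  obtain ⟨b, A, ρ, Ri, hM, hz⟩ := exists_mid hBK hSK hΘ hΘT hΨ hτ hG
  obtain ⟨b, A, ρ, Ri, hM, hbA⟩ := exists_ext_mid hB hS hgs hgT hε hV0 hΘ0 hM hz
  have hF := exists_strU hB hM.rho hPH hM.inv
  set F := FN V R PrH b A ρ with hFdef
  set F' := FN' V R PrH b A Ri with hF'def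
  have hFT : ∀ z ∈ TN NH, F (tt T z) = tt T (F z) := fun z hz => fn_tt hB hS hM hPH hz
  have hFT' : ∀ z ∈ TN NH, F' (tt T z) = tt T (F' z) := fun z hz => fn'_tt hB hS hM hPH hz
  set O : Set (E k) := {x | ‖pv x‖ ^ 2 < 9 / 8 * ε} with hO
  have hOo : IsOpen O := isOpen_lt (by fun_prop) continuous_const
  have hid : ∀ z ∈ TN NH, ‖pv z.1‖ ^ 2 < 9 / 8 * ε → F z = z ∧ F' z = z := fun z hz hz1 =>
    fn_id hB hM hPH hOo hbA hz hz1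
  have hPS : ∀ y ∈ CH V L (KH NH pv ε), (y, Θ y) ∈ PSN (KH NH pv ε) V (CH V L (KH NH pv ε)) := by
    intro y hy
    obtain ⟨φ, hφ⟩ := RP_exists h hy
    have h1 : Θ y = φ := hΘC _ hφ
    rw [h1]
    exact hφ.1
  have hno : ∀ z ∈ F '' L, ¬ Caustic (F '' L) z := by
    refine no_causT (K := KH NH pv ε) (O₁ := {x | ε < ‖pv x‖ ^ 2}) (O₂ := O) hB hLL hEL h.red hPS hF
      (isOpen_lt continuous_const (by fun_prop)) ?_ hOo ?_ ?_ ?_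
    · rintro x ⟨hx1, hx2⟩
      exact ⟨hx2, le_of_lt hx1⟩
    · intro z hz hz1
      exact (hid z hz hz1).1
    · intro z hz hz1
      have hz1' : ‖pv z.1‖ ^ 2 < 9 / 8 * ε := hz1
      exact noc_LH hC hP hPH hL.subTN hE hz (by linarith)
    · intro x _
      rcases lt_or_ge ε (‖pv x‖ ^ 2) with h1 | h1
      · exact Or.inl h1
      · refine Or.inr ?_
        show ‖pv x‖ ^ 2 < 9 / 8 * ε
        linarith
  obtain ⟨Γ, Γ', G', hΓ, hΓF, hΓF', hΓ0⟩ := exists_desc hC hP hPH hε hF hFT hFT' hid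
    (fun z hz hz1 => (hbA (sigN V z) hz1).2)
    (fun z hz => by rw [sig_tt hS, hM.AT])
  have hcS : ∀ z ∈ S, ‖Q z.1‖ < 9 / 8 * ε → ¬ Caustic S z := by
    rintro z hz hz1 ⟨b, hb, hbt⟩
    have h1 := (hE.vert z hz b hb hbt).1
    linarith
  have hno' : ∀ z ∈ Γ '' S, ¬ Caustic (Γ '' S) z :=
    no_caus_desc hC hP hPH hL.subTN hε hQ.smooth.continuous hΓ hF.maps hF.maps' hF.right hΓF hΓ0
      hcS hno
  have hc : IsCompact N := closedMfd_compact hN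
  obtain ⟨f', hL'⟩ := exactL_lag hΓ hN.sub hc hL
  obtain ⟨ψ, ψ', hψ, hψS⟩ := main_graph hN hL' hno'
  refine ⟨Γ' ∘ ψ, ψ' ∘ Γ, sympDiffeo_compN hψ (symp_symm (exactL_symp hΓ hN.sub) hN.sub), ?_⟩
  rw [image_comp, hψS, ← image_comp]
  have h2 : ∀ z ∈ S, (Γ' ∘ Γ) z = z := fun z hz => hΓ.left z (hL.subTN hz)
  rw [image_congr h2, image_id']

/-- **Main theorem.** -/
theorem main_D (hN : ClosedMfd n N ⊥) {D : Set (E m × E m)} (hD : DoubleCone N D)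
    (hL : ExactLag n N ⊥ S f) (hS : Chained D S) :
    ∃ ψ ψ', SympDiffeo N ⊥ ψ ψ' ∧ ψ '' {z | z.1 ∈ N ∧ z.2 = 0} = S := by
  obtain ⟨Q, ε, hQ, hε, h⟩ := exists_rankQ hN.sub (closedMfd_compact hN) hD
  exact main_Q hN hQ hL (embQ_of hε h hS)

/-- Coherent fibres. -/
theorem main_B (hN : ClosedMfd n N ⊥) {B : E m → (E m →L[ℝ] E m)} (hB : Continuous B)
    (hBs : ∀ x u w, ⟪B x u, w⟫ = ⟪B x w, u⟫) (hL : ExactLag n N ⊥ S f) (hS : Coherent B S) :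
    ∃ ψ ψ', SympDiffeo N ⊥ ψ ψ' ∧ ψ '' {z | z.1 ∈ N ∧ z.2 = 0} = S := by
  obtain ⟨D, hD, hDS⟩ := coherent_chained hN.sub (closedMfd_compact hN) hL hB hBs hS
  exact main_D hN hD hL hDS

end Pool.Agent.H99.TW
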