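import Pool.Agent.H99.TW.TDefs
import Pool.Agent.H99.TW.KNLine
import Pool.Agent.H99.TW.KNCurvB
import Pool.Agent.H99.TW.KNLeafB

/-!
# The symmetry of the phase set and of the leaves (module TSymA)

`τ = th T`, `τ (τ x) = x`; `D(u ∘ τ)(y) (a, r) = Du(τ y) (T a, -r)`. PROOFS.
* `dpl_th`: `dpl V (u ∘ τ) y a b = Du(τ y) (a • T (V y.1), -b) = Du(τ y) (-a • V (T y.1), -b) = - dpl V u (τ y) a b` (`hS.V`).
* `locN_th`: if `u` is a local equation on `W`, then `u ∘ τ` is one on `τ ⁻¹' W` (`C` and `N` are invariant; `reg` by `dpl_th`).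
* `sym_PSN`: by `locN_th` and `dpl_th` (a vanishing condition).
* `sym_cv` (`κ (τ y, φ) = -κ (y, φ)` on the phase set): let `u, W` be a local equation at `τ y`, with phase `ϑ` (`exists_phaseN`, `ϑ (τ y) = φ`); then `ϑ ∘ τ` is a phase of `u ∘ τ`.
  By `CurvN.curv` (with the integer `0`): `κ (τ y, φ) = Dϑ(τ y) (cos φ • V (T y.1), sin φ) = Dϑ(τ y) (-cos φ • T (V y.1), sin φ) = -D(ϑ ∘ τ)(y) (cos φ • V y.1, sin φ) = -κ (y, φ)`.
* `sym_Λ`: `γ s = (τ (Λ (-s) x).1, (Λ (-s) x).2)` is an integral curve of `LFN V κ` (`leafN_mem`: the leaf stays in `PSN`; `sym_cv`; `T (cos φ • V c) = -cos φ • V (T c)`),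
  `IsFlow.unique` with `LFN_contDiff` (`KNLeafA`).
* `sym_tl`: `∫_0^s cos (Λ (-u) x).2 du = -∫_0^{-s} cos (Λ u x).2 du` (`intervalIntegral.integral_comp_neg`).
-/

set_option autoImplicit false

open scoped ContDiff Topology RealInnerProductSpace
open Set Filter

namespace Pool.Agent.H99.TW

open Pool.Agent.H57.NL Pool.Agent.H2.TG Pool.Agent.H2.TI

variable {k : ℕ} {N : Set (E k)} {V : E k → E k} {R : ℝ → E k → E k} {T : E k →L[ℝ] E k}
  {C : Set (E k × ℝ)} {M : ℝ} {κ : (E k × ℝ) × ℝ → ℝ}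
  {Λ : ℝ → (E k × ℝ) × ℝ → (E k × ℝ) × ℝ} {F : E k × ℝ → ℝ}

theorem th_th (hS : SymV N V R T) (x : E k × ℝ) : th T (th T x) = x := by
  show (T (T x.1), - -x.2) = x
  rw [hS.TT, neg_neg]

private theorem thL_apply (x : E k × ℝ) :
    (T.prodMap (-ContinuousLinearMap.id ℝ ℝ)) x = th T x := by
  rfl

private theorem dpl_th (hS : SymV N V R T) {u : E k × ℝ → ℝ} {y : E k × ℝ}
    (hu : DifferentiableAt ℝ u (th T y)) (a b : ℝ) :
    dpl V (fun z => u (th T z)) y a b = -dpl V u (th T y) a b := by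
  have h0 : HasFDerivAt (fun z => th T z) (T.prodMap (-ContinuousLinearMap.id ℝ ℝ)) y := by
    have h := (T.prodMap (-ContinuousLinearMap.id ℝ ℝ)).hasFDerivAt (x := y)
    refine h.congr_of_eventuallyEq (Filter.Eventually.of_forall fun z => ?_)
    exact (thL_apply z).symm
  have h1 : HasFDerivAt (fun z => u (th T z))
      ((fderiv ℝ u (th T y)).comp (T.prodMap (-ContinuousLinearMap.id ℝ ℝ))) y :=
    hu.hasFDerivAt.comp y h0
  unfold dpl
  rw [h1.fderiv, ContinuousLinearMap.comp_apply, thL_apply, ← map_neg]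
  congr 1
  show (T (a • V y.1), -b) = -(a • V (T y.1), b)
  rw [hS.V, map_smul, smul_neg, Prod.neg_mk, neg_neg]

private theorem th_cont : Continuous (th T) := by
  unfold th
  exact (T.continuous.comp continuous_fst).prodMk continuous_snd.neg

private theorem th_smooth : ContDiff ℝ ∞ (th T) := by
  unfold th
  exact (T.contDiff.comp contDiff_fst).prodMk contDiff_snd.neg

private theorem th_inv (hS : SymV N V R T) (hC : ∀ x ∈ C, th T x ∈ C) (y : E k × ℝ) :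
    y ∈ C ↔ th T y ∈ C :=
  ⟨hC y, fun h => by rw [← th_th hS y]; exact hC _ h⟩

private theorem diff_of {W : Set (E k × ℝ)} {u : E k × ℝ → ℝ} (ho : IsOpen W)
    (hu : ContDiffOn ℝ ∞ u W) {y : E k × ℝ} (hy : y ∈ W) : DifferentiableAt ℝ u y :=
  (hu.contDiffAt (ho.mem_nhds hy)).differentiableAt (by simp)

private theorem smooth_th {W : Set (E k × ℝ)} {u : E k × ℝ → ℝ} (hu : ContDiffOn ℝ ∞ u W) :
    ContDiffOn ℝ ∞ (fun z => u (th T z)) (th T ⁻¹' W) :=
  hu.comp (th_smooth (T := T)).contDiffOn fun _ hz => hz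

private theorem locN_th (hS : SymV N V R T) (hC : ∀ x ∈ C, th T x ∈ C) {W : Set (E k × ℝ)}
    {u : E k × ℝ → ℝ} (h : LocN N V C W u) :
    LocN N V C (th T ⁻¹' W) (fun z => u (th T z)) := by
  refine ⟨h.isOpen.preimage th_cont, smooth_th h.smooth, fun y hy hyN => ?_, fun y hy hh => ?_⟩
  · rw [th_inv hS hC y]
    exact h.eqn (th T y) hy (hS.mem _ hyN)
  · have hd := diff_of h.isOpen h.smooth (y := th T y) hy
    rw [dpl_th hS hd, dpl_th hS hd, neg_eq_zero, neg_eq_zero] at hh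
    exact h.reg (th T y) hy hh

private theorem phaseN_th (hS : SymV N V R T) {W : Set (E k × ℝ)} (ho : IsOpen W)
    {u ϑ : E k × ℝ → ℝ} (hu : ContDiffOn ℝ ∞ u W) (h : PhaseN V W u ϑ) :
    PhaseN V (th T ⁻¹' W) (fun z => u (th T z)) (fun z => ϑ (th T z)) := by
  refine ⟨smooth_th h.smooth, fun y hy => ?_⟩
  rw [dpl_th hS (diff_of ho hu (y := th T y) hy)]
  have := h.tang (th T y) hy
  rw [this, neg_zero]

theorem sym_PSN (hS : SymV N V R T) (hC : ∀ x ∈ C, th T x ∈ C) {x : (E k × ℝ) × ℝ}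
    (hx : x ∈ PSN N V C) : (th T x.1, x.2) ∈ PSN N V C := by
  refine ⟨hC x.1 hx.1, fun W u hxW hL => ?_⟩
  have h1 := hx.2 (th T ⁻¹' W) (fun z => u (th T z)) hxW (locN_th hS hC hL)
  rw [dpl_th hS (diff_of hL.isOpen hL.smooth (y := th T x.1) hxW), neg_eq_zero] at h1
  exact h1

theorem sym_cv (h : LeafK N V R C M κ Λ F) (hS : SymV N V R T) (hC : ∀ x ∈ C, th T x ∈ C)
    {x : (E k × ℝ) × ℝ} (hx : x ∈ PSN N V C) : κ (th T x.1, x.2) = -κ x := by
  have hx' := sym_PSN hS hC hx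
  obtain ⟨W, u, hxW, hL⟩ := h.red.loc (th T x.1) (hC x.1 hx.1)
  obtain ⟨W₁, ϑ, -, hx1, hL1, hϑ, hϑx⟩ :=
    exists_phaseN h.base.smooth hL hxW (hx'.2 W u hxW hL)
  have h1 := h.curv.curv (th T x.1, x.2) hx' W₁ u ϑ hx1 hL1 hϑ 0 (by simp [hϑx])
  have h2 := h.curv.curv x hx (th T ⁻¹' W₁) (fun z => u (th T z)) (fun z => ϑ (th T z)) hx1
    (locN_th hS hC hL1) (phaseN_th hS hL1.isOpen hL1.smooth hϑ) 0 (by simp [hϑx])
  have h3 := dpl_th hS (diff_of hL1.isOpen hϑ.smooth (y := th T x.1) hx1) (Real.cos x.2)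
    (Real.sin x.2)
  unfold dpl at h3
  rw [h1, h2, h3, neg_neg]

theorem sym_Λ (h : LeafK N V R C M κ Λ F) (hS : SymV N V R T) (hC : ∀ x ∈ C, th T x ∈ C)
    {x : (E k × ℝ) × ℝ} (hx : x ∈ PSN N V C) (s : ℝ) :
    Λ s (th T x.1, x.2) = (th T (Λ (-s) x).1, (Λ (-s) x).2) := by
  have h9 := h.flow.unique (LFN_contDiff h.base h.curv)
    (γ := fun s => (th T (Λ (-s) x).1, (Λ (-s) x).2))
    (fun t => by
      have h0 := h.flow.deriv x (-t)
      have h1 : HasDerivAt (fun s => Λ (-s) x) ((-1 : ℝ) • LFN V κ (Λ (-t) x)) t :=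
        h0.scomp t (hasDerivAt_neg t)
      have h2 : HasDerivAt (fun s => T (Λ (-s) x).1.1)
          (T ((-1 : ℝ) • LFN V κ (Λ (-t) x)).1.1) t :=
        T.hasFDerivAt.comp_hasDerivAt t h1.fst.fst
      have h6 : HasDerivAt (fun s => -(Λ (-s) x).1.2)
          (-((-1 : ℝ) • LFN V κ (Λ (-t) x)).1.2) t := HasDerivAt.neg h1.fst.snd
      have h3 := (h2.prodMk h6).prodMk h1.snd
      have h4 : LFN V κ (th T (Λ (-t) x).1, (Λ (-t) x).2)
          = ((T ((-1 : ℝ) • LFN V κ (Λ (-t) x)).1.1, -((-1 : ℝ) • LFN V κ (Λ (-t) x)).1.2),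
            ((-1 : ℝ) • LFN V κ (Λ (-t) x)).2) := by
        have h5 := sym_cv h hS hC (leafN_mem h.base h.red h.curv h.flow hx (-t))
        unfold LFN
        rw [h5]
        simp [th, hS.V]
      rw [h4]
      exact h3) s
  simp only [h.flow.zero, neg_zero] at h9
  exact h9.symm

theorem sym_tl (h : LeafK N V R C M κ Λ F) (hS : SymV N V R T) (hC : ∀ x ∈ C, th T x ∈ C)
    {x : (E k × ℝ) × ℝ} (hx : x ∈ PSN N V C) (s : ℝ) :
    tl Λ (th T x.1, x.2) s = -tl Λ x (-s) := by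
  unfold tl
  have h1 : ∀ u, Real.cos (Λ u (th T x.1, x.2)).2 = Real.cos (Λ (-u) x).2 := by
    intro u
    rw [sym_Λ h hS hC hx u]
  simp only [h1]
  rw [intervalIntegral.integral_comp_neg (fun u => Real.cos (Λ u x).2), neg_zero,
    intervalIntegral.integral_symm]

end Pool.Agent.H99.TW
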