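import Pool.Agent.H99.TW.TDefs
import Pool.Agent.H99.TW.KSRho
import Pool.Agent.H99.TW.TSymA

/-!
# The midpoint (module TMidA)

PROOFS. `τ' = th T`.
* `sym_Ψ`: `XFN V Θ 1 (τ' x) = -(T, -) (XFN V Θ 1 x)`, i.e. `XFN (τ' x) = (sin Θ • T (V x.1), cos Θ)`; so `t ↦ τ' (Ψ (-t) x)` is an integral curve of `XFN V Θ 1` starting at `τ' x`; `IsFlow.unique` (`XFN_contDiff` in `KNXFlow`).
* `exists_bot`: every orbit over `N` has a point with second coordinate `-M'`: `XN_low`, `XN_high` (`KSAct`) and the intermediate value theorem (see the proof of `inv` in `KSInv`). There `b = A = 0` (`ActN.bot`) and by `flow_base` its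
  first coordinate is `R (b x) x.1`.
* `mid_b`: `t ↦ b (Ψ t x) + b (τ' (Ψ t x)) = b (Ψ t x) + b (Ψ (-t) (τ' x))` has the derivative `sin Θ(Ψ t x) - sin Θ(τ' (Ψ t x)) = 0` (`ActN.db` for `x` and for `τ' x`, `(τ' x).1 = T x.1 ∈ N`), so it is constant; at the bottom point
  `(y, -M')`, `y = R (b x) x.1`, it is `0 + b (T y, M')`.
* `mid_A`: `t ↦ A (τ' (Ψ t x)) - A (Ψ t x)` has the derivative `-((τ' z).2 * sin Θ(τ' z)) - z.2 * sin Θ z = 0`, `z = Ψ t x`; at the bottom: `A (T y, M') - 0`.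
* `cpos`: `c_pos` in `KSRho`, at the point `(T y, M')`: `Θ = 0` there (`PhaseI.supp`), so `0 < 1 + Db(T y, M') (V (T y), 0)`; `D(y ↦ b (T y, M'))(y) (V y) = Db(T y, M') (T (V y), 0) = -Db(T y, M') (V (T y), 0)`.
-/

set_option autoImplicit false

open scoped ContDiff Topology RealInnerProductSpace
open Set Filter

namespace Pool.Agent.H99.TW

open Pool.Agent.H57.NL Pool.Agent.H2.TG Pool.Agent.H2.TI

variable {k : ℕ} {N : Set (E k)} {V : E k → E k} {R : ℝ → E k → E k} {T : E k →L[ℝ] E k}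
  {Θ : E k × ℝ → ℝ} {M' τ : ℝ} {Ψ : ℝ → E k × ℝ → E k × ℝ} {b A ρ : E k × ℝ → ℝ}
  {Ri : E k × ℝ → E k × ℝ}

private theorem mida_const {f : ℝ → ℝ} (h : ∀ t, HasDerivAt f 0 t) (a c : ℝ) : f a = f c :=
  is_const_of_deriv_eq_zero (fun t => (h t).differentiableAt) (fun t => (h t).deriv) a c

theorem sym_Ψ (hB : BaseK N V R) (hS : SymV N V R T) (hΘ : PhaseI Θ M')
    (hT : ∀ x, Θ (th T x) = Θ x) (hΨ : IsFlow (XFN V Θ 1) Ψ) (t : ℝ) (x : E k × ℝ) :
    Ψ t (th T x) = th T (Ψ (-t) x) := by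
  have h := hΨ.unique (XFN_contDiff hB hΘ 1) (γ := fun t => th T (Ψ (-t) x)) (fun s => by
    have h1 : HasDerivAt (fun s => Ψ (-s) x) (-(XFN V Θ 1 (Ψ (-s) x))) s := by
      have h2 := (hΨ.deriv x (-s)).scomp s (hasDerivAt_neg s)
      rw [neg_one_smul] at h2
      exact h2
    set L : (E k × ℝ) →L[ℝ] (E k × ℝ) :=
      (T.comp (ContinuousLinearMap.fst ℝ (E k) ℝ)).prod (-(ContinuousLinearMap.snd ℝ (E k) ℝ))
      with hL
    have h3 : HasDerivAt (fun s => th T (Ψ (-s) x)) (L (-(XFN V Θ 1 (Ψ (-s) x)))) s :=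
      L.hasFDerivAt.comp_hasDerivAt s h1
    have h4 : L (-(XFN V Θ 1 (Ψ (-s) x))) = XFN V Θ 1 (th T (Ψ (-s) x)) := by
      set z := Ψ (-s) x with hz
      refine Prod.ext ?_ ?_
      · show T (-((-Real.sin (1 * Θ z)) • V z.1)) =
          (-Real.sin (1 * Θ (th T z))) • V (T z.1)
        rw [hT, hS.V, map_neg, map_smul, smul_neg]
      · show -(-(Real.cos (1 * Θ z))) = Real.cos (1 * Θ (th T z))
        rw [hT, neg_neg]
    rw [h4] at h3
    exact h3) t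
  simp only [neg_zero, hΨ.zero] at h
  exact h.symm

theorem exists_bot (hB : BaseK N V R) (hΘ : PhaseI Θ M') (hΨ : IsFlow (XFN V Θ 1) Ψ)
    (hτ : 0 < τ) (hG : GoodN N M' τ Ψ) (hA : ActN N Θ M' Ψ b A) {x : E k × ℝ} (hx : x.1 ∈ N) :
    ∃ t, Ψ t x = (R (b x) x.1, -M') ∧ b (Ψ t x) = 0 ∧ A (Ψ t x) = 0 := by
  have hM := hΘ.hM
  have hlow := XN_low hB hΘ hΨ hτ hG hx (t := τ + 1 + M' + x.2 ^ 2) le_rfl
  have hhigh := XN_high hB hΘ hΨ hτ hG hx (t := τ + 1 + M' + x.2 ^ 2) le_rfl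
  have hc : Continuous fun s => (Ψ s x).2 :=
    continuous_iff_continuousAt.2 fun s => ((hΨ.deriv x s).continuousAt).snd
  have h0 : -(τ + 1 + M' + x.2 ^ 2) ≤ τ + 1 + M' + x.2 ^ 2 := by
    nlinarith [sq_nonneg x.2]
  obtain ⟨s, -, hs⟩ := intermediate_value_Icc h0 hc.continuousOn
    (show -M' ∈ Icc _ _ from ⟨hlow, by linarith⟩)
  have hs' : (Ψ s x).2 = -M' := hs
  have hN := XN_mem hB hΘ hΨ hx s
  have hb := hA.bot (Ψ s x) hN hs'.le
  have h1 := flow_base hB hΘ hΨ hA hx s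
  rw [hb.1, sub_zero] at h1
  exact ⟨s, Prod.ext h1 hs', hb.1, hb.2⟩

private theorem mida_ne (hS : SymV N V R T) {x : E k × ℝ} (hx : x.1 ∈ N) : (th T x).1 ∈ N :=
  hS.mem _ hx

private theorem mida_thth (hS : SymV N V R T) (x : E k × ℝ) : th T (th T x) = x := by
  refine Prod.ext ?_ ?_
  · exact hS.TT x.1
  · show -(-x.2) = x.2
    rw [neg_neg]

/-- `th T` applied to the orbit is the orbit of `th T x` backwards. -/
private theorem mida_orb (hB : BaseK N V R) (hS : SymV N V R T) (hΘ : PhaseI Θ M')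
    (hT : ∀ x, Θ (th T x) = Θ x) (hΨ : IsFlow (XFN V Θ 1) Ψ) (t : ℝ) (x : E k × ℝ) :
    th T (Ψ t x) = Ψ (-t) (th T x) := by
  have h := sym_Ψ hB hS hΘ hT hΨ (-t) x
  rw [neg_neg] at h
  exact h.symm

theorem mid_b (hB : BaseK N V R) (hS : SymV N V R T) (hΘ : PhaseI Θ M')
    (hT : ∀ x, Θ (th T x) = Θ x) (hΨ : IsFlow (XFN V Θ 1) Ψ) (hτ : 0 < τ)
    (hG : GoodN N M' τ Ψ) (hA : ActN N Θ M' Ψ b A) {x : E k × ℝ} (hx : x.1 ∈ N) :
    b x + b (th T x) = b (T (R (b x) x.1), M') := by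
  obtain ⟨t₀, h1, h2, h3⟩ := exists_bot hB hΘ hΨ hτ hG hA hx
  have hd : ∀ t, HasDerivAt (fun t => b (Ψ t x) + b (th T (Ψ t x))) 0 t := by
    intro t
    have e1 := hA.db x hx t
    have e2 : HasDerivAt (fun t => b (Ψ (-t) (th T x)))
        (-(Real.sin (Θ (Ψ (-t) (th T x))))) t := by
      have e3 := (hA.db (th T x) (mida_ne hS hx) (-t)).scomp t (hasDerivAt_neg t)
      rw [neg_one_smul] at e3
      exact e3
    have e4 : (fun t => b (Ψ t x) + b (th T (Ψ t x))) =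
        fun t => b (Ψ t x) + b (Ψ (-t) (th T x)) := by
      funext t
      rw [mida_orb hB hS hΘ hT hΨ]
    rw [e4]
    have e5 := e1.add e2
    have e6 : Real.sin (Θ (Ψ t x)) + -(Real.sin (Θ (Ψ (-t) (th T x)))) = 0 := by
      rw [← mida_orb hB hS hΘ hT hΨ, hT]
      ring
    rw [e6] at e5
    exact e5
  have h4 := mida_const hd 0 t₀
  simp only [hΨ.zero] at h4
  rw [h4, h2, zero_add, h1]
  show b (T (R (b x) x.1), -(-M')) = _
  rw [neg_neg]

theorem mid_A (hB : BaseK N V R) (hS : SymV N V R T) (hΘ : PhaseI Θ M')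
    (hT : ∀ x, Θ (th T x) = Θ x) (hΨ : IsFlow (XFN V Θ 1) Ψ) (hτ : 0 < τ)
    (hG : GoodN N M' τ Ψ) (hA : ActN N Θ M' Ψ b A) {x : E k × ℝ} (hx : x.1 ∈ N) :
    A (th T x) - A x = A (T (R (b x) x.1), M') := by
  obtain ⟨t₀, h1, h2, h3⟩ := exists_bot hB hΘ hΨ hτ hG hA hx
  have hd : ∀ t, HasDerivAt (fun t => A (th T (Ψ t x)) - A (Ψ t x)) 0 t := by
    intro t
    have e1 := hA.dA x hx t
    have e2 : HasDerivAt (fun t => A (Ψ (-t) (th T x)))
        (-((Ψ (-t) (th T x)).2 * Real.sin (Θ (Ψ (-t) (th T x))))) t := by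
      have e3 := (hA.dA (th T x) (mida_ne hS hx) (-t)).scomp t (hasDerivAt_neg t)
      rw [neg_one_smul] at e3
      exact e3
    have e4 : (fun t => A (th T (Ψ t x)) - A (Ψ t x)) =
        fun t => A (Ψ (-t) (th T x)) - A (Ψ t x) := by
      funext t
      rw [mida_orb hB hS hΘ hT hΨ]
    rw [e4]
    have e5 := e2.sub e1
    have e6 : -((Ψ (-t) (th T x)).2 * Real.sin (Θ (Ψ (-t) (th T x)))) -
        (Ψ t x).2 * Real.sin (Θ (Ψ t x)) = 0 := by
      rw [← mida_orb hB hS hΘ hT hΨ, hT]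
      show -(-(Ψ t x).2 * Real.sin (Θ (Ψ t x))) - (Ψ t x).2 * Real.sin (Θ (Ψ t x)) = 0
      ring
    rw [e6] at e5
    exact e5
  have h4 := mida_const hd 0 t₀
  simp only [hΨ.zero] at h4
  rw [h4, h3, sub_zero, h1]
  show A (T (R (b x) x.1), -(-M')) = _
  rw [neg_neg]

theorem mid_pos (hB : BaseK N V R) (hS : SymV N V R T) (hΘ : PhaseI Θ M')
    (hΨ : IsFlow (XFN V Θ 1) Ψ) (hτ : 0 < τ) (hG : GoodN N M' τ Ψ) (hA : ActN N Θ M' Ψ b A)
    {y : E k} (hy : y ∈ N) : 0 < 1 - fderiv ℝ (fun y => b (T y, M')) y (V y) := by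
  have hM := hΘ.hM
  have h1 := c_pos hB hΘ hΨ hτ hG hA (x := (T y, M')) (hS.mem _ hy)
  have h2 : Θ (T y, M') = 0 := hΘ.supp _ (by
    show M' ≤ |M'|
    exact le_abs_self M')
  rw [h2, Real.cos_zero, Real.sin_zero, one_smul] at h1
  have h3 : HasFDerivAt (fun y : E k => ((T y, M') : E k × ℝ))
      (T.prod (0 : E k →L[ℝ] ℝ)) y := T.hasFDerivAt.prodMk (hasFDerivAt_const M' y)
  have h4 : HasFDerivAt (fun y => b (T y, M')) ((fderiv ℝ b (T y, M')).comp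
      (T.prod (0 : E k →L[ℝ] ℝ))) y :=
    HasFDerivAt.comp y (f := fun y : E k => ((T y, M') : E k × ℝ)) (g := b)
      ((hA.smoothb.differentiable (by simp)) (T y, M')).hasFDerivAt h3
  rw [h4.fderiv]
  have h5 : ((fderiv ℝ b (T y, M')).comp (T.prod (0 : E k →L[ℝ] ℝ))) (V y) =
      -(fderiv ℝ b (T y, M') (V (T y), 0)) := by
    have h6 : V (T y) = -T (V y) := hS.V y
    have h7 : ((fderiv ℝ b (T y, M')).comp (T.prod (0 : E k →L[ℝ] ℝ))) (V y) =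
        fderiv ℝ b (T y, M') (T (V y), 0) := rfl
    have h8 : ((T (V y), 0) : E k × ℝ) = -((V (T y), 0) : E k × ℝ) := by
      rw [h6]
      refine Prod.ext ?_ ?_
      · show T (V y) = -(-T (V y))
        rw [neg_neg]
      · show (0 : ℝ) = -0
        rw [neg_zero]
    rw [h7, h8, map_neg]
  rw [h5]
  have h9 : (V ((T y, M') : E k × ℝ).1 : E k) = V (T y) := rfl
  rw [h9] at h1
  linarith

end Pool.Agent.H99.TW
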