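import Pool.Agent.H99.TW.TMidA
import Pool.Agent.H2.TI.SExt

/-!
# The symmetric reduced straightening (module TMidR)

`γ y = -b (T y, M') / 2`, `κ y = A (T y, M') / 2`, `γ' y = Dγ(y) (V y)`, `κ' y = Dκ(y) (V y)`, `Y x = R (b x) x.1`. `1 + γ' y > 1/2` on `N` (`mid_pos`). By `mid_b`, `mid_A`, for `x.1 ∈ N`: `bs b x = (b x - b (τ' x)) / 2 = b x + γ (Y x)` and
`As A x = (A x + A (τ' x)) / 2 = A x + κ (Y x)`.
PROOF of `exists_rhoS`. `ρs` = extension (`exists_ext`, from the closed set `N × ℝ`, open set `{1 + γ' (Y x) ≠ 0}`) of `(ρ x + κ' (Y x)) / (1 + γ' (Y x))`.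
`id`: for `x.1 ∈ N` and `a, r`, along the curve `t ↦ (R (a t) x.1, x.2 + r t)` in `N × ℝ` with velocity `(a • V x.1, r)`: `Y` moves along the flow line, `Y = R (a t + b) x.1`, so the derivative of `γ (Y)` is `γ' (Y x) * (a + Db(x) (a • V x.1, r))`, and that of
`κ (Y)` is `κ' (Y x) * (a + Db …)`. So `a + D(bs b) = (1 + γ') (a + Db)` and `x.2 a + D(As A) = x.2 a + DA + κ' (a + Db) = (ρ + κ') (a + Db) = ρs (1 + γ') (a + Db) = ρs (a + D(bs b))`. (`hρ.id`)
`ker`: `a + D(bs b) = 0` iff `a + Db = 0` (`1 + γ' > 0`): `hρ.ker`.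
`ρs (τ' x) = -ρs x`: `id` at `x` with `(a, r) = (cos Θ, sin Θ)` and at `τ' x` with `(-a, -r)`: `bs b ∘ τ' = -bs b`, `As A ∘ τ' = As A` give `D(As A)(τ' x) (-a • V (T x.1), -r) = D(As A)(x) (a • V x.1, r)` and
`D(bs b)(τ' x) (-a • V (T x.1), -r) = -D(bs b)(x) (a • V x.1, r)`. So `ρs (τ' x) * (-(a + D(bs b)(x))) = ρs x * (a + D(bs b)(x))`, and `a + D(bs b)(x) ≠ 0` for this `(a, r)` (`ker`: otherwise `cos Θ = -k sin Θ`, `sin Θ = k cos Θ`).
-/

set_option autoImplicit false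

open scoped ContDiff Topology RealInnerProductSpace
open Set Filter

namespace Pool.Agent.H99.TW

open Pool.Agent.H57.NL Pool.Agent.H2.TG Pool.Agent.H2.TI

variable {k : ℕ} {N : Set (E k)} {V : E k → E k} {R : ℝ → E k → E k} {T : E k →L[ℝ] E k}
  {Θ : E k × ℝ → ℝ} {M' τ : ℝ} {Ψ : ℝ → E k × ℝ → E k × ℝ} {b A ρ : E k × ℝ → ℝ}
  {Ri : E k × ℝ → E k × ℝ}

/-- The displacement from `x` to the middle of the orbit. -/
noncomputable def bs (T : E k →L[ℝ] E k) (b : E k × ℝ → ℝ) (x : E k × ℝ) : ℝ :=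
  (b x - b (th T x)) / 2

/-- The symmetric action. -/
noncomputable def As (T : E k →L[ℝ] E k) (A : E k × ℝ → ℝ) (x : E k × ℝ) : ℝ :=
  (A x + A (th T x)) / 2

/-- Half of the displacement from the bottom to the top. -/
noncomputable def gam (T : E k →L[ℝ] E k) (M' : ℝ) (b : E k × ℝ → ℝ) (y : E k) : ℝ :=
  -b (T y, M') / 2

/-- Half of the action from the bottom to the top. -/
noncomputable def kap (T : E k →L[ℝ] E k) (M' : ℝ) (A : E k × ℝ → ℝ) (y : E k) : ℝ :=
  A (T y, M') / 2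

theorem bs_eq (hB : BaseK N V R) (hS : SymV N V R T) (hΘ : PhaseI Θ M')
    (hT : ∀ x, Θ (th T x) = Θ x) (hΨ : IsFlow (XFN V Θ 1) Ψ) (hτ : 0 < τ)
    (hG : GoodN N M' τ Ψ) (hA : ActN N Θ M' Ψ b A) {x : E k × ℝ} (hx : x.1 ∈ N) :
    bs T b x = b x + gam T M' b (R (b x) x.1) := by
  have h := mid_b hB hS hΘ hT hΨ hτ hG hA hx
  unfold bs gam
  rw [← h]
  ring

private theorem midr_add (hB : BaseK N V R) (s t : ℝ) (q : E k) : R s (R t q) = R (s + t) q :=
  hB.flow.add hB.smooth s t q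

private theorem midr_thth (hS : SymV N V R T) (x : E k × ℝ) : th T (th T x) = x := by
  refine Prod.ext ?_ ?_
  · exact hS.TT x.1
  · show -(-x.2) = x.2
    rw [neg_neg]

/-- the linear map `th T` -/
private noncomputable def thL (T : E k →L[ℝ] E k) : (E k × ℝ) →L[ℝ] (E k × ℝ) :=
  (T.comp (ContinuousLinearMap.fst ℝ (E k) ℝ)).prod (-(ContinuousLinearMap.snd ℝ (E k) ℝ))

private theorem thL_apply (T : E k →L[ℝ] E k) (x : E k × ℝ) : thL T x = th T x := rfl

private theorem midr_th_smooth : ContDiff ℝ ∞ (th T) := (thL T).contDiff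

private theorem midr_bs_smooth (hb : ContDiff ℝ ∞ b) : ContDiff ℝ ∞ (bs T b) :=
  (hb.sub (hb.comp midr_th_smooth)).div_const 2

private theorem midr_As_smooth (hA : ContDiff ℝ ∞ A) : ContDiff ℝ ∞ (As T A) :=
  (hA.add (hA.comp midr_th_smooth)).div_const 2

private theorem midr_gam_smooth (hb : ContDiff ℝ ∞ b) : ContDiff ℝ ∞ (gam T M' b) :=
  ((hb.comp (T.contDiff.prodMk contDiff_const)).neg).div_const 2

private theorem midr_kap_smooth (hA : ContDiff ℝ ∞ A) : ContDiff ℝ ∞ (kap T M' A) :=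
  (hA.comp (T.contDiff.prodMk contDiff_const)).div_const 2

private theorem midr_R0 (hB : BaseK N V R) (q : E k) : R 0 q = q := hB.flow.zero q

/-- the curve in `N × ℝ` -/
private theorem midr_curve (hB : BaseK N V R) (x : E k × ℝ) (a r : ℝ) :
    HasDerivAt (fun t : ℝ => ((R (a * t) x.1, x.2 + r * t) : E k × ℝ)) (a • V x.1, r) 0 := by
  have h1 : HasDerivAt (fun t : ℝ => R (a * t) x.1) (a • V x.1) 0 := by
    have h2 : HasDerivAt (fun t : ℝ => a * t) a 0 := by
      have h3 := (hasDerivAt_id (0 : ℝ)).const_mul a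
      rw [mul_one] at h3
      exact h3
    have h4 := HasDerivAt.scomp (h := fun t : ℝ => a * t) (g₁ := fun s => R s x.1) 0
      (hB.flow.deriv x.1 (a * 0)) h2
    rw [mul_zero, midr_R0 hB] at h4
    exact h4
  have h5 : HasDerivAt (fun t : ℝ => x.2 + r * t) r 0 := by
    have h3 := ((hasDerivAt_id (0 : ℝ)).const_mul r).const_add x.2
    rw [mul_one] at h3
    exact h3
  exact h1.prodMk h5

private theorem midr_at (hB : BaseK N V R) (x : E k × ℝ) (a r : ℝ) :
    ((R (a * 0) x.1, x.2 + r * 0) : E k × ℝ) = x := by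
  rw [mul_zero, mul_zero, add_zero, midr_R0 hB]

private theorem midr_alongG (hB : BaseK N V R) {G : E k × ℝ → ℝ} (hG : ContDiff ℝ ∞ G)
    (x : E k × ℝ) (a r : ℝ) :
    HasDerivAt (fun t : ℝ => G (R (a * t) x.1, x.2 + r * t)) (fderiv ℝ G x (a • V x.1, r)) 0 := by
  have h1 := HasFDerivAt.comp_hasDerivAt (0 : ℝ)
    (f := fun t : ℝ => ((R (a * t) x.1, x.2 + r * t) : E k × ℝ)) (l := G)
    ((hG.differentiable (by simp)) _).hasFDerivAt (midr_curve hB x a r)
  rw [midr_at hB] at h1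
  exact h1

/-- the derivative of `g (Y)` along the curve -/
private theorem midr_alongY (hB : BaseK N V R) (hb : ContDiff ℝ ∞ b) {g : E k → ℝ}
    (hg : ContDiff ℝ ∞ g) (x : E k × ℝ) (a r : ℝ) :
    HasDerivAt (fun t : ℝ => g (R (b (R (a * t) x.1, x.2 + r * t)) (R (a * t) x.1)))
      (fderiv ℝ g (R (b x) x.1) (V (R (b x) x.1)) * (a + fderiv ℝ b x (a • V x.1, r))) 0 := by
  have e1 : (fun t : ℝ => g (R (b (R (a * t) x.1, x.2 + r * t)) (R (a * t) x.1))) =
      fun t : ℝ => g (R (b (R (a * t) x.1, x.2 + r * t) + a * t) x.1) := by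
    funext t
    rw [midr_add hB]
  rw [e1]
  have h1 : HasDerivAt (fun t : ℝ => b (R (a * t) x.1, x.2 + r * t) + a * t)
      (fderiv ℝ b x (a • V x.1, r) + a) 0 := by
    have h2 : HasDerivAt (fun t : ℝ => a * t) a 0 := by
      have h3 := (hasDerivAt_id (0 : ℝ)).const_mul a
      rw [mul_one] at h3
      exact h3
    exact (midr_alongG hB hb x a r).add h2
  have e2 : b (R (a * 0) x.1, x.2 + r * 0) + a * 0 = b x := by
    rw [midr_at hB, mul_zero, add_zero]
  have h4 := HasDerivAt.scomp (h := fun t : ℝ => b (R (a * t) x.1, x.2 + r * t) + a * t)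
    (g₁ := fun s => R s x.1) 0 (hB.flow.deriv x.1 _) h1
  have h5 := HasFDerivAt.comp_hasDerivAt (0 : ℝ)
    (f := fun t : ℝ => R (b (R (a * t) x.1, x.2 + r * t) + a * t) x.1) (l := g)
    ((hg.differentiable (by simp)) _).hasFDerivAt h4
  simp only [e2] at h5
  rw [map_smul, smul_eq_mul, mul_comm, add_comm (fderiv ℝ b x (a • V x.1, r)) a] at h5
  exact h5

private theorem midr_As_eq (hB : BaseK N V R) (hS : SymV N V R T) (hΘ : PhaseI Θ M')
    (hT : ∀ x, Θ (th T x) = Θ x) (hΨ : IsFlow (XFN V Θ 1) Ψ) (hτ : 0 < τ)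
    (hG : GoodN N M' τ Ψ) (hA : ActN N Θ M' Ψ b A) {x : E k × ℝ} (hx : x.1 ∈ N) :
    As T A x = A x + kap T M' A (R (b x) x.1) := by
  have h := mid_A hB hS hΘ hT hΨ hτ hG hA hx
  unfold As kap
  rw [← h]
  ring

private theorem midr_gpos (hB : BaseK N V R) (hS : SymV N V R T) (hΘ : PhaseI Θ M')
    (hΨ : IsFlow (XFN V Θ 1) Ψ) (hτ : 0 < τ) (hG : GoodN N M' τ Ψ) (hA : ActN N Θ M' Ψ b A)
    {y : E k} (hy : y ∈ N) : 0 < 1 + fderiv ℝ (gam T M' b) y (V y) := by
  have h1 := mid_pos hB hS hΘ hΨ hτ hG hA hy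
  have h2 : ContDiff ℝ ∞ (fun y => b (T y, M')) :=
    hA.smoothb.comp (T.contDiff.prodMk contDiff_const)
  have h3 : HasFDerivAt (gam T M' b) ((-(1 / 2 : ℝ)) • fderiv ℝ (fun y => b (T y, M')) y) y := by
    have h4 := (((h2.differentiable (by simp)) y).hasFDerivAt).const_smul (-(1 / 2 : ℝ))
    have h5 : gam T M' b = fun y => (-(1 / 2 : ℝ)) • b (T y, M') := by
      funext y
      unfold gam
      rw [smul_eq_mul]
      ring
    rw [h5]
    exact h4
  rw [h3.fderiv]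
  have h6 : ((-(1 / 2 : ℝ)) • fderiv ℝ (fun y => b (T y, M')) y) (V y) =
      -(1 / 2) * fderiv ℝ (fun y => b (T y, M')) y (V y) := rfl
  rw [h6]
  linarith

theorem exists_rhoS (hB : BaseK N V R) (hS : SymV N V R T) (hΘ : PhaseI Θ M')
    (hT : ∀ x, Θ (th T x) = Θ x) (hΨ : IsFlow (XFN V Θ 1) Ψ) (hτ : 0 < τ)
    (hG : GoodN N M' τ Ψ) (hρ : RhoN N V Θ M' Ψ b A ρ) :
    ∃ ρs : E k × ℝ → ℝ, RhoU N V Θ (bs T b) (As T A) ρs ∧
      (∀ x : E k × ℝ, x.1 ∈ N → ρs (th T x) = -ρs x) ∧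
      ∀ x : E k × ℝ, x.1 ∈ N → ρs x * (1 + fderiv ℝ (gam T M' b) (R (b x) x.1) (V (R (b x) x.1)))
        = ρ x + fderiv ℝ (kap T M' A) (R (b x) x.1) (V (R (b x) x.1)) := by
  have hA := hρ.act
  have hbs : ContDiff ℝ ∞ (bs T b) := midr_bs_smooth hA.smoothb
  have hAs : ContDiff ℝ ∞ (As T A) := midr_As_smooth hA.smoothA
  have hgs : ContDiff ℝ ∞ (gam T M' b) := midr_gam_smooth hA.smoothb
  have hks : ContDiff ℝ ∞ (kap T M' A) := midr_kap_smooth hA.smoothA
  have hY : ContDiff ℝ ∞ (fun x : E k × ℝ => R (b x) x.1) :=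
    hB.flow.smooth.comp (hA.smoothb.prodMk contDiff_fst)
  have hdir : ∀ {g : E k → ℝ}, ContDiff ℝ ∞ g →
      ContDiff ℝ ∞ (fun x : E k × ℝ => fderiv ℝ g (R (b x) x.1) (V (R (b x) x.1))) := by
    intro g hg
    have h1 : ContDiff ℝ ∞ (fderiv ℝ g) := hg.fderiv_right (by simp)
    exact (h1.comp hY).clm_apply (hB.smooth.comp hY)
  have hYN : ∀ x : E k × ℝ, x.1 ∈ N → R (b x) x.1 ∈ N := fun x hx => hB.maps _ hx _
  have hpos : ∀ x : E k × ℝ, x.1 ∈ N →
      0 < 1 + fderiv ℝ (gam T M' b) (R (b x) x.1) (V (R (b x) x.1)) := fun x hx =>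
    midr_gpos hB hS hΘ hΨ hτ hG hA (hYN x hx)
  have hcs : ContDiff ℝ ∞ (fun x : E k × ℝ =>
      1 + fderiv ℝ (gam T M' b) (R (b x) x.1) (V (R (b x) x.1))) :=
    contDiff_const.add (hdir hgs)
  have hTcl : IsClosed {x : E k × ℝ | x.1 ∈ N} := hB.cpt.isClosed.preimage continuous_fst
  have hOop : IsOpen {x : E k × ℝ |
      1 + fderiv ℝ (gam T M' b) (R (b x) x.1) (V (R (b x) x.1)) ≠ 0} :=
    isOpen_ne.preimage hcs.continuous
  obtain ⟨ρs, hρss, hρs⟩ := exists_ext hTcl hOop (fun x hx => (hpos x hx).ne')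
    (f := fun x => (ρ x + fderiv ℝ (kap T M' A) (R (b x) x.1) (V (R (b x) x.1))) /
      (1 + fderiv ℝ (gam T M' b) (R (b x) x.1) (V (R (b x) x.1))))
    (ContDiffOn.div (hρ.smooth.add (hdir hks)).contDiffOn hcs.contDiffOn (fun x hx => hx))
  have hfin : ∀ x : E k × ℝ, x.1 ∈ N →
      ρs x * (1 + fderiv ℝ (gam T M' b) (R (b x) x.1) (V (R (b x) x.1)))
        = ρ x + fderiv ℝ (kap T M' A) (R (b x) x.1) (V (R (b x) x.1)) := by
    intro x hx
    rw [hρs x hx, div_mul_cancel₀ _ (hpos x hx).ne']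
  -- derivatives of the symmetric functions
  have hDb : ∀ x : E k × ℝ, x.1 ∈ N → ∀ a r : ℝ, a + fderiv ℝ (bs T b) x (a • V x.1, r) =
      (1 + fderiv ℝ (gam T M' b) (R (b x) x.1) (V (R (b x) x.1))) *
        (a + fderiv ℝ b x (a • V x.1, r)) := by
    intro x hx a r
    have h1 := midr_alongG hB hbs x a r
    have h2 := (midr_alongG hB hA.smoothb x a r).add (midr_alongY hB hA.smoothb hgs x a r)
    have h3 : (fun t : ℝ => bs T b (R (a * t) x.1, x.2 + r * t)) =
        (fun t : ℝ => b (R (a * t) x.1, x.2 + r * t)) +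
        fun t : ℝ => gam T M' b (R (b (R (a * t) x.1, x.2 + r * t)) (R (a * t) x.1)) := by
      funext t
      exact bs_eq hB hS hΘ hT hΨ hτ hG hA (x := (R (a * t) x.1, x.2 + r * t)) (hB.maps _ hx _)
    rw [h3] at h1
    have h4 := h1.unique h2
    rw [h4]
    ring
  have hDA : ∀ x : E k × ℝ, x.1 ∈ N → ∀ a r : ℝ, fderiv ℝ (As T A) x (a • V x.1, r) =
      fderiv ℝ A x (a • V x.1, r) +
      fderiv ℝ (kap T M' A) (R (b x) x.1) (V (R (b x) x.1)) *
        (a + fderiv ℝ b x (a • V x.1, r)) := by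
    intro x hx a r
    have h1 := midr_alongG hB hAs x a r
    have h2 := (midr_alongG hB hA.smoothA x a r).add (midr_alongY hB hA.smoothb hks x a r)
    have h3 : (fun t : ℝ => As T A (R (a * t) x.1, x.2 + r * t)) =
        (fun t : ℝ => A (R (a * t) x.1, x.2 + r * t)) +
        fun t : ℝ => kap T M' A (R (b (R (a * t) x.1, x.2 + r * t)) (R (a * t) x.1)) := by
      funext t
      exact midr_As_eq hB hS hΘ hT hΨ hτ hG hA (x := (R (a * t) x.1, x.2 + r * t))
        (hB.maps _ hx _)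
    rw [h3] at h1
    exact h1.unique h2
  have hid : ∀ x : E k × ℝ, x.1 ∈ N → ∀ a r : ℝ,
      x.2 * a + fderiv ℝ (As T A) x (a • V x.1, r) =
        ρs x * (a + fderiv ℝ (bs T b) x (a • V x.1, r)) := by
    intro x hx a r
    rw [hDA x hx, hDb x hx, ← mul_assoc, hfin x hx, ← add_assoc, hρ.id x hx a r]
    ring
  have hker : ∀ x : E k × ℝ, x.1 ∈ N → ∀ a r : ℝ,
      a + fderiv ℝ (bs T b) x (a • V x.1, r) = 0 →
      ∃ c : ℝ, a = -(c * Real.sin (Θ x)) ∧ r = c * Real.cos (Θ x) := by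
    intro x hx a r h
    rw [hDb x hx] at h
    exact hρ.ker x hx a r ((mul_eq_zero.mp h).resolve_left (hpos x hx).ne')
  refine ⟨ρs, ⟨hbs, hAs, hρss, hid, hker⟩, ?_, hfin⟩
  intro x hx
  have hthx : (th T x).1 ∈ N := hS.mem _ hx
  have hb' : ∀ v, fderiv ℝ (bs T b) (th T x) (th T v) = -fderiv ℝ (bs T b) x v := by
    intro v
    have h1 : HasFDerivAt (fun y => bs T b (th T y))
        ((fderiv ℝ (bs T b) (th T x)).comp (thL T)) x :=
      HasFDerivAt.comp x (f := th T) (g := bs T b)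
        ((hbs.differentiable (by simp)) _).hasFDerivAt (thL T).hasFDerivAt
    have h2 : (fun y => bs T b (th T y)) = fun y => -bs T b y := by
      funext y
      unfold bs
      rw [midr_thth hS]
      ring
    rw [h2] at h1
    have h3 := h1.unique ((hbs.differentiable (by simp)) x).hasFDerivAt.neg
    have h4 := congrArg (fun l => l v) h3
    exact h4
  have hA' : ∀ v, fderiv ℝ (As T A) (th T x) (th T v) = fderiv ℝ (As T A) x v := by
    intro v
    have h1 : HasFDerivAt (fun y => As T A (th T y))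
        ((fderiv ℝ (As T A) (th T x)).comp (thL T)) x :=
      HasFDerivAt.comp x (f := th T) (g := As T A)
        ((hAs.differentiable (by simp)) _).hasFDerivAt (thL T).hasFDerivAt
    have h2 : (fun y => As T A (th T y)) = fun y => As T A y := by
      funext y
      unfold As
      rw [midr_thth hS]
      ring
    rw [h2] at h1
    have h3 := h1.unique ((hAs.differentiable (by simp)) x).hasFDerivAt
    have h4 := congrArg (fun l => l v) h3
    exact h4
  set a : ℝ := Real.cos (Θ x) with ha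
  set r : ℝ := Real.sin (Θ x) with hr
  have hv : (((-a) • V (th T x).1, -r) : E k × ℝ) = th T (a • V x.1, r) := by
    refine Prod.ext ?_ ?_
    · show (-a) • V (T x.1) = T (a • V x.1)
      rw [hS.V, map_smul, smul_neg, neg_smul, neg_neg]
    · rfl
  have h1 := hid (th T x) hthx (-a) (-r)
  rw [hv, hb', hA'] at h1
  have h2 := hid x hx a r
  have h3 : (th T x).2 = -x.2 := rfl
  rw [h3] at h1
  have hc : a + fderiv ℝ (bs T b) x (a • V x.1, r) ≠ 0 := by
    intro h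
    obtain ⟨c, h4, h5⟩ := hker x hx a r h
    have h6 := Real.sin_sq_add_cos_sq (Θ x)
    rw [← hr] at h4
    rw [← ha] at h5
    rw [← ha, ← hr] at h6
    have h7 : r ^ 2 + a ^ 2 = 0 := by
      linear_combination r * h5 + a * h4
    rw [h7] at h6
    exact zero_ne_one h6
  apply mul_right_cancel₀ hc
  linear_combination h1 - h2

end Pool.Agent.H99.TW
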