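import Pool.Agent.H99.TW.TDefs
import Pool.Agent.H57.NL.Slice

/-!
# The cone field of a coherent set (module TNarA)

PROOF. `B q u u' = ⟪B q u, u'⟫`, symmetric. Replace `U` by `U ∪ {(q, -u) | (q, u) ∈ U}` (compact, same hypotheses: the triple product is even in each vector). For `q` with `U_q = {u | (q, u) ∈ U} ≠ ∅` choose `e q ∈ U_q`; `W_q = {u ∈ U_q | 0 < ⟪B q (e q), u⟫}`;
`U_q = W_q ∪ -W_q` (`⟪B q (e q), u⟫ ≠ 0` by `h`). For `u, u' ∈ W_q`: `0 < ⟪B q u, u'⟫` (`h` for `e q, u, u'`). If `U_q = ∅` put `W_q = ∅`. Compactness (`U ×_N U` is compact): there is `c > 0` with `c ≤ |⟪B q u, u'⟫|` for all `(q, u), (q, u') ∈ U`.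
`P_q = {w | ∀ u ∈ W_q, 0 < ⟪w, u⟫}`, `K_q = {v | ∀ w ∈ P_q, 0 ≤ ⟪w, v⟫}`: closed convex cone, contains `W_q`. `D = {z | z.1 ∈ N ∧ z.2 ∈ Tan N z.1 ∧ (z.2 ∈ K_{z.1} ∨ -z.2 ∈ K_{z.1})}`; cone over `q`: `K_q ∩ Tan N q` (`Tan N q` is a closed linear subspace).
Salient: `v, -v ∈ K_q`: `⟪w, v⟫ = 0` for all `w ∈ P_q`; if `U_q ≠ ∅`, `P_q` contains a ball around `B q (e q)` (`⟪B q (e q), u⟫ ≥ c` on `W_q`, `‖u‖ = 1`), so `v = 0`; if `U_q = ∅`, `P_q` is everything.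
`U ⊆ D`: clear. Closed: let `z_j = (q_j, v_j) ∈ D`, `z_j → (q, v)`; `q ∈ N`, `v ∈ Tan N q` (`TN_closed`). Suppose neither `v` nor `-v` is in `K_q`: there are `w, w' ∈ P_q` with `⟪w, v⟫ < 0`, `0 < ⟪w', v⟫`. Claim: for large `j`, `0 < ⟪w, u⟫ * ⟪w', u⟫` for all `u ∈ U_{q_j}`, and
the sign of `⟪w, u⟫ * ⟪B q_j (e q_j), u⟫` is the same for all `u ∈ U_{q_j}`; otherwise compactness of `U` gives a limit `u ∈ U_q` with `⟪w, u⟫ ⟪w', u⟫ ≤ 0` (impossible: `w, w' ∈ P_q`, `u ∈ ±W_q`), resp. limits `e, u, u' ∈ U_q` (`e` a limit of `e q_j`) with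
`⟪w, u⟫ ⟪B q e, u⟫ ≤ 0 ≤ ⟪w, u'⟫ ⟪B q e, u'⟫` (impossible: for `u ∈ U_q` the sign of `⟪w, u⟫ ⟪B q e, u⟫` is the sign of `⟪B q (e q), u⟫ ⟪B q e, u⟫`, which by `h` is the sign of `⟪B q (e q), e⟫`, the same for all `u`). So `w, w' ∈ σ_j P_{q_j}` with the same sign `σ_j = ±1`, and `±v_j ∈ K_{q_j}` gives
`0 ≤ ⟪w, v_j⟫ ⟪w', v_j⟫`, in the limit `0 ≤ ⟪w, v⟫ ⟪w', v⟫ < 0`: contradiction.
-/

set_option autoImplicit false

open scoped ContDiff Topology RealInnerProductSpace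
open Set Filter

namespace Pool.Agent.H99.TW

open Pool.Agent.H57.NL Pool.Agent.H2.TG Pool.Agent.H2.TI

variable {m n : ℕ} {N : Set (E m)}

/-- `w` and `w'` have the signs of the coherent choice over `q`, up to the same sign. -/
private def tnGood (U : Set (E m × E m)) (B : E m → (E m →L[ℝ] E m)) (w w' q : E m) : Prop :=
  ∀ u u' : E m, (q, u) ∈ U → (q, u') ∈ U → 0 < ⟪w, u⟫ * ⟪w', u'⟫ * ⟪B q u, u'⟫

private def tnD (N : Set (E m)) (U : Set (E m × E m)) (B : E m → (E m →L[ℝ] E m)) :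
    Set (E m × E m) :=
  {z | z ∈ TN N ∧ ∀ w w' : E m, tnGood U B w w' z.1 → 0 ≤ ⟪w, z.2⟫ * ⟪w', z.2⟫}

private theorem tn_bad_closed {U : Set (E m × E m)} (hU : IsCompact U)
    {B : E m → (E m →L[ℝ] E m)} (hB : Continuous B) (w w' : E m) :
    IsClosed {q | ¬ tnGood U B w w' q} := by
  have h1 : IsCompact ((U ×ˢ U) ∩ {c : (E m × E m) × (E m × E m) | c.1.1 = c.2.1 ∧
      ⟪w, c.1.2⟫ * ⟪w', c.2.2⟫ * ⟪B c.1.1 c.1.2, c.2.2⟫ ≤ 0}) := by
    have hf1 : Continuous fun c : (E m × E m) × (E m × E m) => c.1.1 :=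
      continuous_fst.comp continuous_fst
    have hf2 : Continuous fun c : (E m × E m) × (E m × E m) => c.2.1 :=
      continuous_fst.comp continuous_snd
    have hBc : Continuous fun c : (E m × E m) × (E m × E m) => B c.1.1 c.1.2 :=
      (hB.comp hf1).clm_apply (continuous_snd.comp continuous_fst)
    have hc1 : Continuous fun c : (E m × E m) × (E m × E m) => c.1.2 :=
      continuous_snd.comp continuous_fst
    have hc2 : Continuous fun c : (E m × E m) × (E m × E m) => c.2.2 :=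
      continuous_snd.comp continuous_snd
    have hf3 : Continuous fun c : (E m × E m) × (E m × E m) =>
        ⟪w, c.1.2⟫ * ⟪w', c.2.2⟫ * ⟪B c.1.1 c.1.2, c.2.2⟫ :=
      ((continuous_const.inner hc1).mul (continuous_const.inner hc2)).mul (hBc.inner hc2)
    exact (hU.prod hU).inter_right ((isClosed_eq hf1 hf2).inter (isClosed_le hf3 continuous_const))
  have hf : Continuous fun c : (E m × E m) × (E m × E m) => c.1.1 :=
    continuous_fst.comp continuous_fst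
  have h2 := (h1.image hf).isClosed
  refine (congrArg IsClosed (Set.ext fun q => ?_)).mp h2
  constructor
  · rintro ⟨⟨⟨q1, u⟩, ⟨q2, u'⟩⟩, ⟨⟨hu, hu'⟩, hq, hle⟩, rfl⟩
    simp only at hq hle hu hu'
    subst hq
    intro hg
    exact absurd (hg u u' hu hu') (not_lt.2 hle)
  · intro hq
    have hq' : ¬ tnGood U B w w' q := hq
    unfold tnGood at hq'
    push Not at hq'
    obtain ⟨u, u', hu, hu', hle⟩ := hq'
    exact ⟨((q, u), (q, u')), ⟨⟨hu, hu'⟩, rfl, hle⟩, rfl⟩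

private theorem tnD_closed (hN : IsSubmfd n N) (hc : IsClosed N) {U : Set (E m × E m)}
    (hU : IsCompact U) {B : E m → (E m →L[ℝ] E m)} (hB : Continuous B) :
    IsClosed (tnD N U B) := by
  have h1 : tnD N U B = TN N ∩ ⋂ w : E m, ⋂ w' : E m,
      ({z : E m × E m | z.1 ∈ {q | ¬ tnGood U B w w' q}} ∪
        {z : E m × E m | 0 ≤ ⟪w, z.2⟫ * ⟪w', z.2⟫}) := by
    ext z
    simp only [tnD, mem_ofPred_eq, mem_inter_iff, mem_iInter, mem_union]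
    refine and_congr_right fun _ => forall_congr' fun w => forall_congr' fun w' => ?_
    exact imp_iff_not_or
  rw [h1]
  refine (hN.isClosed_tan hc).inter (isClosed_iInter fun w => isClosed_iInter fun w' => ?_)
  refine ((tn_bad_closed hU hB w w').preimage continuous_fst).union ?_
  exact isClosed_le continuous_const ((continuous_const.inner continuous_snd).mul
    (continuous_const.inner continuous_snd))

private theorem tn_diag {U : Set (E m × E m)} {B : E m → (E m →L[ℝ] E m)}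
    (h : ∀ q u u' u'', (q, u) ∈ U → (q, u') ∈ U → (q, u'') ∈ U →
      0 < ⟪B q u, u'⟫ * ⟪B q u', u''⟫ * ⟪B q u, u''⟫) {q u : E m} (hu : (q, u) ∈ U) :
    0 < ⟪B q u, u⟫ := by
  have h1 := h q u u u hu hu hu
  by_contra h3
  exact absurd h1 (not_lt.2 (mul_nonpos_of_nonneg_of_nonpos (mul_self_nonneg _) (not_lt.1 h3)))

private theorem tn_good_of_pos {U : Set (E m × E m)} {B : E m → (E m →L[ℝ] E m)}
    (h : ∀ q u u' u'', (q, u) ∈ U → (q, u') ∈ U → (q, u'') ∈ U →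
      0 < ⟪B q u, u'⟫ * ⟪B q u', u''⟫ * ⟪B q u, u''⟫) {q e w w' : E m} (he : (q, e) ∈ U)
    (hw : ∀ u, (q, u) ∈ U → 0 < ⟪w, u⟫ * ⟪B q e, u⟫)
    (hw' : ∀ u, (q, u) ∈ U → 0 < ⟪w', u⟫ * ⟪B q e, u⟫) : tnGood U B w w' q := by
  intro u u' hu hu'
  have h1 := hw u hu
  have h2 := hw' u' hu'
  have h3 := h q e u u' he hu hu'
  have h4 := mul_pos (mul_pos h1 h2) h3
  have h5 : ⟪w, u⟫ * ⟪B q e, u⟫ * (⟪w', u'⟫ * ⟪B q e, u'⟫) *
      (⟪B q e, u⟫ * ⟪B q u, u'⟫ * ⟪B q e, u'⟫) =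
      (⟪B q e, u⟫ * ⟪B q e, u'⟫) ^ 2 * (⟪w, u⟫ * ⟪w', u'⟫ * ⟪B q u, u'⟫) := by ring
  rw [h5] at h4
  by_contra h6
  exact absurd h4 (not_lt.2 (mul_nonpos_of_nonneg_of_nonpos (sq_nonneg _) (not_lt.1 h6)))

private theorem tn_pos_of_good {U : Set (E m × E m)} {B : E m → (E m →L[ℝ] E m)}
    (hBs : ∀ x u w, ⟪B x u, w⟫ = ⟪B x w, u⟫)
    (h : ∀ q u u' u'', (q, u) ∈ U → (q, u') ∈ U → (q, u'') ∈ U →
      0 < ⟪B q u, u'⟫ * ⟪B q u', u''⟫ * ⟪B q u, u''⟫) {q e w w' : E m} (he : (q, e) ∈ U)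
    (hg : tnGood U B w w' q) :
    ((∀ u, (q, u) ∈ U → 0 < ⟪w, u⟫ * ⟪B q e, u⟫) ∧
      ∀ u, (q, u) ∈ U → 0 < ⟪w', u⟫ * ⟪B q e, u⟫) ∨
    ((∀ u, (q, u) ∈ U → 0 < ⟪-w, u⟫ * ⟪B q e, u⟫) ∧
      ∀ u, (q, u) ∈ U → 0 < ⟪-w', u⟫ * ⟪B q e, u⟫) := by
  have h1 := hg e e he he
  have h2 := tn_diag h he
  have h3 : 0 < ⟪w, e⟫ * ⟪w', e⟫ := (pos_iff_pos_of_mul_pos h1).2 h2
  have h4 : ∀ u, (q, u) ∈ U → 0 < ⟪w', e⟫ * (⟪w, u⟫ * ⟪B q e, u⟫) := by
    intro u hu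
    have h5 := hg u e hu he
    rw [hBs q u e] at h5
    have h6 : ⟪w, u⟫ * ⟪w', e⟫ * ⟪B q e, u⟫ = ⟪w', e⟫ * (⟪w, u⟫ * ⟪B q e, u⟫) := by ring
    rwa [h6] at h5
  have h7 : ∀ u, (q, u) ∈ U → 0 < ⟪w, e⟫ * (⟪w', u⟫ * ⟪B q e, u⟫) := by
    intro u hu
    have h5 := hg e u he hu
    rwa [mul_assoc] at h5
  rcases mul_pos_iff.1 h3 with ⟨h8, h9⟩ | ⟨h8, h9⟩
  · left
    exact ⟨fun u hu => (pos_iff_pos_of_mul_pos (h4 u hu)).1 h9,
      fun u hu => (pos_iff_pos_of_mul_pos (h7 u hu)).1 h8⟩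
  · right
    constructor
    · intro u hu
      rw [inner_neg_left, neg_mul, neg_pos]
      by_contra h10
      exact absurd (h4 u hu) (not_lt.2 (mul_nonpos_of_nonpos_of_nonneg h9.le (not_lt.1 h10)))
    · intro u hu
      rw [inner_neg_left, neg_mul, neg_pos]
      by_contra h10
      exact absurd (h7 u hu) (not_lt.2 (mul_nonpos_of_nonpos_of_nonneg h8.le (not_lt.1 h10)))

private theorem tn_min {U : Set (E m × E m)} (hU : IsCompact U)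
    {q a : E m} (ha : ∀ u, (q, u) ∈ U → 0 < ⟪a, u⟫ * ⟪a, u⟫) {e : E m} (he : (q, e) ∈ U) :
    ∃ c : ℝ, 0 < c ∧ ∀ u, (q, u) ∈ U → c ≤ ⟪a, u⟫ * ⟪a, u⟫ := by
  have hcpt : IsCompact (U ∩ {z : E m × E m | z.1 = q}) :=
    hU.inter_right (isClosed_eq continuous_fst continuous_const)
  have hcont : Continuous fun z : E m × E m => ⟪a, z.2⟫ * ⟪a, z.2⟫ :=
    (continuous_const.inner continuous_snd).mul (continuous_const.inner continuous_snd)
  obtain ⟨z0, hz0, hmin⟩ := hcpt.exists_isMinOn ⟨(q, e), he, rfl⟩ hcont.continuousOn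
  have hz2 : z0.1 = q := hz0.2
  have hz1 : (q, z0.2) ∈ U := by
    rw [← hz2]
    exact hz0.1
  refine ⟨⟪a, z0.2⟫ * ⟪a, z0.2⟫, ha _ hz1, fun u hu => ?_⟩
  have h2 := isMinOn_iff.1 hmin (q, u) ⟨hu, rfl⟩
  exact h2

private theorem tn_bound {U : Set (E m × E m)} (h1 : ∀ z ∈ U, ‖z.2‖ = 1) (q a v : E m) :
    ∃ r : ℝ, 0 ≤ r ∧ ∀ u, (q, u) ∈ U → -r ≤ ⟪v, u⟫ * ⟪a, u⟫ := by
  refine ⟨‖v‖ * ‖a‖, mul_nonneg (norm_nonneg _) (norm_nonneg _), fun u hu => ?_⟩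
  have hu1 : ‖u‖ = 1 := h1 (q, u) hu
  have e1 : |⟪v, u⟫| ≤ ‖v‖ := by
    have := abs_real_inner_le_norm v u
    rwa [hu1, mul_one] at this
  have e2 : |⟪a, u⟫| ≤ ‖a‖ := by
    have := abs_real_inner_le_norm a u
    rwa [hu1, mul_one] at this
  have e3 : |⟪v, u⟫ * ⟪a, u⟫| ≤ ‖v‖ * ‖a‖ := by
    rw [abs_mul]
    exact mul_le_mul e1 e2 (abs_nonneg _) (norm_nonneg _)
  exact (abs_le.1 e3).1

private theorem tn_real {c r : ℝ} (hc : 0 < c) (hr : 0 ≤ r) :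
    ∃ t : ℝ, 0 < t ∧ ∀ x y : ℝ, c ≤ x → -r ≤ y → 0 < x + t * y := by
  refine ⟨c / (2 * (r + 1)), by positivity, fun x y hx hy => ?_⟩
  have h1 : 0 < 2 * (r + 1) := by positivity
  have h2 : c / (2 * (r + 1)) * r < c := by
    rw [div_mul_eq_mul_div, div_lt_iff₀ h1]
    nlinarith
  have h3 : 0 < c / (2 * (r + 1)) := by positivity
  have h4 := mul_le_mul_of_nonneg_left hy h3.le
  rw [mul_neg] at h4
  linarith

private theorem tn_salient {U : Set (E m × E m)} (hU : IsCompact U) (h1 : ∀ z ∈ U, ‖z.2‖ = 1)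
    {q a : E m} (ha : ∀ u, (q, u) ∈ U → 0 < ⟪a, u⟫ * ⟪a, u⟫) {e : E m} (he : (q, e) ∈ U)
    {v : E m} (hv : ∀ w, (∀ u, (q, u) ∈ U → 0 < ⟪w, u⟫ * ⟪a, u⟫) → ⟪w, v⟫ = 0) : v = 0 := by
  obtain ⟨c, hc0, hcle⟩ := tn_min hU ha he
  obtain ⟨r, hr0, hr⟩ := tn_bound h1 q a v
  obtain ⟨t, ht0, htr⟩ := tn_real hc0 hr0
  have h2 : ⟪a + t • v, v⟫ = 0 := by
    refine hv _ fun u hu => ?_
    have h4 := htr _ _ (hcle u hu) (hr u hu)
    rw [inner_add_left, real_inner_smul_left, add_mul, mul_assoc]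
    exact h4
  have h3 : ⟪a, v⟫ = 0 := hv a ha
  rw [inner_add_left, real_inner_smul_left, h3, zero_add] at h2
  have h4 : ⟪v, v⟫ = 0 := (mul_eq_zero.1 h2).resolve_left ht0.ne'
  exact inner_self_eq_zero.1 h4

private theorem tn_cone (hN : IsSubmfd n N) (hc : IsClosed N) {U : Set (E m × E m)}
    (hU : IsCompact U) (h1 : ∀ z ∈ U, ‖z.2‖ = 1)
    {B : E m → (E m →L[ℝ] E m)} (hBs : ∀ x u w, ⟪B x u, w⟫ = ⟪B x w, u⟫)
    (h : ∀ q u u' u'', (q, u) ∈ U → (q, u') ∈ U → (q, u'') ∈ U →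
      0 < ⟪B q u, u'⟫ * ⟪B q u', u''⟫ * ⟪B q u, u''⟫) {q : E m} (hq : q ∈ N) :
    ∃ K : Set (E m), IsClosed K ∧ (0 : E m) ∈ K ∧ (∀ u ∈ K, ∀ v ∈ K, u + v ∈ K) ∧
    (∀ u ∈ K, ∀ t : ℝ, 0 ≤ t → t • u ∈ K) ∧ (∀ u ∈ K, -u ∈ K → u = 0) ∧
    ∀ u : E m, (q, u) ∈ tnD N U B ↔ u ∈ K ∨ -u ∈ K := by
  by_cases hne : ∃ e, (q, e) ∈ U
  swap
  · have hgood : ∀ w w' : E m, tnGood U B w w' q := fun w w' u u' hu _ => absurd ⟨u, hu⟩ hne
    refine ⟨{0}, isClosed_singleton, rfl, ?_, ?_, ?_, ?_⟩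
    · rintro u hu v hv
      rw [mem_singleton_iff.1 hu, mem_singleton_iff.1 hv, add_zero]
      rfl
    · rintro u hu t -
      rw [mem_singleton_iff.1 hu, smul_zero]
      rfl
    · intro u hu _
      exact hu
    · intro u
      constructor
      · rintro ⟨-, hD⟩
        left
        have h2 := hD u (-u) (hgood _ _)
        simp only [inner_neg_left, mul_neg] at h2
        have h3 : ⟪u, u⟫ * ⟪u, u⟫ = 0 := le_antisymm (by linarith) (mul_self_nonneg _)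
        exact inner_self_eq_zero.1 (mul_self_eq_zero.1 h3)
      · intro hu
        have hu0 : u = 0 := by
          rcases hu with hu | hu
          · exact hu
          · exact neg_eq_zero.1 hu
        subst hu0
        refine ⟨⟨hq, hN.tan_zero hq⟩, fun w w' _ => ?_⟩
        simp only [inner_zero_right, mul_zero, le_refl]
  obtain ⟨e, he⟩ := hne
  have hB0 : ∀ u, (q, u) ∈ U → 0 < ⟪B q e, u⟫ * ⟪B q e, u⟫ := by
    intro u hu
    have h2 := h q e u u he hu hu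
    have h3 : ⟪B q e, u⟫ * ⟪B q u, u⟫ * ⟪B q e, u⟫ =
        ⟪B q u, u⟫ * (⟪B q e, u⟫ * ⟪B q e, u⟫) := by ring
    rw [h3] at h2
    exact (pos_iff_pos_of_mul_pos h2).1 (tn_diag h hu)
  have hT : IsClosed {v : E m | v ∈ Tan N q} := by
    have h2 := (hN.isClosed_tan hc).preimage (Continuous.prodMk_right q)
    refine (congrArg IsClosed (Set.ext fun v => ?_)).mp h2
    exact ⟨fun h3 => h3.2, fun h3 => ⟨hq, h3⟩⟩
  refine ⟨{v | v ∈ Tan N q ∧ ∀ w : E m, (∀ u, (q, u) ∈ U → 0 < ⟪w, u⟫ * ⟪B q e, u⟫) →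
    0 ≤ ⟪w, v⟫}, ?_, ?_, ?_, ?_, ?_, ?_⟩
  · have h2 : {v : E m | v ∈ Tan N q ∧ ∀ w : E m,
        (∀ u, (q, u) ∈ U → 0 < ⟪w, u⟫ * ⟪B q e, u⟫) → 0 ≤ ⟪w, v⟫} =
        {v : E m | v ∈ Tan N q} ∩ ⋂ w : E m,
          ⋂ (_ : ∀ u, (q, u) ∈ U → 0 < ⟪w, u⟫ * ⟪B q e, u⟫), {v : E m | 0 ≤ ⟪w, v⟫} := by
      ext v
      simp only [mem_ofPred_eq, mem_inter_iff, mem_iInter]
    rw [h2]
    refine hT.inter (isClosed_iInter fun w => isClosed_iInter fun _ => ?_)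
    exact isClosed_le continuous_const (continuous_const.inner continuous_id)
  · exact ⟨hN.tan_zero hq, fun w _ => by rw [inner_zero_right]⟩
  · rintro u ⟨hu, hu'⟩ v ⟨hv, hv'⟩
    refine ⟨hN.tan_add hq hu hv, fun w hw => ?_⟩
    rw [inner_add_right]
    exact add_nonneg (hu' w hw) (hv' w hw)
  · rintro u ⟨hu, hu'⟩ t ht
    refine ⟨Tan.smul hu t, fun w hw => ?_⟩
    rw [real_inner_smul_right]
    exact mul_nonneg ht (hu' w hw)
  · rintro v ⟨-, hv⟩ ⟨-, hv'⟩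
    refine tn_salient hU h1 hB0 he fun w hw => ?_
    have h2 := hv w hw
    have h3 := hv' w hw
    rw [inner_neg_right] at h3
    exact le_antisymm (by linarith) h2
  · intro v
    constructor
    · rintro ⟨⟨-, hvT⟩, hD⟩
      by_contra hcon
      rw [not_or] at hcon
      obtain ⟨hc1, hc2⟩ := hcon
      have hvT' : -v ∈ Tan N q := by
        have := Tan.smul (x := q) hvT (-1)
        rwa [neg_one_smul] at this
      have h2 : ∃ w : E m, (∀ u, (q, u) ∈ U → 0 < ⟪w, u⟫ * ⟪B q e, u⟫) ∧ ⟪w, v⟫ < 0 := by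
        by_contra h3
        refine hc1 ⟨hvT, fun w hw => ?_⟩
        by_contra h4
        exact h3 ⟨w, hw, not_le.1 h4⟩
      have h2' : ∃ w : E m, (∀ u, (q, u) ∈ U → 0 < ⟪w, u⟫ * ⟪B q e, u⟫) ∧ 0 < ⟪w, v⟫ := by
        by_contra h3
        refine hc2 ⟨hvT', fun w hw => ?_⟩
        by_contra h4
        rw [inner_neg_right] at h4
        exact h3 ⟨w, hw, by linarith [not_le.1 h4]⟩
      obtain ⟨w, hw, hwv⟩ := h2
      obtain ⟨w', hw', hwv'⟩ := h2'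
      have h5 := hD w w' (tn_good_of_pos h he hw hw')
      exact absurd h5 (not_le.2 (mul_neg_of_neg_of_pos hwv hwv'))
    · rintro (⟨hvT, hv⟩ | ⟨hvT, hv⟩)
      · refine ⟨⟨hq, hvT⟩, fun w w' hg => ?_⟩
        rcases tn_pos_of_good hBs h he hg with ⟨g1, g2⟩ | ⟨g1, g2⟩
        · exact mul_nonneg (hv w g1) (hv w' g2)
        · have e1 := hv _ g1
          have e2 := hv _ g2
          rw [inner_neg_left] at e1 e2
          exact mul_nonneg_of_nonpos_of_nonpos (by linarith) (by linarith)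
      · have hvT' : v ∈ Tan N q := by
          have := Tan.smul (x := q) hvT (-1)
          rwa [neg_one_smul, neg_neg] at this
        refine ⟨⟨hq, hvT'⟩, fun w w' hg => ?_⟩
        rcases tn_pos_of_good hBs h he hg with ⟨g1, g2⟩ | ⟨g1, g2⟩
        · have e1 := hv _ g1
          have e2 := hv _ g2
          rw [inner_neg_right] at e1 e2
          exact mul_nonneg_of_nonpos_of_nonpos (by linarith) (by linarith)
        · have e1 := hv _ g1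
          have e2 := hv _ g2
          rw [inner_neg_left, inner_neg_right, neg_neg] at e1 e2
          exact mul_nonneg e1 e2

theorem cone_of_coherent (hN : IsSubmfd n N) (hc : IsClosed N) {U : Set (E m × E m)}
    (hU : IsCompact U) (hUN : U ⊆ TN N) (h1 : ∀ z ∈ U, ‖z.2‖ = 1)
    {B : E m → (E m →L[ℝ] E m)} (hB : Continuous B) (hBs : ∀ x u w, ⟪B x u, w⟫ = ⟪B x w, u⟫)
    (h : ∀ q u u' u'', (q, u) ∈ U → (q, u') ∈ U → (q, u'') ∈ U →
      0 < ⟪B q u, u'⟫ * ⟪B q u', u''⟫ * ⟪B q u, u''⟫) :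
    ∃ D, DoubleCone N D ∧ U ⊆ D := by
  refine ⟨tnD N U B, ⟨fun z hz => hz.1, tnD_closed hN hc hU hB,
    fun q hq => tn_cone hN hc hU h1 hBs h hq⟩, ?_⟩
  rintro ⟨q, u⟩ hu
  refine ⟨hUN hu, fun w w' hg => ?_⟩
  have h2 := hg u u hu hu
  have h3 := tn_diag h hu
  exact ((pos_iff_pos_of_mul_pos h2).2 h3).le

end Pool.Agent.H99.TW
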