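import Pool.Agent.H99.TW.TDefs
import Pool.Agent.H99.TW.TLocSub
import Pool.Agent.H99.TW.TIsV
import Pool.Agent.H2.TI.SProj
import Pool.Agent.H2.TI.STN

/-!
# The covering `T*NH → T*N` (module TPh)

`adj` = `ContinuousLinearMap.adjoint`. PROOFS.
* `lf_inner`: `⟪PrH x (adj π p), jj x ξ⟫ = ⟪adj π p, jj x ξ⟫ = ⟪p, π (jj x ξ)⟫ = ⟪p, ξ⟫` (`ProjN.orth`, `jj x ξ ∈ Tan NH x` by `hC.jjt`, `hC.jjπ`).
* `ph_inner`: `⟪Pr (π x) (adj (jj x) P), ξ⟫ = ⟪adj (jj x) P, ξ⟫ = ⟪P, jj x ξ⟫` for `ξ ∈ Tan N (π x)`.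
* `ph_lf`, `lf_ph`, `lf_T`: both sides are tangent and have the same scalar products with tangent vectors (`tan_unique` in `H2/TI/SProj.lean`); every tangent vector of `NH` at `x` is
  `jj x ξ`, `ξ ∈ Tan N (π x)` (`hC.jjt`).
* `ph_tt`: `jj (T x) = T ∘ jj x` (`hC.jjT`), so `adj (jj (T x)) (T P) = adj (jj x) (adj T (T P)) = adj (jj x) P` (`hC.Ti`); `hC.πT`. It holds for all `z`.
* `lf_norm`: for `w ∈ Tan`: `‖PrH x y‖² = ⟪PrH x y, PrH x y⟫ = ⟪y, PrH x y⟫ ≤ ‖y‖ ‖PrH x y‖`, and `‖adj π p‖ ≤ ‖p‖` since `‖π‖ ≤ 1` (`hC.πb`).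
* `ph_smooth`: `hC.jjs`, `hP.smooth`; `adj` is continuous linear (see the private `spj_adj` in `H2/TI/SProj.lean`).
* `ph_fderiv_fst`: the first component of `ph` is `π ∘ fst`; `ph` is differentiable at `z`.
* `ph_liou`: `ζ.1 ∈ Tan NH z.1` (`tan_fst` in `H2/TI/STN.lean`), so `ζ.1 = jj z.1 ξ`, `ξ = π ζ.1`; `(D ph ζ).1 = π ζ.1 = ξ`; `ph_inner`.
* `sec_TN`: `F z = (s z.1, lf (s z.1) z.2)` is smooth near `ph z₀` (`hPH.smooth`). `fwd`: `z ∈ TN N` near `ph z₀`: `s z.1 ∈ NH`, `π (s z.1) = z.1`, `lf_mem`, `ph_lf`. `bwd`: `z ∈ TN NH` near `z₀`: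
  `s (π z.1) = z.1`, `lf_ph`, `ph_mem`. `ph` is smooth near `z₀` (`pv z₀.1 ≠ 0` and this is open).
-/

set_option autoImplicit false

open scoped ContDiff Topology RealInnerProductSpace
open Set Filter

namespace Pool.Agent.H99.TW

open Pool.Agent.H57.NL Pool.Agent.H2.TG Pool.Agent.H2.TI

variable {m k n : ℕ} {N : Set (E m)} {Q : E m → (E m →L[ℝ] E m)} {NH : Set (E k)}
  {T : E k →L[ℝ] E k} {π pv : E k →L[ℝ] E m} {jj : E k → (E m →L[ℝ] E k)}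
  {Pr : E m → (E m →L[ℝ] E m)} {PrH : E k → (E k →L[ℝ] E k)}

private theorem tph_adj : ContDiff ℝ ∞
    (fun L : E m →L[ℝ] E k => ContinuousLinearMap.adjoint L) := by
  apply IsBoundedLinearMap.contDiff
  exact
    { map_add := fun x y => map_add _ x y
      map_smul := fun c x => by
        rw [map_smulₛₗ]
        rfl
      bound := ⟨1, one_pos, fun x => by
        rw [one_mul]
        exact le_of_eq (LinearIsometryEquiv.norm_map _ _)⟩ }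

theorem ph_fst (z : E k × E k) : (ph π jj Pr z).1 = π z.1 := rfl

theorem lf_mem (hPH : ProjN NH PrH) {x : E k} (hx : x ∈ NH) (p : E m) :
    lf π PrH x p ∈ Tan NH x := hPH.mem x hx _

theorem lf_inner (hC : Cov n N Q NH T π pv jj) (hPH : ProjN NH PrH) {x : E k} (hx : x ∈ NH)
    (p : E m) {ξ : E m} (hξ : ξ ∈ Tan N (π x)) : ⟪lf π PrH x p, jj x ξ⟫ = ⟪p, ξ⟫ := by
  have h1 : jj x ξ ∈ Tan NH x := (hC.jjt x hx _).2 ⟨ξ, hξ, rfl⟩
  unfold lf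
  rw [hPH.orth x hx _ _ h1, ContinuousLinearMap.adjoint_inner_left, hC.jjπ]

theorem ph_inner (hC : Cov n N Q NH T π pv jj) (hP : ProjN N Pr) {z : E k × E k}
    (hz : z ∈ TN NH) {ξ : E m} (hξ : ξ ∈ Tan N (π z.1)) :
    ⟪(ph π jj Pr z).2, ξ⟫ = ⟪z.2, jj z.1 ξ⟫ := by
  show ⟪Pr (π z.1) (ContinuousLinearMap.adjoint (jj z.1) z.2), ξ⟫ = ⟪z.2, jj z.1 ξ⟫
  rw [hP.orth _ (hC.πmem _ hz.1) _ _ hξ, ContinuousLinearMap.adjoint_inner_left]

theorem ph_mem (hC : Cov n N Q NH T π pv jj) (hP : ProjN N Pr) {z : E k × E k}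
    (hz : z ∈ TN NH) : ph π jj Pr z ∈ TN N :=
  ⟨hC.πmem _ hz.1, hP.mem _ (hC.πmem _ hz.1) _⟩

theorem ph_lf (hC : Cov n N Q NH T π pv jj) (hP : ProjN N Pr) (hPH : ProjN NH PrH) {x : E k}
    (hx : x ∈ NH) {p : E m} (hp : p ∈ Tan N (π x)) :
    ph π jj Pr (x, lf π PrH x p) = (π x, p) := by
  have hz : (x, lf π PrH x p) ∈ TN NH := ⟨hx, lf_mem hPH hx p⟩
  refine Prod.ext rfl ?_
  refine tan_unique hC.rk.sub (hC.πmem _ hx) (ph_mem hC hP hz).2 hp ?_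
  intro τ hτ
  rw [ph_inner hC hP hz hτ]
  exact lf_inner hC hPH hx p hτ

theorem lf_ph (hC : Cov n N Q NH T π pv jj) (hP : ProjN N Pr) (hPH : ProjN NH PrH)
    {z : E k × E k} (hz : z ∈ TN NH) : lf π PrH z.1 (ph π jj Pr z).2 = z.2 := by
  refine tan_unique hC.sub hz.1 (lf_mem hPH hz.1 _) hz.2 ?_
  intro τ hτ
  obtain ⟨ξ, hξ, rfl⟩ := (hC.jjt _ hz.1 _).1 hτ
  rw [lf_inner hC hPH hz.1 _ hξ, ph_inner hC hP hz hξ]

theorem ph_tt (hC : Cov n N Q NH T π pv jj) (z : E k × E k) :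
    ph π jj Pr (tt T z) = ph π jj Pr z := by
  have h1 : ContinuousLinearMap.adjoint (jj (T z.1)) (T z.2) =
      ContinuousLinearMap.adjoint (jj z.1) z.2 := by
    refine ext_inner_right ℝ fun ξ => ?_
    rw [ContinuousLinearMap.adjoint_inner_left, ContinuousLinearMap.adjoint_inner_left, hC.jjT,
      hC.Ti]
  unfold ph tt
  simp only
  rw [hC.πT, h1]

theorem tt_mem (hC : Cov n N Q NH T π pv jj) {z : E k × E k} (hz : z ∈ TN NH) :
    tt T z ∈ TN NH := by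
  refine ⟨hC.Tmem _ hz.1, ?_⟩
  exact Tan.map hz.2 T.hasFDerivAt (Eventually.of_forall fun y hy => hC.Tmem y hy)

theorem lf_T (hC : Cov n N Q NH T π pv jj) (hPH : ProjN NH PrH) {x : E k} (hx : x ∈ NH)
    (p : E m) : lf π PrH (T x) p = T (lf π PrH x p) := by
  have h1 := tt_mem hC (z := (x, lf π PrH x p)) ⟨hx, lf_mem hPH hx p⟩
  refine tan_unique hC.sub (hC.Tmem _ hx) (lf_mem hPH (hC.Tmem _ hx) p) h1.2 ?_
  intro τ hτ
  obtain ⟨ξ, hξ, rfl⟩ := (hC.jjt _ (hC.Tmem _ hx) _).1 hτ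
  rw [lf_inner hC hPH (hC.Tmem _ hx) p hξ, hC.jjT]
  rw [hC.πT] at hξ
  show ⟪p, ξ⟫ = ⟪T (lf π PrH x p), T (jj x ξ)⟫
  rw [hC.Ti, lf_inner hC hPH hx p hξ]

/-- Two points of `T*NH` over the same point differ by the deck transformation. -/
theorem ph_two (hC : Cov n N Q NH T π pv jj) (hP : ProjN N Pr) (hPH : ProjN NH PrH)
    {z z' : E k × E k} (hz : z ∈ TN NH) (hz' : z' ∈ TN NH)
    (h : ph π jj Pr z' = ph π jj Pr z) : z' = z ∨ z' = tt T z := by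
  have h1 : π z'.1 = π z.1 := congrArg Prod.fst h
  have h2 := lf_ph hC hP hPH hz
  have h3 := lf_ph hC hP hPH hz'
  rcases hC.two _ hz.1 _ hz'.1 h1 with h4 | h4
  · left
    refine Prod.ext h4 ?_
    rw [← h3, ← h2, h, h4]
  · right
    refine Prod.ext h4 ?_
    show z'.2 = T z.2
    rw [← h3, h, h4, lf_T hC hPH hz.1, h2]

theorem lf_norm (hC : Cov n N Q NH T π pv jj) (hPH : ProjN NH PrH) {x : E k} (hx : x ∈ NH)
    (p : E m) : ‖lf π PrH x p‖ ≤ ‖p‖ := by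
  obtain ⟨y, hy⟩ : ∃ y, y = ContinuousLinearMap.adjoint π p := ⟨_, rfl⟩
  obtain ⟨w, hw⟩ : ∃ w, w = PrH x y := ⟨_, rfl⟩
  have h1 : ‖w‖ * ‖w‖ = ⟪y, w⟫ := by
    rw [← real_inner_self_eq_norm_mul_norm]
    conv_lhs => rw [hw]
    rw [hPH.orth x hx y _ (hPH.mem x hx _), ← hw]
  have h2 : ‖w‖ ≤ ‖y‖ := by
    rcases (norm_nonneg w).eq_or_lt with h0 | h0
    · rw [← h0]
      exact norm_nonneg _
    · have h3 : ‖w‖ * ‖w‖ ≤ ‖y‖ * ‖w‖ := h1 ▸ real_inner_le_norm y w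
      exact le_of_mul_le_mul_right h3 h0
  have h3 : ‖y‖ ≤ ‖p‖ := by
    have h4 : ‖ContinuousLinearMap.adjoint π‖ ≤ 1 := by
      rw [LinearIsometryEquiv.norm_map]
      exact π.opNorm_le_bound zero_le_one fun x => by rw [one_mul]; exact hC.πb x
    rw [hy]
    calc ‖ContinuousLinearMap.adjoint π p‖ ≤ ‖ContinuousLinearMap.adjoint π‖ * ‖p‖ :=
          ContinuousLinearMap.le_opNorm _ _
      _ ≤ 1 * ‖p‖ := mul_le_mul_of_nonneg_right h4 (norm_nonneg _)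
      _ = ‖p‖ := one_mul _
  have h5 : lf π PrH x p = w := by rw [hw, hy]; rfl
  rw [h5]
  exact h2.trans h3

theorem ph_smooth (hC : Cov n N Q NH T π pv jj) (hP : ProjN N Pr) {z : E k × E k}
    (hz : pv z.1 ≠ 0) : ContDiffAt ℝ ∞ (ph π jj Pr) z := by
  have hopen : IsOpen {x | pv x ≠ 0} := isOpen_ne_fun pv.continuous continuous_const
  have h1 : ContDiffAt ℝ ∞ jj z.1 := hC.jjs.contDiffAt (hopen.mem_nhds hz)
  have h2 : ContDiffAt ℝ ∞ (fun z : E k × E k => jj z.1) z := h1.comp z contDiffAt_fst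
  have h3 : ContDiffAt ℝ ∞ (fun z : E k × E k => ContinuousLinearMap.adjoint (jj z.1)) z :=
    tph_adj.contDiffAt.comp z h2
  have h4 : ContDiffAt ℝ ∞ (fun z : E k × E k => π z.1) z :=
    π.contDiff.contDiffAt.comp z contDiffAt_fst
  have h5 : ContDiffAt ℝ ∞ (fun z : E k × E k => Pr (π z.1)) z :=
    hP.smooth.contDiffAt.comp z h4
  exact h4.prodMk (h5.clm_apply (h3.clm_apply contDiffAt_snd))

theorem lf_smooth (hPH : ProjN NH PrH) :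
    ContDiff ℝ ∞ (fun z : E k × E m => lf π PrH z.1 z.2) := by
  have h1 : ContDiff ℝ ∞ (fun z : E k × E m => PrH z.1) := hPH.smooth.comp contDiff_fst
  have h2 : ContDiff ℝ ∞ (fun z : E k × E m => ContinuousLinearMap.adjoint π z.2) :=
    (ContinuousLinearMap.adjoint π).contDiff.comp contDiff_snd
  exact h1.clm_apply h2

theorem ph_fderiv_fst (hC : Cov n N Q NH T π pv jj) (hP : ProjN N Pr) {z : E k × E k}
    (hz : pv z.1 ≠ 0) (ζ : E k × E k) : (fderiv ℝ (ph π jj Pr) z ζ).1 = π ζ.1 := by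
  have h1 : HasFDerivAt (ph π jj Pr) (fderiv ℝ (ph π jj Pr) z) z :=
    ((ph_smooth hC hP hz).differentiableAt (by simp)).hasFDerivAt
  have h2 : HasFDerivAt (fun z : E k × E k => (ph π jj Pr z).1)
      ((ContinuousLinearMap.fst ℝ (E m) (E m)).comp (fderiv ℝ (ph π jj Pr) z)) z := h1.fst
  have h3 : HasFDerivAt (fun z : E k × E k => π z.1)
      (π.comp (ContinuousLinearMap.fst ℝ (E k) (E k))) z :=
    π.hasFDerivAt.comp z hasFDerivAt_fst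
  have h4 := h2.unique h3
  exact congrArg (fun L : (E k × E k) →L[ℝ] E m => L ζ) h4

theorem ph_liou (hC : Cov n N Q NH T π pv jj) (hP : ProjN N Pr) {z ζ : E k × E k}
    (hz : z ∈ TN NH) (hζ : ζ ∈ Tan (TN NH) z) :
    ⟪(ph π jj Pr z).2, (fderiv ℝ (ph π jj Pr) z ζ).1⟫ = ⟪z.2, ζ.1⟫ := by
  obtain ⟨ξ, hξ, h1⟩ := (hC.jjt _ hz.1 _).1 (tan_fst hζ)
  rw [ph_fderiv_fst hC hP (hC.pv0 _ hz.1), h1, hC.jjπ, ph_inner hC hP hz hξ]

theorem exists_secTN (hC : Cov n N Q NH T π pv jj) (hP : ProjN N Pr) (hPH : ProjN NH PrH)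
    {z : E k × E k} (hz : z ∈ TN NH) : ∃ σ, LocIm (TN N) (TN NH) σ (ph π jj Pr) z := by
  obtain ⟨s, hs⟩ := hC.sec z.1 hz.1
  have hfst : Tendsto (fun w : E m × E m => w.1) (𝓝 (ph π jj Pr z)) (𝓝 (π z.1)) :=
    continuous_fst.tendsto' _ _ rfl
  have hfst' : Tendsto (fun w : E k × E k => w.1) (𝓝 z) (𝓝 z.1) :=
    continuous_fst.tendsto' _ _ rfl
  refine ⟨fun w => (s w.1, lf π PrH (s w.1) w.2), ⟨ph_mem hC hP hz, ?_, ?_, ?_, ?_, ?_⟩⟩
  · show (s (π z.1), lf π PrH (s (π z.1)) (ph π jj Pr z).2) = z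
    rw [hs.fg, lf_ph hC hP hPH hz]
  · filter_upwards [hfst.eventually hs.smooth] with w hw
    have h1 : ContDiffAt ℝ ∞ (fun w : E m × E m => s w.1) w := ContDiffAt.comp w hw contDiffAt_fst
    have h2 : ContDiffAt ℝ ∞ (fun w : E m × E m => (s w.1, w.2)) w := h1.prodMk contDiffAt_snd
    exact h1.prodMk (ContDiffAt.comp w (lf_smooth hPH).contDiffAt h2)
  · have hopen : IsOpen {x | pv x ≠ 0} := isOpen_ne_fun pv.continuous continuous_const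
    filter_upwards [hfst'.eventually (hopen.mem_nhds (hC.pv0 _ hz.1))] with w hw
    exact ph_smooth hC hP hw
  · filter_upwards [hfst.eventually hs.fwd] with w hw hwT
    obtain ⟨h1, h2⟩ := hw hwT.1
    have h3 : w.2 ∈ Tan N (π (s w.1)) := by
      rw [h2]
      exact hwT.2
    refine ⟨⟨h1, lf_mem hPH h1 _⟩, ?_⟩
    rw [ph_lf hC hP hPH h1 h3, h2]
  · filter_upwards [hfst'.eventually hs.bwd] with w hw hwT
    obtain ⟨h1, h2⟩ := hw hwT.1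
    refine ⟨ph_mem hC hP hwT, ?_⟩
    show (s (π w.1), lf π PrH (s (π w.1)) (ph π jj Pr w).2) = w
    rw [h2, lf_ph hC hP hPH hwT]

end Pool.Agent.H99.TW
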