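import Pool.Agent.H99.TW.TDefs

/-!
# Uniform positivity near the cone field (module TQCpt)

PROOF. `D₁ = {z ∈ D | ‖z.2‖ = 1}` is compact (`D` closed, `z.1 ∈ N` compact). If there is no such `δ = c`, then for `δ = c = 1/(j+1)` there are
`x_j ∈ N`, `z_j, z'_j, z''_j ∈ D₁` with distances `≤ 1/(j+1)` violating one of the two inequalities. Pass to a subsequence (compactness
of `N × D₁ × D₁ × D₁`): in the limit the three base points are `x`, and the triple product at `x` (or `⟪B x u₁, u₂⟫`) is `≤ 0`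
(resp. `= 0`), but it is positive by `hB` (for the pair: `u₃ = u₂`, the product `⟪B u₁, u₂⟫² ⟪B u₂, u₂⟫` is positive). One can also
use for each inequality separately that a positive continuous function on the compact set
`{(x, z, z', z'') | x = z.1 = z'.1 = z''.1}` is `≥ 2c` near this set.
-/

set_option autoImplicit false

open scoped ContDiff Topology RealInnerProductSpace
open Set Filter

namespace Pool.Agent.H99.TW

open Pool.Agent.H57.NL Pool.Agent.H2.TG Pool.Agent.H2.TI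

variable {m : ℕ} {N : Set (E m)} {D : Set (E m × E m)}

theorem exists_delta (hc : IsCompact N) (hD : DoubleCone N D) {B : E m → (E m →L[ℝ] E m)}
    (hBs : ContDiff ℝ ∞ B)
    (hB : ∀ q u₁ u₂ u₃, (q, u₁) ∈ D → (q, u₂) ∈ D → (q, u₃) ∈ D → u₁ ≠ 0 → u₂ ≠ 0 → u₃ ≠ 0 →
      0 < ⟪B q u₁, u₂⟫ * ⟪B q u₂, u₃⟫ * ⟪B q u₁, u₃⟫) :
    ∃ δ c : ℝ, 0 < δ ∧ 0 < c ∧ ∀ x ∈ N, ∀ z ∈ D, ∀ z' ∈ D, ∀ z'' ∈ D, ‖z.2‖ = 1 → ‖z'.2‖ = 1 →
      ‖z''.2‖ = 1 → dist z.1 x ≤ δ → dist z'.1 x ≤ δ → dist z''.1 x ≤ δ →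
        c ≤ |⟪B x z.2, z'.2⟫| ∧ 0 < ⟪B x z.2, z'.2⟫ * ⟪B x z'.2, z''.2⟫ * ⟪B x z.2, z''.2⟫ := by
  have hcD : IsCompact (D ∩ {z : E m × E m | ‖z.2‖ = 1}) := by
    have h1 : IsCompact (N ×ˢ Metric.closedBall (0 : E m) 1) := hc.prod (isCompact_closedBall _ _)
    refine h1.of_isClosed_subset (hD.closed.inter (isClosed_eq (by fun_prop) continuous_const)) ?_
    rintro z ⟨hz, hz1⟩
    refine ⟨(hD.sub hz).1, ?_⟩
    rw [Metric.mem_closedBall, dist_zero_right]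
    exact le_of_eq hz1
  have hM := hc.prod (hcD.prod (hcD.prod hcD))
  have hBc : Continuous B := hBs.continuous
  have hc1 : Continuous (fun p : E m × ((E m × E m) × ((E m × E m) × (E m × E m))) =>
      ⟪B p.1 p.2.1.2, p.2.2.1.2⟫) :=
    ((hBc.comp continuous_fst).clm_apply (by fun_prop)).inner (by fun_prop)
  have hc2 : Continuous (fun p : E m × ((E m × E m) × ((E m × E m) × (E m × E m))) =>
      ⟪B p.1 p.2.2.1.2, p.2.2.2.2⟫) :=
    ((hBc.comp continuous_fst).clm_apply (by fun_prop)).inner (by fun_prop)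
  have hc3 : Continuous (fun p : E m × ((E m × E m) × ((E m × E m) × (E m × E m))) =>
      ⟪B p.1 p.2.1.2, p.2.2.2.2⟫) :=
    ((hBc.comp continuous_fst).clm_apply (by fun_prop)).inner (by fun_prop)
  have hh : Continuous (fun p : E m × ((E m × E m) × ((E m × E m) × (E m × E m))) =>
      max (max (dist p.2.1.1 p.1) (dist p.2.2.1.1 p.1)) (dist p.2.2.2.1 p.1)) := by
    fun_prop
  have hg : Continuous (fun p : E m × ((E m × E m) × ((E m × E m) × (E m × E m))) =>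
      min |⟪B p.1 p.2.1.2, p.2.2.1.2⟫|
        (⟪B p.1 p.2.1.2, p.2.2.1.2⟫ * ⟪B p.1 p.2.2.1.2, p.2.2.2.2⟫ * ⟪B p.1 p.2.1.2, p.2.2.2.2⟫)) :=
    hc1.abs.min ((hc1.mul hc2).mul hc3)
  obtain ⟨c, hc0, hcM⟩ := hM.exists_forall_le' (hh.max hg).continuousOn (a := 0) (by
    rintro ⟨x, z, z', z''⟩ ⟨hx, ⟨hz, hz1⟩, ⟨hz', hz1'⟩, ⟨hz'', hz1''⟩⟩
    rw [lt_max_iff]
    by_cases h : z.1 = x ∧ z'.1 = x ∧ z''.1 = x
    · right
      obtain ⟨h1, h2, h3⟩ := h
      have hne : ∀ w : E m, ‖w‖ = 1 → w ≠ 0 := by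
        intro w hw h0
        rw [h0, norm_zero] at hw
        exact zero_ne_one hw
      have hpos := hB x z.2 z'.2 z''.2 (by rw [← h1]; exact hz) (by rw [← h2]; exact hz')
        (by rw [← h3]; exact hz'') (hne _ hz1) (hne _ hz1') (hne _ hz1'')
      rw [lt_min_iff]
      refine ⟨?_, hpos⟩
      rw [abs_pos]
      intro h0
      simp only at h0
      rw [h0, zero_mul, zero_mul] at hpos
      exact lt_irrefl _ hpos
    · left
      by_contra hcon
      rw [not_lt] at hcon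
      have hcon' : max (max (dist z.1 x) (dist z'.1 x)) (dist z''.1 x) ≤ 0 := hcon
      rw [max_le_iff, max_le_iff] at hcon'
      exact h ⟨dist_le_zero.1 hcon'.1.1, dist_le_zero.1 hcon'.1.2, dist_le_zero.1 hcon'.2⟩)
  refine ⟨c / 2, c, half_pos hc0, hc0, ?_⟩
  intro x hx z hz z' hz' z'' hz'' hz1 hz1' hz1'' hd hd' hd''
  have h1 := hcM (x, z, z', z'') ⟨hx, ⟨hz, hz1⟩, ⟨hz', hz1'⟩, ⟨hz'', hz1''⟩⟩
  rw [le_max_iff] at h1
  rcases h1 with h1 | h1
  · exfalso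
    have h2 : max (max (dist z.1 x) (dist z'.1 x)) (dist z''.1 x) ≤ c / 2 :=
      max_le (max_le hd hd') hd''
    have h3 : c ≤ c / 2 := le_trans h1 h2
    linarith
  · rw [le_min_iff] at h1
    exact ⟨h1.1, lt_of_lt_of_le hc0 h1.2⟩

end Pool.Agent.H99.TW
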