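import Pool.Agent.H99.TW.TDefs
import Pool.Agent.H99.TW.TForm
import Mathlib.Geometry.Manifold.PartitionOfUnity

/-!
# A bilinear form positive on the cones (module TQPos)

PROOF of `exists_Qp`. For `q ∈ N` choose the cone `K q` of `DoubleCone.cone` (`choose!`). Let `t q` be the set of symmetric
`B : E m →L[ℝ] E m` with `0 < ⟪B u, u'⟫` for all `u, u' ∈ K q \ {0}` if `q ∈ N`, and the set of all symmetric `B` if `q ∉ N`; `t q` is convex.
Use `exists_contMDiffMap_forall_mem_convex_of_local` (as in `exists_glue` in `H2/TG/Glue.lean`, with values in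
`E m →L[ℝ] E m`). Local solution at `q₀ ∈ N`: let `w` be such that `0 < ⟪w, u⟫` for `u ∈ K q₀ \ {0}` (`exists_form` in `TForm`). For `q` near
`q₀` and `(q, u) ∈ D`, `u ≠ 0`: `⟪w, u⟫ ≠ 0`. Otherwise there are `(q_j, u_j) ∈ D` with `q_j → q₀`, `‖u_j‖ = 1` (scaling: `K` is a
cone), `⟪w, u_j⟫ = 0`; a limit `u` has `(q₀, u) ∈ D`, `‖u‖ = 1`, `⟪w, u⟫ = 0`: contradiction (`u ∈ K q₀` or `-u ∈ K q₀`). Take `B = w ⊗ w`
constant. For `q ∈ N` near `q₀`, `u, u' ∈ K q \ {0}`: `⟪B u, u'⟫ = ⟪w, u⟫ ⟪w, u'⟫`; if it is negative (it is not zero), a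
combination `a u + b u' ∈ K q`, `a, b > 0`, has `⟪w, a u + b u'⟫ = 0`, so `a u + b u' = 0`, so `u, -u ∈ K q`, `u = 0`: contradiction.
At `q₀ ∉ N`: `B = 0` on the open set `Nᶜ`.
Triple products: `u_i = σ_i c_i` with `σ_i = ±1`, `c_i ∈ K q \ {0}`; the product is `σ₁² σ₂² σ₃²` times a positive number.
-/

set_option autoImplicit false

open scoped ContDiff Topology RealInnerProductSpace
open Set Filter

namespace Pool.Agent.H99.TW

open Pool.Agent.H57.NL Pool.Agent.H2.TG Pool.Agent.H2.TI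

variable {m : ℕ} {N : Set (E m)} {D : Set (E m × E m)}

theorem exists_Qp (hc : IsCompact N) (hD : DoubleCone N D) :
    ∃ B : E m → (E m →L[ℝ] E m), ContDiff ℝ ∞ B ∧ (∀ x u w, ⟪B x u, w⟫ = ⟪B x w, u⟫) ∧
      ∀ q u₁ u₂ u₃, (q, u₁) ∈ D → (q, u₂) ∈ D → (q, u₃) ∈ D → u₁ ≠ 0 → u₂ ≠ 0 → u₃ ≠ 0 →
        0 < ⟪B q u₁, u₂⟫ * ⟪B q u₂, u₃⟫ * ⟪B q u₁, u₃⟫ := by
  classical
  have hcl : IsClosed N := hc.isClosed
  have hex := hD.cone
  choose! K hK1 hK0 hKadd hKsm hKsal hKD using hex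
  have hNq : ∀ q u, (q, u) ∈ D → q ∈ N := fun q u h => (hD.sub h).1
  -- the convex conditions
  let t : E m → Set (E m →L[ℝ] E m) := fun q => {B | (∀ u w, ⟪B u, w⟫ = ⟪B w, u⟫) ∧
    (q ∈ N → ∀ u ∈ K q, u ≠ 0 → ∀ u' ∈ K q, u' ≠ 0 → 0 < ⟪B u, u'⟫)}
  have ht : ∀ q, Convex ℝ (t q) := by
    intro q B hB B' hB' a b ha hb hab
    refine ⟨fun u w => ?_, fun hq u hu hu0 u' hu' hu0' => ?_⟩
    · rw [add_apply, add_apply, smul_apply,
        smul_apply, smul_apply, smul_apply,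
        inner_add_left, inner_add_left, real_inner_smul_left, real_inner_smul_left, real_inner_smul_left,
        real_inner_smul_left, hB.1 u w, hB'.1 u w]
    · rw [add_apply, smul_apply,
        smul_apply, inner_add_left, real_inner_smul_left, real_inner_smul_left]
      have h1 := hB.2 hq u hu hu0 u' hu' hu0'
      have h2 := hB'.2 hq u hu hu0 u' hu' hu0'
      rcases ha.eq_or_lt with h | h
      · rw [← h, zero_add] at hab
        rw [← h, hab, zero_mul, zero_add, one_mul]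
        exact h2
      · have h3 : 0 < a * ⟪B u, u'⟫ := mul_pos h h1
        have h4 : 0 ≤ b * ⟪B' u, u'⟫ := mul_nonneg hb h2.le
        linarith
  have hloc : ∀ q₀ : E m, ∃ W : Set (E m), IsOpen W ∧ q₀ ∈ W ∧ ∃ g : E m → (E m →L[ℝ] E m),
      ContDiffOn ℝ ∞ g W ∧ ∀ y ∈ W, g y ∈ t y := by
    intro q₀
    by_cases hq₀ : q₀ ∈ N
    · obtain ⟨w, hw⟩ := exists_form (hK1 q₀ hq₀) (hK0 q₀ hq₀) (hKadd q₀ hq₀) (hKsm q₀ hq₀) (hKsal q₀ hq₀)
      let C : Set (E m × E m) := (Metric.closedBall q₀ 1 ×ˢ Metric.sphere (0 : E m) 1) ∩ (D ∩ {z | ⟪w, z.2⟫ = 0})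
      have hC : IsCompact C := ((isCompact_closedBall q₀ 1).prod (isCompact_sphere (0 : E m) 1)).inter_right
        (hD.closed.inter (isClosed_eq (by fun_prop) continuous_const))
      have hCi : IsClosed (Prod.fst '' C) := (hC.image continuous_fst).isClosed
      have hq0 : q₀ ∉ Prod.fst '' C := by
        rintro ⟨⟨q, u⟩, ⟨⟨_, hu1⟩, hu2, hu3⟩, rfl⟩
        have hun : u ≠ 0 := by
          rintro rfl
          simp at hu1
        rcases (hKD _ hq₀ u).1 hu2 with h | h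
        · exact (hw u h hun).ne' hu3
        · have h1 := hw (-u) h (neg_ne_zero.2 hun)
          rw [inner_neg_right] at h1
          have h2 : ⟪w, u⟫ = 0 := hu3
          linarith
      refine ⟨(Prod.fst '' C)ᶜ ∩ Metric.ball q₀ 1, hCi.isOpen_compl.inter Metric.isOpen_ball,
        ⟨hq0, Metric.mem_ball_self one_pos⟩, fun _ => (innerSL ℝ w).smulRight w, contDiffOn_const, ?_⟩
      rintro q ⟨hq1, hq2⟩
      have hB : ∀ u v : E m, ⟪((innerSL ℝ w).smulRight w : E m →L[ℝ] E m) u, v⟫ = ⟪w, u⟫ * ⟪w, v⟫ := fun u v => by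
        rw [ContinuousLinearMap.smulRight_apply, innerSL_apply_apply, real_inner_smul_left]
      -- no zero of `w` on `D` over `q`
      have hne : ∀ u, (q, u) ∈ D → u ≠ 0 → ⟪w, u⟫ ≠ 0 := by
        intro u hu hu0 h0
        have hq := hNq q u hu
        have hn : 0 < ‖u‖ := norm_pos_iff.2 hu0
        apply hq1
        refine ⟨(q, ‖u‖⁻¹ • u), ⟨⟨Metric.ball_subset_closedBall hq2, ?_⟩, ?_, ?_⟩, rfl⟩
        · rw [mem_sphere_zero_iff_norm, norm_smul, norm_inv, norm_norm, inv_mul_cancel₀ hn.ne']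
        · rcases (hKD q hq u).1 hu with h | h
          · exact (hKD q hq _).2 (Or.inl (hKsm q hq u h _ (by positivity)))
          · refine (hKD q hq _).2 (Or.inr ?_)
            rw [← smul_neg]
            exact hKsm q hq _ h _ (by positivity)
        · change ⟪w, ‖u‖⁻¹ • u⟫ = 0
          rw [real_inner_smul_right, h0, mul_zero]
      refine ⟨fun u v => by rw [hB, hB, mul_comm], fun hq u hu hu0 u' hu' hu0' => ?_⟩
      rw [hB]
      have h1 := hne u ((hKD q hq u).2 (Or.inl hu)) hu0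
      have h2 := hne u' ((hKD q hq u').2 (Or.inl hu')) hu0'
      by_contra hneg
      have h3 : ⟪w, u⟫ * ⟪w, u'⟫ < 0 := lt_of_le_of_ne (not_lt.1 hneg) (mul_ne_zero h1 h2)
      have hv : |⟪w, u'⟫| • u + |⟪w, u⟫| • u' ∈ K q :=
        hKadd q hq _ (hKsm q hq u hu _ (abs_nonneg _)) _ (hKsm q hq u' hu' _ (abs_nonneg _))
      have hwv : ⟪w, |⟪w, u'⟫| • u + |⟪w, u⟫| • u'⟫ = 0 := by
        rw [inner_add_right, real_inner_smul_right, real_inner_smul_right]
        rcases lt_or_gt_of_ne h1 with h | h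
        · have h' : 0 < ⟪w, u'⟫ := by
            by_contra h4
            have := mul_nonneg_of_nonpos_of_nonpos h.le (not_lt.1 h4)
            linarith
          rw [abs_of_pos h', abs_of_neg h]
          ring
        · have h' : ⟪w, u'⟫ < 0 := by
            by_contra h4
            have := mul_nonneg h.le (not_lt.1 h4)
            linarith
          rw [abs_of_neg h', abs_of_pos h]
          ring
      have hv0 : |⟪w, u'⟫| • u + |⟪w, u⟫| • u' = 0 := by
        by_contra h4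
        exact hne _ ((hKD q hq _).2 (Or.inl hv)) h4 hwv
      have ha : 0 < |⟪w, u'⟫| := abs_pos.2 h2
      have h5 : -u = (|⟪w, u'⟫|⁻¹ * |⟪w, u⟫|) • u' := by
        have h6 : |⟪w, u⟫| • u' = -(|⟪w, u'⟫| • u) := (neg_eq_of_add_eq_zero_right hv0).symm
        rw [mul_smul, h6, smul_neg, smul_smul, inv_mul_cancel₀ ha.ne', one_smul]
      exact hu0 (hKsal q hq u hu (by rw [h5]; exact hKsm q hq u' hu' _ (by positivity)))
    · refine ⟨Nᶜ, hcl.isOpen_compl, hq₀, fun _ => 0, contDiffOn_const, fun y hy => ⟨fun u w => ?_, fun h => absurd h hy⟩⟩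
      rw [zero_apply, zero_apply, inner_zero_left, inner_zero_left]
  have : ProperSpace (E m) := FiniteDimensional.proper_real (E m)
  obtain ⟨g, hg⟩ := exists_contMDiffMap_forall_mem_convex_of_local (n := (⊤ : ℕ∞))
    (modelWithCornersSelf ℝ (E m)) (F := E m →L[ℝ] E m) (M := E m) (t := t) ht (fun x => by
      obtain ⟨W, hW, hx, g, hg, hgt⟩ := hloc x
      exact ⟨W, hW.mem_nhds hx, g, contMDiffOn_iff_contDiffOn.2 hg, hgt⟩)
  refine ⟨g, contMDiff_iff_contDiff.1 g.contMDiff, fun x u w => (hg x).1 u w, ?_⟩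
  intro q u₁ u₂ u₃ h1 h2 h3 n1 n2 n3
  have hq := hNq q u₁ h1
  have hp := (hg q).2 hq
  rcases (hKD q hq u₁).1 h1 with k1 | k1 <;> rcases (hKD q hq u₂).1 h2 with k2 | k2 <;>
    rcases (hKD q hq u₃).1 h3 with k3 | k3
  · exact mul_pos (mul_pos (hp _ k1 n1 _ k2 n2) (hp _ k2 n2 _ k3 n3)) (hp _ k1 n1 _ k3 n3)
  · have := mul_pos (mul_pos (hp _ k1 n1 _ k2 n2) (hp _ k2 n2 _ k3 (neg_ne_zero.2 n3))) (hp _ k1 n1 _ k3 (neg_ne_zero.2 n3))
    simpa only [map_neg, inner_neg_left, inner_neg_right, neg_mul, mul_neg, neg_neg] using this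
  · have := mul_pos (mul_pos (hp _ k1 n1 _ k2 (neg_ne_zero.2 n2)) (hp _ k2 (neg_ne_zero.2 n2) _ k3 n3)) (hp _ k1 n1 _ k3 n3)
    simpa only [map_neg, inner_neg_left, inner_neg_right, neg_mul, mul_neg, neg_neg] using this
  · have := mul_pos (mul_pos (hp _ k1 n1 _ k2 (neg_ne_zero.2 n2)) (hp _ k2 (neg_ne_zero.2 n2) _ k3 (neg_ne_zero.2 n3)))
      (hp _ k1 n1 _ k3 (neg_ne_zero.2 n3))
    simpa only [map_neg, inner_neg_left, inner_neg_right, neg_mul, mul_neg, neg_neg] using this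
  · have := mul_pos (mul_pos (hp _ k1 (neg_ne_zero.2 n1) _ k2 n2) (hp _ k2 n2 _ k3 n3)) (hp _ k1 (neg_ne_zero.2 n1) _ k3 n3)
    simpa only [map_neg, inner_neg_left, inner_neg_right, neg_mul, mul_neg, neg_neg] using this
  · have := mul_pos (mul_pos (hp _ k1 (neg_ne_zero.2 n1) _ k2 n2) (hp _ k2 n2 _ k3 (neg_ne_zero.2 n3)))
      (hp _ k1 (neg_ne_zero.2 n1) _ k3 (neg_ne_zero.2 n3))
    simpa only [map_neg, inner_neg_left, inner_neg_right, neg_mul, mul_neg, neg_neg] using this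
  · have := mul_pos (mul_pos (hp _ k1 (neg_ne_zero.2 n1) _ k2 (neg_ne_zero.2 n2)) (hp _ k2 (neg_ne_zero.2 n2) _ k3 n3))
      (hp _ k1 (neg_ne_zero.2 n1) _ k3 n3)
    simpa only [map_neg, inner_neg_left, inner_neg_right, neg_mul, mul_neg, neg_neg] using this
  · have := mul_pos (mul_pos (hp _ k1 (neg_ne_zero.2 n1) _ k2 (neg_ne_zero.2 n2)) (hp _ k2 (neg_ne_zero.2 n2) _ k3 (neg_ne_zero.2 n3)))
      (hp _ k1 (neg_ne_zero.2 n1) _ k3 (neg_ne_zero.2 n3))
    simpa only [map_neg, inner_neg_left, inner_neg_right, neg_mul, mul_neg, neg_neg] using this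

end Pool.Agent.H99.TW
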