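import Pool.Agent.H99.TW.TQPos
import Pool.Agent.H99.TW.TQCpt
import Pool.Agent.H2.TI.SProj

/-!
# The rank one tensor (module TQRank)

PROOF of `exists_rankQ`. `B`, `δ`, `c` from `exists_Qp`, `exists_delta`; `Pr` from `exists_proj` (`H2/TI/SProj.lean`). `Y = {q | ∃ u, u ≠ 0, (q, u) ∈ D}` is
the projection of the compact set `D₁ = {z ∈ D | ‖z.2‖ = 1}` (scale by the cone property). Choose a finite set `I ⊂ D₁` such that every
`y ∈ Y` has distance `< δ / 2` to some `z.1`, `z ∈ I` (`IsCompact.elim_nhds_subcover` or finite subcover of `D₁` by the open sets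
`{z' | dist z'.1 z.1 < δ/2}`). `χ z` = `ContDiffBump` at `z.1` with radii `δ/2`, `δ`. Smooth sign function: `sg t = 2 * Real.smoothTransition ((t / c + 1) / 2) - 1`:
`1` for `t ≥ c`, `-1` for `t ≤ -c`. `g z x = Pr x (B x z.2)`. Define
`Q x w = Σ_{z, z' ∈ I} (χ z x * χ z' x * sg ⟪B x z.2, z'.2⟫ * ⟪g z' x, w⟫) • g z x` (as a continuous linear map; smooth in `x`).
Rank: let `x ∈ N`. If no `z ∈ I` has `χ z x ≠ 0` take `v = 0`. Otherwise fix `z₀ ∈ I` with `χ z₀ x ≠ 0`, so `dist x z₀.1 < δ`;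
`σ z = sg ⟪B x z₀.2, z.2⟫`, `v = Σ χ z x * σ z • g z x`. For `z, z'` with `χ z x, χ z' x ≠ 0` (so `dist ≤ δ`) all the numbers
`⟪B x z₀.2, z.2⟫`, `⟪B x z.2, z'.2⟫`, … have absolute value `≥ c` and the triple product is positive, so
`sg ⟪B x z.2, z'.2⟫ = σ z * σ z'`. So `Q x = v ⊗ v`. `v ∈ Tan N x` (`ProjN.mem`, `IsSubmfd.tan_add`, `Tan.smul`).
Positivity: `(x, u) ∈ D`, `u ≠ 0`, w.l.o.g. `‖u‖ = 1`. `⟪v, u⟫ = Σ χ z x σ z ⟪B x z.2, u⟫` (`ProjN.orth`, `u ∈ Tan N x`, `z ∈ I` with `χ z x ≠ 0`), and by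
the triple product for `z₀, z, (x, u)`: `⟪B x z.2, u⟫` has the sign `σ z * sign ⟪B x z₀.2, u⟫`. All terms have the same sign, and the
term of a `z ∈ I` with `dist x z.1 < δ / 2` is not zero (`χ z x = 1`). So `⟪Q x u, u⟫ = ⟪v, u⟫² > 0`.
`ε`: `‖Q x‖` is continuous and positive on the compact set `Y` (`Q x u ≠ 0`); if `Y` is empty take `ε = 1`.
-/

set_option autoImplicit false

open scoped ContDiff Topology RealInnerProductSpace
open Set Filter

namespace Pool.Agent.H99.TW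

open Pool.Agent.H57.NL Pool.Agent.H2.TG Pool.Agent.H2.TI

variable {m n : ℕ} {N : Set (E m)} {D : Set (E m × E m)}

/-- A smooth sign function. -/
private noncomputable def rkSg (c t : ℝ) : ℝ := 2 * Real.smoothTransition ((t / c + 1) / 2) - 1

private theorem rkSg_pos {c t : ℝ} (hc : 0 < c) (h : c ≤ |t|) (ht : 0 < t) : rkSg c t = 1 := by
  rw [abs_of_pos ht] at h
  have h1 : 1 ≤ t / c := (one_le_div hc).2 h
  rw [rkSg, Real.smoothTransition.one_of_one_le (by linarith)]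
  norm_num

private theorem rkSg_neg {c t : ℝ} (hc : 0 < c) (h : c ≤ |t|) (ht : t < 0) : rkSg c t = -1 := by
  rw [abs_of_neg ht] at h
  have h1 : 1 ≤ -t / c := (one_le_div hc).2 h
  have h2 : -t / c = -(t / c) := neg_div c t
  rw [rkSg, Real.smoothTransition.zero_of_nonpos (by linarith)]
  norm_num

private theorem rkSg_smooth (c : ℝ) : ContDiff ℝ ∞ (rkSg c) := by
  unfold rkSg
  exact (contDiff_const.mul (Real.smoothTransition.contDiff.comp
    (((contDiff_id.div_const c).add contDiff_const).div_const 2))).sub contDiff_const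

private theorem rk_mul {c s t r : ℝ} (hc : 0 < c) (h1 : c ≤ |s|) (h2 : c ≤ |t|) (h3 : c ≤ |r|)
    (h : 0 < s * t * r) : rkSg c t = rkSg c s * rkSg c r := by
  have hs : s ≠ 0 := by
    intro h0
    rw [h0, abs_zero] at h1
    linarith
  have hr : r ≠ 0 := by
    intro h0
    rw [h0, abs_zero] at h3
    linarith
  rcases lt_or_gt_of_ne hs with h4 | h4 <;> rcases lt_or_gt_of_ne hr with h5 | h5
  · have h6 : 0 < t := by
      by_contra h7
      have h8 : 0 < s * r := mul_pos_of_neg_of_neg h4 h5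
      nlinarith
    rw [rkSg_neg hc h1 h4, rkSg_neg hc h3 h5, rkSg_pos hc h2 h6]
    norm_num
  · have h6 : t < 0 := by
      by_contra h7
      have h8 : s * r < 0 := mul_neg_of_neg_of_pos h4 h5
      nlinarith
    rw [rkSg_neg hc h1 h4, rkSg_pos hc h3 h5, rkSg_neg hc h2 h6]
    norm_num
  · have h6 : t < 0 := by
      by_contra h7
      have h8 : s * r < 0 := mul_neg_of_pos_of_neg h4 h5
      nlinarith
    rw [rkSg_pos hc h1 h4, rkSg_neg hc h3 h5, rkSg_neg hc h2 h6]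
    norm_num
  · have h6 : 0 < t := by
      by_contra h7
      have h8 : 0 < s * r := mul_pos h4 h5
      nlinarith
    rw [rkSg_pos hc h1 h4, rkSg_pos hc h3 h5, rkSg_pos hc h2 h6]
    norm_num

private theorem rk_sgmul {c s t r : ℝ} (hc : 0 < c) (h1 : c ≤ |s|) (h : 0 < s * t * r) :
    0 < rkSg c s * t * r := by
  have hs : s ≠ 0 := by
    intro h0
    rw [h0, abs_zero] at h1
    linarith
  rcases lt_or_gt_of_ne hs with h4 | h4
  · rw [rkSg_neg hc h1 h4]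
    nlinarith
  · rw [rkSg_pos hc h1 h4]
    nlinarith

private theorem rk_scale (hD : DoubleCone N D) {q u : E m} (h : (q, u) ∈ D) {t : ℝ} (ht : 0 ≤ t) :
    (q, t • u) ∈ D := by
  obtain ⟨K, _, _, _, hK, _, hKD⟩ := hD.cone q (hD.sub h).1
  rw [hKD] at h ⊢
  rcases h with h | h
  · exact Or.inl (hK u h t ht)
  · refine Or.inr ?_
    rw [← smul_neg]
    exact hK _ h t ht

private theorem rk_cpt (hc : IsCompact N) (hD : DoubleCone N D) :
    IsCompact {z : E m × E m | z ∈ D ∧ ‖z.2‖ = 1} := by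
  have h1 : IsCompact (N ×ˢ Metric.closedBall (0 : E m) 1) :=
    hc.prod (isCompact_closedBall _ _)
  refine h1.of_isClosed_subset ?_ ?_
  · exact hD.closed.inter (isClosed_eq (continuous_snd.norm) continuous_const)
  · rintro z ⟨hz, h⟩
    refine ⟨(hD.sub hz).1, ?_⟩
    rw [mem_closedBall_zero_iff, h]

theorem exists_rankQ (hN : IsSubmfd n N) (hc : IsCompact N) (hD : DoubleCone N D) :
    ∃ (Q : E m → (E m →L[ℝ] E m)) (ε : ℝ), RankQ n N Q ∧ 0 < ε ∧
      ∀ q u, (q, u) ∈ D → u ≠ 0 → 3 * ε ≤ ‖Q q‖ ∧ 0 < ⟪Q q u, u⟫ := by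
  obtain ⟨B, hBs, _, hB⟩ := exists_Qp hc hD
  obtain ⟨δ, c, hδ, hc0, hkey⟩ := exists_delta hc hD hBs hB
  obtain ⟨Pr, hPr⟩ := exists_proj hN hc.isClosed
  have hD1 := rk_cpt hc hD
  obtain ⟨I, hI, hcov⟩ := hD1.elim_nhds_subcover (fun z => Metric.ball z (δ / 2))
    (fun z _ => Metric.ball_mem_nhds z (by positivity))
  let χ : E m × E m → E m → ℝ := fun z => (⟨δ / 2, δ, by positivity, by linarith⟩ :
    ContDiffBump z.1)
  have hχ0 : ∀ z x, 0 ≤ χ z x := fun z x => ContDiffBump.nonneg' _ _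
  have hχs : ∀ z, ContDiff ℝ ∞ (χ z) := fun z => ContDiffBump.contDiff _
  have hχd : ∀ z x, χ z x ≠ 0 → dist z.1 x ≤ δ := by
    intro z x h
    by_contra h1
    refine h (ContDiffBump.zero_of_le_dist _ ?_)
    rw [dist_comm]
    exact (not_le.1 h1).le
  have hχ1 : ∀ z x, dist x z.1 < δ / 2 → χ z x = 1 := fun z x h =>
    ContDiffBump.one_of_mem_closedBall _ (Metric.mem_closedBall.2 h.le)
  let g : E m × E m → E m → E m := fun z x => Pr x (B x z.2)
  have hgs : ∀ z, ContDiff ℝ ∞ (g z) := fun z =>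
    hPr.smooth.clm_apply (hBs.clm_apply contDiff_const)
  let Q : E m → (E m →L[ℝ] E m) := fun x => ∑ z ∈ I, ∑ z' ∈ I,
    (χ z x * χ z' x * rkSg c ⟪B x z.2, z'.2⟫) • ((innerSL ℝ (g z' x)).smulRight (g z x))
  have hQa : ∀ x w, Q x w = ∑ z ∈ I, ∑ z' ∈ I,
      (χ z x * χ z' x * rkSg c ⟪B x z.2, z'.2⟫ * ⟪g z' x, w⟫) • g z x := by
    intro x w
    simp only [Q, ContinuousLinearMap.sum_apply, ContinuousLinearMap.smul_apply,
      ContinuousLinearMap.smulRight_apply, innerSL_apply_apply, smul_smul]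
  have hQs : ContDiff ℝ ∞ Q := by
    rw [contDiff_clm_apply_iff]
    intro w
    simp only [hQa]
    refine ContDiff.sum fun z _ => ContDiff.sum fun z' _ => ?_
    have e1 : ContDiff ℝ ∞ (fun x => rkSg c ⟪B x z.2, z'.2⟫) :=
      (rkSg_smooth c).comp ((hBs.clm_apply contDiff_const).inner ℝ contDiff_const)
    have e2 : ContDiff ℝ ∞ (fun x => ⟪g z' x, w⟫) := (hgs z').inner ℝ contDiff_const
    have e3 : ContDiff ℝ ∞
        (fun x => χ z x * χ z' x * rkSg c ⟪B x z.2, z'.2⟫ * ⟪g z' x, w⟫) :=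
      (((hχs z).mul (hχs z')).mul e1).mul e2
    exact e3.smul (hgs z)
  -- the vector
  let v : E m × E m → E m → E m := fun z₀ x =>
    ∑ z ∈ I, (χ z x * rkSg c ⟪B x z₀.2, z.2⟫) • g z x
  have hQv : ∀ x ∈ N, ∀ z₀ ∈ I, χ z₀ x ≠ 0 → IsV Q x (v z₀ x) := by
    intro x hx z₀ hz₀ h0 w
    have hin : ⟪v z₀ x, w⟫ = ∑ z ∈ I, (χ z x * rkSg c ⟪B x z₀.2, z.2⟫) * ⟪g z x, w⟫ := by
      simp only [v, sum_inner, real_inner_smul_left]
    rw [hQa, hin]
    simp only [v]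
    rw [Finset.smul_sum]
    refine Finset.sum_congr rfl fun z hz => ?_
    rw [smul_smul, Finset.sum_mul, Finset.sum_smul]
    refine Finset.sum_congr rfl fun z' hz' => ?_
    congr 1
    by_cases h1 : χ z x = 0
    · rw [h1]
      ring
    by_cases h2 : χ z' x = 0
    · rw [h2]
      ring
    have hd0 := hχd _ _ h0
    have hd1 := hχd _ _ h1
    have hd2 := hχd _ _ h2
    have k1 := hkey x hx z₀ (hI _ hz₀).1 z (hI _ hz).1 z' (hI _ hz').1 (hI _ hz₀).2 (hI _ hz).2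
      (hI _ hz').2 hd0 hd1 hd2
    have k2 := hkey x hx z₀ (hI _ hz₀).1 z' (hI _ hz').1 z (hI _ hz).1 (hI _ hz₀).2 (hI _ hz').2
      (hI _ hz).2 hd0 hd2 hd1
    have k3 := hkey x hx z (hI _ hz).1 z' (hI _ hz').1 z (hI _ hz).1 (hI _ hz).2 (hI _ hz').2
      (hI _ hz).2 hd1 hd2 hd1
    rw [rk_mul hc0 k1.1 k3.1 k2.1 k1.2]
    ring
  have hvt : ∀ x ∈ N, ∀ z₀, v z₀ x ∈ Tan N x := by
    intro x hx z₀
    have h1 : ∀ J : Finset (E m × E m),
        ∑ z ∈ J, (χ z x * rkSg c ⟪B x z₀.2, z.2⟫) • g z x ∈ Tan N x := by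
      classical
      intro J
      induction J using Finset.induction_on with
      | empty =>
        rw [Finset.sum_empty]
        exact hN.tan_zero hx
      | insert a J ha ih =>
        rw [Finset.sum_insert ha]
        exact hN.tan_add hx (Tan.smul (hPr.mem x hx _) _) ih
    exact h1 I
  have hnorm : ∀ q u, (q, u) ∈ D → u ≠ 0 → ‖‖u‖⁻¹ • u‖ = 1 ∧ (q, ‖u‖⁻¹ • u) ∈ D := by
    intro q u hqu hu
    refine ⟨?_, rk_scale hD hqu (by positivity)⟩
    rw [norm_smul, norm_inv, norm_norm, inv_mul_cancel₀ (norm_ne_zero_iff.2 hu)]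
  have hpos : ∀ q u, (q, u) ∈ D → u ≠ 0 → 0 < ⟪Q q u, u⟫ := by
    intro x u hxu hu
    obtain ⟨hn1, hmem⟩ := hnorm x u hxu hu
    set u₁ := ‖u‖⁻¹ • u with hu₁
    have hx : x ∈ N := (hD.sub hxu).1
    have hut : u₁ ∈ Tan N x := (hD.sub hmem).2
    obtain ⟨z₀, hz₀, hball⟩ := mem_iUnion₂.1 (hcov (show (x, u₁) ∈ {z : E m × E m | z ∈ D ∧
      ‖z.2‖ = 1} from ⟨hmem, hn1⟩))
    have hdist : dist x z₀.1 < δ / 2 := lt_of_le_of_lt (le_max_left _ _) (Metric.mem_ball.1 hball)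
    have hone : χ z₀ x = 1 := hχ1 _ _ hdist
    have h0 : χ z₀ x ≠ 0 := by
      rw [hone]
      exact one_ne_zero
    have hQ := hQv x hx z₀ hz₀ h0
    have hin : ∀ s : ℝ, ⟪v z₀ x, u₁⟫ * s =
        ∑ z ∈ I, χ z x * (rkSg c ⟪B x z₀.2, z.2⟫ * ⟪B x z.2, u₁⟫ * s) := by
      intro s
      simp only [v, sum_inner, real_inner_smul_left, Finset.sum_mul]
      refine Finset.sum_congr rfl fun z _ => ?_
      have : ⟪g z x, u₁⟫ = ⟪B x z.2, u₁⟫ := hPr.orth x hx _ _ hut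
      rw [this]
      ring
    have hterm : ∀ z ∈ I, χ z x ≠ 0 →
        0 < rkSg c ⟪B x z₀.2, z.2⟫ * ⟪B x z.2, u₁⟫ * ⟪B x z₀.2, u₁⟫ := by
      intro z hz h1
      have k1 := hkey x hx z₀ (hI _ hz₀).1 z (hI _ hz).1 (x, u₁) hmem (hI _ hz₀).2 (hI _ hz).2
        hn1 (hχd _ _ h0) (hχd _ _ h1) (by rw [dist_self]; exact hδ.le)
      exact rk_sgmul hc0 k1.1 k1.2
    have hsum : 0 < ⟪v z₀ x, u₁⟫ * ⟪B x z₀.2, u₁⟫ := by
      rw [hin]
      refine Finset.sum_pos' (fun z hz => ?_) ⟨z₀, hz₀, ?_⟩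
      · by_cases h1 : χ z x = 0
        · rw [h1, zero_mul]
        · exact mul_nonneg (hχ0 _ _) (hterm z hz h1).le
      · rw [hone, one_mul]
        exact hterm z₀ hz₀ h0
    have hne : ⟪v z₀ x, u₁⟫ ≠ 0 := by
      intro h
      rw [h, zero_mul] at hsum
      exact lt_irrefl _ hsum
    have hne' : ⟪v z₀ x, u⟫ ≠ 0 := by
      intro h
      apply hne
      rw [hu₁, real_inner_smul_right, h, mul_zero]
    rw [hQ u, real_inner_smul_left]
    exact mul_self_pos.2 hne'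
  have hrank : RankQ n N Q := by
    refine ⟨hN, hc, hQs, fun x hx => ?_⟩
    by_cases h : ∃ z₀ ∈ I, χ z₀ x ≠ 0
    · obtain ⟨z₀, hz₀, h0⟩ := h
      exact ⟨v z₀ x, hvt x hx z₀, hQv x hx z₀ hz₀ h0⟩
    · push Not at h
      refine ⟨0, hN.tan_zero hx, fun w => ?_⟩
      rw [hQa, smul_zero]
      refine Finset.sum_eq_zero fun z hz => Finset.sum_eq_zero fun z' hz' => ?_
      rw [h z hz, zero_mul, zero_mul, zero_mul, zero_smul]
  by_cases hemp : ({z : E m × E m | z ∈ D ∧ ‖z.2‖ = 1}).Nonempty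
  · obtain ⟨y, hy, hmin⟩ := hD1.exists_isMinOn hemp
      (f := fun z => ‖Q z.1‖) (hQs.continuous.comp continuous_fst).norm.continuousOn
    have hQy : 0 < ‖Q y.1‖ := by
      rw [norm_pos_iff]
      intro h
      have hy2 : y.2 ≠ 0 := by
        intro h2
        have := hy.2
        rw [h2, norm_zero] at this
        exact zero_ne_one this
      have := hpos y.1 y.2 hy.1 hy2
      rw [h, ContinuousLinearMap.zero_apply, inner_zero_left] at this
      exact lt_irrefl _ this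
    refine ⟨Q, ‖Q y.1‖ / 3, hrank, by positivity, fun q u hqu hu => ⟨?_, hpos q u hqu hu⟩⟩
    obtain ⟨h1, h2⟩ := hnorm q u hqu hu
    have h3 := isMinOn_iff.1 hmin (q, ‖u‖⁻¹ • u) ⟨h2, h1⟩
    dsimp only at h3
    linarith
  · refine ⟨Q, 1, hrank, one_pos, fun q u hqu hu => absurd ?_ hemp⟩
    obtain ⟨h1, h2⟩ := hnorm q u hqu hu
    exact ⟨(q, ‖u‖⁻¹ • u), h2, h1⟩

theorem embQ_of {Q : E m → (E m →L[ℝ] E m)} {ε : ℝ} {S : Set (E m × E m)} (hε : 0 < ε)
    (h : ∀ q u, (q, u) ∈ D → u ≠ 0 → 3 * ε ≤ ‖Q q‖ ∧ 0 < ⟪Q q u, u⟫) (hS : Chained D S) :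
    EmbQ Q S ε := by
  refine ⟨hε, fun z hz z' hz' h1 hne => ?_, fun z hz b hb h1 => h _ _ (hS.vert z hz b h1) hb⟩
  refine h _ _ (hS.sec z hz z' hz' h1) fun h0 => hne ?_
  exact Prod.ext h1 (sub_eq_zero.1 h0).symm

end Pool.Agent.H99.TW
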