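import Pool.Agent.H99.TW.TSymA
import Pool.Agent.H99.TW.KNRPa
import Pool.Agent.H99.TW.KNAll

/-!
# The symmetry of the good phases (module TSymB)

PROOFS.
* `sym_RPN`: `x ∈ RPN`, `x' = (τ x.1, x.2) ∈ PSN` (`sym_PSN`). `tl Λ x' s = -tl Λ x (-s)`: `leafN_ends` (`KNAll`) and `tl Λ x → +∞` at `+∞` give `tl Λ x → -∞` at `-∞`, so `tl Λ x' → +∞`.
  `pc Λ x' 0 s = -pc Λ x 0 (-s)` (`sym_Λ`, `sym_tl`), phases `φ' s = φ (-s)`. Let `η` be the lift of `RP_lift` (`KNRPa`): `|η (s, s')| < π/2` for `s + P ≤ s'`. `η' (s, s') = η (-s', -s)` is a `PLift` of the curve of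
  `x'`: `pc' t - pc' s = pc (-s) - pc (-t)`. `|η' (0, s)| = |η (-s, 0)| < π/2` for `s ≥ P`.
* `sym_Cq`: `w ∈ Cq R C (T q) ↔ -w ∈ Cq R C q`: `(R w.1 (T q), w.2) = τ (R (-w.1) q, -w.2)` (`hS.R`).
* `sym_Top`, `sym_Bot`, `sym_ZUp`, `sym_ZDn`: definitions and `sym_Cq`.
* `RPN_zero`: `V y.1 = 0`, so `R t y.1 = y.1` for all `t` (`IsFlow.unique`). Along the leaf `Λ s x` the base point is `y.1` (`leafN_q`), `Λ s x ∈ PSN`, so `sin (Λ s x).2 = 0` (a local equation has `dpl V u z a b = b * dpl V u z 0 1`, since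
  `a • V y.1 = 0`, and `dpl V u z 0 1 ≠ 0` by `reg`). The phase is continuous, so it is constant `= φ`, `φ ∈ π ℤ`; `tl Λ x s = s cos φ → +∞` gives `cos φ = 1`, `r` is constant: `pc Λ x 0 s = (s, y.2)`. For the lift `η` of
  the definition of `RPN`: `sin (η (0, s)) = 0`, `cos (η (0, s)) = 1` for `s > 0`, `η (0, 0) = φ`, continuity: `η (0, s) = φ` for `s ≥ 0`. Finally `|φ| < π/2` and `φ ∈ 2π ℤ`: `φ = 0`.
-/

set_option autoImplicit false

open scoped ContDiff Topology RealInnerProductSpace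
open Set Filter

namespace Pool.Agent.H99.TW

open Pool.Agent.H57.NL Pool.Agent.H2.TG Pool.Agent.H2.TI

variable {k : ℕ} {N : Set (E k)} {V : E k → E k} {R : ℝ → E k → E k} {T : E k →L[ℝ] E k}
  {C : Set (E k × ℝ)} {M : ℝ} {κ : (E k × ℝ) × ℝ → ℝ}
  {Λ : ℝ → (E k × ℝ) × ℝ → (E k × ℝ) × ℝ} {F : E k × ℝ → ℝ}

theorem sym_RPN (h : LeafK N V R C M κ Λ F) (hS : SymV N V R T) (hC : ∀ x ∈ C, th T x ∈ C)
    {x : (E k × ℝ) × ℝ} (hx : x ∈ RPN N V C Λ) : (th T x.1, x.2) ∈ RPN N V C Λ := by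
  obtain ⟨P, hP, hPx⟩ := RP_lift h
  obtain ⟨⟨η, hη, hηP⟩, -⟩ := hPx x hx
  have htl : ∀ s, tl Λ (th T x.1, x.2) s = -tl Λ x (-s) := fun s => sym_tl h hS hC hx.1 s
  have hΛ : ∀ s, Λ s (th T x.1, x.2) = (th T (Λ (-s) x).1, (Λ (-s) x).2) :=
    fun s => sym_Λ h hS hC hx.1 s
  have hbot : Tendsto (tl Λ x) atBot atBot := by
    rcases leafN_ends h hx.1 with ⟨_, h2⟩ | ⟨h2, _⟩
    · exact h2
    · exfalso
      obtain ⟨s, hs1, hs2⟩ := ((hx.2.1.eventually_gt_atTop 0).and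
        (h2.eventually_lt_atBot 0)).exists
      exact lt_asymm hs1 hs2
  refine ⟨sym_PSN hS hC hx.1, ?_, fun z => η (-z.2, -z.1), ⟨?_, ?_, ?_⟩, ?_⟩
  · have e : tl Λ (th T x.1, x.2) = fun s => -tl Λ x (-s) := funext htl
    rw [e]
    exact tendsto_neg_atBot_atTop.comp (hbot.comp tendsto_neg_atTop_atBot)
  · have := hη.cont
    fun_prop
  · intro s
    show η (-s, -s) = (Λ s (th T x.1, x.2)).2
    rw [hη.diag, hΛ]
  · intro s t hst
    obtain ⟨ρ, hρ, hρ'⟩ := hη.sec (-t) (-s) (by linarith)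
    refine ⟨ρ, hρ, ?_⟩
    show pc Λ (th T x.1, x.2) 0 t - pc Λ (th T x.1, x.2) 0 s =
      (ρ * Real.cos (η (-t, -s)), ρ * Real.sin (η (-t, -s)))
    rw [← hρ']
    unfold pc
    rw [htl, htl, hΛ, hΛ]
    ext
    · show (0 + -tl Λ x (-t)) - (0 + -tl Λ x (-s)) = (0 + tl Λ x (-s)) - (0 + tl Λ x (-t))
      ring
    · show -(Λ (-t) x).1.2 - -(Λ (-s) x).1.2 = (Λ (-s) x).1.2 - (Λ (-t) x).1.2
      ring
  · filter_upwards [eventually_ge_atTop P] with s hs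
    exact hηP (-s) (-0) (by linarith)

private theorem TSymB_Cq (hS : SymV N V R T) (hC : ∀ x ∈ C, th T x ∈ C) {q : E k} {w : ℝ × ℝ}
    (hw : w ∈ Cq R C (T q)) : (-w.1, -w.2) ∈ Cq R C q := by
  have h1 := hC _ hw
  have h2 : th T (R w.1 (T q), w.2) = (R (-w.1) q, -w.2) := by
    show (T (R w.1 (T q)), -w.2) = (R (-w.1) q, -w.2)
    rw [hS.R, hS.TT]
  rw [h2] at h1
  exact h1

private theorem TSymB_top (hS : SymV N V R T) (hC : ∀ x ∈ C, th T x ∈ C) {y : E k × ℝ}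
    (hy : y ∈ TopN R C M) : th T y ∈ BotN R C M := by
  refine ⟨hC _ hy.1, fun w hw => ?_⟩
  have h1 := hy.2 _ (TSymB_Cq hS hC hw)
  simp only [abs_neg, neg_sq] at h1
  show -y.2 - 1 / 20 * |w.1| - (1 / 20) ^ 2 / (8 * M) * w.1 ^ 2 ≤ w.2
  linarith

private theorem TSymB_bot (hS : SymV N V R T) (hC : ∀ x ∈ C, th T x ∈ C) {y : E k × ℝ}
    (hy : y ∈ BotN R C M) : th T y ∈ TopN R C M := by
  refine ⟨hC _ hy.1, fun w hw => ?_⟩
  have h1 := hy.2 _ (TSymB_Cq hS hC hw)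
  simp only [abs_neg, neg_sq] at h1
  show w.2 ≤ -y.2 + 1 / 20 * |w.1| + (1 / 20) ^ 2 / (8 * M) * w.1 ^ 2
  linarith

theorem sym_Z (hS : SymV N V R T) (hC : ∀ x ∈ C, th T x ∈ C) {y : E k × ℝ}
    (hy : y ∈ ZUp R C M ∪ ZDn R C M) : th T y ∈ ZUp R C M ∪ ZDn R C M := by
  have hR : ∀ t, R (-t) (T y.1) = T (R t y.1) := fun t => by rw [hS.R, neg_neg]
  rcases hy with ⟨t, r, h1, h2⟩ | ⟨t, r, h1, h2⟩
  · right
    refine ⟨-t, -r, ?_, ?_⟩
    · have h3 := TSymB_top hS hC h1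
      show (R (-t) (T y.1), -r) ∈ BotN R C M
      rw [hR]
      exact h3
    · show -y.2 ≤ -r - |-t|
      rw [abs_neg]
      linarith
  · left
    refine ⟨-t, -r, ?_, ?_⟩
    · have h3 := TSymB_bot hS hC h1
      show (R (-t) (T y.1), -r) ∈ TopN R C M
      rw [hR]
      exact h3
    · show -r + |-t| ≤ -y.2
      rw [abs_neg]
      linarith

private theorem TSymB_abs {h : ℝ → ℝ} (hc : Continuous h) {s : ℝ} (hs : 0 ≤ s)
    (h0 : ∀ u, 0 ≤ u → Real.sin (h u) = 0) (h1 : |h s| < Real.pi / 2) : h 0 = 0 := by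
  have hpi := Real.pi_pos
  have h2 : |h 0| < Real.pi / 2 := by
    by_contra hcon
    push Not at hcon
    obtain ⟨u, hu, hu'⟩ := (isPreconnected_Icc (a := (0 : ℝ)) (b := s)).intermediate_value
      (right_mem_Icc.mpr hs) (left_mem_Icc.mpr hs) hc.abs.continuousOn ⟨h1.le, hcon⟩
    have h3 := h0 u hu.1
    rcases (abs_eq (by positivity)).mp hu' with h4 | h4
    · rw [h4, Real.sin_pi_div_two] at h3
      exact one_ne_zero h3
    · rw [h4, Real.sin_neg, Real.sin_pi_div_two] at h3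
      norm_num at h3
  rw [abs_lt] at h2
  exact (Real.sin_eq_zero_iff_of_lt_of_lt (by linarith [h2.1]) (by linarith [h2.2])).mp
    (h0 0 le_rfl)

theorem RPN_zero (h : LeafK N V R C M κ Λ F) {y : E k × ℝ} {φ : ℝ}
    (hx : (y, φ) ∈ RPN N V C Λ) (hV : V y.1 = 0) : φ = 0 := by
  have hR : ∀ t, R t y.1 = y.1 := fun t =>
    (h.base.flow.unique h.base.smooth (γ := fun _ => y.1)
      (fun t => by rw [hV]; exact hasDerivAt_const _ _) t).symm
  have hq : ∀ s, (Λ s (y, φ)).1.1 = y.1 := fun s => by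
    rw [leafN_q h.base h.flow (y, φ) s, hR]
  have hsin : ∀ s, Real.sin (Λ s (y, φ)).2 = 0 := by
    intro s
    have hm := leafN_mem h.base h.red h.curv h.flow hx.1 s
    obtain ⟨W, u, hW, hu⟩ := h.red.loc _ hm.1
    have h1 := hm.2 W u hW hu
    have h2 := hu.reg _ hW
    rw [dpl_lin] at h1
    have h3 : dpl V u (Λ s (y, φ)).1 1 0 = 0 := by
      unfold dpl
      rw [hq, hV, smul_zero]
      exact map_zero _
    rw [h3, mul_zero, zero_add] at h1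
    rcases mul_eq_zero.mp h1 with h4 | h4
    · exact h4
    · exact absurd ⟨h3, h4⟩ h2
  have hr : ∀ s, (Λ s (y, φ)).1.2 = y.2 := by
    intro s
    have h1 : ∀ t, HasDerivAt (fun s => (Λ s (y, φ)).1.2) 0 t := fun t => by
      have h2 := leafN_r h.flow (y, φ) t
      rwa [hsin t] at h2
    have h2 := is_const_of_deriv_eq_zero (f := fun s => (Λ s (y, φ)).1.2)
      (fun t => (h1 t).differentiableAt) (fun t => (h1 t).deriv) s 0
    simp only [h.flow.zero] at h2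
    exact h2
  obtain ⟨-, -, η, hη, hev⟩ := hx
  have hη0 : η (0, 0) = φ := by
    rw [hη.diag]
    simp only [h.flow.zero]
  have hsη : ∀ u, 0 ≤ u → Real.sin (η (0, u)) = 0 := by
    intro u hu
    rcases hu.eq_or_lt with rfl | hlt
    · have h1 := hsin 0
      rw [h.flow.zero] at h1
      rw [hη0]
      exact h1
    · obtain ⟨ρ, hρ, hρ'⟩ := hη.sec 0 u hlt
      have h1 := congrArg Prod.snd hρ'
      have h2 : (Λ u (y, φ)).1.2 - (Λ 0 (y, φ)).1.2 = ρ * Real.sin (η (0, u)) := h1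
      rw [hr, hr, sub_self] at h2
      rcases mul_eq_zero.mp h2.symm with h3 | h3
      · exact absurd h3 hρ.ne'
      · exact h3
  obtain ⟨s, hs1, hs2⟩ := (hev.and (eventually_ge_atTop 0)).exists
  have hcont : Continuous fun u : ℝ => η (0, u) := by
    have := hη.cont
    fun_prop
  have := TSymB_abs hcont hs2 hsη hs1
  rw [← hη0]
  exact this

end Pool.Agent.H99.TW
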