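import Pool.Agent.H99.TW.UDefs
import Pool.Agent.H2.TI.NHyp
import Pool.Agent.H57.NL.MaxPair
import Pool.Agent.H57.NL.Slice
import Pool.Agent.H57.NL.Loc

/-!
# Copy of `H2/TI/NHyp` for closed submanifolds (helper2 and module owners)
-/

set_option autoImplicit false

open scoped ContDiff Topology RealInnerProductSpace
open Set

namespace Pool.Agent.H99.TW

open Pool.Agent.H57.NL Pool.Agent.H2.TG Pool.Agent.H2.TI

variable {m n : ℕ} {N : Set (E m)} {V : E m → E m} {R : ℝ → E m → E m}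
  {S : Set (E m × E m)} {f : E m × E m → ℝ}

private theorem nhyp_inner (hV : ContDiff ℝ ∞ V) (z : E m × E m) :
    HasFDerivAt (fun z : E m × E m => ⟪z.2, V z.1⟫)
      ((fderivInnerCLM ℝ (z.2, V z.1)).comp ((ContinuousLinearMap.snd ℝ (E m) (E m)).prod
        ((fderiv ℝ V z.1).comp (ContinuousLinearMap.fst ℝ (E m) (E m))))) z := by
  have h1 : HasFDerivAt V (fderiv ℝ V z.1) z.1 :=
    ((hV.differentiable (by simp)) z.1).hasFDerivAt
  have h2 : HasFDerivAt (fun z : E m × E m => V z.1)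
      ((fderiv ℝ V z.1).comp (ContinuousLinearMap.fst ℝ (E m) (E m))) z :=
    HasFDerivAt.comp z (f := Prod.fst) h1 (ContinuousLinearMap.fst ℝ (E m) (E m)).hasFDerivAt
  exact HasFDerivAt.inner ℝ (ContinuousLinearMap.snd ℝ (E m) (E m)).hasFDerivAt h2

private theorem nhyp_inner_apply (z ζ : E m × E m) :
    ((fderivInnerCLM ℝ (z.2, V z.1)).comp ((ContinuousLinearMap.snd ℝ (E m) (E m)).prod
        ((fderiv ℝ V z.1).comp (ContinuousLinearMap.fst ℝ (E m) (E m))))) ζ =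
      ⟪ζ.2, V z.1⟫ + ⟪z.2, fderiv ℝ V z.1 ζ.1⟫ := by
  simp only [ContinuousLinearMap.comp_apply, fderivInnerCLM_apply, ContinuousLinearMap.prod_apply,
    ContinuousLinearMap.coe_fst', ContinuousLinearMap.coe_snd']
  ring

/-- The image of a submanifold under a smooth map, injective on the tangent space, to a space with
one more dimension is locally a smooth hypersurface. -/
private theorem nhyp_gen {X Y : Type*} [NormedAddCommGroup X] [NormedSpace ℝ X]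
    [FiniteDimensional ℝ X] [NormedAddCommGroup Y] [NormedSpace ℝ Y] [FiniteDimensional ℝ Y]
    {S : Set X} (hS : IsSubmfd n S) {z0 : X} (hz : z0 ∈ S) {g : X → Y} {O0 : Set X}
    (hO0 : IsOpen O0) (hz0 : z0 ∈ O0) (hg : ContDiffOn ℝ ∞ g O0)
    (hinj : ∀ ζ ∈ Tan S z0, fderiv ℝ g z0 ζ = 0 → ζ = 0)
    (hfrY : Module.finrank ℝ Y = n + 1) :
    ∃ (O : Set X) (W : Set Y) (u : Y → ℝ), IsOpen O ∧ IsOpen W ∧ O ⊆ O0 ∧ z0 ∈ O ∧ g z0 ∈ W ∧
      ContDiffOn ℝ ∞ u W ∧ (∀ y ∈ W, (u y = 0 ↔ y ∈ g '' (S ∩ O))) ∧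
      ∀ w, fderiv ℝ u (g z0) w = 0 → ∃ ζ ∈ Tan S z0, w = fderiv ℝ g z0 ζ := by
  obtain ⟨e, A, hze, hs⟩ := hS.slice hz
  have ha0m : e z0 ∈ A := (hs.iff _ hze).1 hz
  set a0 : A := ⟨e z0, ha0m⟩ with ha0
  have hsymm0 : e.symm (a0 : X) = z0 := e.left_inv hze
  have hg0 : HasFDerivAt g (fderiv ℝ g z0) z0 :=
    (((hg z0 hz0).contDiffAt (hO0.mem_nhds hz0)).differentiableAt (by simp)).hasFDerivAt
  -- the derivative of the reduced chart
  let D : A →L[ℝ] Y := (fderiv ℝ g z0).comp ((fderiv ℝ e.symm (e z0)).comp A.subtypeL)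
  have hDtan : ∀ a : A, fderiv ℝ e.symm (e z0) (a : X) ∈ Tan S z0 := by
    intro a
    rw [hs.mem_tan hze hz, hs.right hze]
    exact a.2
  have hDval : ∀ a : A, D a = fderiv ℝ g z0 (fderiv ℝ e.symm (e z0) (a : X)) := fun a => rfl
  have hDinj : Function.Injective D := by
    rw [injective_iff_map_eq_zero]
    intro a ha
    rw [hDval a] at ha
    have h6 := hinj _ (hDtan a) ha
    have h7 := hs.right hze (a : X)
    rw [h6, map_zero] at h7
    exact Subtype.ext h7.symm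
  -- a transversal direction
  have hfrA : Module.finrank ℝ A = n := hs.fr
  have hfrX : Module.finrank ℝ (A × ℝ) = n + 1 := by
    rw [Module.finrank_prod, hfrA, Module.finrank_self]
  obtain ⟨w, hw⟩ : ∃ w : Y, w ∉ LinearMap.range (D : A →ₗ[ℝ] Y) := by
    by_contra hcon
    push Not at hcon
    have h1 : LinearMap.range (D : A →ₗ[ℝ] Y) = ⊤ := by
      ext x
      exact ⟨fun _ => trivial, fun _ => hcon x⟩
    have h2 := LinearMap.finrank_range_of_inj (f := (D : A →ₗ[ℝ] Y)) hDinj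
    rw [h1, finrank_top, hfrY, hfrA] at h2
    omega
  let φ : A × ℝ → Y := fun x => g (e.symm (x.1 : X)) + x.2 • w
  let L : (A × ℝ) →L[ℝ] Y :=
    D.comp (ContinuousLinearMap.fst ℝ A ℝ) + (ContinuousLinearMap.snd ℝ A ℝ).smulRight w
  have hLval : ∀ x : A × ℝ, L x = D x.1 + x.2 • w := fun x => rfl
  have hLinj : Function.Injective L := by
    rw [injective_iff_map_eq_zero]
    rintro ⟨a, s⟩ hx
    rw [hLval] at hx
    simp only at hx
    have hs0 : s = 0 := by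
      by_contra hne
      refine hw ⟨-s⁻¹ • a, ?_⟩
      have h1 : D a = -(s • w) := eq_neg_of_add_eq_zero_left hx
      change D (-s⁻¹ • a) = w
      rw [map_smul, h1, smul_neg, neg_smul, neg_neg, smul_smul, inv_mul_cancel₀ hne, one_smul]
    rw [hs0, zero_smul, add_zero] at hx
    have h2 : a = 0 := hDinj (by rw [hx, map_zero])
    rw [h2, hs0]
    rfl
  have hLsurj : Function.Surjective L :=
    (LinearMap.injective_iff_surjective_of_finrank_eq_finrank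
      (f := (L : (A × ℝ) →ₗ[ℝ] Y)) (hfrX.trans hfrY.symm)).1 hLinj
  have hφ0 : φ (a0, 0) = g z0 := by
    change g (e.symm (a0 : X)) + (0 : ℝ) • w = g z0
    rw [hsymm0, zero_smul, add_zero]
  have hder : HasFDerivAt φ L (a0, 0) := by
    have h1 : HasFDerivAt (fun a : A => (a : X)) A.subtypeL a0 := A.subtypeL.hasFDerivAt
    have h2 : HasFDerivAt e.symm (fderiv ℝ e.symm (e z0)) ((a0 : A) : X) :=
      hs.hd' (e.map_source hze)
    have hg1 : HasFDerivAt g (fderiv ℝ g z0) (e.symm ((a0 : A) : X)) := by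
      rw [hsymm0]
      exact hg0
    have h3 : HasFDerivAt (fun a : A => g (e.symm (a : X))) D a0 :=
      HasFDerivAt.comp a0 (f := fun a : A => e.symm (a : X)) hg1 (h2.comp a0 h1)
    have h4 : HasFDerivAt (fun x : A × ℝ => g (e.symm (x.1 : X)))
        (D.comp (ContinuousLinearMap.fst ℝ A ℝ)) (a0, 0) :=
      HasFDerivAt.comp (a0, (0 : ℝ)) (f := Prod.fst) h3 (ContinuousLinearMap.fst ℝ A ℝ).hasFDerivAt
    have h5 : HasFDerivAt (fun x : A × ℝ => x.2 • w)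
        ((ContinuousLinearMap.snd ℝ A ℝ).smulRight w) (a0, 0) :=
      ((ContinuousLinearMap.snd ℝ A ℝ).smulRight w).hasFDerivAt
    exact h4.add h5
  have hsub : Continuous (fun x : A × ℝ => (x.1 : X)) := continuous_subtype_val.comp continuous_fst
  have hTo : IsOpen (e.target ∩ e.symm ⁻¹' O0) := e.isOpen_inter_preimage_symm hO0
  have hT0 : e z0 ∈ e.target ∩ e.symm ⁻¹' O0 := by
    refine ⟨e.map_source hze, ?_⟩
    rw [Set.mem_preimage, e.left_inv hze]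
    exact hz0
  have htgt : ∀ᶠ x : A × ℝ in 𝓝 (a0, 0), (x.1 : X) ∈ e.target ∩ e.symm ⁻¹' O0 :=
    (hsub.tendsto (a0, 0)).eventually (hTo.mem_nhds hT0)
  have hsm : ∀ᶠ x : A × ℝ in 𝓝 (a0, 0), ContDiffAt ℝ ∞ φ x := by
    filter_upwards [htgt] with x hx
    have h3 : ContDiffAt ℝ ∞ (fun x : A × ℝ => (x.1 : X)) x :=
      (A.subtypeL.comp (ContinuousLinearMap.fst ℝ A ℝ)).contDiff.contDiffAt
    have h4 : ContDiffAt ℝ ∞ (fun x : A × ℝ => e.symm (x.1 : X)) x := (hs.cd' hx.1).comp x h3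
    have hg2 : ContDiffAt ℝ ∞ g (e.symm (x.1 : X)) :=
      (hg _ hx.2).contDiffAt (hO0.mem_nhds hx.2)
    have h5 : ContDiffAt ℝ ∞ (fun x : A × ℝ => g (e.symm (x.1 : X))) x :=
      ContDiffAt.comp x (f := fun x : A × ℝ => e.symm (x.1 : X)) hg2 h4
    have h6 : ContDiffAt ℝ ∞ (fun x : A × ℝ => x.2 • w) x :=
      ((ContinuousLinearMap.snd ℝ A ℝ).smulRight w).contDiff.contDiffAt
    exact h5.add h6
  obtain ⟨Φ, hΦ, hsrc, hinvsm⟩ := smooth_inverse (hfrX.trans hfrY.symm) hsm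
    (by rw [hder.fderiv]; exact hLinj)
  -- the neighbourhoods
  obtain ⟨N0, hN0, hN0o, hN0m⟩ := eventually_nhds_iff.1 hinvsm
  have hGo : IsOpen (Φ.source ∩ (fun x : A × ℝ => (x.1 : X)) ⁻¹' (e.target ∩ e.symm ⁻¹' O0)) :=
    Φ.open_source.inter (hTo.preimage hsub)
  obtain ⟨r, hr, hball⟩ := Metric.isOpen_iff.1 hGo (a0, 0)
    ⟨hsrc, hT0⟩
  have hbsrc : ∀ x ∈ Metric.ball (a0, (0 : ℝ)) r, x ∈ Φ.source := fun x hx => (hball hx).1
  have hbtgt : ∀ x ∈ Metric.ball (a0, (0 : ℝ)) r, (x.1 : X) ∈ e.target ∩ e.symm ⁻¹' O0 :=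
    fun x hx => (hball hx).2
  have hΦval : ∀ x : A × ℝ, Φ x = g (e.symm (x.1 : X)) + x.2 • w := by
    intro x
    rw [hΦ]
  have hu0 : Φ.symm (g z0) = (a0, 0) := by
    rw [← hφ0, ← hΦ]
    exact Φ.left_inv hsrc
  have hWo : IsOpen (Φ.target ∩ Φ.symm ⁻¹' Metric.ball (a0, (0 : ℝ)) r) :=
    Φ.isOpen_inter_preimage_symm Metric.isOpen_ball
  have hy0W : g z0 ∈ Φ.target ∩ Φ.symm ⁻¹' Metric.ball (a0, (0 : ℝ)) r := by
    refine ⟨?_, ?_⟩
    · rw [← hφ0, ← hΦ]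
      exact Φ.map_source hsrc
    · rw [Set.mem_preimage, hu0]
      exact Metric.mem_ball_self hr
  have hOo : IsOpen ((e.source ∩ e ⁻¹' Metric.ball (e z0) r) ∩ O0) :=
    (e.isOpen_inter_preimage Metric.isOpen_ball).inter hO0
  have hzb : e z0 ∈ Metric.ball (e z0) r := Metric.mem_ball_self hr
  have hzO : z0 ∈ (e.source ∩ e ⁻¹' Metric.ball (e z0) r) ∩ O0 :=
    ⟨Set.mem_inter hze (Set.mem_preimage.2 hzb), hz0⟩
  have hWo' : IsOpen ((Φ.target ∩ Φ.symm ⁻¹' Metric.ball (a0, (0 : ℝ)) r) ∩ N0) := hWo.inter hN0o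
  have hyN : g z0 ∈ N0 := by rw [← hφ0]; exact hN0m
  have hyW : g z0 ∈ (Φ.target ∩ Φ.symm ⁻¹' Metric.ball (a0, (0 : ℝ)) r) ∩ N0 := ⟨hy0W, hyN⟩
  have husm : ContDiffOn ℝ ∞ (fun y => (Φ.symm y).2)
      ((Φ.target ∩ Φ.symm ⁻¹' Metric.ball (a0, (0 : ℝ)) r) ∩ N0) := by
    intro y hy
    exact ((hN0 y hy.2).snd).contDiffWithinAt
  refine ⟨_, _, _, hOo, hWo', Set.inter_subset_right, hzO, hyW, husm, ?_, ?_⟩
  · rintro y ⟨⟨hyt, hyb⟩, -⟩
    have hyb' : Φ.symm y ∈ Metric.ball (a0, (0 : ℝ)) r := hyb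
    constructor
    · intro hu
      have hu' : (Φ.symm y).2 = 0 := hu
      have h1 : Φ (Φ.symm y) = y := Φ.right_inv hyt
      rw [hΦval, hu', zero_smul, add_zero] at h1
      obtain ⟨ht, ht0⟩ := hbtgt _ hyb'
      refine ⟨e.symm ((Φ.symm y).1 : X), ⟨?_, ⟨⟨e.map_target ht, ?_⟩, ht0⟩⟩, h1⟩
      · rw [hs.iff _ (e.map_target ht), e.right_inv ht]
        exact (Φ.symm y).1.2
      · rw [Set.mem_preimage, e.right_inv ht, Metric.mem_ball]
        rw [Metric.mem_ball, Prod.dist_eq, max_lt_iff] at hyb'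
        exact hyb'.1
    · rintro ⟨z, ⟨hzS, ⟨⟨hzsrc, hzb⟩, -⟩⟩, hzy⟩
      have hzA : e z ∈ A := (hs.iff _ hzsrc).1 hzS
      have hxb : ((⟨e z, hzA⟩ : A), (0 : ℝ)) ∈ Metric.ball (a0, (0 : ℝ)) r := by
        rw [Metric.mem_ball, Prod.dist_eq, max_lt_iff]
        exact ⟨hzb, by simpa using hr⟩
      have h1 : Φ ((⟨e z, hzA⟩ : A), (0 : ℝ)) = y := by
        rw [hΦval]
        simp only [zero_smul, add_zero]
        rw [e.left_inv hzsrc]
        exact hzy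
      change (Φ.symm y).2 = 0
      rw [← h1, Φ.left_inv (hbsrc _ hxb)]
  · have hsd : DifferentiableAt ℝ (fun y => (Φ.symm y).2) (g z0) := by
      have := hN0 (g z0) hyN
      exact (this.snd).differentiableAt (by simp)
    have hcomp : HasFDerivAt ((fun y => (Φ.symm y).2) ∘ φ)
        ((fderiv ℝ (fun y => (Φ.symm y).2) (g z0)).comp L) (a0, 0) := by
      refine HasFDerivAt.comp (a0, (0 : ℝ)) ?_ hder
      rw [hφ0]
      exact hsd.hasFDerivAt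
    have hsnd : HasFDerivAt ((fun y => (Φ.symm y).2) ∘ φ) (ContinuousLinearMap.snd ℝ A ℝ) (a0, 0) := by
      refine (ContinuousLinearMap.snd ℝ A ℝ).hasFDerivAt.congr_of_eventuallyEq ?_
      filter_upwards [Φ.open_source.mem_nhds hsrc] with x hx
      have : Φ.symm (φ x) = x := by rw [← hΦ]; exact Φ.left_inv hx
      simp only [Function.comp_apply, this]
      rfl
    have hkey : ∀ x : A × ℝ, fderiv ℝ (fun y => (Φ.symm y).2) (g z0) (L x) = x.2 := by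
      intro x
      have := congrArg (fun M : (A × ℝ) →L[ℝ] ℝ => M x) (hcomp.unique hsnd)
      simpa using this
    intro y hy
    obtain ⟨x, rfl⟩ := hLsurj y
    rw [hkey x] at hy
    refine ⟨fderiv ℝ e.symm (e z0) (x.1 : X), hDtan x.1, ?_⟩
    rw [hLval, hy, zero_smul, add_zero]
    exact hDval x.1

theorem local_hyperU (hB : BaseU n N V R) (hL : ExactLag n N ⊥ S f) (hE : EmbN V S)
    {z0 : E m × E m} (hz : z0 ∈ S) :
    ∃ (O : Set (E m × E m)) (W : Set (E m × ℝ)) (u : E m × ℝ → ℝ),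
      IsOpen O ∧ IsOpen W ∧ z0 ∈ O ∧ sigN V z0 ∈ W ∧ ContDiffOn ℝ ∞ u W ∧
      (∀ y ∈ W, y.1 ∈ N → (u y = 0 ↔ y ∈ sigN V '' (S ∩ O))) ∧
      ∀ a b : ℝ, fderiv ℝ u (sigN V z0) (a • V z0.1, b) = 0 → ∃ ζ ∈ Tan S z0,
        ζ.1 = a • V z0.1 ∧ ⟪ζ.2, V z0.1⟫ + ⟪z0.2, fderiv ℝ V z0.1 ζ.1⟫ = b := by
  have hq0 : z0.1 ∈ N := (hL.subTN hz).1
  obtain ⟨e, A, hqe, hs⟩ := hB.sub.slice hq0
  -- the local coordinate of `N`
  let P : E m →L[ℝ] A := A.orthogonalProjectionOnto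
  have hP : ∀ a (ha : a ∈ A), P a = ⟨a, ha⟩ := fun a ha =>
    Submodule.orthogonalProjectionOnto_mem_subspace_eq_self (K := A) ⟨a, ha⟩
  let χ : E m → A := fun q => P (e q)
  have hχsm : ContDiffOn ℝ ∞ χ e.source := P.contDiff.comp_contDiffOn hs.s1
  have hχinj : ∀ q ∈ N, q ∈ e.source → ∀ q' ∈ N, q' ∈ e.source → χ q = χ q' → q = q' := by
    intro q hq hqs q' hq' hqs' h
    have h1 : χ q = ⟨e q, (hs.iff _ hqs).1 hq⟩ := hP _ _
    have h2 : χ q' = ⟨e q', (hs.iff _ hqs').1 hq'⟩ := hP _ _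
    rw [h1, h2] at h
    exact e.injOn hqs hqs' (congrArg Subtype.val h)
  have hχd : HasFDerivAt χ (P.comp (fderiv ℝ e z0.1)) z0.1 :=
    P.hasFDerivAt.comp z0.1 (hs.hd hqe)
  have hTinj : ∀ v ∈ Tan N z0.1, ∀ v' ∈ Tan N z0.1,
      P (fderiv ℝ e z0.1 v) = P (fderiv ℝ e z0.1 v') → v = v' := by
    intro v hv v' hv' h
    rw [hP _ ((hs.mem_tan hqe hq0 v).1 hv), hP _ ((hs.mem_tan hqe hq0 v').1 hv')] at h
    have h1 := congrArg Subtype.val h
    simp only at h1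
    rw [← hs.left hqe v, h1, hs.left hqe v']
  have hTS : ∀ ζ ∈ Tan S z0, ζ.1 ∈ Tan N z0.1 := by
    intro ζ hζ
    exact Tan.map hζ (g := Prod.fst) (ContinuousLinearMap.fst ℝ (E m) (E m)).hasFDerivAt
      (Filter.Eventually.of_forall fun y hy => (hL.subTN hy).1)
  -- the map to a space of dimension `n + 1`
  let g : E m × E m → A × ℝ := fun z => (χ z.1, ⟪z.2, V z.1⟫)
  let O0 : Set (E m × E m) := Prod.fst ⁻¹' e.source
  have hO0 : IsOpen O0 := e.open_source.preimage continuous_fst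
  have hsmI : ContDiff ℝ ∞ (fun z : E m × E m => ⟪z.2, V z.1⟫) :=
    ContDiff.inner ℝ contDiff_snd (hB.smooth.comp contDiff_fst)
  have hgsm : ContDiffOn ℝ ∞ g O0 := by
    refine ContDiffOn.prodMk ?_ hsmI.contDiffOn
    exact hχsm.comp contDiff_fst.contDiffOn fun z hz => hz
  have hgd : ∀ ζ, fderiv ℝ g z0 ζ =
      (P (fderiv ℝ e z0.1 ζ.1), ⟪ζ.2, V z0.1⟫ + ⟪z0.2, fderiv ℝ V z0.1 ζ.1⟫) := by
    intro ζ
    have h1 : HasFDerivAt (fun z : E m × E m => χ z.1)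
        ((P.comp (fderiv ℝ e z0.1)).comp (ContinuousLinearMap.fst ℝ (E m) (E m))) z0 :=
      HasFDerivAt.comp z0 (f := Prod.fst) hχd (ContinuousLinearMap.fst ℝ (E m) (E m)).hasFDerivAt
    have h2 := h1.prodMk (nhyp_inner hB.smooth z0)
    have h3 : fderiv ℝ g z0 = _ := h2.fderiv
    rw [h3]
    exact Prod.ext rfl (nhyp_inner_apply z0 ζ)
  have hginj : ∀ ζ ∈ Tan S z0, fderiv ℝ g z0 ζ = 0 → ζ = 0 := by
    intro ζ hζ h
    rw [hgd ζ] at h
    have h1 : P (fderiv ℝ e z0.1 ζ.1) = 0 := congrArg Prod.fst h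
    have h2 : ⟪ζ.2, V z0.1⟫ + ⟪z0.2, fderiv ℝ V z0.1 ζ.1⟫ = 0 := congrArg Prod.snd h
    have h3 : ζ.1 = 0 := by
      refine hTinj ζ.1 (hTS ζ hζ) 0 (hB.sub.tan_zero hq0) ?_
      rw [h1, map_zero, map_zero]
    rw [h3, map_zero, inner_zero_right, add_zero] at h2
    have h4 : ζ = (0, ζ.2) := Prod.ext h3 rfl
    exact Prod.ext h3 (hE.imm z0 hz ζ.2 (h4 ▸ hζ) h2)
  have hfr : Module.finrank ℝ (A × ℝ) = n + 1 := by
    rw [Module.finrank_prod, hs.fr, Module.finrank_self]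
  obtain ⟨O, W, u, hOo, hWo, hOO, hzO, hgW, husm, hiff, hker⟩ :=
    nhyp_gen hL.sub hz hO0 (show z0 ∈ O0 from hqe) hgsm hginj hfr
  let h : E m × ℝ → A × ℝ := fun y => (χ y.1, y.2)
  let U : Set (E m × ℝ) := Prod.fst ⁻¹' e.source
  have hUo : IsOpen U := e.open_source.preimage continuous_fst
  have hhsm : ContDiffOn ℝ ∞ h U :=
    ContDiffOn.prodMk (hχsm.comp contDiff_fst.contDiffOn fun z hz => hz) contDiff_snd.contDiffOn
  have hWo2 : IsOpen (U ∩ h ⁻¹' W) := hhsm.continuousOn.isOpen_inter_preimage hUo hWo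
  refine ⟨O, U ∩ h ⁻¹' W, u ∘ h, hOo, hWo2, hzO, ⟨hqe, hgW⟩, ?_, ?_, ?_⟩
  · exact husm.comp (hhsm.mono Set.inter_subset_left) fun y hy => hy.2
  · rintro y ⟨hyU, hyW⟩ hyN
    change u (h y) = 0 ↔ _
    rw [hiff (h y) hyW]
    constructor
    · rintro ⟨z, ⟨hzS, hzO'⟩, hzy⟩
      have hzy' : (χ z.1, ⟪z.2, V z.1⟫) = (χ y.1, y.2) := hzy
      obtain ⟨h1, h2⟩ := Prod.mk.inj hzy'
      have h3 : z.1 = y.1 := hχinj _ (hL.subTN hzS).1 (hOO hzO') _ hyN hyU h1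
      exact ⟨z, ⟨hzS, hzO'⟩, Prod.ext h3 h2⟩
    · rintro ⟨z, hzSO, rfl⟩
      exact ⟨z, hzSO, rfl⟩
  · intro a b hab
    have hud : HasFDerivAt u (fderiv ℝ u (g z0)) (h (sigN V z0)) :=
      (((husm _ hgW).contDiffAt (hWo.mem_nhds hgW)).differentiableAt (by simp)).hasFDerivAt
    have hhd : HasFDerivAt h (((P.comp (fderiv ℝ e z0.1)).comp
        (ContinuousLinearMap.fst ℝ (E m) ℝ)).prod (ContinuousLinearMap.snd ℝ (E m) ℝ))
        (sigN V z0) :=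
      (HasFDerivAt.comp (sigN V z0) (f := Prod.fst) hχd
        (ContinuousLinearMap.fst ℝ (E m) ℝ).hasFDerivAt).prodMk
        (ContinuousLinearMap.snd ℝ (E m) ℝ).hasFDerivAt
    have hc := hud.comp (sigN V z0) hhd
    rw [hc.fderiv] at hab
    obtain ⟨ζ, hζ, hζe⟩ := hker _ hab
    rw [hgd ζ] at hζe
    have hζe' : (P (fderiv ℝ e z0.1 (a • V z0.1)), b) =
        (P (fderiv ℝ e z0.1 ζ.1), ⟪ζ.2, V z0.1⟫ + ⟪z0.2, fderiv ℝ V z0.1 ζ.1⟫) := hζe
    obtain ⟨h1, h2⟩ := Prod.mk.inj hζe'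
    refine ⟨ζ, hζ, ?_, h2.symm⟩
    exact (hTinj _ (Tan.smul (hB.tan _ hq0) a) _ (hTS ζ hζ) h1).symm

end Pool.Agent.H99.TW
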