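import Pool.Agent.H99.TW.UDefs
import Pool.Agent.H2.TI.SProj
import Pool.Agent.H2.TI.STN
import Pool.Agent.H2.TI.NHyp

/-!
# Copy of `H2/TI/SStr` with weaker hypotheses (helper2 and module owners)
-/

set_option autoImplicit false

open scoped ContDiff Topology RealInnerProductSpace
open Set Filter

namespace Pool.Agent.H99.TW

open Pool.Agent.H57.NL Pool.Agent.H2.TG Pool.Agent.H2.TI

variable {m n : ℕ} {N : Set (E m)} {V : E m → E m} {R : ℝ → E m → E m} {Θ : E m × ℝ → ℝ}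
  {M' : ℝ} {Ψ : ℝ → E m × ℝ → E m × ℝ} {b A ρ : E m × ℝ → ℝ} {Ri : E m × ℝ → E m × ℝ}
  {Pr : E m → (E m →L[ℝ] E m)}

theorem vec_inner (l : E m →L[ℝ] ℝ) (w : E m) : ⟪vec l, w⟫ = l w := by
  exact InnerProductSpace.toDual_symm_apply

theorem fn_inner (hB : BaseU n N V R) (hPr : ProjN N Pr) {z : E m × E m} (hz : z ∈ TN N) {u : E m}
    (hu : u ∈ Tan N z.1) :
    ⟪(FN V R Pr b A ρ z).2, fderiv ℝ (R (b (sigN V z))) z.1 u⟫ = ⟪z.2, u⟫
      + fderiv ℝ A (sigN V z) (u, 0) - ρ (sigN V z) * fderiv ℝ b (sigN V z) (u, 0) := by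
  set x := sigN V z with hx
  have hdiff : HasFDerivAt (R (b x)) (fderiv ℝ (R (b x)) z.1) z.1 :=
    (hB.flow.differentiable (b x) z.1).hasFDerivAt
  have htan : fderiv ℝ (R (b x)) z.1 u ∈ Tan N (R (b x) z.1) :=
    Pool.Agent.H57.NL.Tan.map hu hdiff (Eventually.of_forall fun y hy => hB.maps y hy (b x))
  change ⟪Pr (R (b x) z.1) (vec ((innerSL ℝ z.2 + d1 A x
      - ρ x • d1 b x).comp (fderiv ℝ (R (-(b x))) (R (b x) z.1)))), _⟫ = _
  rw [hPr.orth _ (hB.maps _ hz.1 _) _ _ htan, vec_inner, ContinuousLinearMap.comp_apply,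
    hB.flow.fderiv_inv hB.smooth]
  simp only [d1, _root_.sub_apply, _root_.add_apply, _root_.smul_apply, innerSL_apply_apply,
    ContinuousLinearMap.comp_apply, ContinuousLinearMap.inl_apply, smul_eq_mul]

theorem fn_sig (hB : BaseU n N V R) (hρ : RhoU N V Θ b A ρ) (hPr : ProjN N Pr)
    {z : E m × E m} (hz : z ∈ TN N) :
    sigN V (FN V R Pr b A ρ z) = (R (b (sigN V z)) z.1, ρ (sigN V z)) := by
  have h1 := fn_inner (A := A) (ρ := ρ) hB hPr (b := b) hz (hB.tan z.1 hz.1)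
  rw [hB.flow.fderiv_X hB.smooth] at h1
  have h2 := hρ.id (sigN V z) hz.1 1 0
  rw [one_smul, mul_one] at h2
  refine Prod.ext rfl ?_
  change ⟪(FN V R Pr b A ρ z).2, V (R (b (sigN V z)) z.1)⟫ = ρ (sigN V z)
  rw [h1]
  have e1 : (sigN V z).1 = z.1 := rfl
  have e2 : (sigN V z).2 = ⟪z.2, V z.1⟫ := rfl
  rw [e1, e2] at h2
  linarith

theorem fn_maps (hB : BaseU n N V R) (hPr : ProjN N Pr) {z : E m × E m} (hz : z ∈ TN N) :
    FN V R Pr b A ρ z ∈ TN N := by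
  exact ⟨hB.maps _ hz.1 _, hPr.mem _ (hB.maps _ hz.1 _) _⟩

theorem fn'_maps (hPr : ProjN N Pr) (hRi : RinvN N R b ρ Ri) {z : E m × E m} (hz : z ∈ TN N) :
    FN' V R Pr b A Ri z ∈ TN N := by
  exact ⟨hRi.mem _ hz.1, hPr.mem _ (hRi.mem _ hz.1) _⟩

end Pool.Agent.H99.TW
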