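import Pool.Agent.H99.TW.USStr

/-!
# Copy of `H2/TI/SStrB` with weaker hypotheses (helper2 and module owners)
-/

set_option autoImplicit false

open scoped ContDiff Topology RealInnerProductSpace
open Set Filter

namespace Pool.Agent.H99.TW

open Pool.Agent.H57.NL Pool.Agent.H2.TG Pool.Agent.H2.TI

variable {m n : ℕ} {N : Set (E m)} {V : E m → E m} {R : ℝ → E m → E m} {Θ : E m × ℝ → ℝ}
  {M' : ℝ} {Ψ : ℝ → E m × ℝ → E m × ℝ} {b A ρ : E m × ℝ → ℝ} {Ri : E m × ℝ → E m × ℝ}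
  {Pr : E m → (E m →L[ℝ] E m)}

private theorem SStrB_inner (hPr : ProjN N Pr) (hRi : RinvN N R b ρ Ri) {z : E m × E m}
    (hz : z ∈ TN N) {u : E m} (hu : u ∈ Tan N (Ri (sigN V z)).1) :
    ⟪(FN' V R Pr b A Ri z).2, u⟫ =
      ⟪z.2, fderiv ℝ (R (b (Ri (sigN V z)))) (Ri (sigN V z)).1 u⟫
        - fderiv ℝ A (Ri (sigN V z)) (u, 0)
        + (sigN V z).2 * fderiv ℝ b (Ri (sigN V z)) (u, 0) := by
  have hx : (Ri (sigN V z)).1 ∈ N := hRi.mem _ hz.1
  have h1 : ⟪(FN' V R Pr b A Ri z).2, u⟫ =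
      ((innerSL ℝ z.2).comp (fderiv ℝ (R (b (Ri (sigN V z)))) (Ri (sigN V z)).1)
      - d1 A (Ri (sigN V z)) + (sigN V z).2 • d1 b (Ri (sigN V z))) u := by
    rw [← vec_inner]
    exact hPr.orth _ hx _ _ hu
  rw [h1]
  rfl

theorem fn_left (hB : BaseU n N V R) (hρ : RhoU N V Θ b A ρ) (hPr : ProjN N Pr)
    (hRi : RinvN N R b ρ Ri) {z : E m × E m} (hz : z ∈ TN N) :
    FN' V R Pr b A Ri (FN V R Pr b A ρ z) = z := by
  have hF : FN V R Pr b A ρ z ∈ TN N := fn_maps hB hPr hz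
  have hs := fn_sig hB hρ hPr hz (A := A) (ρ := ρ)
  have hR : Ri (sigN V (FN V R Pr b A ρ z)) = sigN V z := by
    rw [hs]
    exact hRi.inv (sigN V z) hz.1
  have h1 : (FN' V R Pr b A Ri (FN V R Pr b A ρ z)).1 = z.1 := by
    change (Ri (sigN V (FN V R Pr b A ρ z))).1 = z.1
    rw [hR]
    rfl
  have hF' : FN' V R Pr b A Ri (FN V R Pr b A ρ z) ∈ TN N := fn'_maps hPr hRi hF
  have h2 : (FN' V R Pr b A Ri (FN V R Pr b A ρ z)).2 = z.2 := by
    have hm := hF'.2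
    rw [h1] at hm
    refine tan_unique hB.sub hz.1 hm hz.2 fun τ hτ => ?_
    have hu : τ ∈ Tan N (Ri (sigN V (FN V R Pr b A ρ z))).1 := by
      rw [hR]
      exact hτ
    have h3 := SStrB_inner (A := A) hPr hRi hF hu
    have h5 := fn_inner (A := A) (b := b) (ρ := ρ) hB hPr hz hτ
    have h6 : (sigN V (FN V R Pr b A ρ z)).2 = ρ (sigN V z) := by rw [hs]
    rw [h6, hR] at h3
    have h7 : (sigN V z).1 = z.1 := rfl
    rw [h7, h5] at h3
    rw [h3]
    ring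
  exact Prod.ext h1 h2

theorem fn_right (hB : BaseU n N V R) (hρ : RhoU N V Θ b A ρ) (hPr : ProjN N Pr)
    (hRi : RinvN N R b ρ Ri) {z : E m × E m} (hz : z ∈ TN N) :
    FN V R Pr b A ρ (FN' V R Pr b A Ri z) = z := by
  have hx : (Ri (sigN V z)).1 ∈ N := hRi.mem _ hz.1
  have hbase : R (b (Ri (sigN V z))) (Ri (sigN V z)).1 = z.1 := hRi.base (sigN V z) hz.1
  have hrho : ρ (Ri (sigN V z)) = (sigN V z).2 := hRi.rho (sigN V z) hz.1
  have hF' : FN' V R Pr b A Ri z ∈ TN N := fn'_maps hPr hRi hz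
  -- the reduction of the image
  have hsig : sigN V (FN' V R Pr b A Ri z) = Ri (sigN V z) := by
    refine Prod.ext rfl ?_
    change ⟪(FN' V R Pr b A Ri z).2, V (Ri (sigN V z)).1⟫ = (Ri (sigN V z)).2
    rw [SStrB_inner (A := A) hPr hRi hz (hB.tan _ hx), hB.flow.fderiv_X hB.smooth, hbase]
    have h1 := hρ.id (Ri (sigN V z)) hx 1 0
    rw [one_smul, hrho] at h1
    have h2 : ⟪z.2, V z.1⟫ = (sigN V z).2 := rfl
    rw [h2]
    linarith
  have h1 : (FN V R Pr b A ρ (FN' V R Pr b A Ri z)).1 = z.1 := by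
    change R (b (sigN V (FN' V R Pr b A Ri z))) (Ri (sigN V z)).1 = z.1
    rw [hsig, hbase]
  have hF : FN V R Pr b A ρ (FN' V R Pr b A Ri z) ∈ TN N := fn_maps hB hPr hF'
  have h2 : (FN V R Pr b A ρ (FN' V R Pr b A Ri z)).2 = z.2 := by
    have hm := hF.2
    rw [h1] at hm
    refine tan_unique hB.sub hz.1 hm hz.2 fun τ hτ => ?_
    have hinv : R (-(b (Ri (sigN V z)))) z.1 = (Ri (sigN V z)).1 := by
      rw [← hbase, hB.flow.add hB.smooth, neg_add_cancel, hB.flow.zero]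
    have hu : fderiv ℝ (R (-(b (Ri (sigN V z))))) z.1 τ ∈ Tan N (Ri (sigN V z)).1 := by
      rw [← hinv]
      exact Tan.map hτ (hB.flow.differentiable _ _).hasFDerivAt
        (Eventually.of_forall fun y hy => hB.maps y hy _)
    have hDu : fderiv ℝ (R (b (Ri (sigN V z)))) (Ri (sigN V z)).1
        (fderiv ℝ (R (-(b (Ri (sigN V z))))) z.1 τ) = τ := by
      have h3 := hB.flow.fderiv_inv hB.smooth (-(b (Ri (sigN V z)))) z.1 τ
      rwa [neg_neg, hinv] at h3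
    have h4 := fn_inner (A := A) (b := b) (ρ := ρ) hB hPr hF'
      (u := fderiv ℝ (R (-(b (Ri (sigN V z))))) z.1 τ) hu
    have h5 : (FN' V R Pr b A Ri z).1 = (Ri (sigN V z)).1 := rfl
    rw [hsig, h5, hDu, SStrB_inner (A := A) hPr hRi hz hu, hDu, hrho] at h4
    rw [h4]
    ring
  exact Prod.ext h1 h2

end Pool.Agent.H99.TW
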